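import Pool.Agent.Helper95.MEI.C7
import Pool.Agent.Helper78.MEI.Edge

/-!
# MEI M2, master inequality, part 1: one edge cell

`b` a frame, `c` the centroid; `AsE`, `AxE` of helper95, `EC` of helper22.
-/

set_option autoImplicit false

namespace Pool.Agent.Helper73.MEI

open Set MeasureTheory Filter Topology Metric
open Helper80.CW Helper22.Wedge
open Helper22.MEI (s t)
open Pool.Agent.Helper95.MEI.Cst
open scoped RealInnerProductSpace

theorem cs3 (y w : ℝ) : √2 * w + |y| ≤ √3 * √(y ^ 2 + w ^ 2) := by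
  rw [← Real.sqrt_mul (by norm_num)]
  apply Real.le_sqrt_of_sq_le
  have h2 : √2 * √2 = (2 : ℝ) := Real.mul_self_sqrt (by norm_num)
  have hy := sq_abs y
  nlinarith [sq_nonneg (√2 * |y| - w)]

section one
variable (b : OrthonormalBasis (Fin 3) ℝ E3) (c : E3) (K : Set E3)

/-- missing part of the lens -/
noncomputable def lE : ℝ := volume.real ((AsE b c \ AxE b c) \ K)
/-- missing part of the core -/
noncomputable def xiE : ℝ := volume.real (AxE b c \ K)
/-- bulge over the edge cell -/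
noncomputable def beE : ℝ := volume.real ((K ∩ EC b c) \ AsE b c)

theorem AsE_sub_EC : AsE b c ⊆ EC b c := by
  rw [AsE_eq]; exact inter_subset_left

theorem AxE_sub_AsE : AxE b c ⊆ AsE b c := by
  rw [AxE_eq, AsE_eq]
  rintro x ⟨h1, h2⟩
  refine ⟨h1, ?_⟩
  simp only [mem_setOf_eq] at h2 ⊢
  have h3 := cs3 (cs b c x).2.1 (cs b c x).2.2
  linarith

theorem EC_meas : MeasurableSet (EC b c) := by
  have h1 : Continuous (co b c) := (co_cd b c).continuous
  have h2 : IsOpen (EC b c) := by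
    unfold EC
    exact isOpen_lt (by fun_prop) (by fun_prop)
  exact h2.measurableSet

theorem AsE_fin : volume (AsE b c) ≠ ⊤ := by rw [vol_AsE]; exact ENNReal.ofReal_ne_top

theorem AxE_fin : volume (AxE b c) ≠ ⊤ := by rw [vol_AxE]; exact ENNReal.ofReal_ne_top

theorem dv_ge {x : E3} (hx : x ∈ AsE b c) : 4.32 ≤ dvE b c x := by
  rw [AsE_eq] at hx
  obtain ⟨h1, h2⟩ := hx
  simp only [mem_setOf_eq] at h2
  have h6 := Helper78.MEI.r_le (y := (co b c x).2.1) (w := (co b c x).2.2 - t) h1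
  have h3 : (cs b c x).1 = (co b c x).1 := rfl
  have h4 : (cs b c x).2.1 = (co b c x).2.1 := rfl
  have h5 : (cs b c x).2.2 = (co b c x).2.2 - t := rfl
  rw [h3, h4, h5] at h2
  refine Helper29.MEI.div_ge (r := √((co b c x).2.1 ^ 2 + ((co b c x).2.2 - t) ^ 2))
    (Real.sqrt_nonneg _) (Real.sq_sqrt (by positivity)) ?_
  rw [Real.sq_sqrt (by positivity)]
  linarith

theorem dv_le {x : E3} (hx : x ∈ EC b c) (hx' : x ∉ AxE b c) : dvE b c x ≤ 4.58 := by
  rw [AxE_eq] at hx'
  have h2 : ¬ (cs b c x).1 ^ 2 + (cs b c x).2.1 ^ 2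
    + (cs b c x).2.2 ^ 2 + √3 * √((cs b c x).2.1 ^ 2 + (cs b c x).2.2 ^ 2) ≤ 1 / 4 :=
    fun h => hx' ⟨hx, h⟩
  push Not at h2
  have h3 : (cs b c x).1 = (co b c x).1 := rfl
  have h4 : (cs b c x).2.1 = (co b c x).2.1 := rfl
  have h5 : (cs b c x).2.2 = (co b c x).2.2 - t := rfl
  rw [h3, h4, h5] at h2
  exact Helper78.MEI.div_le_out (by linarith)

theorem int_ge {S : Set E3} (hS : MeasurableSet S) (hf : volume S ≠ ⊤) {g : E3 → ℝ}
    (hg : IntegrableOn g S) {m : ℝ} (h : ∀ x ∈ S, m ≤ g x) :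
    m * volume.real S ≤ ∫ x in S, g x := by
  have h1 : ∫ _ in S, m ≤ ∫ x in S, g x :=
    setIntegral_mono_on (integrableOn_const hf) hg hS h
  rw [setIntegral_const, smul_eq_mul, mul_comm] at h1
  exact h1

theorem int_le {S : Set E3} (hS : MeasurableSet S) (hf : volume S ≠ ⊤) {g : E3 → ℝ}
    (hg : IntegrableOn g S) {m : ℝ} (h : ∀ x ∈ S, g x ≤ m) :
    ∫ x in S, g x ≤ m * volume.real S := by
  have h1 : ∫ x in S, g x ≤ ∫ _ in S, m :=
    setIntegral_mono_on hg (integrableOn_const hf) hS h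
  rw [setIntegral_const, smul_eq_mul, mul_comm m] at *
  exact h1

variable {K}

theorem vol_edge (hK : IsCompact K) :
    volume.real (K ∩ EC b c) = vAs - lE b c K - xiE b c K + beE b c K := by
  have hKm : MeasurableSet K := hK.isClosed.measurableSet
  have hKf : volume K ≠ ⊤ := hK.measure_lt_top.ne
  have h1 := measureReal_inter_add_diff (μ := volume) (s := K ∩ EC b c) (AsE_meas b c)
    (ne_top_of_le_ne_top hKf (measure_mono inter_subset_left))
  have e1 : (K ∩ EC b c) ∩ AsE b c = AsE b c ∩ K := by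
    ext x
    constructor
    · rintro ⟨⟨h1, h2⟩, h3⟩; exact ⟨h3, h1⟩
    · rintro ⟨h3, h1⟩; exact ⟨⟨h1, AsE_sub_EC b c h3⟩, h3⟩
  have h2 := measureReal_inter_add_diff (μ := volume) (s := AsE b c) hKm (AsE_fin b c)
  have h3 := measureReal_inter_add_diff (μ := volume) (s := AsE b c \ K) (AxE_meas b c)
    (ne_top_of_le_ne_top (AsE_fin b c) (measure_mono diff_subset))
  have e2 : (AsE b c \ K) ∩ AxE b c = AxE b c \ K := by
    ext x
    constructor
    · rintro ⟨⟨h1, h2⟩, h3⟩; exact ⟨h3, h2⟩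
    · rintro ⟨h3, h1⟩; exact ⟨⟨AxE_sub_AsE b c h3, h1⟩, h3⟩
  have e3 : (AsE b c \ K) \ AxE b c = (AsE b c \ AxE b c) \ K := by
    ext x; simp only [mem_diff]; tauto
  rw [e1] at h1
  rw [e2, e3] at h3
  have h4 : volume.real (AsE b c) = vAs := by
    rw [Measure.real, vol_AsE, ENNReal.toReal_ofReal vAs_nonneg]
  unfold lE xiE beE
  linarith

theorem vol_lens : volume.real (AsE b c \ AxE b c) = vAs - vAx := by
  have h2 := measureReal_inter_add_diff (μ := volume) (s := AsE b c) (AxE_meas b c) (AsE_fin b c)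
  rw [inter_eq_self_of_subset_right (AxE_sub_AsE b c)] at h2
  have h4 : volume.real (AsE b c) = vAs := by
    rw [Measure.real, vol_AsE, ENNReal.toReal_ofReal vAs_nonneg]
  have h5 : volume.real (AxE b c) = vAx := by
    rw [Measure.real, vol_AxE, ENNReal.toReal_ofReal vAx_nonneg]
  linarith

/-- the two upper bounds of the divergence integral of an edge cell -/
theorem J_edge (hK : IsCompact K) :
    ∫ x in K ∩ EC b c, (dvE b c x - 1 / 2) ≤
      (fAs - vAs / 2) - 3.82 * lE b c K - 3.82 * xiE b c K + 4.08 * beE b c K ∧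
    ∫ x in K ∩ EC b c, (dvE b c x - 1 / 2) ≤
      (fAx - vAx / 2) + 4.08 * (vAs - vAx - lE b c K) - 3.82 * xiE b c K
        + 4.08 * beE b c K := by
  have hKm : MeasurableSet K := hK.isClosed.measurableSet
  have hKf : volume K ≠ ⊤ := hK.measure_lt_top.ne
  set g : E3 → ℝ := fun x => dvE b c x - 1 / 2 with hg
  have hgc : Continuous g := (dvE_cont b c).sub continuous_const
  have giK : IntegrableOn g K := hgc.continuousOn.integrableOn_compact hK
  have giA : IntegrableOn g (AsE b c) := (intOn_AsE b c).sub (integrableOn_const (AsE_fin b c))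
  have h1 := integral_inter_add_diff (μ := volume) (s := K ∩ EC b c) (f := g) (AsE_meas b c)
    (giK.mono_set inter_subset_left)
  have e1 : (K ∩ EC b c) ∩ AsE b c = AsE b c ∩ K := by
    ext x
    constructor
    · rintro ⟨⟨h1, h2⟩, h3⟩; exact ⟨h3, h1⟩
    · rintro ⟨h3, h1⟩; exact ⟨⟨h1, AsE_sub_EC b c h3⟩, h3⟩
  have h2 := integral_inter_add_diff (μ := volume) (s := AsE b c) (f := g) hKm giA
  have h3 := integral_inter_add_diff (μ := volume) (s := AsE b c \ K) (f := g) (AxE_meas b c)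
    (giA.mono_set diff_subset)
  have e2 : (AsE b c \ K) ∩ AxE b c = AxE b c \ K := by
    ext x
    constructor
    · rintro ⟨⟨h1, h2⟩, h3⟩; exact ⟨h3, h2⟩
    · rintro ⟨h3, h1⟩; exact ⟨⟨AxE_sub_AsE b c h3, h1⟩, h3⟩
  have e3 : (AsE b c \ K) \ AxE b c = (AsE b c \ AxE b c) \ K := by
    ext x; simp only [mem_diff]; tauto
  have h4 := integral_inter_add_diff (μ := volume) (s := AsE b c) (f := g) (AxE_meas b c) giA
  rw [inter_eq_self_of_subset_right (AxE_sub_AsE b c)] at h4
  have h5 := integral_inter_add_diff (μ := volume) (s := AsE b c \ AxE b c) (f := g) hKm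
    (giA.mono_set diff_subset)
  have hA : ∫ x in AsE b c, g x = fAs - vAs / 2 := int_half_As b c
  have hX : ∫ x in AxE b c, g x = fAx - vAx / 2 := int_half_Ax b c
  rw [e1] at h1
  rw [e2, e3] at h3
  -- bounds
  have m1 : MeasurableSet ((AsE b c \ AxE b c) \ K) := ((AsE_meas b c).diff (AxE_meas b c)).diff hKm
  have m2 : MeasurableSet (AxE b c \ K) := (AxE_meas b c).diff hKm
  have m3 : MeasurableSet ((K ∩ EC b c) \ AsE b c) := (hKm.inter (EC_meas b c)).diff (AsE_meas b c)
  have m4 : MeasurableSet ((AsE b c \ AxE b c) ∩ K) :=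
    ((AsE_meas b c).diff (AxE_meas b c)).inter hKm
  have b1 := int_ge (S := (AsE b c \ AxE b c) \ K) m1
    (ne_top_of_le_ne_top (AsE_fin b c) (measure_mono (diff_subset.trans diff_subset))) (g := g)
    (giA.mono_set (diff_subset.trans diff_subset)) (m := 3.82) (fun x hx => by
      have := dv_ge b c hx.1.1
      show (3.82 : ℝ) ≤ dvE b c x - 1 / 2
      linarith)
  have b2 := int_ge (S := AxE b c \ K) m2
    (ne_top_of_le_ne_top (AsE_fin b c) (measure_mono (diff_subset.trans (AxE_sub_AsE b c))))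
    (g := g) (giA.mono_set (diff_subset.trans (AxE_sub_AsE b c))) (m := 3.82) (fun x hx => by
      have := dv_ge b c (AxE_sub_AsE b c hx.1)
      show (3.82 : ℝ) ≤ dvE b c x - 1 / 2
      linarith)
  have b3 := int_le (S := (K ∩ EC b c) \ AsE b c) m3
    (ne_top_of_le_ne_top hKf (measure_mono (diff_subset.trans inter_subset_left)))
    (g := g) (giK.mono_set (diff_subset.trans inter_subset_left)) (m := 4.08) (fun x hx => by
      have := dv_le b c hx.1.2 (fun h => hx.2 (AxE_sub_AsE b c h))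
      show dvE b c x - 1 / 2 ≤ 4.08
      linarith)
  have b4 := int_le (S := (AsE b c \ AxE b c) ∩ K) m4
    (ne_top_of_le_ne_top hKf (measure_mono inter_subset_right))
    (g := g) (giK.mono_set inter_subset_right) (m := 4.08) (fun x hx => by
      have := dv_le b c (AsE_sub_EC b c hx.1.1) hx.1.2
      show dvE b c x - 1 / 2 ≤ 4.08
      linarith)
  have v1 := measureReal_inter_add_diff (μ := volume) (s := AsE b c \ AxE b c) hKm
    (ne_top_of_le_ne_top (AsE_fin b c) (measure_mono diff_subset))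
  rw [vol_lens] at v1
  unfold lE xiE beE
  constructor
  · linarith
  · linarith

/-- **pair of opposite edges** -/
theorem J_pair (b' : OrthonormalBasis (Fin 3) ℝ E3) (hK : IsCompact K) :
    (∫ x in K ∩ EC b c, (dvE b c x - 1 / 2)) + (∫ x in K ∩ EC b' c, (dvE b' c x - 1 / 2)) ≤
      (fAs - vAs / 2) + (fAx - vAx / 2)
      + 3.82 * ((vAs - vAx) - lE b c K - lE b' c K)
      + 0.26 * ((vAs - vAx) - max (lE b c K) (lE b' c K))
      - 3.82 * (xiE b c K + xiE b' c K) + 4.08 * (beE b c K + beE b' c K) := by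
  obtain ⟨h1, h2⟩ := J_edge b c hK
  obtain ⟨h3, h4⟩ := J_edge b' c hK
  rcases max_cases (lE b c K) (lE b' c K) with ⟨h5, h6⟩ | ⟨h5, h6⟩
  · rw [h5]; linarith
  · rw [h5]; linarith

end one

end Pool.Agent.Helper73.MEI
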