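import Pool.Agent.Helper14.MEI2.Place
import Pool.Agent.Helper73.MEI.Edge1
import Pool.Agent.Helper82.CW.Num

/-!
# MEI M2, master inequality

`K` a body of constant width one (with its pair measure `σ`), `a` a regular unit tetrahedron with
`K` in the rhombic dodecahedron of `a`.
-/

set_option autoImplicit false

namespace Pool.Agent.Helper73.MEI

open Set MeasureTheory Filter Topology Metric
open Helper80.CW Helper22.Wedge Helper22.Sig Helper14.CW Helper14.MEI2 Helper93.MEI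
open Helper22.MEI (s t Fa Fb Fc FD FD_pos dv_F s_pos)
open Pool.Agent.Helper95.MEI.Cst (AsE AxE dvE fAs fAx vAs vAx K1v K2v dvE_cont)
open scoped RealInnerProductSpace ContDiff Real

/-- body with pair measure -/
structure PM (K : Set E3) (σ : Measure (E3 × E3)) : Prop where
  cpt : IsCompact K
  ae : ∀ᵐ z ∂σ, z.1 ∈ K ∧ z.2 ∈ K ∧ ‖z.1 - z.2‖ = 1 ∧
    ∀ y ∈ K, ⟪y, z.1 - z.2⟫ ≤ ⟪z.1, z.1 - z.2⟫
  flux : ∀ G : E3 → E3, ContDiff ℝ ∞ G →
    ∫ z, ⟪G z.1, z.1 - z.2⟫ ∂σ = ∫ x in K, dvg G x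
  total : σ.real univ = 2 * volume.real K + 2 * π / 3

theorem PM.mem {K : Set E3} {σ : Measure (E3 × E3)} (h : PM K σ) :
    ∀ᵐ z ∂σ, z.1 ∈ K ∧ z.2 ∈ K := by
  filter_upwards [h.ae] with z hz
  exact ⟨hz.1, hz.2.1⟩

/-- the walls are null -/
theorem PM.hz {K : Set E3} {σ : Measure (E3 × E3)} [IsFiniteMeasure σ] (h : PM K σ)
    (hc : Convex ℝ K) (hw : Width1 K) {a : Fin 4 → E3}
    (ha : ∀ i j, i ≠ j → dist (a i) (a j) = 1) (hp : ∀ x ∈ K, Pl a x) :
    ∀ᵐ z ∂σ, Pl a z.1 ∧ ∀ k, bar a k z.1 ≠ 0 :=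
  placed_ae h.cpt hc hw ha hp h.mem (h.ae.mono fun _ hz => hz.2.2) (n := ⊤) le_top h.flux

theorem PM.integrable {K : Set E3} {σ : Measure (E3 × E3)} [IsFiniteMeasure σ] (h : PM K σ)
    {G : E3 → E3} (hG : Continuous G) : Integrable (fun z : E3 × E3 => ⟪G z.1, z.1 - z.2⟫) σ := by
  have hc1 : Continuous (fun z : E3 × E3 => ⟪G z.1, z.1 - z.2⟫) := by fun_prop
  obtain ⟨B1, hB1⟩ := (h.cpt.prod h.cpt).bddAbove_image (hc1.abs).continuousOn
  have hb1 : ∀ᵐ z ∂σ, ‖⟪G z.1, z.1 - z.2⟫‖ ≤ B1 := by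
    filter_upwards [h.mem] with z hz
    exact hB1 ⟨z, ⟨hz.1, hz.2⟩, rfl⟩
  exact (integrable_const B1).mono' hc1.aestronglyMeasurable hb1

theorem FD_cdi {n : WithTop ℕ∞} : ContDiff ℝ n FD := by unfold FD; fun_prop

theorem Fa_cdi {n : WithTop ℕ∞} : ContDiff ℝ n Fa :=
  ContDiff.div (by fun_prop) FD_cdi fun q => (FD_pos q).ne'

theorem Fb_cdi {n : WithTop ℕ∞} : ContDiff ℝ n Fb :=
  ContDiff.div (by fun_prop) FD_cdi fun q => (FD_pos q).ne'

theorem Fc_cdi {n : WithTop ℕ∞} : ContDiff ℝ n Fc :=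
  ContDiff.div (by fun_prop) FD_cdi fun q => (FD_pos q).ne'

section edge
variable (b : OrthonormalBasis (Fin 3) ℝ E3) (c : E3)

theorem dvg_F (x : E3) : dvg (fld b c Fa Fb Fc) x = dvE b c x := by
  rw [dvg_fld b c Fa_cdi Fb_cdi Fc_cdi, dv_F]
  rfl

/-- normals of the walls of the edge cell -/
noncomputable def nuE (j : Bool) : E3 := if j then s • b 2 - b 1 else s • b 2 + b 1

theorem EC_cel : EC b c = Cel (nuE b) (fun j => s * t + ⟪nuE b j, c⟫) := by
  have h1 : ∀ x : E3, ⟪nuE b true, x⟫ - ⟪nuE b true, c⟫ = s * (co b c x).2.2 - (co b c x).2.1 := by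
    intro x
    rw [← inner_sub_right]
    show ⟪s • b 2 - b 1, x - c⟫ = s * ⟪b 2, x - c⟫ - ⟪b 1, x - c⟫
    rw [inner_sub_left, real_inner_smul_left]
  have h2 : ∀ x : E3, ⟪nuE b false, x⟫ - ⟪nuE b false, c⟫ =
      s * (co b c x).2.2 + (co b c x).2.1 := by
    intro x
    rw [← inner_sub_right]
    show ⟪s • b 2 + b 1, x - c⟫ = s * ⟪b 2, x - c⟫ + ⟪b 1, x - c⟫
    rw [inner_add_left, real_inner_smul_left]
  ext x
  have h3 := h1 x
  have h4 := h2 x
  unfold EC Cel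
  simp only [mem_setOf_eq, abs_lt, Bool.forall_bool]
  constructor
  · rintro ⟨h5, h6⟩
    constructor <;> linarith
  · rintro ⟨h5, h6⟩
    constructor <;> linarith

theorem F_tang : Tang (nuE b) (fun j => s * t + ⟪nuE b j, c⟫) (fld b c Fa Fb Fc) := by
  intro j x hx
  obtain ⟨⟨i00, i01, i02⟩, ⟨i10, i11, i12⟩, ⟨i20, i21, i22⟩⟩ := ibv b
  have hx' : ⟪nuE b j, x - c⟫ = s * t := by
    rw [inner_sub_right]
    linarith
  have e : ⟪nuE b j, fld b c Fa Fb Fc x⟫ =
      1 / 2 * (⟪nuE b j, x - c⟫ - s * t) / FD (co b c x) := by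
    cases j
    · show ⟪s • b 2 + b 1, fld b c Fa Fb Fc x⟫ =
        1 / 2 * (⟪s • b 2 + b 1, x - c⟫ - s * t) / FD (co b c x)
      unfold fld
      simp only [inner_add_left, inner_add_right, real_inner_smul_left, real_inner_smul_right,
        i10, i11, i12, i20, i21, i22]
      unfold Fb Fc
      show _ = 1 / 2 * (s * (co b c x).2.2 + (co b c x).2.1 - s * t) / FD (co b c x)
      ring
    · show ⟪s • b 2 - b 1, fld b c Fa Fb Fc x⟫ =
        1 / 2 * (⟪s • b 2 - b 1, x - c⟫ - s * t) / FD (co b c x)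
      unfold fld
      simp only [inner_sub_left, inner_add_right, real_inner_smul_left, real_inner_smul_right,
        i10, i11, i12, i20, i21, i22]
      unfold Fb Fc
      show _ = 1 / 2 * (s * (co b c x).2.2 - (co b c x).2.1 - s * t) / FD (co b c x)
      ring
  rw [e, hx']
  simp

/-- the excess integral of an edge cell -/
noncomputable def TE (σ : Measure (E3 × E3)) : ℝ :=
  ∫ z in {z : E3 × E3 | z.1 ∈ EC b c}, (⟪fld b c Fa Fb Fc z.1, z.1 - z.2⟫ - 1 / 4) ∂σ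

theorem edge_flux_sigma {K : Set E3} {σ : Measure (E3 × E3)} [IsFiniteMeasure σ] (h : PM K σ) :
    TE b c σ + 1 / 4 * σ.real {z : E3 × E3 | z.1 ∈ EC b c} =
      ∫ x in K ∩ EC b c, dvE b c x := by
  have h1 := S2_cell (n := (⊤ : ℕ∞)) h.cpt h.mem le_top h.flux (nuE b)
    (fun j => s * t + ⟪nuE b j, c⟫) (fld_cd b c Fa_cdi Fb_cdi Fc_cdi) (F_tang b c)
  rw [← EC_cel] at h1
  simp only [dvg_F] at h1
  unfold TE
  rw [integral_sub, h1]
  · rw [setIntegral_const, smul_eq_mul]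
    ring
  · exact (h.integrable (fld_cd (n := 0) b c Fa_cdi Fb_cdi Fc_cdi).continuous).integrableOn
  · exact integrable_const _

theorem edge_J {K : Set E3} {σ : Measure (E3 × E3)} [IsFiniteMeasure σ] (h : PM K σ) :
    ∫ x in K ∩ EC b c, (dvE b c x - 1 / 2) =
      TE b c σ + 1 / 4 * σ.real {z : E3 × E3 | z.1 ∈ EC b c}
        - 1 / 2 * volume.real (K ∩ EC b c) := by
  rw [edge_flux_sigma b c h, integral_sub, setIntegral_const, smul_eq_mul]
  · ring
  · exact ((dvE_cont b c).continuousOn.integrableOn_compact h.cpt).mono_set inter_subset_left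
  · exact integrableOn_const
      (ne_top_of_le_ne_top h.cpt.measure_lt_top.ne (measure_mono inter_subset_left))

end edge

/-! ### the six edges -/

/-- labellings: `pf m false` starts with the edge `0, m+1`, `pf m true` with the opposite edge -/
def pf : Fin 3 → Bool → Fin 4 → Fin 4
  | 0, false => ![0, 1, 2, 3]
  | 0, true => ![2, 3, 0, 1]
  | 1, false => ![0, 2, 1, 3]
  | 1, true => ![1, 3, 0, 2]
  | 2, false => ![0, 3, 1, 2]
  | 2, true => ![1, 2, 0, 3]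

theorem pf_bij : ∀ m e, Function.Bijective (pf m e) := by decide

/-- the labellings as permutations -/
noncomputable def pr (m : Fin 3) (e : Bool) : Equiv.Perm (Fin 4) :=
  Equiv.ofBijective (pf m e) (pf_bij m e)

theorem pr_apply (m : Fin 3) (e : Bool) (i : Fin 4) : pr m e i = pf m e i := rfl

variable {a : Fin 4 → E3}

/-- frames for the six edges -/
theorem frames (ha : ∀ i j, i ≠ j → dist (a i) (a j) = 1) :
    ∃ B : Fin 3 → Bool → OrthonormalBasis (Fin 3) ℝ E3,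
      ∀ m e, Fr (fun i => a (pr m e i)) (B m e) := by
  have h1 : ∀ m e, ∃ b, Fr (fun i => a (pr m e i)) b := fun m e =>
    Fr_exists fun i j hij => ha _ _ (fun h => hij ((pr m e).injective h))
  choose B hB using h1
  exact ⟨B, hB⟩

theorem EC_Ze (ha : ∀ i j, i ≠ j → dist (a i) (a j) = 1) (m : Fin 3) (e : Bool)
    {b : OrthonormalBasis (Fin 3) ℝ E3} (hb : Fr (fun i => a (pr m e i)) b) :
    EC b (cen a) = Ze a (pf m e 2) (pf m e 3) := by
  have ha' : ∀ i j, i ≠ j → dist ((fun i => a (pr m e i)) i) ((fun i => a (pr m e i)) j) = 1 :=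
    fun i j hij => ha _ _ (fun h => hij ((pr m e).injective h))
  ext x
  have h1 := EC_iff ha' hb x
  rw [cen_perm, al_perm] at h1
  rw [h1]
  show (⟪al a (pf m e 2), x - cen a⟫ < -(1 / 8) ∧ ⟪al a (pf m e 3), x - cen a⟫ < -(1 / 8)) ↔
    (bar a (pf m e 2) x < 0 ∧ bar a (pf m e 3) x < 0)
  unfold bar
  constructor
  · rintro ⟨h2, h3⟩
    constructor <;> linarith
  · rintro ⟨h2, h3⟩
    constructor <;> linarith

section global
variable {K : Set E3} {σ : Measure (E3 × E3)} [IsFiniteMeasure σ]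
  {B : Fin 3 → Bool → OrthonormalBasis (Fin 3) ℝ E3}

/-- decomposition of the volume with the cells `EC` -/
theorem vol_dec (h : PM K σ) (ha : ∀ i j, i ≠ j → dist (a i) (a j) = 1) (hp : ∀ x ∈ K, Pl a x)
    (hB : ∀ m e, Fr (fun i => a (pr m e i)) (B m e)) :
    volume.real K = volume.real (K ∩ T0 a) + ∑ i, volume.real (K ∩ Wc a i) +
      ∑ m, (volume.real (K ∩ EC (B m false) (cen a)) + volume.real (K ∩ EC (B m true) (cen a))) := by
  rw [part_volume h.cpt ha hp, Fin.sum_univ_three, Fin.sum_univ_four,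
    EC_Ze ha _ _ (hB 0 false), EC_Ze ha _ _ (hB 0 true), EC_Ze ha _ _ (hB 1 false),
    EC_Ze ha _ _ (hB 1 true), EC_Ze ha _ _ (hB 2 false), EC_Ze ha _ _ (hB 2 true)]
  show _ = volume.real (K ∩ T0 a) + (volume.real (K ∩ Wc a 0) + volume.real (K ∩ Wc a 1) +
    volume.real (K ∩ Wc a 2) + volume.real (K ∩ Wc a 3)) +
    ((volume.real (K ∩ Ze a 2 3) + volume.real (K ∩ Ze a 0 1)) +
      (volume.real (K ∩ Ze a 1 3) + volume.real (K ∩ Ze a 0 2)) +
      (volume.real (K ∩ Ze a 1 2) + volume.real (K ∩ Ze a 0 3)))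
  ring

/-- decomposition of the mass of the pair measure -/
theorem mass_dec (ha : ∀ i j, i ≠ j → dist (a i) (a j) = 1)
    (hz : ∀ᵐ z ∂σ, Pl a z.1 ∧ ∀ k, bar a k z.1 ≠ 0)
    (hB : ∀ m e, Fr (fun i => a (pr m e i)) (B m e)) :
    σ.real univ = σ.real {z | z.1 ∈ T0 a} + ∑ i, σ.real {z | z.1 ∈ Wc a i} +
      ∑ m, (σ.real {z | z.1 ∈ EC (B m false) (cen a)} +
        σ.real {z | z.1 ∈ EC (B m true) (cen a)}) := by
  have h1 := part_mass (F := fun _ => (1 : ℝ)) ha hz (integrable_const _)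
  simp only [smul_eq_mul, mul_one, integral_const, measureReal_restrict_apply_univ] at h1
  rw [h1, Fin.sum_univ_three, Fin.sum_univ_four,
    EC_Ze ha _ _ (hB 0 false), EC_Ze ha _ _ (hB 0 true), EC_Ze ha _ _ (hB 1 false),
    EC_Ze ha _ _ (hB 1 true), EC_Ze ha _ _ (hB 2 false), EC_Ze ha _ _ (hB 2 true)]
  show _ = σ.real {z | z.1 ∈ T0 a} + (σ.real {z | z.1 ∈ Wc a 0} + σ.real {z | z.1 ∈ Wc a 1} +
    σ.real {z | z.1 ∈ Wc a 2} + σ.real {z | z.1 ∈ Wc a 3}) +
    ((σ.real {z | z.1 ∈ Ze a 2 3} + σ.real {z | z.1 ∈ Ze a 0 1}) +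
      (σ.real {z | z.1 ∈ Ze a 1 3} + σ.real {z | z.1 ∈ Ze a 0 2}) +
      (σ.real {z | z.1 ∈ Ze a 1 2} + σ.real {z | z.1 ∈ Ze a 0 3}))
  ring

/-- **edge inequality**: all flux through the six edge cells, no field on the faces -/
theorem edge_total (h : PM K σ) (ha : ∀ i j, i ≠ j → dist (a i) (a j) = 1)
    (hp : ∀ x ∈ K, Pl a x) (hz : ∀ᵐ z ∂σ, Pl a z.1 ∧ ∀ k, bar a k z.1 ≠ 0)
    (hB : ∀ m e, Fr (fun i => a (pr m e i)) (B m e)) :
    ∑ m, (TE (B m false) (cen a) σ + TE (B m true) (cen a) σ) + π / 6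
      - 1 / 4 * (σ.real {z | z.1 ∈ T0 a} + ∑ i, σ.real {z | z.1 ∈ Wc a i})
      + 1 / 2 * (volume.real (K ∩ T0 a) + ∑ i, volume.real (K ∩ Wc a i)) ≤
    (π / 6 - 3 / 2 * (√2 / 12) - Om / 3) +
      ∑ m, (3.82 * ((vAs - vAx) - lE (B m false) (cen a) K - lE (B m true) (cen a) K)
        + 0.26 * ((vAs - vAx) - max (lE (B m false) (cen a) K) (lE (B m true) (cen a) K))
        - 3.82 * (xiE (B m false) (cen a) K + xiE (B m true) (cen a) K)
        + 4.08 * (beE (B m false) (cen a) K + beE (B m true) (cen a) K)) := by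
  have h1 := vol_dec h ha hp hB
  have h2 := mass_dec ha hz hB
  have h3 := h.total
  have h4 : ∀ m, TE (B m false) (cen a) σ + TE (B m true) (cen a) σ
      + 1 / 4 * (σ.real {z | z.1 ∈ EC (B m false) (cen a)} +
        σ.real {z | z.1 ∈ EC (B m true) (cen a)})
      - 1 / 2 * (volume.real (K ∩ EC (B m false) (cen a)) +
        volume.real (K ∩ EC (B m true) (cen a))) ≤ (fAs - vAs / 2) + (fAx - vAx / 2)
      + 3.82 * ((vAs - vAx) - lE (B m false) (cen a) K - lE (B m true) (cen a) K)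
      + 0.26 * ((vAs - vAx) - max (lE (B m false) (cen a) K) (lE (B m true) (cen a) K))
      - 3.82 * (xiE (B m false) (cen a) K + xiE (B m true) (cen a) K)
      + 4.08 * (beE (B m false) (cen a) K + beE (B m true) (cen a) K) := by
    intro m
    have k1 := J_pair (B m false) (cen a) (B m true) h.cpt
    rw [edge_J (B m false) (cen a) h, edge_J (B m true) (cen a) h] at k1
    linarith
  have k0 := h4 0
  have k1 := h4 1
  have k2 := h4 2
  have k3 := K1v
  rw [Fin.sum_univ_three] at h1 h2 ⊢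
  rw [Fin.sum_univ_three]
  have e1 : Pool.Agent.Helper95.MEI.Cst.Om = Om := rfl
  rw [e1] at k3
  linarith

/-- volume -/
theorem vol_total (h : PM K σ) (ha : ∀ i j, i ≠ j → dist (a i) (a j) = 1)
    (hp : ∀ x ∈ K, Pl a x) (hB : ∀ m e, Fr (fun i => a (pr m e i)) (B m e)) :
    volume.real K - Helper82.CW.VM =
      ∑ m, (((vAs - vAx) - lE (B m false) (cen a) K - lE (B m true) (cen a) K)
        - (xiE (B m false) (cen a) K + xiE (B m true) (cen a) K)
        + (beE (B m false) (cen a) K + beE (B m true) (cen a) K))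
      + (∑ i, volume.real (K ∩ Wc a i) - 4 * (Om / 3 - √2 / 12))
      - (√2 / 12 - volume.real (K ∩ T0 a)) := by
  have h1 := vol_dec h ha hp hB
  have h4 : ∀ m, volume.real (K ∩ EC (B m false) (cen a)) +
        volume.real (K ∩ EC (B m true) (cen a)) = vAs + vAx +
      (((vAs - vAx) - lE (B m false) (cen a) K - lE (B m true) (cen a) K)
        - (xiE (B m false) (cen a) K + xiE (B m true) (cen a) K)
        + (beE (B m false) (cen a) K + beE (B m true) (cen a) K)) := by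
    intro m
    rw [vol_edge _ _ h.cpt, vol_edge _ _ h.cpt]
    ring
  have k0 := h4 0
  have k1 := h4 1
  have k2 := h4 2
  have k3 := K2v
  have e1 : Pool.Agent.Helper95.MEI.Cst.Om = Om := rfl
  have e2 : Pool.Agent.Helper95.MEI.Cst.VM = Helper82.CW.VM := rfl
  rw [e1, e2] at k3
  rw [Fin.sum_univ_three] at h1 ⊢
  linarith

/-- flux in the cone at a vertex -/
theorem cone_flux_sigma (h : PM K σ) (i : Fin 4) :
    ∫ z in {z : E3 × E3 | z.1 ∈ TC a i}, ⟪(1 / 4 : ℝ) • (z.1 - a i), z.1 - z.2⟫ ∂σ =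
      3 / 4 * volume.real (K ∩ TC a i) := by
  have e : TC a i = Cel (fun k : {k : Fin 4 // k ≠ i} => al a k)
      (fun k => ⟪al a k, a i⟫) := by
    ext x
    unfold TC Cel
    simp only [mem_setOf_eq, inner_sub_right]
    constructor
    · intro h1 k
      have := h1 k.1 k.2
      linarith
    · intro h1 k hk
      have := h1 ⟨k, hk⟩
      simp only at this
      linarith
  have hG : ContDiff ℝ ∞ (fun y : E3 => (1 / 4 : ℝ) • (y - a i)) := by fun_prop
  have h1 := S2_cell (n := (⊤ : ℕ∞)) h.cpt h.mem le_top h.flux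
    (fun k : {k : Fin 4 // k ≠ i} => al a k) (fun k => ⟪al a k, a i⟫) hG (by
      intro k x hx
      simp only at hx ⊢
      rw [real_inner_smul_right, inner_sub_right, hx, sub_self, mul_zero])
  rw [← e] at h1
  rw [h1]
  have hd : ∀ x, dvg (fun y : E3 => (1 / 4 : ℝ) • (y - a i)) x = 3 / 4 := fun x => by
    rw [dvg_radial]; norm_num
  simp only [hd]
  rw [setIntegral_const, smul_eq_mul]
  ring

/-- **face identity** for the field `p - cen` on `T` and `(p - a i) / 4` on the face cells -/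
theorem face_total (h : PM K σ) (ha : ∀ i j, i ≠ j → dist (a i) (a j) = 1)
    (hp : ∀ x ∈ K, Pl a x) (hz : ∀ᵐ z ∂σ, Pl a z.1 ∧ ∀ k, bar a k z.1 ≠ 0) :
    ∫ z in {z : E3 × E3 | z.1 ∈ T0 a}, ⟪z.1 - cen a, z.1 - z.2⟫ ∂σ +
      ∑ i, ∫ z in {z : E3 × E3 | z.1 ∈ Wc a i}, ⟪(1 / 4 : ℝ) • (z.1 - a i), z.1 - z.2⟫ ∂σ =
    3 * volume.real (K ∩ T0 a) + 3 / 4 * ∑ i, volume.real (K ∩ Wc a i) := by
  have hi : ∀ i, Integrable
      (fun z : E3 × E3 => ⟪(1 / 4 : ℝ) • (z.1 - a i), z.1 - z.2⟫) σ := fun i =>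
    h.integrable (G := fun y => (1 / 4 : ℝ) • (y - a i)) (by fun_prop)
  have h1 : ∀ i, (∫ z in {z : E3 × E3 | z.1 ∈ T0 a}, ⟪(1 / 4 : ℝ) • (z.1 - a i), z.1 - z.2⟫ ∂σ) +
      (∫ z in {z : E3 × E3 | z.1 ∈ Wc a i}, ⟪(1 / 4 : ℝ) • (z.1 - a i), z.1 - z.2⟫ ∂σ) =
      3 / 4 * (volume.real (K ∩ T0 a) + volume.real (K ∩ Wc a i)) := by
    intro i
    have h2 := TC_split (P := fun z : E3 × E3 => z.1) ha measurable_fst
      (hz.mono fun z hz => hz.2) (hi i) i
    have h3 := cone_flux_sigma (a := a) h i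
    have h4 := TC_split (P := fun x : E3 => x) (μ := volume.restrict K) (F := fun _ => (1 : ℝ)) ha
      measurable_id ((placed_vol_ae h.cpt ha hp).mono fun z hz => hz.2)
      (integrableOn_const h.cpt.measure_lt_top.ne) i
    have e4 : ∀ S : Set E3, MeasurableSet S →
        ∫ _ in (fun x : E3 => x) ⁻¹' S, (1 : ℝ) ∂(volume.restrict K) = volume.real (K ∩ S) := by
      intro S hS
      rw [setIntegral_const, smul_eq_mul, mul_one]
      show (volume.restrict K).real S = _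
      rw [measureReal_restrict_apply hS, inter_comm]
    rw [e4 _ (TC_open ha i).measurableSet, e4 _ (T0_open a).measurableSet,
      e4 _ (Wc_open ha i).measurableSet] at h4
    have e5 : ∫ z in (fun z : E3 × E3 => z.1) ⁻¹' TC a i,
        ⟪(1 / 4 : ℝ) • (z.1 - a i), z.1 - z.2⟫ ∂σ = 3 / 4 * volume.real (K ∩ TC a i) := h3
    rw [e5, h4] at h2
    exact h2.symm
  have h5 : ∫ z in {z : E3 × E3 | z.1 ∈ T0 a}, ⟪z.1 - cen a, z.1 - z.2⟫ ∂σ =
      ∑ i, ∫ z in {z : E3 × E3 | z.1 ∈ T0 a}, ⟪(1 / 4 : ℝ) • (z.1 - a i), z.1 - z.2⟫ ∂σ := by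
    rw [← integral_finset_sum _ fun i _ => (hi i).integrableOn]
    refine integral_congr_ae (Eventually.of_forall fun z => ?_)
    show ⟪z.1 - cen a, z.1 - z.2⟫ = ∑ i, ⟪(1 / 4 : ℝ) • (z.1 - a i), z.1 - z.2⟫
    rw [← sum_inner]
    congr 1
    rw [Fin.sum_univ_four]
    unfold cen
    module
  rw [h5, ← Finset.sum_add_distrib, Finset.sum_congr rfl fun i _ => h1 i, Fin.sum_univ_four,
    Fin.sum_univ_four]
  ring

/-- the face and tetrahedron part of the excess -/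
noncomputable def FT (a : Fin 4 → E3) (σ : Measure (E3 × E3)) : ℝ :=
  ∫ z in {z : E3 × E3 | z.1 ∈ T0 a}, (⟪z.1 - cen a, z.1 - z.2⟫ - 1 / 4) ∂σ +
    ∑ i, ∫ z in {z : E3 × E3 | z.1 ∈ Wc a i}, (⟪(1 / 4 : ℝ) • (z.1 - a i), z.1 - z.2⟫ - 1 / 4) ∂σ

/-- **the master inequality (*)**, general multiplier `κ` -/
theorem star_k (κ : ℝ) (h : PM K σ) (ha : ∀ i j, i ≠ j → dist (a i) (a j) = 1)
    (hp : ∀ x ∈ K, Pl a x) (hz : ∀ᵐ z ∂σ, Pl a z.1 ∧ ∀ k, bar a k z.1 ≠ 0)
    (hB : ∀ m e, Fr (fun i => a (pr m e i)) (B m e)) :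
    ∑ m, (TE (B m false) (cen a) σ + TE (B m true) (cen a) σ
        + κ * ((vAs - vAx) - lE (B m false) (cen a) K - lE (B m true) (cen a) K)
        - 0.26 * ((vAs - vAx) - max (lE (B m false) (cen a) K) (lE (B m true) (cen a) K))
        + (κ - 0.26) * (beE (B m false) (cen a) K + beE (B m true) (cen a) K)
        - κ * (xiE (B m false) (cen a) K + xiE (B m true) (cen a) K))
      + (3.57 + κ) * (∑ i, volume.real (K ∩ Wc a i) - 4 * (Om / 3 - √2 / 12))
      - (1.32 + κ) * (√2 / 12 - volume.real (K ∩ T0 a)) + FT a σ ≤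
    (3.82 + κ) * (volume.real K - Helper82.CW.VM) := by
  have h1 := edge_total h ha hp hz hB
  have h2 := vol_total h ha hp hB
  have h3 := face_total h ha hp hz
  have e1 : FT a σ = (∫ z in {z : E3 × E3 | z.1 ∈ T0 a}, ⟪z.1 - cen a, z.1 - z.2⟫ ∂σ +
      ∑ i, ∫ z in {z : E3 × E3 | z.1 ∈ Wc a i}, ⟪(1 / 4 : ℝ) • (z.1 - a i), z.1 - z.2⟫ ∂σ)
      - 1 / 4 * (σ.real {z | z.1 ∈ T0 a} + ∑ i, σ.real {z | z.1 ∈ Wc a i}) := by
    have hi : ∀ i, Integrable
        (fun z : E3 × E3 => ⟪(1 / 4 : ℝ) • (z.1 - a i), z.1 - z.2⟫) σ := fun i =>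
      h.integrable (G := fun y => (1 / 4 : ℝ) • (y - a i)) (by fun_prop)
    have hi0 : Integrable (fun z : E3 × E3 => ⟪z.1 - cen a, z.1 - z.2⟫) σ :=
      h.integrable (G := fun y => y - cen a) (by fun_prop)
    unfold FT
    rw [integral_sub hi0.integrableOn (integrable_const _)]
    have e2 : ∀ i, ∫ z in {z : E3 × E3 | z.1 ∈ Wc a i},
        (⟪(1 / 4 : ℝ) • (z.1 - a i), z.1 - z.2⟫ - 1 / 4) ∂σ =
        ∫ z in {z : E3 × E3 | z.1 ∈ Wc a i}, ⟪(1 / 4 : ℝ) • (z.1 - a i), z.1 - z.2⟫ ∂σ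
        - 1 / 4 * σ.real {z | z.1 ∈ Wc a i} := by
      intro i
      rw [integral_sub (hi i).integrableOn (integrable_const _), setIntegral_const, smul_eq_mul]
      ring
    rw [Finset.sum_congr rfl fun i _ => e2 i, Finset.sum_sub_distrib, ← Finset.mul_sum,
      setIntegral_const, smul_eq_mul]
    ring
  rw [e1, h3, h2]
  simp only [Fin.sum_univ_three] at h1 ⊢
  linarith

/-- **the master inequality (*)** -/
theorem star (h : PM K σ) (ha : ∀ i j, i ≠ j → dist (a i) (a j) = 1)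
    (hp : ∀ x ∈ K, Pl a x) (hz : ∀ᵐ z ∂σ, Pl a z.1 ∧ ∀ k, bar a k z.1 ≠ 0)
    (hB : ∀ m e, Fr (fun i => a (pr m e i)) (B m e)) :
    ∑ m, (TE (B m false) (cen a) σ + TE (B m true) (cen a) σ
        + 0.4 * ((vAs - vAx) - lE (B m false) (cen a) K - lE (B m true) (cen a) K)
        - 0.26 * ((vAs - vAx) - max (lE (B m false) (cen a) K) (lE (B m true) (cen a) K))
        + 0.14 * (beE (B m false) (cen a) K + beE (B m true) (cen a) K)
        - 0.4 * (xiE (B m false) (cen a) K + xiE (B m true) (cen a) K))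
      + 3.97 * (∑ i, volume.real (K ∩ Wc a i) - 4 * (Om / 3 - √2 / 12))
      - 1.72 * (√2 / 12 - volume.real (K ∩ T0 a)) + FT a σ ≤
    4.22 * (volume.real K - Helper82.CW.VM) := by
  have h1 := star_k 0.4 h ha hp hz hB
  norm_num at h1 ⊢
  linarith

end global

end Pool.Agent.Helper73.MEI
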