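import Pool.Agent.Helper73.MEI.FW2

/-!
# The face in vertex form: strips cut at the need of the arc, domain, cost

`km`, `bt`; `face_VFm`; `WCF` = the cost of the second order term of a face.
-/

set_option autoImplicit false

namespace Pool.Agent.Helper73.MEI.ArCor

open Set Metric MeasureTheory Helper80.CW Helper82.CW Helper14.CW Helper93.MEI Helper82.M2
open Helper14.MEI2 Pool.Agent.Helper52.MEI Pool.Agent.Helper73.MEI Helper37.MEI Helper41.MEI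
open Helper33.MEI (Wi)
open Pool.Agent.Helper55.Sx (Sim)
open Pool.Agent.Helper55.Mass (LN vv vv_nonneg B0 B0_ge)
open Pool.Agent.Helper55.Apex (nc)
open Pool.Agent.Helper55.ApexP (PN alP alP_nonneg alP_zeta mu_bal)
open Pool.Agent.Helper55.Fill (xx rr)
open Pool.Agent.Helper73.MEI.SideP
open Pool.Agent.Helper96.Kap (kap kap_nonneg kap_meas kap_le_one kap_add kapL kap_mass)
open Pool.Agent.Helper96.Rr4 (P3 wc4 rr_mass4)
open Pool.Agent.Helper31.SR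
open Helper78.MEI
open Pool.Agent.Helper73.MEI.ZEl
open Helper75.MEI2 (mu vt)
open scoped RealInnerProductSpace ENNReal

/-- the strip of an arc, at most its need -/
noncomputable def km (A' : ℝ) (kp ρ : Fin 3 → ℝ) (p : Fin 3) : ℝ := min (kp p) (ρ p / A')

/-- the part of an arc which sits in its strip -/
noncomputable def bt (A' : ℝ) (kp ρ : Fin 3 → ℝ) (p : Fin 3) : ℝ := A' * km A' kp ρ p / ρ p

theorem pp_km {A' k ρ R S : ℝ} (hA : 0 < A') (hR : 0 ≤ R) (hS : 0 ≤ S) :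
    pp (ρ * R - A' * min k (ρ / A') * (R + S)) = pp (ρ * R - A' * k * (R + S)) ∨ ρ < 0 := by
  by_cases hρ : ρ < 0
  · exact Or.inr hρ
  left
  have hρ0 := not_lt.1 hρ
  rcases le_total k (ρ / A') with h | h
  · rw [min_eq_left h]
  · rw [min_eq_right h, mul_div_cancel₀ _ hA.ne']
    have h2 : ρ ≤ A' * k := by
      rw [div_le_iff₀ hA] at h
      linarith
    have h3 := mul_le_mul_of_nonneg_right h2 (add_nonneg hR hS)
    have h4 := mul_nonneg hρ0 hS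
    unfold pp
    rw [max_eq_right (by linarith), max_eq_right (by linarith)]

theorem arcS_km {A' : ℝ} (hA : 0 < A') {ρ κ R S : Fin 3 → ℝ} (hρ : ∀ p, 0 ≤ ρ p)
    (hR : ∀ k, 0 ≤ R k) (hS : ∀ k, 0 ≤ S k) : arcS A' ρ (km A' κ ρ) R S = arcS A' ρ κ R S := by
  have key : ∀ p k, pp (ρ p * R k - A' * km A' κ ρ p * (R k + S k)) =
      pp (ρ p * R k - A' * κ p * (R k + S k)) := by
    intro p k
    rcases pp_km (k := κ p) (ρ := ρ p) hA (hR k) (hS k) with h | h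
    · exact h
    · exact absurd h (not_lt.2 (hρ p))
  unfold arcS
  rw [key 0 1, key 0 2, key 1 0, key 1 2, key 2 0, key 2 1]

theorem bt_nonneg {A' : ℝ} (hA : 0 < A') {kp ρ : Fin 3 → ℝ} (hk : ∀ p, 0 ≤ kp p)
    (hρ : ∀ p, 0 < ρ p) (p : Fin 3) : 0 ≤ bt A' kp ρ p :=
  div_nonneg (mul_nonneg hA.le (le_min (hk p) (div_nonneg (hρ p).le hA.le))) (hρ p).le

theorem bt_le_one {A' : ℝ} (hA : 0 < A') {kp ρ : Fin 3 → ℝ} (hρ : ∀ p, 0 < ρ p) (p : Fin 3) :
    bt A' kp ρ p ≤ 1 := by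
  unfold bt
  rw [div_le_one (hρ p)]
  have h := mul_le_mul_of_nonneg_left (min_le_right (kp p) (ρ p / A')) hA.le
  rw [mul_div_cancel₀ _ hA.ne'] at h
  exact h

theorem bt_le {A' : ℝ} (hA : 0 < A') {kp ρ : Fin 3 → ℝ} (hρ : ∀ p, 0 < ρ p) (p : Fin 3) :
    bt A' kp ρ p ≤ A' * kp p / ρ p :=
  div_le_div_of_nonneg_right (mul_le_mul_of_nonneg_left (min_le_left _ _) hA.le) (hρ p).le

theorem kv_nonneg {K0 K1 nb : ℝ} {N : Fin 3 → Fin 3 → ℝ} (hN : ∀ k m, 0 ≤ N k m)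
    (hN' : ∀ k m, N k m ≤ nb) (hK1 : 0 ≤ K1) (h : K1 * nb ≤ K0) (p : Fin 3) :
    0 ≤ kv K0 K1 N p := by
  unfold kv
  have a1 := hN p (p + 1)
  have a2 := hN p (p + 2)
  have b1 := mul_le_mul_of_nonneg_left (hN' (p + 2) (p + 1)) (mul_nonneg hK1 a2)
  have b2 := mul_le_mul_of_nonneg_left (hN' (p + 1) (p + 2)) (mul_nonneg hK1 a1)
  have c1 := mul_le_mul_of_nonneg_right h a1
  have c2 := mul_le_mul_of_nonneg_right h a2
  nlinarith

/-- a column from its cap -/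
theorem col_le {t T D : ℝ} (ht : 0 ≤ t) (hT : 0 ≤ T) (h : t ^ 2 ≤ 2 * D * (1 + t / 2) ^ 2)
    (hD : 2 * D * (1 + T / 2) ^ 2 ≤ T ^ 2) : t ≤ T := by
  by_contra hlt
  rw [not_le] at hlt
  have hT2 : 0 < (1 + T / 2) ^ 2 := by positivity
  have ht2 : 0 < (1 + t / 2) ^ 2 := by positivity
  -- `t² (1 + T/2)² ≤ 2 D (1 + t/2)² (1 + T/2)² ≤ T² (1 + t/2)²`
  have h1 := mul_le_mul_of_nonneg_right h hT2.le
  have h2 := mul_le_mul_of_nonneg_right hD ht2.le
  have h3 : t ^ 2 * (1 + T / 2) ^ 2 ≤ T ^ 2 * (1 + t / 2) ^ 2 := by nlinarith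
  have h4 : T * (1 + t / 2) < t * (1 + T / 2) := by nlinarith
  have h5 : (T * (1 + t / 2)) ^ 2 < (t * (1 + T / 2)) ^ 2 := by
    have h6 : 0 ≤ T * (1 + t / 2) := by positivity
    nlinarith
  nlinarith

variable {a : Fin 4 → E3} {K : Set E3} {S : Fin 4 → ℝ} {σ : Measure (E3 × E3)}
  {c : Fin 4 → E3} {z : Fin 4 → Fin 4 → E3} {X rm qm nb ρ1 Rb gg ε k1 k12 t2 δ : ℝ}

/-- **the cost of the second order term of a face** -/
def WCF (A' : ℝ) (σ : Measure (E3 × E3)) (a : Fin 4 → E3) (K : Set E3)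
    (l : Fin 3 → Bool → Bool → E3 × E3 → ℝ) (τ : Equiv.Perm (Fin 4)) (z : Fin 4 → Fin 4 → E3)
    (S : Fin 4 → ℝ) (x : E3) (N : Fin 3 → Fin 3 → ℝ) (R : Fin 3 → ℝ) (φ : ℝ)
    (β dE dm : Fin 3 → ℝ) (cst : ℝ) : Prop :=
  ∀ ζp : Fin 3 → ℝ, (∀ k, 0 < ζp k) → (∀ k, zc (fun i => a (τ i)) N x k ≤ ζp k) →
    ∀ lam, 0 ≤ lam → lam ≤ 1 - φ → WCost a K τ A'
      (GM A' N (zc (fun i => a (τ i)) N x) ζp lam (fun p t => φ * flP (PN N) p t)
        (fun p t => kap N (vv t) p) β (MB σ a l τ)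
        (fun p => aE σ a l (τ 0) (τ p.succ) - dE p) R (fun k => S (τ k.succ)) (S (τ 0)))
      (DM A' N (zc (fun i => a (τ i)) N x) ζp lam (fun p t => φ * flP (PN N) p t)
        (fun p t => kap N (vv t) p) β (MB σ a l τ)
        (fun j => 1 / qM (fun i => a (τ i)) (fun i j => z (τ i) (τ j)) j)
        (fun p => Pool.Agent.Helper31.SR.am σ a l (τ 0) (τ p.succ) - dm p)) cst

/-- **the face in vertex form, strips at most the need of the arc** -/
theorem face_VFm [IsFiniteMeasure σ]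
    (P : Rn X rm qm nb ρ1 Rb gg ε k1 k12 t2 δ)
    (h : CN K σ a c) (v : Viol K a S) (hz : CV a K z)
    (τ : Equiv.Perm (Fin 4)) (hX : S (τ 0) + (S (τ 1) + S (τ 2) + S (τ 3)) ≤ X)
    {A : ℝ} (hA : 7 / 2 ≤ A)
    {l : Fin 3 → Bool → Bool → E3 × E3 → ℝ} (hl : Lok a l)
    {δ3 dE dm : Fin 3 → ℝ} (hδ : ∀ p, MA σ a l τ p p ≤ δ3 p) (hdE : ∀ p, 0 ≤ dE p)
    (hdm : ∀ p, 0 ≤ dm p) (hdd : ∀ p, δ3 p ^ 2 ≤ dE p * dm p)
    {ρ : Fin 3 → ℝ} (hρ : ∀ p, 0 < ρ p) (hMρ : ∀ p k, k ≠ p → MA σ a l τ p k ≤ ρ p)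
    {x : E3} (hx : x ∈ K) (hxs : Qv a (τ 0) x = S (τ 0) ∨ S (τ 0) = 0)
    {N : Fin 3 → Fin 3 → ℝ} (hNd : N = NM (fun i => a (τ i)) (fun i j => z (τ i) (τ j)))
    {tt : Fin 3 → ℝ} (htt : ∀ k, nc N k ≤ tt k)
    (hnb : nb ≤ 2 / 5) (hTN : TN N ≤ 1)
    {K0 K1 e : ℝ} (he : nb ≤ e)
    (hK : ∀ x y p q : ℝ, 0 ≤ x → 0 ≤ y → 0 ≤ p → 0 ≤ q → x + q ≤ nb → y + p ≤ nb →
      K0 * (x + y) - K1 * (y * q + x * p) ≤ kapL e x y p q)
    (hκ0 : ∀ p, 0 ≤ kv K0 K1 N p)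
    {φ : ℝ} (hφ0 : 0 < φ) (hφ1 : φ ≤ 1)
    (hF : ∀ p, 22.6276 * (ρ p - (A / 2 + 1 / 8) * kv K0 K1 N p)
      * (35 / 48 + 9 / 16 * TN N + 5 / 12 * QN N) ^ 2 ≤
      φ * ((A / 2 + 1 / 8) * (1 - TN N ^ 2 / 4)))
    {i j : Fin 3} (hU : PosB a τ x N tt k1 k12 ε (S (τ 0)) i j) :
    ∀ ζp : Fin 3 → ℝ, (∀ k, 0 < ζp k) →
      (∀ k, zc (fun i => a (τ i)) N x k ≤ ζp k) → ∀ lamM, 0 ≤ lamM → lamM ≤ 1 - φ →
      ∀ g, 0 ≤ g → g ≤ (A / 2 + 1 / 8) * (lamM * Pool.Agent.Helper55.Mass.Id (alP N ζp)) →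
      ∀ cst, (∀ lam, 0 ≤ lam → lam ≤ lamM → WCost a K τ (A / 2 + 1 / 8)
        (GM (A / 2 + 1 / 8) N (zc (fun i => a (τ i)) N x) ζp lam (fun p t => φ * flP (PN N) p t)
          (fun p t => kap N (vv t) p) (bt (A / 2 + 1 / 8) (kv K0 K1 N) ρ) (MB σ a l τ)
          (fun p => aE σ a l (τ 0) (τ p.succ) - dE p) (Rv tt N) (fun k => S (τ k.succ))
          (S (τ 0)))
        (DM (A / 2 + 1 / 8) N (zc (fun i => a (τ i)) N x) ζp lam (fun p t => φ * flP (PN N) p t)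
          (fun p t => kap N (vv t) p) (bt (A / 2 + 1 / 8) (kv K0 K1 N) ρ) (MB σ a l τ)
          (fun j => 1 / qM (fun i => a (τ i)) (fun i j => z (τ i) (τ j)) j)
          (fun p => Pool.Agent.Helper31.SR.am σ a l (τ 0) (τ p.succ) - dm p)) cst) →
      LLs σ a l (τ 0) - (dE 0 + dE 1 + dE 2)
        + VF (A / 2 + 1 / 8) ε k1 (k12 - k1) K0 K1 tt ρ N g i j (S (τ 0))
          (fun k => S (τ k.succ)) - cst ≤ Wi a (τ 0) K σ A := by
  have h' := h.perm τ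
  have v' := viol_perm v τ
  have hz' := hz.perm τ
  have hA' : 0 < A / 2 + 1 / 8 := by linarith
  have hN : ∀ k m, 0 ≤ N k m := fun k m => by
    rw [hNd]
    exact NM_nonneg h' v' hz' k m
  have hd : ∀ k, N k k = 0 := fun k => by
    rw [hNd]
    exact NM_diag k
  have hcol : ∀ m, nc N m ≤ 9 / 10 := fun m => by
    rw [hNd]
    exact nc_le h' v' hz' m
  have hc : (9 / 10 : ℝ) < 1 := by norm_num
  have C := colsN P h' v' hz' hX
  rw [← hNd] at C
  have hnc : ∀ k, nc N k ≤ nb := fun k => (C k).2.1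
  have hN' : ∀ k m, N k m ≤ nb := by
    intro k m
    refine le_trans ?_ (hnc m)
    have a0 := hN 0 m
    have a1 := hN 1 m
    have a2 := hN 2 m
    unfold nc
    fin_cases k
    · show N 0 m ≤ N 0 m + N 1 m + N 2 m
      linarith
    · show N 1 m ≤ N 0 m + N 1 m + N 2 m
      linarith
    · show N 2 m ≤ N 0 m + N 1 m + N 2 m
      linarith
  have hN5 : ∀ k m, N k m ≤ 2 / 5 := fun k m => (hN' k m).trans hnb
  have ek : ∀ k, nc N k = N (k + 1) k + N (k + 2) k := by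
    intro k
    have d0 := hd 0
    have d1 := hd 1
    have d2 := hd 2
    unfold nc
    fin_cases k
    · show N 0 0 + N 1 0 + N 2 0 = N 1 0 + N 2 0
      linarith
    · show N 0 1 + N 1 1 + N 2 1 = N 2 1 + N 0 1
      linarith
    · show N 0 2 + N 1 2 + N 2 2 = N 0 2 + N 1 2
      linarith
  -- node loads
  have hdq : ∀ k, nc N k ^ 2 / 2 ≤ dq (N (k + 1) k) (N (k + 2) k) := by
    intro k
    rw [ek]
    unfold dq
    nlinarith [sq_nonneg (N (k + 1) k - N (k + 2) k)]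
  have htp : ∀ k, 0 < 1 + tt k / 2 := fun k => by
    have h1 := htt k
    have h2 := nc_nonneg hN k
    linarith
  have hR0 : ∀ k, 0 ≤ Rv tt N k := fun k => by
    have := hdq k
    have h2 := sq_nonneg (nc N k)
    unfold Rv
    exact div_nonneg (by linarith) (htp k).le
  have hRd : ∀ k, Rv tt N k ≤ RM (fun i => a (τ i)) (fun i j => z (τ i) (τ j)) k := fun k =>
    (dom_VF h v hz τ hNd htt k).1
  -- residual masses
  have ne1 : ∀ k : Fin 3, k ≠ k + 1 := by decide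
  have ne2 : ∀ k : Fin 3, k ≠ k + 2 := by decide
  have ne3 : ∀ k : Fin 3, k + 1 ≠ k + 2 := by decide
  have hr : ∀ k, Pool.Agent.Helper55.Mass.Id (fun t => rr N (vv t) k) ≤ rv N k := fun k =>
    rr_mass4 hN hN5 hd hc hcol (ne1 k) (ne2 k) (ne3 k)
  have hr0 : ∀ k, 0 ≤ rv N k := fun k => by
    refine le_trans ?_ (hr k)
    unfold Pool.Agent.Helper55.Mass.Id
    refine mul_nonneg (by positivity) (setIntegral_nonneg
      Pool.Agent.Helper55.Sx.Sim_meas fun t ht => ?_)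
    exact div_nonneg (Pool.Agent.Helper55.Fill.rr_nonneg hN hc hcol (fun k => vv_nonneg ht k) k)
      (by positivity)
  have hrow : ∀ k, rowN N k ≤ 4 / 5 := fun k => by
    unfold rowN
    have := hN5 k (k + 1)
    have := hN5 k (k + 2)
    linarith
  have hrB : ∀ k, B0 * rowN N k + rv N k ≤ B0 := by
    intro k
    have h1 := wc4_le hN hN5 k (k + 1) (k + 2)
    have hB := B0_ge
    have n0 := hN (k + 1) k
    have n1 := hN (k + 2) k
    have n2 := hN (k + 1) (k + 2)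
    have n3 := hN (k + 2) (k + 1)
    have h2 : 0.2132 * (N (k + 1) k + N (k + 2) k + N (k + 1) (k + 2) + N (k + 2) (k + 1)) ≤
        B0 * (N (k + 1) k + N (k + 2) k + N (k + 1) (k + 2) + N (k + 2) (k + 1)) :=
      mul_le_mul_of_nonneg_right hB (by positivity)
    have hT : rowN N k + (N (k + 1) k + N (k + 2) k + N (k + 1) (k + 2) + N (k + 2) (k + 1)) ≤
        1 := by
      refine le_trans (le_of_eq ?_) hTN
      unfold TN rowN
      rw [ek 0, ek 1, ek 2]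
      fin_cases k
      · show N 0 1 + N 0 2 + (N 1 0 + N 2 0 + N 1 2 + N 2 1) =
          N 1 0 + N 2 0 + (N 2 1 + N 0 1) + (N 0 2 + N 1 2)
        ring
      · show N 1 2 + N 1 0 + (N 2 1 + N 0 1 + N 2 0 + N 0 2) =
          N 1 0 + N 2 0 + (N 2 1 + N 0 1) + (N 0 2 + N 1 2)
        ring
      · show N 2 0 + N 2 1 + (N 0 2 + N 1 2 + N 0 1 + N 1 0) =
          N 1 0 + N 2 0 + (N 2 1 + N 0 1) + (N 0 2 + N 1 2)
        ring
    have h3 := mul_le_mul_of_nonneg_left hT (show (0 : ℝ) ≤ B0 by linarith)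
    have h4 : rv N k = wc4 N k (k + 1) (k + 2) := rfl
    rw [h4]
    linarith
  -- strips
  have hκ : ∀ p, kv K0 K1 N p ≤ Pool.Agent.Helper55.Mass.Id (fun t => kap N (vv t) p) := by
    intro p
    have hij : ∀ k m, N k m + N m k ≤ 1 := fun k m => by
      have := hN5 k m
      have := hN5 m k
      linarith
    have c1 : N p (p + 1) * N (p + 1) p + N p (p + 2) * N (p + 2) p ≤ 1 := by
      have a1 := hN5 p (p + 1)
      have a2 := hN5 (p + 1) p
      have a3 := hN5 p (p + 2)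
      have a4 := hN5 (p + 2) p
      have b1 := hN p (p + 1)
      have b2 := hN (p + 1) p
      have b3 := hN p (p + 2)
      have b4 := hN (p + 2) p
      nlinarith
    have km := kap_mass hN hc hcol hd (e := e) (ne1 p) (ne2 p) (ne3 p) c1
      ((hN' _ _).trans he) ((hN' _ _).trans he) ((hN5 _ _).trans (by norm_num))
      ((hN5 _ _).trans (by norm_num))
    refine le_trans ?_ km
    have q1 : N p (p + 1) + N (p + 2) (p + 1) ≤ nb := by
      refine le_trans (le_of_eq ?_) (hnc (p + 1))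
      rw [ek]
      fin_cases p
      · show N 0 1 + N 2 1 = N 2 1 + N 0 1
        ring
      · show N 1 2 + N 0 2 = N 0 2 + N 1 2
        ring
      · show N 2 0 + N 1 0 = N 1 0 + N 2 0
        ring
    have q2 : N p (p + 2) + N (p + 1) (p + 2) ≤ nb := by
      refine le_trans (le_of_eq ?_) (hnc (p + 2))
      rw [ek]
      fin_cases p
      · show N 0 2 + N 1 2 = N 0 2 + N 1 2
        ring
      · show N 1 0 + N 2 0 = N 1 0 + N 2 0
        ring
      · show N 2 1 + N 0 1 = N 2 1 + N 0 1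
        ring
    exact hK _ _ _ _ (hN _ _) (hN _ _) (hN _ _) (hN _ _) q1 q2
  have hAρ : ∀ p, (A / 2 + 1 / 8) * (ρ p / (A / 2 + 1 / 8)) = ρ p := fun p =>
    mul_div_cancel₀ _ hA'.ne'
  have hm0 : ∀ p, 0 ≤ km (A / 2 + 1 / 8) (kv K0 K1 N) ρ p := fun p =>
    le_min (hκ0 p) (div_nonneg (hρ p).le hA'.le)
  have hm1 : ∀ p, (A / 2 + 1 / 8) * km (A / 2 + 1 / 8) (kv K0 K1 N) ρ p ≤ ρ p := fun p => by
    exact (mul_le_mul_of_nonneg_left (min_le_right _ _) hA'.le).trans (hAρ p).le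
  have hm2 : ∀ p, km (A / 2 + 1 / 8) (kv K0 K1 N) ρ p ≤
      Pool.Agent.Helper55.Mass.Id (fun t => kap N (vv t) p) := fun p =>
    (min_le_left _ _).trans (hκ p)
  -- share
  have hT0 := TN_nonneg hN
  have hD : 0 < 1 - TN N ^ 2 / 4 := by nlinarith
  have hF' : ∀ p, ρ p - (A / 2 + 1 / 8) * km (A / 2 + 1 / 8) (kv K0 K1 N) ρ p ≤
      φ * ((A / 2 + 1 / 8) * Pool.Agent.Helper55.Mass.Id (flP (PN N) p)) := by
    intro p
    have hI : 0 ≤ Pool.Agent.Helper55.Mass.Id (flP (PN N) p) := by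
      unfold Pool.Agent.Helper55.Mass.Id
      refine mul_nonneg (by positivity) (setIntegral_nonneg
        Pool.Agent.Helper55.Sx.Sim_meas fun t ht => ?_)
      exact div_nonneg (flP_nonneg p t) (by positivity)
    rcases le_total (kv K0 K1 N p) (ρ p / (A / 2 + 1 / 8)) with hc1 | hc1
    · have e0 : km (A / 2 + 1 / 8) (kv K0 K1 N) ρ p = kv K0 K1 N p := min_eq_left hc1
      rw [e0]
      have hκρ : (A / 2 + 1 / 8) * kv K0 K1 N p ≤ ρ p := by
        exact (mul_le_mul_of_nonneg_left hc1 hA'.le).trans (hAρ p).le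
      have h1 := phi_ok hN hd hc hcol hA' (ρ := ρ p - (A / 2 + 1 / 8) * kv K0 K1 N p)
        (sub_nonneg.2 hκρ) (by linarith) p
      have h2 : phiN (A / 2 + 1 / 8) (ρ p - (A / 2 + 1 / 8) * kv K0 K1 N p) (TN N) (QN N) ≤
          φ := by
        unfold phiN
        rw [div_le_iff₀ (mul_pos hA' hD)]
        exact hF p
      exact h1.trans (mul_le_mul_of_nonneg_right h2 (mul_nonneg hA'.le hI))
    · have e0 : km (A / 2 + 1 / 8) (kv K0 K1 N) ρ p = ρ p / (A / 2 + 1 / 8) := min_eq_right hc1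
      rw [e0, hAρ, sub_self]
      exact mul_nonneg hφ0.le (mul_nonneg hA'.le hI)
  obtain ⟨H, hH⟩ := exists_plane hN hc hcol (Rv tt N)
  have key := face_numU P h v hz τ hX hA hl hδ hdE hdm hdd hρ hMρ hx hxs hNd hR0
    hRd hm0 hm1 hm2 hφ0 hφ1 hF' hr hH hU
  have hpl := corX_le hN hd hc hcol (A' := A / 2 + 1 / 8) hA'.le (R := Rv tt N) (H := H)
    (S := fun k => S (τ k.succ)) (r := rv N) hH hR0 hr0 (fun k => v.nn _)
    (show (4 / 5 : ℝ) < 1 by norm_num) hrow hrB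
  intro ζp z1 z2 lamM l1 l2 g g1 g2 cst hW
  have kk := key ζp z1 z2 lamM l1 l2 g g1 g2 cst hW
  rw [arcS_km hA' (fun p => (hρ p).le) hR0 (fun k => v.nn _)] at kk
  have e1 : τ (Fin.succ 0) = τ 1 := rfl
  have e2 : τ (Fin.succ 1) = τ 2 := rfl
  have e3 : τ (Fin.succ 2) = τ 3 := rfl
  beta_reduce at hpl
  rw [e1, e2, e3] at hpl
  unfold VF
  linarith

end Pool.Agent.Helper73.MEI.ArCor
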