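import Pool.Agent.Helper73.MEI.FW3
import Pool.Agent.Helper55.MEI.Tent7

/-!
# The row of a face: certificates at the vertices and the cost give the value of the face

`cls_VF` = the class of the position of the apex and the mass of its tent; `row_face`.
-/

set_option autoImplicit false

namespace Pool.Agent.Helper73.MEI.ArCor

open Set Metric MeasureTheory Helper80.CW Helper82.CW Helper14.CW Helper93.MEI Helper82.M2
open Helper14.MEI2 Pool.Agent.Helper52.MEI Pool.Agent.Helper73.MEI Helper37.MEI Helper41.MEI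
open Helper33.MEI (Wi)
open Pool.Agent.Helper55.Mass (LN vv vv_nonneg B0 B0_ge)
open Pool.Agent.Helper55.Apex (nc)
open Pool.Agent.Helper55.ApexP (PN alP alP_nonneg alP_zeta mu_bal)
open Pool.Agent.Helper55.TentL (PC PX apex_four)
open Pool.Agent.Helper73.MEI.SideP
open Pool.Agent.Helper96.Kap (kap kapL)
open Pool.Agent.Helper31.SR
open Helper78.MEI
open Pool.Agent.Helper73.MEI.ZEl
open Helper75.MEI2 (mu vt Qf)
open scoped RealInnerProductSpace ENNReal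

variable {a : Fin 4 → E3} {K : Set E3} {S : Fin 4 → ℝ} {σ : Measure (E3 × E3)}
  {c : Fin 4 → E3} {z : Fin 4 → Fin 4 → E3} {X rm qm nb ρ1 Rb gg ε k1 k12 t2 δ : ℝ}

/-- the class of the position of the apex: in the cone, or a coordinate is not positive -/
def ClsB (a : Fin 4 → E3) (τ : Equiv.Perm (Fin 4)) (x : E3) (N : Fin 3 → Fin 3 → ℝ) :
    Option (Fin 3) → Prop
  | none => ∀ k, 0 ≤ zc (fun i => a (τ i)) N x k
  | some l => zc (fun i => a (τ i)) N x l ≤ 0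

/-- the mass of the tent by classes, weight `g` -/
def MasB (A' s r V φ g : ℝ) (N : Fin 3 → Fin 3 → ℝ) : Option (Fin 3) → Prop
  | none => g * √(1 + s) ≤ A' * (1 - φ) * (1872 / 10000 * PC N)
  | some l => g * (r + nc N l * V) ≤ A' * (1 - φ) * (192 / 1000 * PX N l)

/-- **the class of the apex and its tent** -/
theorem cls_VF (h : CN K σ a c) (v : Viol K a S) (hz : CV a K z) (τ : Equiv.Perm (Fin 4))
    (hX : S (τ 0) + (S (τ 1) + S (τ 2) + S (τ 3)) ≤ X) (hX1 : X ≤ 1 / 3)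
    {x : E3} (hx : x ∈ K) (hxs : Qv a (τ 0) x = S (τ 0))
    {N : Fin 3 → Fin 3 → ℝ} (hNd : N = NM (fun i => a (τ i)) (fun i j => z (τ i) (τ j)))
    (ht : ∀ k, nc N k ≤ 1 / 2) {r V : ℝ} (hr0 : 0 < r) (hr : 9 / 8 + 3 / 4 * X ≤ r ^ 2)
    (hV0 : 0 ≤ V) (hV : 3 / 8 + X / 4 - X ^ 2 / 8 ≤ (V + (1 - X) / 2) ^ 2) (hVr : V ≤ 1 / 4 * r) :
    ∃ cl, ClsB a τ x N cl ∧ ∃ ζp : Fin 3 → ℝ, (∀ k, 0 < ζp k) ∧
      (∀ k, zc (fun i => a (τ i)) N x k ≤ ζp k) ∧
      ∀ A' φ g, 0 ≤ A' → φ ≤ 1 → 0 ≤ g → MasB A' (S (τ 0)) r V φ g N cl →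
        g ≤ A' * ((1 - φ) * Pool.Agent.Helper55.Mass.Id (alP N ζp)) := by
  have h' := h.perm τ
  have v' := viol_perm v τ
  have hz' := hz.perm τ
  have hN : ∀ k m, 0 ≤ N k m := fun k m => by
    rw [hNd]
    exact NM_nonneg h' v' hz' k m
  have hd : ∀ k, N k k = 0 := fun k => by
    rw [hNd]
    exact NM_diag k
  have hcol : ∀ m, nc N m ≤ 9 / 10 := fun m => by
    rw [hNd]
    exact nc_le h' v' hz' m
  have hc : (9 / 10 : ℝ) < 1 := by norm_num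
  set u : Fin 3 → ℝ := b3 (fun i => a (τ i)) x with hu
  have cx := coords (a := fun i => a (τ i)) h'.ha (h'.hp x hx) (S := fun k => S (τ k.succ))
    (v'.le 1 x hx) (v'.le 2 x hx) (v'.le 3 x hx)
  have u0 : u 0 = bar (fun i => a (τ i)) 1 x := rfl
  have u1 : u 1 = bar (fun i => a (τ i)) 2 x := rfl
  have u2 : u 2 = bar (fun i => a (τ i)) 3 x := rfl
  rw [← u0, ← u1, ← u2] at cx
  have hq : Qv (fun i => a (τ i)) 0 x = S (τ 0) := hxs
  rw [hq] at cx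
  obtain ⟨cf, ⟨cu0, cu1, cu2⟩, ⟨cc0, cc1, cc2⟩⟩ := cx
  have s0 : 0 ≤ S (τ 0) := v.nn _
  have s1 : 0 ≤ S (τ 1) := v.nn _
  have s2 : 0 ≤ S (τ 2) := v.nn _
  have s3 : 0 ≤ S (τ 3) := v.nn _
  have e1 : τ (Fin.succ 0) = τ 1 := rfl
  have e2 : τ (Fin.succ 1) = τ 2 := rfl
  have e3 : τ (Fin.succ 2) = τ 3 := rfl
  rw [e1] at cc0
  rw [e2] at cc1
  rw [e3] at cc2
  have hQ : Helper75.MEI2.Qf u = 1 + S (τ 0) := by
    rw [← cf]
    unfold Helper75.MEI2.Qf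
    ring
  have hcap : ∀ k, S (τ 0) - (X - S (τ 0)) ≤ u k + (u 0 + u 1 + u 2) - 1 := by
    intro k
    fin_cases k
    · show S (τ 0) - (X - S (τ 0)) ≤ u 0 + (u 0 + u 1 + u 2) - 1
      linarith
    · show S (τ 0) - (X - S (τ 0)) ≤ u 1 + (u 0 + u 1 + u 2) - 1
      linarith
    · show S (τ 0) - (X - S (τ 0)) ≤ u 2 + (u 0 + u 1 + u 2) - 1
      linarith
  obtain ⟨ζp, z1, z2, z3⟩ := apex_four hN hd hc hcol ht (u := u) (s := S (τ 0))
    (C := X - S (τ 0)) (r := r) (V := V) hQ s0 (by linarith) hcap (by linarith) (by linarith)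
    hr0.le (by nlinarith [sq_nonneg (X - 2 * S (τ 0))]) hV0 (by
      have h2 : 1 / 2 * (1 + S (τ 0)) - (1 + S (τ 0) - (X - S (τ 0))) ^ 2 / 8 - 3 / 8 - X / 4
          + X ^ 2 / 8 = S (τ 0) * (X - S (τ 0)) / 2 := by ring
      have h4 : (V + (1 + S (τ 0) - (X - S (τ 0))) / 2) ^ 2 - (V + (1 - X) / 2) ^ 2 =
          S (τ 0) * (2 * V + (1 - X) + S (τ 0)) := by ring
      have h5 : (X - S (τ 0)) / 2 ≤ 2 * V + (1 - X) + S (τ 0) := by linarith
      have := mul_le_mul_of_nonneg_left h5 s0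
      linarith) hVr
  have hI : 0 ≤ Pool.Agent.Helper55.Mass.Id (alP N ζp) := by
    unfold Pool.Agent.Helper55.Mass.Id
    refine mul_nonneg (by positivity) (setIntegral_nonneg
      Pool.Agent.Helper55.Sx.Sim_meas fun t _ => ?_)
    exact div_nonneg (alP_nonneg z1 t) (by positivity)
  rcases z3 with ⟨p1, p2⟩ | ⟨l, p1, p2⟩
  · refine ⟨none, p1, ζp, z1, z2, fun A' φ g hA hφ hg hM => ?_⟩
    have hM' : g * √(1 + S (τ 0)) ≤ A' * (1 - φ) * (1872 / 10000 * PC N) := hM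
    have hs : 0 < √(1 + S (τ 0)) := Real.sqrt_pos.2 (by linarith)
    have h1 := mul_le_mul_of_nonneg_left p2 (mul_nonneg hA (show 0 ≤ 1 - φ by linarith))
    have h2 : g * √(1 + S (τ 0)) ≤
        A' * ((1 - φ) * Pool.Agent.Helper55.Mass.Id (alP N ζp)) * √(1 + S (τ 0)) := by linarith
    exact le_of_mul_le_mul_right h2 hs
  · refine ⟨some l, p1, ζp, z1, z2, fun A' φ g hA hφ hg hM => ?_⟩
    have hM' : g * (r + nc N l * V) ≤ A' * (1 - φ) * (192 / 1000 * PX N l) := hM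
    have hs : 0 < r + nc N l * V := by
      have := mul_nonneg (nc_nonneg hN l) hV0
      linarith
    have h1 := mul_le_mul_of_nonneg_left p2 (mul_nonneg hA (show 0 ≤ 1 - φ by linarith))
    have h2 : g * (r + nc N l * V) ≤
        A' * ((1 - φ) * Pool.Agent.Helper55.Mass.Id (alP N ζp)) * (r + nc N l * V) := by
      linarith
    exact le_of_mul_le_mul_right h2 hs

/-- the numbers of the statics of a face on a piece -/
structure Stc (X qm nb K0 K1 e rb r V : ℝ) (D tt : Fin 3 → ℝ) : Prop where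
  tt0 : ∀ k, 0 ≤ tt k
  ttD : ∀ k, 2 * D k * (1 + tt k / 2) ^ 2 ≤ tt k ^ 2
  tt1 : tt 0 + tt 1 + tt 2 ≤ 1
  qt : ∀ k, qm * (1 + tt k / 2) ≤ 1
  nb5 : nb ≤ 2 / 5
  nbe : nb ≤ e
  K10 : 0 ≤ K1
  K1n : K1 * nb ≤ K0
  K : ∀ x y p q : ℝ, 0 ≤ x → 0 ≤ y → 0 ≤ p → 0 ≤ q → x + q ≤ nb → y + p ≤ nb →
    K0 * (x + y) - K1 * (y * q + x * p) ≤ kapL e x y p q
  rb0 : 0 < rb
  φ1 : 22.6276 * rb * (35 / 48 + 9 / 16 * (tt 0 + tt 1 + tt 2)
    + 5 / 12 * (tt 0 + tt 1 + tt 2) ^ 2) ^ 2 ≤ 2.04 * (1 - (tt 0 + tt 1 + tt 2) ^ 2 / 4)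
  X3 : X ≤ 1 / 3
  r0 : 0 < r
  rX : 9 / 8 + 3 / 4 * X ≤ r ^ 2
  V0 : 0 ≤ V
  VX : 3 / 8 + X / 4 - X ^ 2 / 8 ≤ (V + (1 - X) / 2) ^ 2
  Vr : V ≤ 1 / 4 * r

/-- the domain of the leaks of a face on a piece -/
def DomF (D tt : Fin 3 → ℝ) (N : Fin 3 → Fin 3 → ℝ) : Prop :=
  ∀ k, dq (N (k + 1) k) (N (k + 2) k) / (1 + tt k / 2) ^ 2 ≤ D k

/-- **THE ROW OF A FACE** (no couplings): certificates at the vertices + cost -/
theorem row_face [IsFiniteMeasure σ]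
    (P : Rn X rm qm nb ρ1 Rb gg ε k1 k12 t2 δ)
    (h : CN K σ a c) (v : Viol K a S) (hz : CV a K z)
    (τ : Equiv.Perm (Fin 4)) (hX : S (τ 0) + (S (τ 1) + S (τ 2) + S (τ 3)) ≤ X)
    {l : Fin 3 → Bool → Bool → E3 × E3 → ℝ} (hl : Lok a l) (hδ : ∀ p, MA σ a l τ p p ≤ 0)
    {ρ : Fin 3 → ℝ} (hρ : ∀ p, 0 < ρ p) (hMρ : ∀ p k, k ≠ p → MA σ a l τ p k ≤ ρ p)
    {rb : ℝ} (hrb : ∀ p, ρ p ≤ rb) {K0 K1 e r V : ℝ} {D tt : Fin 3 → ℝ}
    (T : Stc X qm nb K0 K1 e rb r V D tt)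
    (hDS : ∀ k : Fin 3, S (τ 0) ≤ D k ∨ S (τ k.succ) ≤ D k)
    {ι : Type*} [Fintype ι] {lam : ι → ℝ} (h0 : ∀ w, 0 ≤ lam w) (h1 : ∑ w, lam w = 1)
    {W : ι → Fin 4 → ℝ} (hS : ∀ i, S i = ∑ w, lam w * W w i)
    {mx : Fin 3 → Fin 4} (hmx : ∀ k : Fin 3, mx k = τ 0 ∨ mx k = τ k.succ)
    {g : Option (Fin 3) → (Fin 3 → Fin 3 → ℝ) → ℝ}
    (hg0 : ∀ cl, ∀ N : Fin 3 → Fin 3 → ℝ, (∀ k m, 0 ≤ N k m) → (∀ k, N k k = 0) →
      (∀ k, nc N k ≤ tt k) → 0 ≤ g cl N)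
    (hgM : ∀ cl, ∀ N : Fin 3 → Fin 3 → ℝ, (∀ k m, 0 ≤ N k m) → (∀ k, N k k = 0) →
      (∀ k, nc N k ≤ tt k) →
      MasB 2.04 (S (τ 0)) r V (phiN 2.04 rb (TN N) (QN N)) (g cl N) N cl)
    {μ : Fin 3 → ℝ} (hμ : ∀ k, 0 ≤ μ k)
    {cost : ι → Option (Fin 3) → Fin 3 → Fin 3 → (Fin 3 → Fin 3 → ℝ) → ℝ} {m : ι → ℝ}
    (hC : ∀ w, CertF 2.04 ε k1 (k12 - k1) K0 K1 tt ρ (DomF D tt) g μ (W w (τ 0))
      (fun k => W w (τ k.succ)) (fun k => W w (mx k)) (cost w) (m w))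
    (hW : ∀ x ∈ K, (Qv a (τ 0) x = S (τ 0) ∨ S (τ 0) = 0) → ∀ N : Fin 3 → Fin 3 → ℝ,
      N = NM (fun i => a (τ i)) (fun i j => z (τ i) (τ j)) → ∀ i j : Fin 3, i ≠ j →
      PosB a τ x N tt k1 k12 ε (S (τ 0)) i j → ∀ cl, ClsB a τ x N cl →
      WCF 2.04 σ a K l τ z S x N (Rv tt N) (phiN 2.04 rb (TN N) (QN N))
        (bt 2.04 (kv K0 K1 N) ρ) (fun _ => 0) (fun _ => 0) (∑ w, lam w * cost w cl i j N)) :
    ∃ F : ℝ, LLs σ a l (τ 0) + F ≤ Wi a (τ 0) K σ 3.83 ∧ ∑ w, lam w * m w ≤ F := by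
  have h' := h.perm τ
  have v' := viol_perm v τ
  have hz' := hz.perm τ
  have e204 : (3.83 : ℝ) / 2 + 1 / 8 = 2.04 := by norm_num
  obtain ⟨N, hNd⟩ : ∃ N, N = NM (fun i => a (τ i)) (fun i j => z (τ i) (τ j)) := ⟨_, rfl⟩
  have hN : ∀ k m, 0 ≤ N k m := fun k m => by
    rw [hNd]
    exact NM_nonneg h' v' hz' k m
  have hd : ∀ k, N k k = 0 := fun k => by
    rw [hNd]
    exact NM_diag k
  have C := colsN P h' v' hz' hX
  rw [← hNd] at C
  have htt : ∀ k, nc N k ≤ tt k := by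
    intro k
    refine col_le (D := D k) (nc_nonneg hN k) (T.tt0 k) ?_ (T.ttD k)
    have hp : 0 ≤ 2 * (1 + nc N k / 2) ^ 2 := by positivity
    rcases hDS k with hh | hh
    · have := mul_le_mul_of_nonneg_right hh hp
      linarith [(C k).2.2.2.2.2.2.1]
    · have := mul_le_mul_of_nonneg_right hh hp
      linarith [(C k).2.2.2.2.2.2.2.1]
  have hTN : TN N ≤ tt 0 + tt 1 + tt 2 := by
    unfold TN
    linarith [htt 0, htt 1, htt 2]
  have hTN0 := TN_nonneg hN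
  have hN' : ∀ k m, N k m ≤ nb := by
    intro k m
    refine le_trans ?_ (C m).2.1
    have a0 := hN 0 m
    have a1 := hN 1 m
    have a2 := hN 2 m
    unfold nc
    fin_cases k
    · show N 0 m ≤ N 0 m + N 1 m + N 2 m
      linarith
    · show N 1 m ≤ N 0 m + N 1 m + N 2 m
      linarith
    · show N 2 m ≤ N 0 m + N 1 m + N 2 m
      linarith
  have hκ0 := kv_nonneg hN hN' T.K10 T.K1n
  -- the share
  set φ := phiN 2.04 rb (TN N) (QN N) with hφd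
  have hT2 : TN N < 2 := by linarith [T.tt1]
  have hDp : 0 < 1 - TN N ^ 2 / 4 := by nlinarith
  have hφ0 : 0 < φ := phiN_pos (by norm_num) T.rb0 hTN0 hT2 QN_nonneg
  have hφe : φ * (2.04 * (1 - TN N ^ 2 / 4)) =
      22.6276 * rb * (35 / 48 + 9 / 16 * TN N + 5 / 12 * QN N) ^ 2 := by
    rw [hφd]
    unfold phiN
    exact div_mul_cancel₀ _ (by positivity)
  have hQN := QN_le_sq hN
  have hQ0 : 0 ≤ QN N := QN_nonneg
  have hφ1 : φ ≤ 1 := by
    have hTs : TN N ^ 2 ≤ (tt 0 + tt 1 + tt 2) ^ 2 := pow_le_pow_left₀ hTN0 hTN 2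
    have b1 : (35 / 48 + 9 / 16 * TN N + 5 / 12 * QN N) ^ 2 ≤
        (35 / 48 + 9 / 16 * (tt 0 + tt 1 + tt 2) + 5 / 12 * (tt 0 + tt 1 + tt 2) ^ 2) ^ 2 :=
      pow_le_pow_left₀ (by positivity) (by linarith) 2
    have b2 := mul_le_mul_of_nonneg_left b1 (show 0 ≤ 22.6276 * rb by
      have := T.rb0
      positivity)
    have b3 : φ * (2.04 * (1 - TN N ^ 2 / 4)) ≤ 1 * (2.04 * (1 - TN N ^ 2 / 4)) := by
      rw [hφe]
      have := T.φ1
      linarith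
    exact le_of_mul_le_mul_right b3 (by positivity)
  have hF : ∀ p, 22.6276 * (ρ p - (3.83 / 2 + 1 / 8) * kv K0 K1 N p)
      * (35 / 48 + 9 / 16 * TN N + 5 / 12 * QN N) ^ 2 ≤
      φ * ((3.83 / 2 + 1 / 8) * (1 - TN N ^ 2 / 4)) := by
    intro p
    rw [e204, hφe]
    have b1 : ρ p - 2.04 * kv K0 K1 N p ≤ rb := by
      have := hκ0 p
      have := hrb p
      linarith
    have b2 := mul_le_mul_of_nonneg_right b1
      (sq_nonneg (35 / 48 + 9 / 16 * TN N + 5 / 12 * QN N))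
    linarith
  -- the domain
  have hdom := fun k => dom_VF h v hz τ hNd htt k
  have hDom : DomF D tt N := by
    intro k
    rcases hDS k with hh | hh
    · exact ((hdom k).2.1).trans hh
    · exact ((hdom k).2.2).trans hh
  have hcap : ∀ k, dq (N (k + 1) k) (N (k + 2) k) / (1 + tt k / 2) ^ 2 ≤
      ∑ w, lam w * W w (mx k) := by
    intro k
    rw [← hS]
    rcases hmx k with hh | hh
    · rw [hh]
      exact (hdom k).2.1
    · rw [hh]
      exact (hdom k).2.2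
  obtain ⟨x, hx, hxs⟩ : ∃ x ∈ K, Qv a (τ 0) x = S (τ 0) ∨ S (τ 0) = 0 := by
    rcases v.att (τ 0) with hh | ⟨x, hx, hh⟩
    · obtain ⟨x, hx⟩ := h.ne
      exact ⟨x, hx, Or.inr hh⟩
    · exact ⟨x, hx, Or.inl hh⟩
  obtain ⟨i, j, hij, hU⟩ := pos_VF P h v hz τ hX hx hxs hNd htt T.qt
  have key := face_VFm P h v hz τ hX (A := 3.83) (by norm_num) hl (δ3 := fun _ => 0)
    (dE := fun _ => 0) (dm := fun _ => 0) hδ (fun _ => le_rfl) (fun _ => le_rfl)
    (fun _ => by norm_num) hρ hMρ hx hxs hNd htt T.nb5 (by linarith [T.tt1]) T.nbe T.K hκ0 hφ0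
    hφ1 hF hU
  rw [e204] at key
  have eS : S (τ 0) = ∑ w, lam w * W w (τ 0) := hS _
  have eS' : (fun k : Fin 3 => S (τ k.succ)) = fun k => ∑ w, lam w * W w (τ k.succ) := by
    funext k
    exact hS _
  -- conclusion for a class and a weight
  have fin : ∀ cl, ∑ w, lam w * m w ≤
      VF 2.04 ε k1 (k12 - k1) K0 K1 tt ρ N (g cl N) i j (S (τ 0)) (fun k => S (τ k.succ))
        - ∑ w, lam w * cost w cl i j N := by
    intro cl
    have := cert_glue h0 h1 (s := fun w => W w (τ 0)) (S := fun w k => W w (τ k.succ))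
      (cp := fun w k => W w (mx k)) hμ hC hN hd htt hDom (hcap 0) (hcap 1) (hcap 2) hij cl
    rw [eS, eS']
    exact this
  have hxs0 := hxs
  rcases hxs with hxs' | hxs'
  · obtain ⟨cl, hcl, ζp, z1, z2, z3⟩ := cls_VF h v hz τ hX T.X3 hx hxs' hNd (fun k => by
      have := htt k
      have t0 := T.tt0 0
      have t1 := T.tt0 1
      have t2 := T.tt0 2
      exact (C k).2.1.trans (by linarith [T.nb5])) T.r0 T.rX T.V0 T.VX T.Vr
    have hg := z3 2.04 φ (g cl N) (by norm_num) hφ1 (hg0 cl N hN hd htt) (hgM cl N hN hd htt)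
    have kk := key ζp z1 z2 (1 - φ) (by linarith) le_rfl (g cl N) (hg0 cl N hN hd htt) hg
      (∑ w, lam w * cost w cl i j N)
      (hW x hx hxs0 N hNd i j hij hU cl hcl ζp z1 z2)
    refine ⟨VF 2.04 ε k1 (k12 - k1) K0 K1 tt ρ N (g cl N) i j (S (τ 0)) (fun k => S (τ k.succ))
        - ∑ w, lam w * cost w cl i j N, ?_, fin cl⟩
    simp only [add_zero, sub_zero] at kk
    linarith
  · -- no violation: the weight does not matter
    obtain ⟨cl, hcl⟩ : ∃ cl, ClsB a τ x N cl := by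
      by_cases hall : ∀ k, 0 ≤ zc (fun i => a (τ i)) N x k
      · exact ⟨none, hall⟩
      · push Not at hall
        obtain ⟨k, hk⟩ := hall
        exact ⟨some k, hk.le⟩
    have hR00 : ∀ k, Rv tt N k = 0 := fun k => by
      have q1 := (hdom k).1
      have q2 := (C k).2.2.1
      rw [hxs', mul_zero] at q2
      have q3 : 0 ≤ Rv tt N k := by
        unfold Rv dq
        have n1 := hN (k + 1) k
        have n2 := hN (k + 2) k
        have := T.tt0 k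
        positivity
      exact le_antisymm (q1.trans q2) q3
    have kk := key (fun k => max 1 (zc (fun i => a (τ i)) N x k))
      (fun k => lt_of_lt_of_le one_pos (le_max_left _ _)) (fun k => le_max_right _ _)
      0 le_rfl (by linarith) 0 le_rfl (by simp)
      (∑ w, lam w * cost w cl i j N) (fun lam' q1 q2 =>
        hW x hx hxs0 N hNd i j hij hU cl hcl (fun k => max 1 (zc (fun i => a (τ i)) N x k))
          (fun k => lt_of_lt_of_le one_pos (le_max_left _ _)) (fun k => le_max_right _ _) lam' q1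
          (by linarith))
    refine ⟨VF 2.04 ε k1 (k12 - k1) K0 K1 tt ρ N (g cl N) i j (S (τ 0)) (fun k => S (τ k.succ))
        - ∑ w, lam w * cost w cl i j N, ?_, fin cl⟩
    have e5 : VF 2.04 ε k1 (k12 - k1) K0 K1 tt ρ N (g cl N) i j (S (τ 0))
        (fun k => S (τ k.succ)) =
        VF 2.04 ε k1 (k12 - k1) K0 K1 tt ρ N 0 i j (S (τ 0)) (fun k => S (τ k.succ)) := by
      unfold VF
      rw [hR00 i, hR00 j, hxs']
      ring
    rw [e5]
    simp only [add_zero, sub_zero] at kk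
    linarith

end Pool.Agent.Helper73.MEI.ArCor
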