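import Pool.Agent.Helper73.MEI.Star
import Pool.Agent.Helper95.MEI.Fub2
import Pool.Agent.Helper95.MEI.C8
import Pool.Agent.Helper93.MEI.Lnk
import Pool.Agent.Helper72.MEI.Layer
import Pool.Agent.Helper29.MEI.LemX

/-!
# MEI M2, regime I: assembly of the edge part
-/

set_option autoImplicit false

namespace Pool.Agent.Helper73.MEI

open Set MeasureTheory Filter Topology Metric
open Helper80.CW Helper22.Wedge Helper22.Sig Helper14.CW Helper14.MEI2 Helper93.MEI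
open Helper22.MEI (s t Fa Fb Fc FD FD_pos dv_F s_pos)
open Pool.Agent.Helper95.MEI.Cst (AsE AxE dvE fAs fAx vAs vAx K1v K2v dvE_cont cs AxE_eq v_lo)
open Pool.Agent.Helper95.MEI.Fub (Zp mir mir_gram mir_eX mir_eY mir_eW mir_eV mir_Q mir_Pl mir_Zp
  mir_bar mir_perm exc exn exc_eq thmI co_e)
open scoped RealInnerProductSpace ContDiff Real

theorem s_sqrt2 : √2 * s = 1 := by
  unfold s
  have := Real.mul_self_sqrt (show (0:ℝ) ≤ 2 by norm_num)
  linarith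

section single
variable {a : Fin 4 → E3} {K : Set E3} {σ : Measure (E3 × E3)} [IsFiniteMeasure σ]
  {b : OrthonormalBasis (Fin 3) ℝ E3}

theorem EC_Zp (ha : ∀ i j, i ≠ j → dist (a i) (a j) = 1) (hb : Fr a b) :
    {z : E3 × E3 | z.1 ∈ EC b (cen a)} = Zp a 2 3 := by
  ext z
  have h1 := EC_iff ha hb z.1
  show z.1 ∈ EC b (cen a) ↔ (bar a 2 z.1 < 0 ∧ bar a 3 z.1 < 0)
  rw [h1]
  unfold bar
  constructor
  · rintro ⟨h2, h3⟩
    constructor <;> linarith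
  · rintro ⟨h2, h3⟩
    constructor <;> linarith

theorem TE_exc (h : PM K σ) (ha : ∀ i j, i ≠ j → dist (a i) (a j) = 1) (hb : Fr a b) :
    TE b (cen a) σ = ∫ z in Zp a 2 3, exc a z ∂σ := by
  unfold TE
  rw [EC_Zp ha hb]
  refine integral_congr_ae ?_
  filter_upwards [ae_restrict_of_ae h.ae] with z hz
  exact exc_eq (gram_of_dist ha) hb.1 hb.2.1 hb.2.2 hz.2.2.1

theorem flux_raw (c : E3) (h : PM K σ) :
    ∫ z in {z : E3 × E3 | z.1 ∈ EC b c}, ⟪fld b c Fa Fb Fc z.1, z.1 - z.2⟫ ∂σ =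
      ∫ x in K ∩ EC b c, dvF b c x := by
  have h1 := edge_flux_sigma b c h
  unfold TE at h1
  rw [integral_sub (h.integrable
    (fld_cd (n := 0) b c Fa_cdi Fb_cdi Fc_cdi).continuous).integrableOn (integrable_const _),
    setIntegral_const, smul_eq_mul] at h1
  have h2 : ∫ x in K ∩ EC b c, dvF b c x = ∫ x in K ∩ EC b c, dvE b c x := rfl
  rw [h2]
  linarith

theorem mass_le (h : PM K σ) (ha : ∀ i j, i ≠ j → dist (a i) (a j) = 1)
    (hp : ∀ x ∈ K, Pl a x) (hb : Fr a b) {S : Fin 4 → ℝ} (hS0 : ∀ i, 0 ≤ S i)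
    (hS : ∀ i, S i ≤ 0.002) (hQ : ∀ x ∈ K, ∀ i, Qv a i x ≤ S i) :
    σ.real (Zp a 2 3) ≤ 0.1345 := by
  rw [← EC_Zp ha hb]
  have g := gram_of_dist ha
  obtain ⟨⟨x0, y0, w0⟩, ⟨x1, y1, w1⟩, ⟨x2, y2, w2⟩, ⟨x3, y3, w3⟩⟩ := e_vertices g
  have hc := co_e g hb.1 hb.2.1 hb.2.2
  have s2 : √2 / 4 + -(√2 / 2) = -(√2 / 4) := by ring
  refine area12' (a1 := a 0) (a2 := a 1) (a3 := a 2) (a4 := a 3) (s1 := S 0) (s2 := S 1)
    (s3 := S 2) (s4 := S 3) h.cpt (h.ae.mono fun z hz => ⟨hz.1, hz.2.1, hz.2.2.1⟩) ?_ ?_ ?_ ?_ ?_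
    (fun x hx => hQ x hx 0) (fun x hx => hQ x hx 1) (fun x hx => hQ x hx 2)
    (fun x hx => hQ x hx 3) (hS0 0) (hS0 1) (hS0 2) (hS0 3) (hS 0) (hS 1) (hS 2) (hS 3)
    (flux_raw _ h)
  · intro x hx
    rw [hc]
    exact (pl_e g (hp x hx)).2.1
  · rw [hc, x0, y0, w0, add_zero]; rfl
  · rw [hc, x1, y1, w1, add_zero]
    have : (-1 / 2 : ℝ) = -(1 / 2) := by norm_num
    rw [this]; rfl
  · rw [hc, x2, y2, w2, s2]; rfl
  · rw [hc, x3, y3, w3, s2]
    have : (-1 / 2 : ℝ) = -(1 / 2) := by norm_num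
    rw [this]; rfl

/-- missing core -/
theorem xi_le (hK : IsCompact K) (ha : ∀ i j, i ≠ j → dist (a i) (a j) = 1)
    (hull : ∀ p, (∀ q ∈ K, ‖p - q‖ ≤ 1) → p ∈ K)
    (hb : Fr a b) {S : Fin 4 → ℝ} (hS0 : ∀ i, 0 ≤ S i) (hQ : ∀ x ∈ K, ∀ i, Qv a i x ≤ S i) :
    xiE b (cen a) K ≤ 0.0363 * (S 0 + S 1) := by
  have g := gram_of_dist ha
  have hc := co_e g hb.1 hb.2.1 hb.2.2
  have hsub : AxE b (cen a) \ K ⊆ {x | co b (cen a) x ∈ Helper72.MEI.Lay (S 0) (S 1)} := by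
    rintro x ⟨hx, hxK⟩
    rw [AxE_eq] at hx
    obtain ⟨h1, h2⟩ := hx
    have h3 : (cs b (cen a) x).1 = (co b (cen a) x).1 := rfl
    have h4 : (cs b (cen a) x).2.1 = (co b (cen a) x).2.1 := rfl
    have h5 : (cs b (cen a) x).2.2 = (co b (cen a) x).2.2 - t := rfl
    have ht : t = √2 / 4 := rfl
    simp only [mem_ofPred_eq] at h2
    rw [h3, h4, h5, hc, ht] at h2
    simp only [add_sub_cancel_left] at h2
    have eR2 := Helper29.MEI.eR_sq a x
    have hspin : eX a x ^ 2 + Helper29.MEI.eR a x ^ 2 + √3 * Helper29.MEI.eR a x ≤ 1 / 4 := by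
      rw [eR2]
      show eX a x ^ 2 + (eY a x ^ 2 + eW a x ^ 2) + √3 * √(eY a x ^ 2 + eW a x ^ 2) ≤ 1 / 4
      linarith
    have hX := Helper29.MEI.spindle_x hspin
    have hl := Helper29.MEI.layer g hull (fun q hq => hQ q hq 0) (fun q hq => hQ q hq 1) hX hxK
    have hrr : Helper72.MEI.rr (co b (cen a) x) = Helper29.MEI.eR a x := by
      rw [hc]
      unfold Helper72.MEI.rr Helper29.MEI.eR
      simp only [add_sub_cancel_left]
    have hec : |(co b (cen a) x).2.1| < s * ((co b (cen a) x).2.2 - t) := h1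
    show |(co b (cen a) x).1| ≤ 1 / 2 ∧ √2 * |(co b (cen a) x).2.1| ≤
      (co b (cen a) x).2.2 - √2 / 4 ∧ _ ∧ _
    refine ⟨?_, ?_, ?_, ?_⟩
    · rw [hc]; exact hX
    · have h6 := mul_lt_mul_of_pos_left hec (show (0:ℝ) < √2 by positivity)
      have h7 : √2 * (s * ((co b (cen a) x).2.2 - t)) = (co b (cen a) x).2.2 - t := by
        rw [← mul_assoc, s_sqrt2, one_mul]
      rw [h7, ht] at h6
      exact h6.le
    · rw [hrr, hc]; exact hspin
    · unfold Helper72.MEI.eta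
      rw [hrr, hc]
      unfold Helper29.MEI.mu0 Helper29.MEI.mu1 at hl
      simp only
      linarith
  have hv : volume (AxE b (cen a) \ K) ≤ ENNReal.ofReal (0.0363 * (S 0 + S 1)) := by
    refine (measure_mono hsub).trans ?_
    rw [vol_co b (cen a) _ (Helper72.MEI.Lay_meas (S 0) (S 1))]
    exact Helper72.MEI.layer (hS0 0) (hS0 1)
  have hS01 : 0 ≤ S 0 + S 1 := add_nonneg (hS0 0) (hS0 1)
  exact ENNReal.toReal_le_of_le_ofReal (by positivity) hv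

theorem lE_le (c : E3) : lE b c K ≤ vAs - vAx := by
  rw [← vol_lens b c]
  unfold lE
  exact measureReal_mono diff_subset
    (ne_top_of_le_ne_top (AsE_fin b c) (measure_mono diff_subset))

end single

section pair
variable {a : Fin 4 → E3} {K : Set E3} {σ : Measure (E3 × E3)} [IsFiniteMeasure σ]
  {b b' : OrthonormalBasis (Fin 3) ℝ E3}

theorem mir_dist (ha : ∀ i j, i ≠ j → dist (a i) (a j) = 1) :
    ∀ i j, i ≠ j → dist (mir a i) (mir a j) = 1 := by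
  rw [mir_perm]
  exact fun i j hij => ha _ _ (fun h => hij (Equiv.injective _ h))

theorem mir_cen : cen (mir a) = cen a := by
  rw [mir_perm]; exact cen_perm _

/-- one pair of opposite edges -/
theorem pair_reg1 (h : PM K σ) (ha : ∀ i j, i ≠ j → dist (a i) (a j) = 1)
    (hp : ∀ x ∈ K, Pl a x) (hd : ∀ x ∈ K, ∀ y ∈ K, ‖x - y‖ ≤ 1)
    (hull : ∀ p, (∀ q ∈ K, ‖p - q‖ ≤ 1) → p ∈ K)
    (hb : Fr a b) (hb' : Fr (mir a) b') {S : Fin 4 → ℝ} (hS0 : ∀ i, 0 ≤ S i)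
    (hS : ∀ i, S i ≤ 0.002) (hQ : ∀ x ∈ K, ∀ i, Qv a i x ≤ S i)
    (hA : 12.2 * (lE b (cen a) K - 0.0564 * (S 0 + S 1 + S 2 + S 3)) ≤
      ∫ z in Zp a 2 3, eV a z.2 ∂σ)
    (hA' : 12.2 * (lE b' (cen a) K - 0.0564 * (S 0 + S 1 + S 2 + S 3)) ≤
      ∫ z in Zp (mir a) 2 3, eV (mir a) z.2 ∂σ)
    (hY : |∫ z in Zp a 2 3, (eY a z.1 - eY a z.2) ∂σ| ≤ 0.0045)
    (hY' : |∫ z in Zp (mir a) 2 3, (eY (mir a) z.1 - eY (mir a) z.2) ∂σ| ≤ 0.0045) :
    -(0.0305 * (S 0 + S 1 + S 2 + S 3)) - 0.4 * (0.0363 * (S 0 + S 1 + S 2 + S 3))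
      - ((∫ z in Zp a 2 3, exn a z ∂σ) + ∫ z in Zp (mir a) 2 3, exn (mir a) z ∂σ) ≤
    TE b (cen a) σ + TE b' (cen a) σ
        + 0.4 * ((vAs - vAx) - lE b (cen a) K - lE b' (cen a) K)
        - 0.26 * ((vAs - vAx) - max (lE b (cen a) K) (lE b' (cen a) K))
        - 0.4 * (xiE b (cen a) K + xiE b' (cen a) K) := by
  have ha' := mir_dist ha
  have hp' : ∀ x ∈ K, Pl (mir a) x := fun x hx => mir_Pl (hp x hx)
  have hQ' : ∀ x ∈ K, ∀ i, Qv (mir a) i x ≤ S (Pool.Agent.Helper95.MEI.Fub.mp i) := by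
    intro x hx i
    rw [mir_perm]
    exact hQ x hx _
  have m1 := mass_le h ha hp hb hS0 hS hQ
  have m2 := mass_le h ha' hp' hb' (S := fun i => S (Pool.Agent.Helper95.MEI.Fub.mp i))
    (fun i => hS0 _) (fun i => hS _) hQ'
  have t1 := TE_exc h ha hb
  have t2 := TE_exc h ha' hb'
  have x1 := xi_le h.cpt ha hull hb hS0 hQ
  have x2 := xi_le h.cpt ha' hull hb' (S := fun i => S (Pool.Agent.Helper95.MEI.Fub.mp i))
    (fun i => hS0 _) hQ'
  rw [mir_cen] at t2 x2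
  have x2' : xiE b' (cen a) K ≤ 0.0363 * (S 2 + S 3) := x2
  rw [mir_Zp] at hA' hY' t2 m2 ⊢
  simp only [mir_eV, mir_eY] at hA' hY'
  have hQ2 : ∀ x ∈ K, ∀ i, Qv a i x ≤ 0.002 := fun x hx i => (hQ x hx i).trans (hS i)
  obtain ⟨k1, k2⟩ := thmI (gram_of_dist ha) h.cpt hp hd h.mem hQ2 m1 m2 hY hY'
  rw [← t1, ← t2] at k1 k2
  have i0 := hS0 0
  have i1 := hS0 1
  have i2 := hS0 2
  have i3 := hS0 3
  have k3 := Helper78.MEI.thmI_pos (W := TE b (cen a) σ + TE b' (cen a) σ +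
    ((∫ z in Zp a 2 3, exn a z ∂σ) + ∫ z in Zp a 0 1, exn (mir a) z ∂σ)) hA hA' k2 (by linarith)
  have k4 := Helper78.MEI.pair_cor (C := 900) (v := vAs - vAx) (l := lE b (cen a) K)
    (l' := lE b' (cen a) K) (k := 0.0564 * (S 0 + S 1 + S 2 + S 3))
    (k' := 0.0564 * (S 0 + S 1 + S 2 + S 3))
    (T := TE b (cen a) σ + TE b' (cen a) σ)
    (N := (∫ z in Zp a 2 3, exn a z ∂σ) + ∫ z in Zp a 0 1, exn (mir a) z ∂σ)
    (m := 0.0564 * (S 0 + S 1 + S 2 + S 3)) le_rfl (by linarith [v_lo]) (lE_le _) (lE_le _)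
    (by positivity) (by positivity) (by linarith) (by linarith) (by linarith)
  linarith

end pair

section global
variable {a : Fin 4 → E3} {K : Set E3} {σ : Measure (E3 × E3)} [IsFiniteMeasure σ]
  {B : Fin 3 → Bool → OrthonormalBasis (Fin 3) ℝ E3}

theorem pr_mir (m : Fin 3) : (fun i => a (pr m true i)) = mir (fun i => a (pr m false i)) := by
  funext i
  fin_cases m <;> fin_cases i <;> rfl

/-- **row REG1E** -/
theorem reg1E (h : PM K σ) (ha : ∀ i j, i ≠ j → dist (a i) (a j) = 1)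
    (hp : ∀ x ∈ K, Pl a x) (hd : ∀ x ∈ K, ∀ y ∈ K, ‖x - y‖ ≤ 1)
    (hull : ∀ p, (∀ q ∈ K, ‖p - q‖ ≤ 1) → p ∈ K)
    (hB : ∀ m e, Fr (fun i => a (pr m e i)) (B m e)) {S : Fin 4 → ℝ} (hS0 : ∀ i, 0 ≤ S i)
    (hS : ∀ i, S i ≤ 0.002) (hQ : ∀ x ∈ K, ∀ i, Qv a i x ≤ S i)
    (hA : ∀ m e, 12.2 * (lE (B m e) (cen a) K - 0.0564 * (S 0 + S 1 + S 2 + S 3)) ≤
      ∫ z in Zp (fun i => a (pr m e i)) 2 3, eV (fun i => a (pr m e i)) z.2 ∂σ)
    (hY : ∀ m e, |∫ z in Zp (fun i => a (pr m e i)) 2 3, (eY (fun i => a (pr m e i)) z.1 -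
      eY (fun i => a (pr m e i)) z.2) ∂σ| ≤ 0.0045) :
    -(0.1351 * (S 0 + S 1 + S 2 + S 3))
      - ∑ m, ((∫ z in Zp (fun i => a (pr m false i)) 2 3, exn (fun i => a (pr m false i)) z ∂σ) +
          ∫ z in Zp (fun i => a (pr m true i)) 2 3, exn (fun i => a (pr m true i)) z ∂σ) ≤
    ∑ m, (TE (B m false) (cen a) σ + TE (B m true) (cen a) σ
        + 0.4 * ((vAs - vAx) - lE (B m false) (cen a) K - lE (B m true) (cen a) K)
        - 0.26 * ((vAs - vAx) - max (lE (B m false) (cen a) K) (lE (B m true) (cen a) K))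
        - 0.4 * (xiE (B m false) (cen a) K + xiE (B m true) (cen a) K)) := by
  have key : ∀ m : Fin 3, -(0.0305 * (S 0 + S 1 + S 2 + S 3))
      - 0.4 * (0.0363 * (S 0 + S 1 + S 2 + S 3))
      - ((∫ z in Zp (fun i => a (pr m false i)) 2 3, exn (fun i => a (pr m false i)) z ∂σ) +
          ∫ z in Zp (fun i => a (pr m true i)) 2 3, exn (fun i => a (pr m true i)) z ∂σ) ≤
      TE (B m false) (cen a) σ + TE (B m true) (cen a) σ
        + 0.4 * ((vAs - vAx) - lE (B m false) (cen a) K - lE (B m true) (cen a) K)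
        - 0.26 * ((vAs - vAx) - max (lE (B m false) (cen a) K) (lE (B m true) (cen a) K))
        - 0.4 * (xiE (B m false) (cen a) K + xiE (B m true) (cen a) K) := by
    intro m
    have ha' : ∀ i j, i ≠ j → dist ((fun i => a (pr m false i)) i)
        ((fun i => a (pr m false i)) j) = 1 :=
      fun i j hij => ha _ _ (fun h => hij ((pr m false).injective h))
    have hp' : ∀ x ∈ K, Pl (fun i => a (pr m false i)) x := fun x hx => Pl_perm _ (hp x hx)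
    have hc : cen (fun i => a (pr m false i)) = cen a := cen_perm _
    have hb' : Fr (mir (fun i => a (pr m false i))) (B m true) := by
      rw [← pr_mir]; exact hB m true
    have h1 := hA m false
    have h2 := hA m true
    have h3 := hY m false
    have h4 := hY m true
    have h6 : S (pr m false 0) + S (pr m false 1) + S (pr m false 2) + S (pr m false 3) =
        S 0 + S 1 + S 2 + S 3 := by
      have := Equiv.sum_comp (pr m false) S
      rwa [Fin.sum_univ_four, Fin.sum_univ_four] at this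
    rw [pr_mir] at h2 h4 ⊢
    have h5 := pair_reg1 h ha' hp' hd hull (hB m false) hb'
      (S := fun i => S (pr m false i)) (fun i => hS0 _) (fun i => hS _)
      (fun x hx i => hQ x hx _) (by rw [hc, h6]; exact h1) (by rw [hc, h6]; exact h2) h3 h4
    rw [hc] at h5
    rw [h6] at h5
    exact h5
  have h1 := Finset.sum_le_sum fun m (_ : m ∈ (Finset.univ : Finset (Fin 3))) => key m
  rw [Finset.sum_sub_distrib, Finset.sum_const, Finset.card_univ, Fintype.card_fin] at h1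
  have hs : 0 ≤ S 0 + S 1 + S 2 + S 3 := by
    have := hS0 0
    have := hS0 1
    have := hS0 2
    have := hS0 3
    linarith
  simp only [nsmul_eq_mul, Nat.cast_ofNat] at h1
  refine le_trans ?_ h1
  linarith

/-- regime I: edge part inserted in the master inequality -/
theorem reg1_star (h : PM K σ) (ha : ∀ i j, i ≠ j → dist (a i) (a j) = 1)
    (hp : ∀ x ∈ K, Pl a x) (hz : ∀ᵐ z ∂σ, Pl a z.1 ∧ ∀ k, bar a k z.1 ≠ 0)
    (hd : ∀ x ∈ K, ∀ y ∈ K, ‖x - y‖ ≤ 1)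
    (hull : ∀ p, (∀ q ∈ K, ‖p - q‖ ≤ 1) → p ∈ K)
    (hB : ∀ m e, Fr (fun i => a (pr m e i)) (B m e)) {S : Fin 4 → ℝ} (hS0 : ∀ i, 0 ≤ S i)
    (hS : ∀ i, S i ≤ 0.002) (hQ : ∀ x ∈ K, ∀ i, Qv a i x ≤ S i)
    (hA : ∀ m e, 12.2 * (lE (B m e) (cen a) K - 0.0564 * (S 0 + S 1 + S 2 + S 3)) ≤
      ∫ z in Zp (fun i => a (pr m e i)) 2 3, eV (fun i => a (pr m e i)) z.2 ∂σ)
    (hY : ∀ m e, |∫ z in Zp (fun i => a (pr m e i)) 2 3, (eY (fun i => a (pr m e i)) z.1 -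
      eY (fun i => a (pr m e i)) z.2) ∂σ| ≤ 0.0045) :
    FT a σ + 3.97 * (∑ i, volume.real (K ∩ Wc a i) - 4 * (Om / 3 - √2 / 12))
      - 1.72 * (√2 / 12 - volume.real (K ∩ T0 a)) - 0.1351 * (S 0 + S 1 + S 2 + S 3)
      - ∑ m, ((∫ z in Zp (fun i => a (pr m false i)) 2 3, exn (fun i => a (pr m false i)) z ∂σ) +
          ∫ z in Zp (fun i => a (pr m true i)) 2 3, exn (fun i => a (pr m true i)) z ∂σ) ≤
    4.22 * (volume.real K - Helper82.CW.VM) := by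
  have h1 := star h ha hp hz hB
  have h2 := reg1E h ha hp hd hull hB hS0 hS hQ hA hY
  have h3 : ∀ m, 0 ≤ beE (B m false) (cen a) K + beE (B m true) (cen a) K := fun m =>
    add_nonneg measureReal_nonneg measureReal_nonneg
  have b0 := h3 0
  have b1 := h3 1
  have b2 := h3 2
  rw [Fin.sum_univ_three] at h1 h2 ⊢
  rw [Fin.sum_univ_three] at h2
  linarith

end global

end Pool.Agent.Helper73.MEI
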