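import Pool.Agent.Helper73.MEI.SideN

/-!
# The share of the capacity which pays the arcs, as a number
-/

set_option autoImplicit false

namespace Pool.Agent.Helper73.MEI.SideP

open Set MeasureTheory Matrix Pool.Agent.Helper55.Sx Pool.Agent.Helper55.Mass
open Pool.Agent.Helper55.Fill Pool.Agent.Helper55.Apex
open Pool.Agent.Helper55.ApexP (PN alP)
open Helper75.MEI2 (vt Qf mu TC nn dd qp)

variable {N : Fin 3 → Fin 3 → ℝ}

/-- total leak of the three contact points -/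
def TN (N : Fin 3 → Fin 3 → ℝ) : ℝ := nc N 0 + nc N 1 + nc N 2

/-- sum of the squares of the leaks -/
def QN (N : Fin 3 → Fin 3 → ℝ) : ℝ := nc N 0 ^ 2 + nc N 1 ^ 2 + nc N 2 ^ 2

theorem nc_nonneg (hN : ∀ k m, 0 ≤ N k m) (k : Fin 3) : 0 ≤ nc N k := by
  have a0 := hN 0 k
  have a1 := hN 1 k
  have a2 := hN 2 k
  unfold nc
  linarith

theorem TN_nonneg (hN : ∀ k m, 0 ≤ N k m) : 0 ≤ TN N := by
  have h0 := nc_nonneg hN 0
  have h1 := nc_nonneg hN 1
  have h2 := nc_nonneg hN 2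
  unfold TN
  linarith

theorem mbN_le_T (hN : ∀ k m, 0 ≤ N k m) (hd : ∀ k, N k k = 0) (l : Fin 3) :
    mbN N l ≤ 35 / 48 + 9 / 16 * TN N + 5 / 12 * QN N := by
  have a01 := hN 0 1
  have a02 := hN 0 2
  have a10 := hN 1 0
  have a12 := hN 1 2
  have a20 := hN 2 0
  have a21 := hN 2 1
  have h0 := hd 0
  have h1 := hd 1
  have h2 := hd 2
  have s0 := sq_nonneg (nc N 0)
  have s1 := sq_nonneg (nc N 1)
  have s2 := sq_nonneg (nc N 2)
  have e0 : nc N 0 = N 1 0 + N 2 0 := by unfold nc; linarith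
  have e1 : nc N 1 = N 0 1 + N 2 1 := by unfold nc; linarith
  have e2 : nc N 2 = N 0 2 + N 1 2 := by unfold nc; linarith
  have m0 : mbN N 0 = 35 / 48 + (nc N 0 + nc N 0 ^ 2) / 6
    + 5 / 12 * (nc N 1 + nc N 1 ^ 2 + nc N 2 + nc N 2 ^ 2)
    + (N 0 1 + N 1 0 + N 0 2 + N 2 0) / 16 + 7 / 48 * (N 1 2 + N 2 1) := rfl
  have m1 : mbN N 1 = 35 / 48 + (nc N 1 + nc N 1 ^ 2) / 6
    + 5 / 12 * (nc N 2 + nc N 2 ^ 2 + nc N 0 + nc N 0 ^ 2)
    + (N 1 2 + N 2 1 + N 1 0 + N 0 1) / 16 + 7 / 48 * (N 2 0 + N 0 2) := rfl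
  have m2 : mbN N 2 = 35 / 48 + (nc N 2 + nc N 2 ^ 2) / 6
    + 5 / 12 * (nc N 0 + nc N 0 ^ 2 + nc N 1 + nc N 1 ^ 2)
    + (N 2 0 + N 0 2 + N 2 1 + N 1 2) / 16 + 7 / 48 * (N 0 1 + N 1 0) := rfl
  unfold TN QN
  fin_cases l
  · show mbN N 0 ≤ _
    rw [m0]
    linarith
  · show mbN N 1 ≤ _
    rw [m1]
    linarith
  · show mbN N 2 ≤ _
    rw [m2]
    linarith

/-- the determinant from below -/
theorem det_ge (hN : ∀ k m, 0 ≤ N k m) (hd : ∀ k, N k k = 0) :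
    1 - TN N ^ 2 / 4 ≤ (PN N).det := by
  have a01 := hN 0 1
  have a02 := hN 0 2
  have a10 := hN 1 0
  have a12 := hN 1 2
  have a20 := hN 2 0
  have a21 := hN 2 1
  have h0 := hd 0
  have h1 := hd 1
  have h2 := hd 2
  have p1 := mul_nonneg (mul_nonneg (hN 0 1) (hN 1 2)) (hN 2 0)
  have p2 := mul_nonneg (mul_nonneg (hN 0 2) (hN 1 0)) (hN 2 1)
  have e : TN N = (N 0 1 + N 1 0) + (N 0 2 + N 2 0) + (N 1 2 + N 2 1) := by
    unfold TN nc
    linarith
  rw [Pool.Agent.Helper55.ApexP.PN_det hd, e]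
  nlinarith [sq_nonneg (N 0 1 - N 1 0), sq_nonneg (N 0 2 - N 2 0), sq_nonneg (N 1 2 - N 2 1),
    mul_nonneg (add_nonneg a01 a10) (add_nonneg a02 a20),
    mul_nonneg (add_nonneg a01 a10) (add_nonneg a12 a21),
    mul_nonneg (add_nonneg a02 a20) (add_nonneg a12 a21)]

section
variable (hN : ∀ k m, 0 ≤ N k m) (hd : ∀ k, N k k = 0) {c : ℝ} (hc : c < 1)
  (hcol : ∀ m, nc N m ≤ c)
include hN hd hc hcol

/-- the mass of a side function is positive -/
theorem flN_pos (l : Fin 3) : 0 < Id (flP (PN N) l) := by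
  have h1 := flN_mass hN hd hc hcol l
  have hdp := Pool.Agent.Helper55.ApexP.PN_det_pos hN hd hc hcol
  have hm := mbN_ge hN l
  have hp : 0 < 1 / √2 * ((PN N).det / (16 * mbN N l ^ 2)) := by
    have : 0 < mbN N l := by linarith
    positivity
  linarith

/-- **the share of the capacity which pays an arc**, by bounds of the mean and of the
determinant -/
theorem share_ok {A' ρ C D : ℝ} (hA : 0 < A') (hρ : 0 ≤ ρ) (hD : 0 < D) (hDd : D ≤ (PN N).det)
    (hC : 35 / 48 + 9 / 16 * TN N + 5 / 12 * QN N ≤ C) (l : Fin 3) :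
    ρ ≤ (22.6276 * ρ * C ^ 2 / (A' * D)) * (A' * Id (flP (PN N) l)) := by
  have h1 := flN_mass hN hd hc hcol l
  have hm := mbN_ge hN l
  have hmC : mbN N l ≤ C := (mbN_le_T hN hd l).trans hC
  have hm0 : 0 < mbN N l := by linarith
  have hC0 : 0 < C := by linarith
  have hs : 0 < √2 := by positivity
  have hs2 : √2 ≤ 1.414222 := by
    rw [Real.sqrt_le_left (by norm_num)]
    norm_num
  have h3 : D / (22.6276 * C ^ 2) ≤ Id (flP (PN N) l) := by
    refine le_trans ?_ h1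
    rw [one_div_mul_eq_div, div_div, div_le_div_iff₀ (by positivity) (by positivity)]
    have k1 : mbN N l ^ 2 ≤ C ^ 2 := pow_le_pow_left₀ hm0.le hmC 2
    have k2 : 16 * mbN N l ^ 2 * √2 ≤ 22.6276 * C ^ 2 := by
      calc 16 * mbN N l ^ 2 * √2 ≤ 16 * C ^ 2 * 1.414222 := by
            apply mul_le_mul _ hs2 hs.le (by positivity)
            linarith
        _ ≤ 22.6276 * C ^ 2 := by nlinarith [sq_nonneg C]
    exact mul_le_mul hDd k2 (by positivity) (hD.le.trans hDd)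
  have e : (22.6276 * ρ * C ^ 2 / (A' * D)) * (A' * Id (flP (PN N) l)) =
      ρ * (Id (flP (PN N) l) / (D / (22.6276 * C ^ 2))) := by
    field_simp
  rw [e]
  have h4 : 1 ≤ Id (flP (PN N) l) / (D / (22.6276 * C ^ 2)) :=
    (one_le_div (by positivity)).2 h3
  nlinarith

end

end Pool.Agent.Helper73.MEI.SideP
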