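import Pool.Agent.Helper73.MEI.MA
import Pool.Agent.Helper31.SR.RegII

/-!
# The core statement of a small range from the numbers of the faces

`lossQ_le`, `sum_quad`: the sum of the four prices; `WOK` = the cost of the second order term of
all faces; `coreP_small`.
-/

set_option autoImplicit false

namespace Pool.Agent.Helper73.MEI.ArCor

open Set Metric MeasureTheory Filter Topology Helper80.CW Helper82.CW Helper14.CW Helper93.MEI
open Helper82.M2 Helper14.MEI2 Pool.Agent.Helper52.MEI Pool.Agent.Helper73.MEI Helper37.MEI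
open Helper41.MEI
open Helper33.MEI (Wi)
open Pool.Agent.Helper55.Mass (LN vv B0 B0_ge)
open Pool.Agent.Helper55.Apex (nc)
open Pool.Agent.Helper55.ApexP (PN alP mu_bal)
open Pool.Agent.Helper73.MEI.SideP
open Pool.Agent.Helper96.Kap (kap)
open Pool.Agent.Helper31.SR
open Helper78.MEI
open scoped RealInnerProductSpace ENNReal

/-- the price of a face by its violation and the sum of the others -/
theorem lossQ_le {p q r K1 K2 s : ℝ} {S : Fin 3 → ℝ} (hS : ∀ k, 0 ≤ S k)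
    (hK2 : 0 ≤ K2) :
    lossQ p q r K1 K2 s S ≤ (K1 + 2 * K2) * p ^ 2 * s ^ 2
      + 2 * ((K1 * q + 2 * K2 * r) * p) * s * (S 0 + S 1 + S 2)
      + (K1 * q ^ 2 + 2 * K2 * r ^ 2) * (S 0 + S 1 + S 2) ^ 2 := by
  have s0 := hS 0
  have s1 := hS 1
  have s2 := hS 2
  have h1 : S 0 ^ 2 + S 1 ^ 2 + S 2 ^ 2 ≤ (S 0 + S 1 + S 2) ^ 2 := by
    nlinarith [mul_nonneg s0 s1, mul_nonneg s0 s2, mul_nonneg s1 s2]
  have h2 := mul_le_mul_of_nonneg_left h1 (mul_nonneg hK2 (sq_nonneg (q - r)))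
  have e : (K1 + 2 * K2) * p ^ 2 * s ^ 2
      + 2 * ((K1 * q + 2 * K2 * r) * p) * s * (S 0 + S 1 + S 2)
      + (K1 * q ^ 2 + 2 * K2 * r ^ 2) * (S 0 + S 1 + S 2) ^ 2 - lossQ p q r K1 K2 s S =
      K2 * (q - r) ^ 2 * (S 0 + S 1 + S 2) ^ 2
        - K2 * (q - r) ^ 2 * (S 0 ^ 2 + S 1 ^ 2 + S 2 ^ 2) := by
    unfold lossQ
    ring
  linarith

/-- **the sum of the four prices** -/
theorem sum_quad {α β γ e G w1 w2 : ℝ} {S : Fin 4 → ℝ} (hS : ∀ i, 0 ≤ S i)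
    (h1 : α + 3 * γ ≤ e) (h2 : (α + 6 * β + 9 * γ) / 4 ≤ e) :
    (G - w1 - 3 * w2) * (∑ i, S i) - e * (∑ i, S i) ^ 2 ≤
      ∑ i, ((G - w1) * S i - w2 * ((∑ k, S k) - S i)
        - (α * S i ^ 2 + 2 * β * S i * ((∑ k, S k) - S i) + γ * ((∑ k, S k) - S i) ^ 2)) := by
  have s0 := hS 0
  have s1 := hS 1
  have s2 := hS 2
  have s3 := hS 3
  obtain ⟨T, hT⟩ : ∃ T, T = S 0 + S 1 + S 2 + S 3 := ⟨_, rfl⟩
  obtain ⟨q, hq⟩ : ∃ q, q = S 0 ^ 2 + S 1 ^ 2 + S 2 ^ 2 + S 3 ^ 2 := ⟨_, rfl⟩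
  have e0 : ∑ i, S i = T := by rw [hT]; exact Fin.sum_univ_four _
  have e1 : ∑ i, ((G - w1) * S i - w2 * ((∑ k, S k) - S i)
        - (α * S i ^ 2 + 2 * β * S i * ((∑ k, S k) - S i) + γ * ((∑ k, S k) - S i) ^ 2)) =
      (G - w1 - 3 * w2) * T - (α - 2 * β + γ) * q - (2 * β + 2 * γ) * T ^ 2 := by
    rw [e0, Fin.sum_univ_four, hq, hT]
    ring
  have q1 : q ≤ T ^ 2 := by
    rw [hq, hT]
    nlinarith [mul_nonneg s0 s1, mul_nonneg s0 s2, mul_nonneg s0 s3, mul_nonneg s1 s2,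
      mul_nonneg s1 s3, mul_nonneg s2 s3]
  have q2 : T ^ 2 / 4 ≤ q := by
    rw [hq, hT]
    nlinarith [sq_nonneg (S 0 - S 1), sq_nonneg (S 0 - S 2), sq_nonneg (S 0 - S 3),
      sq_nonneg (S 1 - S 2), sq_nonneg (S 1 - S 3), sq_nonneg (S 2 - S 3)]
  rw [e1, e0]
  rcases le_total 0 (α - 2 * β + γ) with h | h
  · have k1 := mul_le_mul_of_nonneg_left q1 h
    have k2 := mul_le_mul_of_nonneg_right h1 (sq_nonneg T)
    nlinarith
  · have k1 := mul_le_mul_of_nonpos_left q2 h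
    have k2 := mul_le_mul_of_nonneg_right h2 (sq_nonneg T)
    nlinarith

/-- the two end points are enough -/
theorem quad_end {c0 c1 c3 κ cc e T0 T1 T : ℝ} (h0 : 0 ≤ T0) (hT0 : T0 ≤ T) (hT1 : T ≤ T1)
    (h3 : 0 ≤ c3) (he : 0 ≤ e)
    (k0 : c0 + c1 * T0 + c3 * T0 ^ 3 + 4.08 * κ * T0 ≤ cc * T0 - e * T0 ^ 2)
    (k1 : c0 + c1 * T1 + c3 * T1 ^ 3 + 4.08 * κ * T1 ≤ cc * T1 - e * T1 ^ 2) :
    c0 + c1 * T + c3 * T ^ 3 + 4.08 * κ * T ≤ cc * T - e * T ^ 2 := by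
  rcases eq_or_lt_of_le (hT0.trans hT1) with h | h
  · have : T = T0 := le_antisymm (by rw [h]; exact hT1) hT0
    rw [this]
    exact k0
  · have a0 := mul_le_mul_of_nonneg_left k0 (sub_nonneg.2 hT1)
    have a1 := mul_le_mul_of_nonneg_left k1 (sub_nonneg.2 hT0)
    have b : 0 ≤ (T1 - T) * (T - T0) * (T1 - T0) :=
      mul_nonneg (mul_nonneg (sub_nonneg.2 hT1) (sub_nonneg.2 hT0)) (sub_nonneg.2 h.le)
    have b3 := mul_nonneg h3 (mul_nonneg b (show 0 ≤ T + T0 + T1 by linarith))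
    have b2 := mul_nonneg he b
    have key : (T1 - T0) * (c0 + c1 * T + c3 * T ^ 3 + 4.08 * κ * T) ≤
        (T1 - T0) * (cc * T - e * T ^ 2) := by nlinarith
    exact le_of_mul_le_mul_left key (sub_pos.2 h)

/-- **the cost of the second order term in all faces** (`κ = 0`, no strips, `dE = dm = 0`):
at most `w1 s + w2 (S_1 + S_2 + S_3) + w3 Σ N_jk (s + S_j + S_k)` -/
def WOK (ρ w1 w2 w3 X : ℝ) (P : (Fin 4 → ℝ) → Prop) : Prop :=
  ∀ (K : Set E3) (σ : Measure (E3 × E3)), IsFiniteMeasure σ →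
    ∀ a c : Fin 4 → E3, CN K σ a c → EpsLe c X → ∀ S : Fin 4 → ℝ, Viol K a S → P S →
    ∀ z : Fin 4 → Fin 4 → E3, CV a K z → ∀ τ : Equiv.Perm (Fin 4), ∀ x ∈ K,
    (Qv a (τ 0) x = S (τ 0) ∨ S (τ 0) = 0) →
    ∀ N : Fin 3 → Fin 3 → ℝ, N = NM (fun i => a (τ i)) (fun i j => z (τ i) (τ j)) →
    ∀ R : Fin 3 → ℝ, R = RM (fun i => a (τ i)) (fun i j => z (τ i) (τ j)) →
    ∀ ζp : Fin 3 → ℝ, (∀ k, 0 < ζp k) → (∀ k, zc (fun i => a (τ i)) N x k ≤ ζp k) →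
    ∀ lam, 0 ≤ lam → lam ≤ 1 - phiN 2.04 ρ (TN N) (QN N) →
      WCost a K τ 2.04
        (GM 2.04 N (zc (fun i => a (τ i)) N x) ζp lam
          (fun p t => phiN 2.04 ρ (TN N) (QN N) * flP (PN N) p t)
          (fun p t => kap N (vv t) p) (fun _ => 0) (MB σ a (l2 a) τ)
          (fun p => aE σ a (l2 a) (τ 0) (τ p.succ)) R (fun k => S (τ k.succ)) (S (τ 0)))
        (DM 2.04 N (zc (fun i => a (τ i)) N x) ζp lam
          (fun p t => phiN 2.04 ρ (TN N) (QN N) * flP (PN N) p t)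
          (fun p t => kap N (vv t) p) (fun _ => 0) (MB σ a (l2 a) τ)
          (fun j => 1 / qM (fun i => a (τ i)) (fun i j => z (τ i) (τ j)) j)
          (fun p => Pool.Agent.Helper31.SR.am σ a (l2 a) (τ 0) (τ p.succ)))
        (w1 * S (τ 0) + w2 * (S (τ 1) + S (τ 2) + S (τ 3))
          + w3 * lkS N (fun k => S (τ k.succ)) (S (τ 0)))

variable {X' rm qm nb ρ1 Rb gg ε k1 k12 t2 δ : ℝ}

/-- **core statement on a small range**, no strips -/
theorem coreP_small {c0 c1 c3 : ℝ} (hA : Asm c0 c1 c3) {P : (Fin 4 → ℝ) → Prop}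
    {X κ ρ w1 w2 w3 T0 e Tm r V x0 x1 g0 g1 C1 C2 K1 K2 : ℝ}
    (hκ : 0 ≤ κ) (h3 : 0 ≤ c3) (hρ : 0 < ρ)
    (hP : ∀ (K : Set E3) (σ : Measure (E3 × E3)), IsFiniteMeasure σ →
      ∀ a c : Fin 4 → E3, CN K σ a c → EpsLe c X → ∀ S : Fin 4 → ℝ, Viol K a S → P S →
      T0 ≤ ∑ i, S i ∧ ∑ i, S i ≤ X' ∧ ∀ i, S i ≤ 0.026)
    (hM : ∀ (K : Set E3) (σ : Measure (E3 × E3)), IsFiniteMeasure σ →
      ∀ a c : Fin 4 → E3, CN K σ a c → EpsLe c X → ∀ S : Fin 4 → ℝ, Viol K a S → P S →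
      ∀ (τ : Equiv.Perm (Fin 4)) (p k : Fin 3), k ≠ p → MA σ a (l2 a) τ p k ≤ ρ)
    (hW : WOK ρ w1 w2 w3 X P)
    (R1 : Rng X' rm qm nb ρ1 Rb gg ε k1 k12 t2 δ)
    (R2 : Apx X' qm Tm 2.04 ρ r V x0 x1 g0 g1)
    (R3 : Sml 2.04 ρ g0 g1 k1 (k12 - k1) ε nb Tm w3 C1 C2 K1 K2)
    (he1 : (K1 + 2 * K2) * (g1 + w3) ^ 2
      + 3 * (K1 * (2.04 * 0.1673 + w3) ^ 2 + 2 * K2 * (2.04 * 0.0933) ^ 2) ≤ e)
    (he2 : ((K1 + 2 * K2) * (g1 + w3) ^ 2
      + 6 * ((K1 * (2.04 * 0.1673 + w3) + 2 * K2 * (2.04 * 0.0933)) * (g1 + w3))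
      + 9 * (K1 * (2.04 * 0.1673 + w3) ^ 2 + 2 * K2 * (2.04 * 0.0933) ^ 2)) / 4 ≤ e)
    (hT0 : 0 ≤ T0) (he : 0 ≤ e)
    (k0 : c0 + c1 * T0 + c3 * T0 ^ 3 + 4.08 * κ * T0 ≤
      (g0 * (1 - ε) - w1 - 3 * w2) * T0 - e * T0 ^ 2)
    (kX : c0 + c1 * X' + c3 * X' ^ 3 + 4.08 * κ * X' ≤
      (g0 * (1 - ε) - w1 - 3 * w2) * X' - e * X' ^ 2) :
    CoreP P X κ := by
  refine coreP_K hA hκ fun K σ hσ a c hC hX S hV hPS => ?_
  obtain ⟨t0, t1, t26⟩ := hP K σ hσ a c hC hX S hV hPS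
  obtain ⟨z, hz⟩ := cv_exists hC
  set α := (K1 + 2 * K2) * (g1 + w3) ^ 2 with hα
  set β := (K1 * (2.04 * 0.1673 + w3) + 2 * K2 * (2.04 * 0.0933)) * (g1 + w3) with hβ
  set γ := K1 * (2.04 * 0.1673 + w3) ^ 2 + 2 * K2 * (2.04 * 0.0933) ^ 2 with hγ
  refine ⟨fun i => ((g0 * (1 - ε) - w1) * S i - w2 * ((∑ k, S k) - S i)
        - (α * S i ^ 2 + 2 * β * S i * ((∑ k, S k) - S i) + γ * ((∑ k, S k) - S i) ^ 2)), ?_, ?_⟩
  · intro i
    obtain ⟨τ, rfl⟩ := RegII.exists_perm i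
    have h' := hC.perm τ
    have v' := viol_perm hV τ
    have hz' := hz.perm τ
    have hsum : ∑ k, S k = S (τ 0) + S (τ 1) + S (τ 2) + S (τ 3) := by
      rw [← Equiv.sum_comp τ S, Fin.sum_univ_four]
    have hXs : S (τ 0) + (S (τ 1) + S (τ 2) + S (τ 3)) ≤ X' := by
      rw [hsum] at t1
      linarith
    obtain ⟨x, hx, hxs⟩ : ∃ x ∈ K, Qv a (τ 0) x = S (τ 0) ∨ S (τ 0) = 0 := by
      rcases hV.att (τ 0) with h | ⟨x, hx, h⟩
      · obtain ⟨x, hx⟩ := hC.ne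
        exact ⟨x, hx, Or.inr h⟩
      · exact ⟨x, hx, Or.inl h⟩
    have e204 : (3.83 : ℝ) / 2 + 1 / 8 = 2.04 := by norm_num
    obtain ⟨N, hN⟩ : ∃ N, N = NM (fun i => a (τ i)) (fun i j => z (τ i) (τ j)) := ⟨_, rfl⟩
    obtain ⟨R, hR⟩ : ∃ R, R = RM (fun i => a (τ i)) (fun i j => z (τ i) (τ j)) := ⟨_, rfl⟩
    have hN0 : ∀ k m, 0 ≤ N k m := fun k m => by
      rw [hN]
      exact NM_nonneg h' v' hz' k m
    have hd : ∀ k, N k k = 0 := fun k => by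
      rw [hN]
      exact NM_diag k
    have hR0 : ∀ j, 0 ≤ R j := fun j => by
      rw [hR]
      exact RM_nonneg h' v' hz' j
    have hk0 : ∀ p : Fin 3, (0 : ℝ) ≤ Pool.Agent.Helper55.Mass.Id
        (fun t => kap N (vv t) p) := fun p => by
      unfold Pool.Agent.Helper55.Mass.Id
      refine mul_nonneg (by positivity) (setIntegral_nonneg
        Pool.Agent.Helper55.Sx.Sim_meas fun t ht => ?_)
      have hcol : ∀ m, nc N m ≤ 9 / 10 := fun m => by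
        rw [hN]
        exact nc_le h' v' hz' m
      exact div_nonneg (Pool.Agent.Helper96.Kap.kap_nonneg hN0 (by norm_num : (9 / 10 : ℝ) < 1)
        hcol (fun k => Pool.Agent.Helper55.Mass.vv_nonneg ht k) p) (by positivity)
    have R2' : Apx X' qm Tm (3.83 / 2 + 1 / 8) ρ r V x0 x1 g0 g1 := by
      rw [e204]
      exact R2
    obtain ⟨i, j, hij, key⟩ := face_fv R1 hC hV hz τ hXs (A := 3.83) (by norm_num)
      (l := l2 a) (l2_ok hC.ha) (δ3 := fun _ => 0) (dE := fun _ => 0) (dm := fun _ => 0)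
      (fun p => (MA_third hC.ha hC.cpt hC.pm.mem hC.hp τ
        (fun y hy => (hV.le _ y hy).trans (t26 _)) p).le) (fun _ => le_rfl) (fun _ => le_rfl)
      (fun _ => by norm_num) hρ (hM K σ hσ a c hC hX S hV hPS τ) R2' hx hxs hN hR
      (κ := fun _ => 0) (fun _ => le_rfl) (fun _ => by simpa using hρ.le) hk0
      (cst := w1 * S (τ 0) + w2 * (S (τ 1) + S (τ 2) + S (τ 3))
          + w3 * lkS N (fun k => S (τ k.succ)) (S (τ 0)))
      (fun ζp z1 z2 lam q1 q2 => by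
        have hw := hW K σ hσ a c hC hX S hV hPS z hz τ x hx hxs N hN R hR ζp z1 z2 lam q1
          (by rw [← e204]; exact q2)
        rw [e204]
        simp only [mul_zero, zero_div, sub_zero]
        exact hw)
    have hT := TN_le R1 h' v' hz' hXs R2.Tm0 R2.TmX
    rw [← hN] at hT
    have C := cols R1 h' v' hz' hXs
    rw [← hN, ← hR] at C
    have low := num_low hN0 hd R3 hρ.le (R := R) (S := fun k => S (τ k.succ)) (s := S (τ 0))
      (hV.nn _) (fun k => hV.nn _) hR0 (fun k => (C k).2.1) (fun k => (C k).2.2.2.2.2.1) hT hij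
    have hT00 := TN_nonneg hN0
    have hg : 0 ≤ g0 - g1 * TN N := by
      have := mul_le_mul_of_nonneg_left hT R3.g10
      linarith [R3.gT]
    have kk := key (g0 - g1 * TN N) hg (Or.inr le_rfl)
    have lq := lossQ_le (p := g1 + w3) (q := 2.04 * 0.1673 + w3) (r := 2.04 * 0.0933)
      (K1 := K1) (K2 := K2) (s := S (τ 0)) (S := fun k => S (τ k.succ)) (fun k => hV.nn _)
      R3.K20
    rw [e204] at kk
    have e1 : τ (Fin.succ 0) = τ 1 := rfl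
    have e2 : τ (Fin.succ 1) = τ 2 := rfl
    have e3 : τ (Fin.succ 2) = τ 3 := rfl
    beta_reduce at lq
    rw [e1, e2, e3, ← hα, ← hβ, ← hγ] at lq
    have hs3 : (∑ k, S k) - S (τ 0) = S (τ 1) + S (τ 2) + S (τ 3) := by
      rw [hsum]
      ring
    beta_reduce
    rw [hs3]
    linarith
  · have h1 := sum_quad (G := g0 * (1 - ε)) (w1 := w1) (w2 := w2) hV.nn he1 he2
    refine le_trans ?_ h1
    have h2 := quad_end hT0 t0 t1 h3 he k0 kX
    have h4 : ∑ i, (c1 * S i + c3 * S i ^ 3) ≤ c1 * (∑ i, S i) + c3 * (∑ i, S i) ^ 3 := by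
      rw [Finset.sum_add_distrib, ← Finset.mul_sum, ← Finset.mul_sum]
      have h5 : ∑ i, S i ^ 3 ≤ (∑ i, S i) ^ 3 := by
        have s0 := hV.nn 0
        have s1 := hV.nn 1
        have s2 := hV.nn 2
        have s3 := hV.nn 3
        rw [Fin.sum_univ_four, Fin.sum_univ_four]
        have hT : 0 ≤ S 0 + S 1 + S 2 + S 3 := by linarith
        have b : ∀ u : ℝ, 0 ≤ u → u ≤ S 0 + S 1 + S 2 + S 3 →
            u ^ 3 ≤ (S 0 + S 1 + S 2 + S 3) ^ 2 * u := by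
          intro u hu hu2
          have := pow_le_pow_left₀ hu hu2 2
          have := mul_le_mul_of_nonneg_right this hu
          calc u ^ 3 = u ^ 2 * u := by ring
            _ ≤ _ := this
        have b0 := b _ s0 (by linarith)
        have b1 := b _ s1 (by linarith)
        have b2 := b _ s2 (by linarith)
        have b3 := b _ s3 (by linarith)
        nlinarith
      have := mul_le_mul_of_nonneg_left h5 h3
      linarith
    linarith

end Pool.Agent.Helper73.MEI.ArCor
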