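import Pool.Agent.Helper73.MEI.Reg1

/-!
# MEI M2, regime II: the edge part (no smallness hypothesis, no product bound)
-/

set_option autoImplicit false

namespace Pool.Agent.Helper73.MEI

open Set MeasureTheory Filter Topology Metric
open Helper80.CW Helper22.Wedge Helper22.Sig Helper14.CW Helper14.MEI2 Helper93.MEI
open Pool.Agent.Helper95.MEI.Cst (vAs vAx)
open Pool.Agent.Helper8.MEI (DD DD_pos)
open Pool.Agent.Helper95.MEI.Fub (Zp mir mir_gram mir_eX mir_eY mir_eW mir_eV mir_Q mir_Pl mir_Zp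
  mir_bar mir_perm exc exn exc_eq int_cont exc_cont exn_cont Zp_meas)
open scoped RealInnerProductSpace ContDiff Real

section single
variable {a : Fin 4 → E3} {K : Set E3} {σ : Measure (E3 × E3)} [IsFiniteMeasure σ]
  {b : OrthonormalBasis (Fin 3) ℝ E3}

theorem exc_ge (ha : ∀ i j, i ≠ j → dist (a i) (a j) = 1) {z : E3 × E3} (hz : Pl a z.1) :
    -exn a z ≤ exc a z := by
  have hx := abs_le.1 (pl_e (gram_of_dist ha) hz).2.1
  have hD := DD_pos (eX a z.1) (eY a z.1) (eW a z.1)
  unfold exn exc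
  rw [← neg_div]
  apply div_le_div_of_nonneg_right _ (by linarith)
  have e1 := le_pp (Qv a 0 z.2)
  have e2 := le_pp (Qv a 1 z.2)
  nlinarith [mul_nonneg (by linarith [hx.1] : 0 ≤ 1 / 2 + 7 * eX a z.1 / 16) (sub_nonneg.2 e1),
    mul_nonneg (by linarith [hx.2] : 0 ≤ 1 / 2 - 7 * eX a z.1 / 16) (sub_nonneg.2 e2)]

/-- the excess of an edge cell is at least minus the integral of the negative part -/
theorem TE_ge (h : PM K σ) (ha : ∀ i j, i ≠ j → dist (a i) (a j) = 1)
    (hp : ∀ x ∈ K, Pl a x) (hb : Fr a b) :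
    -(∫ z in Zp a 2 3, exn a z ∂σ) ≤ TE b (cen a) σ := by
  rw [TE_exc h ha hb, ← integral_neg]
  refine integral_mono_ae (int_cont h.cpt h.mem (exn_cont a)).integrableOn.neg
    (int_cont h.cpt h.mem (exc_cont a)).integrableOn ?_
  filter_upwards [ae_restrict_of_ae h.mem] with z hz
  exact exc_ge ha (hp _ hz.1)

end single

section global
variable {a : Fin 4 → E3} {K : Set E3} {σ : Measure (E3 × E3)} [IsFiniteMeasure σ]
  {B : Fin 3 → Bool → OrthonormalBasis (Fin 3) ℝ E3}

/-- **regime II**: the master inequality with `κ = .13`, the product bound dropped -/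
theorem reg2_star (h : PM K σ) (ha : ∀ i j, i ≠ j → dist (a i) (a j) = 1)
    (hp : ∀ x ∈ K, Pl a x) (hz : ∀ᵐ z ∂σ, Pl a z.1 ∧ ∀ k, bar a k z.1 ≠ 0)
    (hB : ∀ m e, Fr (fun i => a (pr m e i)) (B m e)) :
    FT a σ + 3.7 * (∑ i, volume.real (K ∩ Wc a i) - 4 * (Om / 3 - √2 / 12))
      - 1.45 * (√2 / 12 - volume.real (K ∩ T0 a))
      - 0.13 * ∑ m, (beE (B m false) (cen a) K + beE (B m true) (cen a) K)
      - 0.13 * ∑ m, (xiE (B m false) (cen a) K + xiE (B m true) (cen a) K)
      - 0.39 * (vAs - vAx)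
      - ∑ m, ((∫ z in Zp (fun i => a (pr m false i)) 2 3, exn (fun i => a (pr m false i)) z ∂σ) +
          ∫ z in Zp (fun i => a (pr m true i)) 2 3, exn (fun i => a (pr m true i)) z ∂σ) ≤
    3.95 * (volume.real K - Helper82.CW.VM) := by
  have h1 := star_k 0.13 h ha hp hz hB
  have h2 : ∀ m e, -(∫ z in Zp (fun i => a (pr m e i)) 2 3, exn (fun i => a (pr m e i)) z ∂σ) ≤
      TE (B m e) (cen a) σ := by
    intro m e
    have ha' : ∀ i j, i ≠ j → dist ((fun i => a (pr m e i)) i)
        ((fun i => a (pr m e i)) j) = 1 :=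
      fun i j hij => ha _ _ (fun h => hij ((pr m e).injective h))
    have hp' : ∀ x ∈ K, Pl (fun i => a (pr m e i)) x := fun x hx => Pl_perm _ (hp x hx)
    have hc : cen (fun i => a (pr m e i)) = cen a := cen_perm _
    have h3 := TE_ge h ha' hp' (hB m e)
    rw [hc] at h3
    exact h3
  have h4 : ∀ m, -(0.13 * (vAs - vAx)) ≤
      0.13 * ((vAs - vAx) - lE (B m false) (cen a) K - lE (B m true) (cen a) K)
        - 0.26 * ((vAs - vAx) - max (lE (B m false) (cen a) K) (lE (B m true) (cen a) K)) := by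
    intro m
    rcases le_total (lE (B m false) (cen a) K) (lE (B m true) (cen a) K) with h5 | h5
    · rw [max_eq_right h5]; linarith
    · rw [max_eq_left h5]; linarith
  have f0 := h2 0 false
  have f1 := h2 1 false
  have f2 := h2 2 false
  have t0 := h2 0 true
  have t1 := h2 1 true
  have t2 := h2 2 true
  have g0 := h4 0
  have g1 := h4 1
  have g2 := h4 2
  simp only [Fin.sum_univ_three] at h1 ⊢
  norm_num at h1 ⊢
  linarith

end global

end Pool.Agent.Helper73.MEI
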