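import Pool.Agent.Helper73.MEI.FV3
import Pool.Agent.Helper55.MEI.Tent3

/-!
# The share of the arcs and the line of the apex

`phiN` = the share which pays the arcs, as a function of the leaks; `phi_ok`; `gline` = the weight
of the apex as a line in the total leak.
-/

set_option autoImplicit false

namespace Pool.Agent.Helper73.MEI.ArCor

open Pool.Agent.Helper73.MEI.SideP
open Pool.Agent.Helper55.Apex (nc)
open Pool.Agent.Helper55.ApexP (PN alP)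

/-- the share of the capacity which pays the arcs -/
noncomputable def phiN (A' ρ T Q : ℝ) : ℝ :=
  22.6276 * ρ * (35 / 48 + 9 / 16 * T + 5 / 12 * Q) ^ 2 / (A' * (1 - T ^ 2 / 4))

theorem phiN_pos {A' ρ T Q : ℝ} (hA : 0 < A') (hρ : 0 < ρ) (hT : 0 ≤ T) (hT1 : T < 2)
    (hQ : 0 ≤ Q) : 0 < phiN A' ρ T Q := by
  unfold phiN
  have : 0 < 1 - T ^ 2 / 4 := by nlinarith
  positivity

theorem phiN_mono {A' ρ T Q Q' : ℝ} (hA : 0 < A') (hρ : 0 < ρ) (hT : 0 ≤ T) (hT1 : T < 2)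
    (hQ : 0 ≤ Q) (hQQ : Q ≤ Q') : phiN A' ρ T Q ≤ phiN A' ρ T Q' := by
  unfold phiN
  have hD : 0 < 1 - T ^ 2 / 4 := by nlinarith
  have h1 : (35 / 48 + 9 / 16 * T + 5 / 12 * Q) ^ 2 ≤
      (35 / 48 + 9 / 16 * T + 5 / 12 * Q') ^ 2 :=
    pow_le_pow_left₀ (by positivity) (by linarith) 2
  have h2 := mul_le_mul_of_nonneg_left h1 (show 0 ≤ 22.6276 * ρ by positivity)
  exact div_le_div_of_nonneg_right h2 (by positivity)

section
variable {N : Fin 3 → Fin 3 → ℝ} (hN : ∀ k m, 0 ≤ N k m) (hd : ∀ k, N k k = 0) {c : ℝ}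
  (hc : c < 1) (hcol : ∀ m, nc N m ≤ c)

theorem QN_nonneg : 0 ≤ QN N := by
  unfold QN
  positivity

include hN in
theorem QN_le_sq : QN N ≤ TN N ^ 2 := by
  have h0 := nc_nonneg hN 0
  have h1 := nc_nonneg hN 1
  have h2 := nc_nonneg hN 2
  unfold QN TN
  nlinarith [mul_nonneg h0 h1, mul_nonneg h0 h2, mul_nonneg h1 h2]

include hN in
/-- **the line of the apex** -/
theorem gline {A' ρ g0 g1 x0 x1 I : ℝ} (hA : 0 < A') (hρ : 0 < ρ) (hT : TN N < 2)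
    (hφ : 22.6276 * ρ * (35 / 48 + 9 / 16 * TN N + 5 / 12 * TN N ^ 2) ^ 2 ≤
      A' * (1 - TN N ^ 2 / 4))
    (hx : 0 ≤ x0 - x1 * TN N) (hI : x0 - x1 * TN N ≤ I)
    (hp : 22.6276 * ρ * (35 / 48 + 9 / 16 * TN N + 5 / 12 * TN N ^ 2) ^ 2 * (x0 - x1 * TN N) ≤
      (A' * (x0 - x1 * TN N) - (g0 - g1 * TN N)) * (1 - TN N ^ 2 / 4)) :
    phiN A' ρ (TN N) (QN N) ≤ 1 ∧
    g0 - g1 * TN N ≤ A' * ((1 - phiN A' ρ (TN N) (QN N)) * I) := by
  have hT0 := TN_nonneg hN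
  have hD : 0 < 1 - TN N ^ 2 / 4 := by nlinarith
  have h1 := phiN_mono hA hρ hT0 hT QN_nonneg (QN_le_sq hN)
  set φ := phiN A' ρ (TN N) (TN N ^ 2) with hφd
  have e : φ * (A' * (1 - TN N ^ 2 / 4)) =
      22.6276 * ρ * (35 / 48 + 9 / 16 * TN N + 5 / 12 * TN N ^ 2) ^ 2 := by
    rw [hφd]
    unfold phiN
    rw [div_mul_cancel₀ _ (by positivity)]
  have hφ1 : φ ≤ 1 := by
    rw [← e] at hφ
    have h3 : φ * (A' * (1 - TN N ^ 2 / 4)) ≤ 1 * (A' * (1 - TN N ^ 2 / 4)) := by linarith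
    exact le_of_mul_le_mul_right h3 (by positivity)
  refine ⟨h1.trans hφ1, ?_⟩
  have h2 : g0 - g1 * TN N ≤ A' * (1 - φ) * (x0 - x1 * TN N) := by
    rw [← e] at hp
    have h3 : (g0 - g1 * TN N) * (1 - TN N ^ 2 / 4) ≤
        A' * (1 - φ) * (x0 - x1 * TN N) * (1 - TN N ^ 2 / 4) := by linarith
    exact le_of_mul_le_mul_right h3 hD
  have h3 : A' * (1 - φ) * (x0 - x1 * TN N) ≤
      A' * (1 - phiN A' ρ (TN N) (QN N)) * (x0 - x1 * TN N) := by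
    refine mul_le_mul_of_nonneg_right ?_ hx
    exact mul_le_mul_of_nonneg_left (by linarith) hA.le
  have hφ2 : 0 ≤ 1 - phiN A' ρ (TN N) (QN N) := by linarith [h1.trans hφ1]
  have h5 := mul_le_mul_of_nonneg_left hI (mul_nonneg hA.le hφ2)
  linarith

include hN hd hc hcol

/-- the share is sufficient -/
theorem phi_ok {A' ρ : ℝ} (hA : 0 < A') (hρ : 0 ≤ ρ) (hT : TN N < 2) (l : Fin 3) :
    ρ ≤ phiN A' ρ (TN N) (QN N) * (A' * Pool.Agent.Helper55.Mass.Id (flP (PN N) l)) := by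
  have hT0 := TN_nonneg hN
  have hD : 0 < 1 - TN N ^ 2 / 4 := by nlinarith
  exact share_ok hN hd hc hcol hA hρ hD (det_ge hN hd) le_rfl l

/-- **the mass of the apex from the slabs and caps**, `Σ S ≤ X` -/
theorem apex_X {u S : Fin 3 → ℝ} {s X r V x0 x1 : ℝ}
    (hf : (u 0 ^ 2 + u 1 ^ 2 + u 2 ^ 2 + (u 0 + u 1 + u 2) ^ 2) / 2 = 1 + s)
    (hcap : ∀ k, s - S k ≤ u k + (u 0 + u 1 + u 2) - 1) (hs : 0 ≤ s) (hS : ∀ k, 0 ≤ S k)
    (hX : s + (S 0 + S 1 + S 2) ≤ X) (hX1 : X ≤ 1 / 3) (hr0 : 0 < r)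
    (hr : 9 / 8 + 3 / 4 * X ≤ r ^ 2) (hV0 : 0 ≤ V)
    (hV : 3 / 8 + X / 4 - X ^ 2 / 8 ≤ (V + (1 - X) / 2) ^ 2)
    (h0 : 0 ≤ x0) (h0r : x0 * r ≤ 1872 / 10000) (h1 : x0 * (5 / 4 * r + V) ≤ x1 * r) :
    ∃ ζp : Fin 3 → ℝ, (∀ k, 0 < ζp k) ∧ (∀ k, Helper75.MEI2.mu (PN N) u k ≤ ζp k) ∧
      x0 - x1 * TN N ≤ Pool.Agent.Helper55.Mass.Id (alP N ζp) := by
  have S0 := hS 0
  have S1 := hS 1
  have S2 := hS 2
  have eT : Pool.Agent.Helper55.TentL.TT N = TN N := by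
    have d0 := hd 0
    have d1 := hd 1
    have d2 := hd 2
    unfold Pool.Agent.Helper55.TentL.TT TN nc
    linarith
  rw [← eT]
  refine Pool.Agent.Helper55.TentL.apex_lin hN hd hc hcol (u := u) (s := s) (C := X - s) (r := r)
    (V := V) ?_ hs (by linarith) ?_ (by linarith) (by linarith) hr0 ?_ hV0 ?_ h0 h0r h1
  · rw [← hf]
    unfold Helper75.MEI2.Qf
    ring
  · intro k
    have := hcap k
    have : S k ≤ X - s := by
      fin_cases k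
      · show S 0 ≤ X - s
        linarith
      · show S 1 ≤ X - s
        linarith
      · show S 2 ≤ X - s
        linarith
    linarith
  · nlinarith [sq_nonneg (X - 2 * s)]
  · have h2 : 1 / 2 * (1 + s) - (1 + s - (X - s)) ^ 2 / 8 - 3 / 8 - X / 4 + X ^ 2 / 8 =
        s * (X - s) / 2 := by ring
    have h3 : s * (X - s) / 2 ≤ (V + (1 + s - (X - s)) / 2) ^ 2 - (V + (1 - X) / 2) ^ 2 := by
      have h4 : (V + (1 + s - (X - s)) / 2) ^ 2 - (V + (1 - X) / 2) ^ 2 =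
          s * (2 * V + (1 - X) + s) := by ring
      rw [h4]
      have h5 : (X - s) / 2 ≤ 2 * V + (1 - X) + s := by linarith
      have := mul_le_mul_of_nonneg_left h5 hs
      linarith
    linarith

end

end Pool.Agent.Helper73.MEI.ArCor
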