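import Pool.Agent.Helper73.MEI.SideP
import Pool.Agent.Helper55.MEI.ApexP

/-!
# The side functions with the exact filling: feasibility together with the apex, explicit mass
-/

set_option autoImplicit false

namespace Pool.Agent.Helper73.MEI.SideP

open Set MeasureTheory Matrix Pool.Agent.Helper55.Sx Pool.Agent.Helper55.Mass
open Pool.Agent.Helper55.Fill Pool.Agent.Helper55.Apex
open Pool.Agent.Helper55.ApexP (PN alP)
open Helper75.MEI2 (vt Qf mu TC nn dd qp)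

variable {N : Fin 3 → Fin 3 → ℝ}

/-- explicit upper bound of the mean of the quadratic form against the side function -/
noncomputable def mbN (N : Fin 3 → Fin 3 → ℝ) (l : Fin 3) : ℝ :=
  35 / 48 + (nc N l + nc N l ^ 2) / 6
    + 5 / 12 * (nc N (l + 1) + nc N (l + 1) ^ 2 + nc N (l + 2) + nc N (l + 2) ^ 2)
    + (N l (l + 1) + N (l + 1) l + N l (l + 2) + N (l + 2) l) / 16
    + 7 / 48 * (N (l + 1) (l + 2) + N (l + 2) (l + 1))

theorem mb_le (hN : ∀ k m, 0 ≤ N k m) (hd : ∀ k, N k k = 0) (l : Fin 3) :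
    mb (PN N) l ≤ mbN N l := by
  obtain ⟨n0, n1, n2⟩ := Pool.Agent.Helper55.ApexP.nn_PN hd
  obtain ⟨d01, d02, d12⟩ := Pool.Agent.Helper55.ApexP.dd_PN hd
  have d10 := dd_comm (PN N) 1 0
  have d20 := dd_comm (PN N) 2 0
  have d21 := dd_comm (PN N) 2 1
  have p0 := mul_nonneg (hN 1 0) (hN 2 0)
  have p1 := mul_nonneg (hN 0 1) (hN 2 1)
  have p2 := mul_nonneg (hN 0 2) (hN 1 2)
  fin_cases l
  · show nn (PN N) 0 / 6 + 5 / 12 * (nn (PN N) 1 + nn (PN N) 2)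
        - (dd (PN N) 0 1 + dd (PN N) 0 2) / 16 - 7 / 48 * dd (PN N) 1 2 ≤
      35 / 48 + (nc N 0 + nc N 0 ^ 2) / 6
        + 5 / 12 * (nc N 1 + nc N 1 ^ 2 + nc N 2 + nc N 2 ^ 2)
        + (N 0 1 + N 1 0 + N 0 2 + N 2 0) / 16 + 7 / 48 * (N 1 2 + N 2 1)
    rw [n0, n1, n2]
    linarith
  · show nn (PN N) 1 / 6 + 5 / 12 * (nn (PN N) 2 + nn (PN N) 0)
        - (dd (PN N) 1 2 + dd (PN N) 1 0) / 16 - 7 / 48 * dd (PN N) 2 0 ≤
      35 / 48 + (nc N 1 + nc N 1 ^ 2) / 6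
        + 5 / 12 * (nc N 2 + nc N 2 ^ 2 + nc N 0 + nc N 0 ^ 2)
        + (N 1 2 + N 2 1 + N 1 0 + N 0 1) / 16 + 7 / 48 * (N 2 0 + N 0 2)
    rw [n0, n1, n2, d10, d20]
    linarith
  · show nn (PN N) 2 / 6 + 5 / 12 * (nn (PN N) 0 + nn (PN N) 1)
        - (dd (PN N) 2 0 + dd (PN N) 2 1) / 16 - 7 / 48 * dd (PN N) 0 1 ≤
      35 / 48 + (nc N 2 + nc N 2 ^ 2) / 6
        + 5 / 12 * (nc N 0 + nc N 0 ^ 2 + nc N 1 + nc N 1 ^ 2)
        + (N 2 0 + N 0 2 + N 2 1 + N 1 2) / 16 + 7 / 48 * (N 0 1 + N 1 0)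
    rw [n0, n1, n2, d20, d21]
    linarith

/-- the share loads of the three arcs below the share of the contact coordinates -/
theorem arcs_share' {P : Matrix (Fin 3) (Fin 3) ℝ} {m : Fin 3 → Fin 3 → ℝ} {φ : Fin 3 → ℝ}
    {ρ Φ : ℝ} (hρ : 0 < ρ) (hφ : ∀ l, 0 ≤ φ l) (hΦ : ∀ l, φ l ≤ Φ)
    (hml : ∀ l, m l l ≤ 0) (hmρ : ∀ l k, m l k ≤ ρ) {t : ℝ × ℝ}
    (h : ∀ k, 0 ≤ mu P (vt t) k) (k : Fin 3) :
    φ 0 * flP P 0 t / ρ * m 0 k + φ 1 * flP P 1 t / ρ * m 1 k + φ 2 * flP P 2 t / ρ * m 2 k ≤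
      Φ * mu P (vt t) k := by
  have hΦ0 : 0 ≤ Φ := (hφ 0).trans (hΦ 0)
  have key : ∀ l k, φ l * flP P l t / ρ * m l k ≤ Φ * flP P l t := by
    intro l k
    have h0 := mul_nonneg (hφ l) (flP_nonneg (P := P) l t)
    calc φ l * flP P l t / ρ * m l k ≤ φ l * flP P l t / ρ * ρ :=
          mul_le_mul_of_nonneg_left (hmρ l k) (div_nonneg h0 hρ.le)
      _ = φ l * flP P l t := div_mul_cancel₀ _ hρ.ne'
      _ ≤ Φ * flP P l t := mul_le_mul_of_nonneg_right (hΦ l) (flP_nonneg l t)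
  have key0 : ∀ l, φ l * flP P l t / ρ * m l l ≤ 0 := fun l =>
    mul_nonpos_of_nonneg_of_nonpos
      (div_nonneg (mul_nonneg (hφ l) (flP_nonneg (P := P) l t)) hρ.le) (hml l)
  obtain ⟨p0, p1, p2⟩ := flP_pair h
  have q0 := mul_le_mul_of_nonneg_left p0 hΦ0
  have q1 := mul_le_mul_of_nonneg_left p1 hΦ0
  have q2 := mul_le_mul_of_nonneg_left p2 hΦ0
  rw [mul_add] at q0 q1 q2
  fin_cases k
  · simp only [Fin.zero_eta]
    have h1 := key 1 0
    have h2 := key 2 0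
    have h3 := key0 0
    linarith
  · simp only [Fin.mk_one]
    have h1 := key 0 1
    have h2 := key 2 1
    have h3 := key0 1
    linarith
  · simp only [Fin.reduceFinMk]
    have h1 := key 0 2
    have h2 := key 1 2
    have h3 := key0 2
    linarith

section
variable (hN : ∀ k m, 0 ≤ N k m) (hd : ∀ k, N k k = 0) {c : ℝ} (hc : c < 1)
  (hcol : ∀ m, nc N m ≤ c)
include hN hd hc hcol

/-- **feasibility of the whole system**: the apex on the share `1 - Φ`, the arcs on the share `Φ`,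
below the exact filling -/
theorem share_feas {ζ ζ' : Fin 3 → ℝ} (hζ : ∀ k, 0 < ζ k) (h' : ∀ k, ζ' k ≤ ζ k)
    {m : Fin 3 → Fin 3 → ℝ} {φ : Fin 3 → ℝ} {ρ Φ : ℝ} (hρ : 0 < ρ) (hφ : ∀ l, 0 ≤ φ l)
    (hΦ : ∀ l, φ l ≤ Φ) (hΦ1 : Φ ≤ 1) (hml : ∀ l, m l l ≤ 0) (hmρ : ∀ l k, m l k ≤ ρ)
    {t : ℝ × ℝ} (ht : t ∈ Sim) (k : Fin 3) :
    (1 - Φ) * (alP N ζ t * ζ' k) + (φ 0 * flP (PN N) 0 t / ρ * m 0 k +
      φ 1 * flP (PN N) 1 t / ρ * m 1 k + φ 2 * flP (PN N) 2 t / ρ * m 2 k) ≤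
      xx N (vv t) k := by
  have hΦ0 : 0 ≤ Φ := (hφ 0).trans (hΦ 0)
  have h1 := Pool.Agent.Helper55.ApexP.alP_le hN hd hc hcol hζ h' ht k
  have h3 := mul_le_mul_of_nonneg_left h1 (sub_nonneg.2 hΦ1)
  by_cases h : ∀ k, 0 ≤ mu (PN N) (vt t) k
  · have h2 : xx N (vv t) k = mu (PN N) (vt t) k := by
      rw [← vt_vv, Pool.Agent.Helper55.ApexP.xx_mu hN hd hc hcol h]
    have h4 := arcs_share' (P := PN N) (φ := φ) hρ hφ hΦ hml hmρ h k
    rw [← h2] at h4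
    linarith
  · push Not at h
    rw [flP_zero h, flP_zero h, flP_zero h]
    have h5 := xx_nonneg hN hc hcol (fun k => vv_nonneg ht k) k
    have h6 := mul_nonneg hΦ0 h5
    simp only [mul_zero, zero_div, zero_mul, add_zero]
    linarith

/-- **explicit mass of the arc loads** -/
theorem flN_mass (l : Fin 3) :
    1 / √2 * ((PN N).det / (16 * mbN N l ^ 2)) ≤ Id (flP (PN N) l) :=
  flP_mass_le (Pool.Agent.Helper55.ApexP.PN_nonneg hN)
    (Pool.Agent.Helper55.ApexP.PN_det_pos hN hd hc hcol) l (mb_le hN hd l)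

omit hd hc hcol in
theorem mbN_ge (l : Fin 3) : 35 / 48 ≤ mbN N l := by
  have h : ∀ k, 0 ≤ nc N k := fun k => by
    have a0 := hN 0 k
    have a1 := hN 1 k
    have a2 := hN 2 k
    unfold nc
    linarith
  have h0 := h l
  have h1 := h (l + 1)
  have h2 := h (l + 2)
  have s0 := sq_nonneg (nc N l)
  have s1 := sq_nonneg (nc N (l + 1))
  have s2 := sq_nonneg (nc N (l + 2))
  have a1 := hN l (l + 1)
  have a2 := hN (l + 1) l
  have a3 := hN l (l + 2)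
  have a4 := hN (l + 2) l
  have a5 := hN (l + 1) (l + 2)
  have a6 := hN (l + 2) (l + 1)
  unfold mbN
  linarith

/-- a load of mass `μ` on the arc `l` by the share `μ / mass` -/
theorem pay_mass {A μ : ℝ} (hA : 0 < A) (hμ : 0 ≤ μ) (l : Fin 3) :
    μ ≤ A * (μ / (A * (1 / √2 * ((PN N).det / (16 * mbN N l ^ 2)))) * Id (flP (PN N) l)) := by
  have h1 := flN_mass hN hd hc hcol l
  have hdp := Pool.Agent.Helper55.ApexP.PN_det_pos hN hd hc hcol
  have hm := mbN_ge hN l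
  have hp : 0 < 1 / √2 * ((PN N).det / (16 * mbN N l ^ 2)) := by
    have : 0 < mbN N l := by linarith
    positivity
  set M := 1 / √2 * ((PN N).det / (16 * mbN N l ^ 2)) with hM
  have e : A * (μ / (A * M) * Id (flP (PN N) l)) = μ * (Id (flP (PN N) l) / M) := by
    field_simp
  rw [e]
  have h2 : 1 ≤ Id (flP (PN N) l) / M := (one_le_div hp).2 h1
  nlinarith

end

end Pool.Agent.Helper73.MEI.SideP
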