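import Pool.Agent.Helper73.MEI.FW4

/-!
# The row of a face, share and weight of the apex by alternatives

`DomS` (caps and sum of the caps), `ApxOK`, `CertG` (the weight from a family), `row_faceG`
(third columns `δ3`, `dE`, `dm`, share and weight chosen at the leaks), `row_faceK` (no
couplings).
-/

set_option autoImplicit false

namespace Pool.Agent.Helper73.MEI.ArCor

open Set Metric MeasureTheory Helper80.CW Helper82.CW Helper14.CW Helper93.MEI Helper82.M2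
open Helper14.MEI2 Pool.Agent.Helper52.MEI Pool.Agent.Helper73.MEI Helper37.MEI Helper41.MEI
open Helper33.MEI (Wi)
open Pool.Agent.Helper55.Mass (LN vv vv_nonneg B0 B0_ge)
open Pool.Agent.Helper55.Apex (nc)
open Pool.Agent.Helper55.ApexP (PN alP alP_nonneg alP_zeta mu_bal)
open Pool.Agent.Helper55.TentL (PC PX apex_four)
open Pool.Agent.Helper73.MEI.SideP
open Pool.Agent.Helper96.Kap (kap kapL)
open Pool.Agent.Helper31.SR
open Helper78.MEI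
open Pool.Agent.Helper73.MEI.ZEl
open Helper75.MEI2 (mu vt Qf)
open scoped RealInnerProductSpace ENNReal

variable {a : Fin 4 → E3} {K : Set E3} {S : Fin 4 → ℝ} {σ : Measure (E3 × E3)}
  {c : Fin 4 → E3} {z : Fin 4 → Fin 4 → E3} {X rm qm nb ρ1 Rb gg ε k1 k12 t2 δ : ℝ}

/-- the numbers of the statics of a face on a piece, without the share -/
structure StN (X qm nb K0 K1 e r V : ℝ) (D tt : Fin 3 → ℝ) : Prop where
  tt0 : ∀ k, 0 ≤ tt k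
  ttD : ∀ k, 2 * D k * (1 + tt k / 2) ^ 2 ≤ tt k ^ 2
  tt1 : tt 0 + tt 1 + tt 2 ≤ 1
  qt : ∀ k, qm * (1 + tt k / 2) ≤ 1
  nb5 : nb ≤ 2 / 5
  nbe : nb ≤ e
  K10 : 0 ≤ K1
  K1n : K1 * nb ≤ K0
  K : ∀ x y p q : ℝ, 0 ≤ x → 0 ≤ y → 0 ≤ p → 0 ≤ q → x + q ≤ nb → y + p ≤ nb →
    K0 * (x + y) - K1 * (y * q + x * p) ≤ kapL e x y p q
  X3 : X ≤ 1 / 3
  r0 : 0 < r
  rX : 9 / 8 + 3 / 4 * X ≤ r ^ 2
  V0 : 0 ≤ V
  VX : 3 / 8 + X / 4 - X ^ 2 / 8 ≤ (V + (1 - X) / 2) ^ 2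
  Vr : V ≤ 1 / 4 * r

theorem Stc.stn {K0 K1 e rb r V : ℝ} {D tt : Fin 3 → ℝ} (T : Stc X qm nb K0 K1 e rb r V D tt) :
    StN X qm nb K0 K1 e r V D tt :=
  ⟨T.tt0, T.ttD, T.tt1, T.qt, T.nb5, T.nbe, T.K10, T.K1n, T.K, T.X3, T.r0, T.rX, T.V0, T.VX,
    T.Vr⟩

/-- the domain of the leaks, with the sum of the caps -/
def DomS (D tt : Fin 3 → ℝ) (sg : ℝ) (N : Fin 3 → Fin 3 → ℝ) : Prop :=
  DomF D tt N ∧ dq (N 1 0) (N 2 0) / (1 + tt 0 / 2) ^ 2 + dq (N 2 1) (N 0 1) / (1 + tt 1 / 2) ^ 2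
    + dq (N 0 2) (N 1 2) / (1 + tt 2 / 2) ^ 2 ≤ sg

/-- the share `φ` and the weight `g` of the apex at the leaks `N` in the class `cl` -/
def ApxOK (A' s r V K0 K1 : ℝ) (ρ : Fin 3 → ℝ) (N : Fin 3 → Fin 3 → ℝ) (cl : Option (Fin 3))
    (φ g : ℝ) : Prop :=
  0 < φ ∧ φ ≤ 1 ∧ (∀ p, 22.6276 * (ρ p - A' * kv K0 K1 N p)
    * (35 / 48 + 9 / 16 * TN N + 5 / 12 * QN N) ^ 2 ≤ φ * (A' * (1 - TN N ^ 2 / 4))) ∧
  0 ≤ g ∧ MasB A' s r V φ g N cl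

/-- the certificate of a face at a vertex, the weight of the apex from a family `G` -/
def CertG (A' ε k1 k2 K0 K1 : ℝ) (tt ρ : Fin 3 → ℝ) (Dom : (Fin 3 → Fin 3 → ℝ) → Prop)
    (G : Option (Fin 3) → (Fin 3 → Fin 3 → ℝ) → ℝ → Prop)
    (μ : Fin 3 → ℝ) (s : ℝ) (S cp : Fin 3 → ℝ)
    (cost : Option (Fin 3) → Fin 3 → Fin 3 → (Fin 3 → Fin 3 → ℝ) → ℝ) (m : ℝ) : Prop :=
  ∀ N : Fin 3 → Fin 3 → ℝ, (∀ k m, 0 ≤ N k m) → (∀ k, N k k = 0) → (∀ k, nc N k ≤ tt k) →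
    Dom N → ∀ i j : Fin 3, i ≠ j → ∀ cl : Option (Fin 3), ∀ g, G cl N g →
    m ≤ VF A' ε k1 k2 K0 K1 tt ρ N g i j s S
      + (μ 0 * (dq (N 1 0) (N 2 0) / (1 + tt 0 / 2) ^ 2 - cp 0)
        + μ 1 * (dq (N 2 1) (N 0 1) / (1 + tt 1 / 2) ^ 2 - cp 1)
        + μ 2 * (dq (N 0 2) (N 1 2) / (1 + tt 2 / 2) ^ 2 - cp 2))
      - cost cl i j N

/-- a certificate for a family is a certificate for every choice in the family -/
theorem CertG.cert {A' ε k1 k2 K0 K1 : ℝ} {tt ρ : Fin 3 → ℝ}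
    {Dom : (Fin 3 → Fin 3 → ℝ) → Prop} {G : Option (Fin 3) → (Fin 3 → Fin 3 → ℝ) → ℝ → Prop}
    {μ : Fin 3 → ℝ} {s : ℝ} {S cp : Fin 3 → ℝ}
    {cost : Option (Fin 3) → Fin 3 → Fin 3 → (Fin 3 → Fin 3 → ℝ) → ℝ} {m : ℝ}
    (hC : CertG A' ε k1 k2 K0 K1 tt ρ Dom G μ s S cp cost m)
    {g : Option (Fin 3) → (Fin 3 → Fin 3 → ℝ) → ℝ}
    (hg : ∀ cl, ∀ N : Fin 3 → Fin 3 → ℝ, (∀ k m, 0 ≤ N k m) → (∀ k, N k k = 0) →
      (∀ k, nc N k ≤ tt k) → Dom N → G cl N (g cl N)) :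
    CertF A' ε k1 k2 K0 K1 tt ρ Dom g μ s S cp cost m :=
  fun N h1 h2 h3 h4 i j hij cl => hC N h1 h2 h3 h4 i j hij cl _ (hg cl N h1 h2 h3 h4)

/-- **THE ROW OF A FACE**: share and weight of the apex chosen at the leaks -/
theorem row_faceG [IsFiniteMeasure σ]
    (P : Rn X rm qm nb ρ1 Rb gg ε k1 k12 t2 δ)
    (h : CN K σ a c) (v : Viol K a S) (hz : CV a K z)
    (τ : Equiv.Perm (Fin 4)) (hX : S (τ 0) + (S (τ 1) + S (τ 2) + S (τ 3)) ≤ X)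
    {l : Fin 3 → Bool → Bool → E3 × E3 → ℝ} (hl : Lok a l)
    {δ3 dE dm : Fin 3 → ℝ} (hδ : ∀ p, MA σ a l τ p p ≤ δ3 p) (hdE : ∀ p, 0 ≤ dE p)
    (hdm : ∀ p, 0 ≤ dm p) (hdd : ∀ p, δ3 p ^ 2 ≤ dE p * dm p)
    {ρ : Fin 3 → ℝ} (hρ : ∀ p, 0 < ρ p) (hMρ : ∀ p k, k ≠ p → MA σ a l τ p k ≤ ρ p)
    {K0 K1 e r V : ℝ} {D tt : Fin 3 → ℝ}
    (T : StN X qm nb K0 K1 e r V D tt)
    {mx : Fin 3 → Fin 4} (hmx : ∀ k : Fin 3, mx k = τ 0 ∨ mx k = τ k.succ)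
    (hDS : ∀ k : Fin 3, S (mx k) ≤ D k) {sg : ℝ} (hsg : S (mx 0) + S (mx 1) + S (mx 2) ≤ sg)
    {ι : Type*} [Fintype ι] {lam : ι → ℝ} (h0 : ∀ w, 0 ≤ lam w) (h1 : ∑ w, lam w = 1)
    {W : ι → Fin 4 → ℝ} (hS : ∀ i, S i = ∑ w, lam w * W w i)
    {G : Option (Fin 3) → (Fin 3 → Fin 3 → ℝ) → ℝ → Prop} {Φ : (Fin 3 → Fin 3 → ℝ) → ℝ}
    (hG : ∀ cl, ∀ N : Fin 3 → Fin 3 → ℝ, (∀ k m, 0 ≤ N k m) → (∀ k, N k k = 0) →
      (∀ k, nc N k ≤ tt k) → DomS D tt sg N → (∀ p, 0 ≤ kv K0 K1 N p) →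
      ∃ φ g, φ ≤ Φ N ∧ ApxOK 2.04 (S (τ 0)) r V K0 K1 ρ N cl φ g ∧ G cl N g)
    {μ : Fin 3 → ℝ} (hμ : ∀ k, 0 ≤ μ k)
    {cost : ι → Option (Fin 3) → Fin 3 → Fin 3 → (Fin 3 → Fin 3 → ℝ) → ℝ} {m : ι → ℝ}
    (hC : ∀ w, CertG 2.04 ε k1 (k12 - k1) K0 K1 tt ρ (DomS D tt sg) G μ (W w (τ 0))
      (fun k => W w (τ k.succ)) (fun k => W w (mx k)) (cost w) (m w))
    (hW : ∀ x ∈ K, (Qv a (τ 0) x = S (τ 0) ∨ S (τ 0) = 0) → ∀ N : Fin 3 → Fin 3 → ℝ,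
      N = NM (fun i => a (τ i)) (fun i j => z (τ i) (τ j)) → (∀ k, nc N k ≤ tt k) →
      DomS D tt sg N → ∀ i j : Fin 3, i ≠ j →
      PosB a τ x N tt k1 k12 ε (S (τ 0)) i j → ∀ cl, ClsB a τ x N cl →
      ∀ φ, 0 < φ → φ ≤ Φ N →
      WCF 2.04 σ a K l τ z S x N (Rv tt N) φ
        (bt 2.04 (kv K0 K1 N) ρ) dE dm (∑ w, lam w * cost w cl i j N)) :
    ∃ F : ℝ, LLs σ a l (τ 0) - (dE 0 + dE 1 + dE 2) + F ≤ Wi a (τ 0) K σ 3.83 ∧
      ∑ w, lam w * m w ≤ F := by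
  have h' := h.perm τ
  have v' := viol_perm v τ
  have hz' := hz.perm τ
  have e204 : (3.83 : ℝ) / 2 + 1 / 8 = 2.04 := by norm_num
  obtain ⟨N, hNd⟩ : ∃ N, N = NM (fun i => a (τ i)) (fun i j => z (τ i) (τ j)) := ⟨_, rfl⟩
  have hN : ∀ k m, 0 ≤ N k m := fun k m => by
    rw [hNd]
    exact NM_nonneg h' v' hz' k m
  have hd : ∀ k, N k k = 0 := fun k => by
    rw [hNd]
    exact NM_diag k
  have C := colsN P h' v' hz' hX
  rw [← hNd] at C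
  have hm2 : ∀ k : Fin 3, S (mx k) = S (τ 0) ∨ S (mx k) = S (τ k.succ) := fun k => by
    rcases hmx k with hh | hh
    · left; rw [hh]
    · right; rw [hh]
  have htt : ∀ k, nc N k ≤ tt k := by
    intro k
    refine col_le (D := D k) (nc_nonneg hN k) (T.tt0 k) ?_ (T.ttD k)
    have hp : 0 ≤ 2 * (1 + nc N k / 2) ^ 2 := by positivity
    have := mul_le_mul_of_nonneg_right (hDS k) hp
    rcases hm2 k with hh | hh
    · rw [hh] at this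
      linarith [(C k).2.2.2.2.2.2.1]
    · rw [hh] at this
      linarith [(C k).2.2.2.2.2.2.2.1]
  have hTN : TN N ≤ tt 0 + tt 1 + tt 2 := by
    unfold TN
    linarith [htt 0, htt 1, htt 2]
  have hN' : ∀ k m, N k m ≤ nb := by
    intro k m
    refine le_trans ?_ (C m).2.1
    have a0 := hN 0 m
    have a1 := hN 1 m
    have a2 := hN 2 m
    unfold nc
    fin_cases k
    · show N 0 m ≤ N 0 m + N 1 m + N 2 m
      linarith
    · show N 1 m ≤ N 0 m + N 1 m + N 2 m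
      linarith
    · show N 2 m ≤ N 0 m + N 1 m + N 2 m
      linarith
  have hκ0 := kv_nonneg hN hN' T.K10 T.K1n
  -- the domain
  have hdom := fun k => dom_VF h v hz τ hNd htt k
  have hcap0 : ∀ k, dq (N (k + 1) k) (N (k + 2) k) / (1 + tt k / 2) ^ 2 ≤ S (mx k) := by
    intro k
    rcases hm2 k with hh | hh
    · rw [hh]
      exact (hdom k).2.1
    · rw [hh]
      exact (hdom k).2.2
  have hDom : DomS D tt sg N :=
    ⟨fun k => (hcap0 k).trans (hDS k), le_trans (add_le_add (add_le_add (hcap0 0) (hcap0 1))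
      (hcap0 2)) hsg⟩
  have hcap : ∀ k, dq (N (k + 1) k) (N (k + 2) k) / (1 + tt k / 2) ^ 2 ≤
      ∑ w, lam w * W w (mx k) := by
    intro k
    rw [← hS]
    exact hcap0 k
  obtain ⟨x, hx, hxs⟩ : ∃ x ∈ K, Qv a (τ 0) x = S (τ 0) ∨ S (τ 0) = 0 := by
    rcases v.att (τ 0) with hh | ⟨x, hx, hh⟩
    · obtain ⟨x, hx⟩ := h.ne
      exact ⟨x, hx, Or.inr hh⟩
    · exact ⟨x, hx, Or.inl hh⟩
  obtain ⟨i, j, hij, hU⟩ := pos_VF P h v hz τ hX hx hxs hNd htt T.qt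
  have key := fun φ (hφ0 : 0 < φ) (hφ1 : φ ≤ 1) hF =>
    face_VFm P h v hz τ hX (A := 3.83) (by norm_num) hl hδ hdE hdm hdd hρ hMρ hx hxs hNd htt
      T.nb5 (by linarith [T.tt1]) T.nbe T.K hκ0 (φ := φ) hφ0 hφ1 hF hU
  rw [e204] at key
  have eS : S (τ 0) = ∑ w, lam w * W w (τ 0) := hS _
  have eS' : (fun k : Fin 3 => S (τ k.succ)) = fun k => ∑ w, lam w * W w (τ k.succ) := by
    funext k
    exact hS _
  -- conclusion for a class and a weight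
  have fin : ∀ cl g, G cl N g → ∑ w, lam w * m w ≤
      VF 2.04 ε k1 (k12 - k1) K0 K1 tt ρ N g i j (S (τ 0)) (fun k => S (τ k.succ))
        - ∑ w, lam w * cost w cl i j N := by
    intro cl g hg
    have := cert_glue h0 h1 (s := fun w => W w (τ 0)) (S := fun w k => W w (τ k.succ))
      (cp := fun w k => W w (mx k)) hμ (Dom := fun N' => N' = N) (g := fun _ _ => g)
      (cost := fun w cl' i' j' N' => cost w cl i' j' N')
      (ε := ε) (A' := 2.04) (k1 := k1) (k2 := k12 - k1) (K0 := K0) (K1 := K1) (tt := tt)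
      (ρ := ρ) (m := m)
      (fun w N' q1 q2 q3 q4 i' j' q5 cl' => by
        subst q4
        exact hC w _ q1 q2 q3 hDom i' j' q5 cl g hg) hN hd htt rfl (hcap 0) (hcap 1) (hcap 2)
      hij cl
    rw [eS, eS']
    exact this
  have hxs0 := hxs
  rcases hxs with hxs' | hxs'
  · obtain ⟨cl, hcl, ζp, z1, z2, z3⟩ := cls_VF h v hz τ hX T.X3 hx hxs' hNd (fun k => by
      have := htt k
      have t0 := T.tt0 0
      have t1 := T.tt0 1
      have t2 := T.tt0 2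
      exact (C k).2.1.trans (by linarith [T.nb5])) T.r0 T.rX T.V0 T.VX T.Vr
    obtain ⟨φ, g, f1, ⟨f2, f3, f4, f5, f6⟩, f7⟩ := hG cl N hN hd htt hDom hκ0
    have hg := z3 2.04 φ g (by norm_num) f3 f5 f6
    have kk := key φ f2 f3 f4 ζp z1 z2 (1 - φ) (by linarith) le_rfl g f5 hg
      (∑ w, lam w * cost w cl i j N)
      (hW x hx hxs0 N hNd htt hDom i j hij hU cl hcl φ f2 f1 ζp z1 z2)
    refine ⟨VF 2.04 ε k1 (k12 - k1) K0 K1 tt ρ N g i j (S (τ 0)) (fun k => S (τ k.succ))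
        - ∑ w, lam w * cost w cl i j N, ?_, fin cl g f7⟩
    linarith
  · -- no violation: the weight does not matter
    obtain ⟨cl, hcl⟩ : ∃ cl, ClsB a τ x N cl := by
      by_cases hall : ∀ k, 0 ≤ zc (fun i => a (τ i)) N x k
      · exact ⟨none, hall⟩
      · push Not at hall
        obtain ⟨k, hk⟩ := hall
        exact ⟨some k, hk.le⟩
    obtain ⟨φ, g, f1, ⟨f2, f3, f4, f5, f6⟩, f7⟩ := hG cl N hN hd htt hDom hκ0
    have hR00 : ∀ k, Rv tt N k = 0 := fun k => by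
      have q1 := (hdom k).1
      have q2 := (C k).2.2.1
      rw [hxs', mul_zero] at q2
      have q3 : 0 ≤ Rv tt N k := by
        unfold Rv dq
        have n1 := hN (k + 1) k
        have n2 := hN (k + 2) k
        have := T.tt0 k
        positivity
      exact le_antisymm (q1.trans q2) q3
    have kk := key φ f2 f3 f4 (fun k => max 1 (zc (fun i => a (τ i)) N x k))
      (fun k => lt_of_lt_of_le one_pos (le_max_left _ _)) (fun k => le_max_right _ _)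
      0 le_rfl (by linarith) 0 le_rfl (by simp)
      (∑ w, lam w * cost w cl i j N) (fun lam' q1 q2 =>
        hW x hx hxs0 N hNd htt hDom i j hij hU cl hcl φ f2 f1
          (fun k => max 1 (zc (fun i => a (τ i)) N x k))
          (fun k => lt_of_lt_of_le one_pos (le_max_left _ _)) (fun k => le_max_right _ _) lam' q1
          (by linarith))
    refine ⟨VF 2.04 ε k1 (k12 - k1) K0 K1 tt ρ N g i j (S (τ 0)) (fun k => S (τ k.succ))
        - ∑ w, lam w * cost w cl i j N, ?_, fin cl g f7⟩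
    have e5 : VF 2.04 ε k1 (k12 - k1) K0 K1 tt ρ N g i j (S (τ 0))
        (fun k => S (τ k.succ)) =
        VF 2.04 ε k1 (k12 - k1) K0 K1 tt ρ N 0 i j (S (τ 0)) (fun k => S (τ k.succ)) := by
      unfold VF
      rw [hR00 i, hR00 j, hxs']
      ring
    rw [e5]
    linarith

end Pool.Agent.Helper73.MEI.ArCor
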