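import Pool.Agent.Helper73.MEI.FN1
import Pool.Agent.Helper73.MEI.FW5

/-!
# Numbers of the ranges `Σ S ≤ .0200`, `.0296`, `.0298`, `.0392`

`rn_*`, `kb_*`, `stn_*`.
-/

set_option autoImplicit false

namespace Pool.Agent.Helper73.MEI.ArCor

open Pool.Agent.Helper96.Kap

theorem rn_0200 : Rn 0.02 0.1 0.92928 0.15219 1.07611 0.01077 0.00594 0.00202 1.005
    1.23694 1.23289 0.12645 := by
  constructor <;> norm_num

theorem kb_0200 {x y p q : ℝ} (hx : 0 ≤ x) (hy : 0 ≤ y) (hp : 0 ≤ p) (hq : 0 ≤ q)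
    (hxq : x + q ≤ 0.15219) (hyp : y + p ≤ 0.15219) :
    0.061 * (x + y) - 0.09 * (y * q + x * p) ≤ kapL 0.15219 x y p q := by
  refine kapL_bilG (by norm_num) (by norm_num) hx hy hp hq hxq hyp fun z h0 h1 => ?_
  nlinarith [mul_nonneg h0 (sub_nonneg.2 h1), mul_nonneg (mul_nonneg h0 h0) (sub_nonneg.2 h1)]

/-- the statics of a piece of the range `0.02`: `K0 = 0.061`, `K1 = 0.09`, `r = 1.0678`, `V = 0.1265`,
`tt k ≤ 0.15219` -/
theorem stn_0200 {D tt : Fin 3 → ℝ} (t0 : ∀ k, 0 ≤ tt k) (t1 : ∀ k, tt k ≤ 0.15219)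
    (tD : ∀ k, 2 * D k * (1 + tt k / 2) ^ 2 ≤ tt k ^ 2) :
    StN 0.02 0.92928 0.15219 0.061 0.09 0.15219 1.0678 0.1265 D tt where
  tt0 := t0
  ttD := tD
  tt1 := by linarith [t1 0, t1 1, t1 2]
  qt := fun k => by linarith [t1 k]
  nb5 := by norm_num
  nbe := le_rfl
  K10 := by norm_num
  K1n := by norm_num
  K := fun _ _ _ _ => kb_0200
  X3 := by norm_num
  r0 := by norm_num
  rX := by norm_num
  V0 := by norm_num
  VX := by norm_num
  Vr := by norm_num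

theorem rn_0296 : Rn 0.0296 0.12166 0.91397 0.18825 1.09413 0.0162 0.00919 0.0037 1.0074
    1.24274 1.23677 0.13319 := by
  constructor <;> norm_num

theorem kb_0296 {x y p q : ℝ} (hx : 0 ≤ x) (hy : 0 ≤ y) (hp : 0 ≤ p) (hq : 0 ≤ q)
    (hxq : x + q ≤ 0.18825) (hyp : y + p ≤ 0.18825) :
    0.0584 * (x + y) - 0.09 * (y * q + x * p) ≤ kapL 0.18825 x y p q := by
  refine kapL_bilG (by norm_num) (by norm_num) hx hy hp hq hxq hyp fun z h0 h1 => ?_
  nlinarith [mul_nonneg h0 (sub_nonneg.2 h1), mul_nonneg (mul_nonneg h0 h0) (sub_nonneg.2 h1)]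

/-- the statics of a piece of the range `0.0296`: `K0 = 0.0584`, `K1 = 0.09`, `r = 1.0711`, `V = 0.1331`,
`tt k ≤ 0.18825` -/
theorem stn_0296 {D tt : Fin 3 → ℝ} (t0 : ∀ k, 0 ≤ tt k) (t1 : ∀ k, tt k ≤ 0.18825)
    (tD : ∀ k, 2 * D k * (1 + tt k / 2) ^ 2 ≤ tt k ^ 2) :
    StN 0.0296 0.91397 0.18825 0.0584 0.09 0.18825 1.0711 0.1331 D tt where
  tt0 := t0
  ttD := tD
  tt1 := by linarith [t1 0, t1 1, t1 2]
  qt := fun k => by linarith [t1 k]
  nb5 := by norm_num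
  nbe := le_rfl
  K10 := by norm_num
  K1n := by norm_num
  K := fun _ _ _ _ => kb_0296
  X3 := by norm_num
  r0 := by norm_num
  rX := by norm_num
  V0 := by norm_num
  VX := by norm_num
  Vr := by norm_num

theorem rn_0298 : Rn 0.0298 0.12207 0.91368 0.18895 1.09448 0.01631 0.00926 0.00374 1.00745
    1.24286 1.23686 0.13333 := by
  constructor <;> norm_num

theorem kb_0298 {x y p q : ℝ} (hx : 0 ≤ x) (hy : 0 ≤ y) (hp : 0 ≤ p) (hq : 0 ≤ q)
    (hxq : x + q ≤ 0.18895) (hyp : y + p ≤ 0.18895) :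
    0.0584 * (x + y) - 0.09 * (y * q + x * p) ≤ kapL 0.18895 x y p q := by
  refine kapL_bilG (by norm_num) (by norm_num) hx hy hp hq hxq hyp fun z h0 h1 => ?_
  nlinarith [mul_nonneg h0 (sub_nonneg.2 h1), mul_nonneg (mul_nonneg h0 h0) (sub_nonneg.2 h1)]

/-- the statics of a piece of the range `0.0298`: `K0 = 0.0584`, `K1 = 0.09`, `r = 1.0712`, `V = 0.1333`,
`tt k ≤ 0.18895` -/
theorem stn_0298 {D tt : Fin 3 → ℝ} (t0 : ∀ k, 0 ≤ tt k) (t1 : ∀ k, tt k ≤ 0.18895)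
    (tD : ∀ k, 2 * D k * (1 + tt k / 2) ^ 2 ≤ tt k ^ 2) :
    StN 0.0298 0.91368 0.18895 0.0584 0.09 0.18895 1.0712 0.1333 D tt where
  tt0 := t0
  ttD := tD
  tt1 := by linarith [t1 0, t1 1, t1 2]
  qt := fun k => by linarith [t1 k]
  nb5 := by norm_num
  nbe := le_rfl
  K10 := by norm_num
  K1n := by norm_num
  K := fun _ _ _ _ => kb_0298
  X3 := by norm_num
  r0 := by norm_num
  rX := by norm_num
  V0 := by norm_num
  VX := by norm_num
  Vr := by norm_num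

theorem rn_0392 : Rn 0.0392 0.14 0.901 0.21975 1.10988 0.02176 0.01269 0.00586 1.0098
    1.24852 1.24065 0.13993 := by
  constructor <;> norm_num

theorem kb_0392 {x y p q : ℝ} (hx : 0 ≤ x) (hy : 0 ≤ y) (hp : 0 ≤ p) (hq : 0 ≤ q)
    (hxq : x + q ≤ 0.21975) (hyp : y + p ≤ 0.21975) :
    0.0561 * (x + y) - 0.09 * (y * q + x * p) ≤ kapL 0.21975 x y p q := by
  refine kapL_bilG (by norm_num) (by norm_num) hx hy hp hq hxq hyp fun z h0 h1 => ?_
  nlinarith [mul_nonneg h0 (sub_nonneg.2 h1), mul_nonneg (mul_nonneg h0 h0) (sub_nonneg.2 h1)]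

/-- the statics of a piece of the range `0.0392`: `K0 = 0.0561`, `K1 = 0.09`, `r = 1.0745`, `V = 0.1398`,
`tt k ≤ 0.21975` -/
theorem stn_0392 {D tt : Fin 3 → ℝ} (t0 : ∀ k, 0 ≤ tt k) (t1 : ∀ k, tt k ≤ 0.21975)
    (tD : ∀ k, 2 * D k * (1 + tt k / 2) ^ 2 ≤ tt k ^ 2) :
    StN 0.0392 0.901 0.21975 0.0561 0.09 0.21975 1.0745 0.1398 D tt where
  tt0 := t0
  ttD := tD
  tt1 := by linarith [t1 0, t1 1, t1 2]
  qt := fun k => by linarith [t1 k]
  nb5 := by norm_num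
  nbe := le_rfl
  K10 := by norm_num
  K1n := by norm_num
  K := fun _ _ _ _ => kb_0392
  X3 := by norm_num
  r0 := by norm_num
  rX := by norm_num
  V0 := by norm_num
  VX := by norm_num
  Vr := by norm_num

end Pool.Agent.Helper73.MEI.ArCor
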