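import Pool.Agent.Helper73.MEI.FW5
import Pool.Agent.Helper55.MEI.GApx

/-!
# Share and weight of the apex of a face from polynomial inequalities

`famG` = the family of the weights `gc N + γ (kv p + (rb - ρ p) / A')`; `apx_hG` = the hypothesis
`hG` of `row_faceG` from the inequalities of `GApx`; `row_faceK` = the row of a face with these
weights, no couplings.
-/

set_option autoImplicit false

namespace Pool.Agent.Helper73.MEI.ArCor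

open Set Metric MeasureTheory Helper80.CW Helper82.CW Helper14.CW Helper93.MEI Helper82.M2
open Helper14.MEI2 Pool.Agent.Helper52.MEI Pool.Agent.Helper73.MEI Helper37.MEI Helper41.MEI
open Helper33.MEI (Wi)
open Pool.Agent.Helper55.Mass (LN vv vv_nonneg B0 B0_ge)
open Pool.Agent.Helper55.Apex (nc)
open Pool.Agent.Helper55.ApexP (PN alP alP_nonneg alP_zeta mu_bal)
open Pool.Agent.Helper55.TentL (PC PX apex_four)
open Pool.Agent.Helper55.GApx (C1 apx_phi Xc_cone)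
open Pool.Agent.Helper73.MEI.SideP
open Pool.Agent.Helper96.Kap (kap kapL)
open Pool.Agent.Helper31.SR
open Helper78.MEI
open Pool.Agent.Helper73.MEI.ZEl
open Helper75.MEI2 (mu vt Qf)
open scoped RealInnerProductSpace ENNReal

variable {a : Fin 4 → E3} {K : Set E3} {S : Fin 4 → ℝ} {σ : Measure (E3 × E3)}
  {c : Fin 4 → E3} {z : Fin 4 → Fin 4 → E3} {X rm qm nb ρ1 Rb gg ε k1 k12 t2 δ : ℝ}

/-- the family of the weights of the apex: `gc` (cone) and `gs l` (side `l`) plus the strip of an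
arc `p` -/
def famG (A' rb K0 K1 : ℝ) (ρ : Fin 3 → ℝ) (gc : (Fin 3 → Fin 3 → ℝ) → ℝ)
    (gs : Fin 3 → (Fin 3 → Fin 3 → ℝ) → ℝ) (γc : ℝ) (γs : Fin 3 → ℝ) :
    Option (Fin 3) → (Fin 3 → Fin 3 → ℝ) → ℝ → Prop
  | none, N, g => ∃ p : Fin 3, g = gc N + γc * (kv K0 K1 N p + (rb - ρ p) / A')
  | some l, N, g => ∃ p : Fin 3, g = gs l N + γs l * (kv K0 K1 N p + (rb - ρ p) / A')

/-- the domain of the leaks of a face on a piece, all conditions -/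
def DomN (D tt : Fin 3 → ℝ) (sg : ℝ) (N : Fin 3 → Fin 3 → ℝ) : Prop :=
  (∀ k m, 0 ≤ N k m) ∧ (∀ k, N k k = 0) ∧ (∀ k, nc N k ≤ tt k) ∧ DomS D tt sg N

/-- **the numbers of the apex of a face on a piece**: the polynomial inequalities -/
structure ApxN (A' rb q r V γc : ℝ) (γs : Fin 3 → ℝ) (gc : (Fin 3 → Fin 3 → ℝ) → ℝ)
    (gs : Fin 3 → (Fin 3 → Fin 3 → ℝ) → ℝ) (Dom : (Fin 3 → Fin 3 → ℝ) → Prop) : Prop where
  c0 : ∀ N, Dom N → 0 ≤ gc N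
  c1 : ∀ N, Dom N → q * gc N * (1 - TN N ^ 2 / 4) ≤
    (A' * (1 - TN N ^ 2 / 4) - 22.6276 * rb * C1 (TN N) (QN N) ^ 2) * (1872 / 10000 * PC N)
  c2 : ∀ N, Dom N → γc * q * (1 - TN N ^ 2 / 4) ≤
    A' * (22.6276 * C1 (TN N) (QN N) ^ 2) * (1872 / 10000 * PC N)
  c3 : ∀ N, Dom N → 22.6276 * rb * C1 (TN N) (QN N) ^ 2 ≤ A' * (1 - TN N ^ 2 / 4)
  s0 : ∀ l, ∀ N, Dom N → 0 ≤ gs l N
  s1 : ∀ l, ∀ N, Dom N → (r + nc N l * V) * gs l N * (1 - TN N ^ 2 / 4) ≤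
    (A' * (1 - TN N ^ 2 / 4) - 22.6276 * rb * C1 (TN N) (QN N) ^ 2) * (192 / 1000 * PX N l)
  s2 : ∀ l, ∀ N, Dom N → γs l * (r + nc N l * V) * (1 - TN N ^ 2 / 4) ≤
    A' * (22.6276 * C1 (TN N) (QN N) ^ 2) * (192 / 1000 * PX N l)
  γc0 : 0 ≤ γc
  γs0 : ∀ l, 0 ≤ γs l
  q0 : 0 < q

/-- share and weight for one class, `Xq` the mass of the tent -/
theorem apx_one {A' rb K0 K1 γ g0 Xq : ℝ} {ρ : Fin 3 → ℝ} {N : Fin 3 → Fin 3 → ℝ}
    (hA : 0 < A') (hN : ∀ k m, 0 ≤ N k m) (hT1 : TN N ≤ 1) (hrb : ∀ p, ρ p ≤ rb)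
    (hκ : ∀ p, 0 ≤ kv K0 K1 N p)
    (hsum : A' * (kv K0 K1 N 0 + kv K0 K1 N 1 + kv K0 K1 N 2) < ρ 0 + ρ 1 + ρ 2)
    (k1 : g0 * (A' * (1 - TN N ^ 2 / 4)) ≤
      (A' * (1 - TN N ^ 2 / 4) - 22.6276 * rb * C1 (TN N) (QN N) ^ 2) * (A' * Xq))
    (k2 : γ * (1 - TN N ^ 2 / 4) ≤ A' * (22.6276 * C1 (TN N) (QN N) ^ 2 * Xq))
    (k3 : 22.6276 * rb * C1 (TN N) (QN N) ^ 2 ≤ A' * (1 - TN N ^ 2 / 4)) :
    ∃ (φ : ℝ) (p : Fin 3), 0 < φ ∧ φ ≤ 1 ∧ φ ≤ phiN A' rb (TN N) (QN N) ∧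
      (∀ p', 22.6276 * (ρ p' - A' * kv K0 K1 N p')
        * (35 / 48 + 9 / 16 * TN N + 5 / 12 * QN N) ^ 2 ≤ φ * (A' * (1 - TN N ^ 2 / 4))) ∧
      g0 + γ * (kv K0 K1 N p + (rb - ρ p) / A') ≤ A' * (1 - φ) * Xq := by
  have hT0 := TN_nonneg hN
  have hC2 : 0 ≤ C1 (TN N) (QN N) ^ 2 := sq_nonneg _
  have hQ : 0 ≤ QN N := QN_nonneg
  have hle : ∀ p, 22.6276 * (ρ p - A' * kv K0 K1 N p) * C1 (TN N) (QN N) ^ 2 ≤
      A' * (1 - TN N ^ 2 / 4) := by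
    intro p
    have h1 : ρ p - A' * kv K0 K1 N p ≤ rb := by
      have := mul_nonneg hA.le (hκ p)
      linarith [hrb p]
    have h2 := mul_le_mul_of_nonneg_right h1 hC2
    nlinarith
  obtain ⟨φ, p, f0, f1, f2, f3, f4⟩ := apx_phi (γ := γ) (g0 := g0) (Xq := Xq) (Xc := Xq) hA hT0
    (by linarith) hQ hrb hκ hsum hle k1 k2 le_rfl
  refine ⟨φ, p, f0, f1, ?_, f2, f4⟩
  have hD : 0 < 1 - TN N ^ 2 / 4 := by nlinarith
  have hAD : 0 < A' * (1 - TN N ^ 2 / 4) := mul_pos hA hD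
  have h1 : ρ p - A' * kv K0 K1 N p ≤ rb := by
    have := mul_nonneg hA.le (hκ p)
    linarith [hrb p]
  have e : phiN A' rb (TN N) (QN N) =
      rb * (22.6276 * C1 (TN N) (QN N) ^ 2 / (A' * (1 - TN N ^ 2 / 4))) := by
    unfold phiN C1
    ring
  rw [e, f3]
  exact mul_le_mul_of_nonneg_right h1 (by positivity)

/-- **the hypothesis `hG` of `row_faceG`** -/
theorem apx_hG {rb q s r V K0 K1 γc sg : ℝ} {γs ρ D tt : Fin 3 → ℝ}
    {gc : (Fin 3 → Fin 3 → ℝ) → ℝ} {gs : Fin 3 → (Fin 3 → Fin 3 → ℝ) → ℝ}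
    (H : ApxN 2.04 rb q r V γc γs gc gs (DomN D tt sg))
    (hrb : ∀ p, ρ p ≤ rb) (ht1 : tt 0 + tt 1 + tt 2 ≤ 1) (ht2 : ∀ k, tt k ≤ 3 / 4)
    (hs : 1 + s ≤ q ^ 2) (hr : 0 < r) (hV : 0 ≤ V) (hK1 : 0 ≤ K1) (hK0 : 0 ≤ K0)
    (hsum : 2.04 * (K0 * (tt 0 + tt 1 + tt 2)) < ρ 0 + ρ 1 + ρ 2) :
    ∀ cl, ∀ N : Fin 3 → Fin 3 → ℝ, (∀ k m, 0 ≤ N k m) → (∀ k, N k k = 0) →
      (∀ k, nc N k ≤ tt k) → DomS D tt sg N → (∀ p, 0 ≤ kv K0 K1 N p) →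
      ∃ φ g, φ ≤ phiN 2.04 rb (TN N) (QN N) ∧ ApxOK 2.04 s r V K0 K1 ρ N cl φ g ∧
        famG 2.04 rb K0 K1 ρ gc gs γc γs cl N g := by
  intro cl N hN hd ht hDom hκ
  have hDN : DomN D tt sg N := ⟨hN, hd, ht, hDom⟩
  have hTN : TN N ≤ tt 0 + tt 1 + tt 2 := by
    unfold TN
    linarith [ht 0, ht 1, ht 2]
  have hT1 : TN N ≤ 1 := hTN.trans ht1
  have hT0 := TN_nonneg hN
  have hκs : 2.04 * (kv K0 K1 N 0 + kv K0 K1 N 1 + kv K0 K1 N 2) < ρ 0 + ρ 1 + ρ 2 := by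
    refine lt_of_le_of_lt ?_ hsum
    have h1 : kv K0 K1 N 0 + kv K0 K1 N 1 + kv K0 K1 N 2 ≤ K0 * TN N := by
      have n01 := hN 0 1
      have n02 := hN 0 2
      have n10 := hN 1 0
      have n12 := hN 1 2
      have n20 := hN 2 0
      have n21 := hN 2 1
      have e0 : kv K0 K1 N 0 = K0 * (N 0 1 + N 0 2) - K1 * (N 0 2 * N 2 1 + N 0 1 * N 1 2) := rfl
      have e1 : kv K0 K1 N 1 = K0 * (N 1 2 + N 1 0) - K1 * (N 1 0 * N 0 2 + N 1 2 * N 2 0) := rfl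
      have e2 : kv K0 K1 N 2 = K0 * (N 2 0 + N 2 1) - K1 * (N 2 1 * N 1 0 + N 2 0 * N 0 1) := rfl
      have eT : TN N = N 0 1 + N 0 2 + N 1 0 + N 1 2 + N 2 0 + N 2 1 := by
        unfold TN nc
        rw [hd 0, hd 1, hd 2]
        ring
      have p1 := mul_nonneg hK1 (mul_nonneg n02 n21)
      have p2 := mul_nonneg hK1 (mul_nonneg n01 n12)
      have p3 := mul_nonneg hK1 (mul_nonneg n10 n02)
      have p4 := mul_nonneg hK1 (mul_nonneg n12 n20)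
      have p5 := mul_nonneg hK1 (mul_nonneg n21 n10)
      have p6 := mul_nonneg hK1 (mul_nonneg n20 n01)
      rw [e0, e1, e2, eT]
      linarith
    have h2 := mul_le_mul_of_nonneg_left hTN hK0
    linarith
  have hPC : 0 ≤ PC N := by
    unfold Pool.Agent.Helper55.TentL.PC
    have t0 := (ht 0).trans (ht2 0)
    have t1 := (ht 1).trans (ht2 1)
    have t2 := (ht 2).trans (ht2 2)
    exact mul_nonneg (mul_nonneg (by linarith) (by linarith)) (by linarith)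
  cases cl with
  | none =>
    obtain ⟨φ, p, f0, f1, f2, f3, f4⟩ := apx_one (γ := γc) (g0 := gc N)
      (Xq := 1872 / 10000 * PC N / q) (A' := 2.04) (by norm_num) hN hT1 hrb hκ hκs
      (by
        rw [← mul_div_assoc, ← mul_div_assoc, le_div_iff₀ H.q0]
        have h := H.c1 N hDN
        linarith)
      (by
        rw [← mul_div_assoc, ← mul_div_assoc, le_div_iff₀ H.q0]
        have h := H.c2 N hDN
        linarith)
      (H.c3 N hDN)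
    refine ⟨φ, _, f2, ⟨f0, f1, f3, ?_, ?_⟩, ⟨p, rfl⟩⟩
    · have h1 := H.c0 N hDN
      have h2 : 0 ≤ kv K0 K1 N p + (rb - ρ p) / 2.04 :=
        add_nonneg (hκ p) (div_nonneg (sub_nonneg.2 (hrb p)) (by norm_num))
      have h3 := mul_nonneg H.γc0 h2
      linarith
    · show (gc N + γc * (kv K0 K1 N p + (rb - ρ p) / 2.04)) * √(1 + s) ≤ _
      have h1 : √(1 + s) ≤ q := Real.sqrt_le_iff.2 ⟨H.q0.le, hs⟩
      have h2 : 0 ≤ √(1 + s) := Real.sqrt_nonneg _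
      have h3 := mul_le_mul_of_nonneg_right f4 h2
      refine h3.trans ?_
      have h4 : 0 ≤ 2.04 * (1 - φ) * (1872 / 10000 * PC N / q) :=
        mul_nonneg (mul_nonneg (by norm_num) (by linarith))
          (div_nonneg (by positivity) H.q0.le)
      have h5 := mul_le_mul_of_nonneg_left h1 h4
      refine h5.trans (le_of_eq ?_)
      have := H.q0.ne'
      field_simp
  | some l =>
    have hl : 0 ≤ nc N l := nc_nonneg hN l
    have hq : 0 < r + nc N l * V := by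
      have := mul_nonneg hl hV
      linarith
    have hPX : 0 ≤ PX N l := by
      unfold PX
      have t0 := (ht 0).trans (ht2 0)
      have t1 := (ht 1).trans (ht2 1)
      have t2 := (ht 2).trans (ht2 2)
      refine mul_nonneg (mul_nonneg ?_ ?_) ?_
      all_goals
        split_ifs
        all_goals linarith
    obtain ⟨φ, p, f0, f1, f2, f3, f4⟩ := apx_one (γ := γs l) (g0 := gs l N)
      (Xq := 192 / 1000 * PX N l / (r + nc N l * V)) (A' := 2.04) (by norm_num) hN hT1 hrb hκ hκs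
      (by
        rw [← mul_div_assoc, ← mul_div_assoc, le_div_iff₀ hq]
        have h := H.s1 l N hDN
        linarith)
      (by
        rw [← mul_div_assoc, ← mul_div_assoc, le_div_iff₀ hq]
        have h := H.s2 l N hDN
        linarith)
      (H.c3 N hDN)
    refine ⟨φ, _, f2, ⟨f0, f1, f3, ?_, ?_⟩, ⟨p, rfl⟩⟩
    · have h1 := H.s0 l N hDN
      have h2 : 0 ≤ kv K0 K1 N p + (rb - ρ p) / 2.04 :=
        add_nonneg (hκ p) (div_nonneg (sub_nonneg.2 (hrb p)) (by norm_num))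
      have h3 := mul_nonneg (H.γs0 l) h2
      linarith
    · show (gs l N + γs l * (kv K0 K1 N p + (rb - ρ p) / 2.04)) * (r + nc N l * V) ≤ _
      have h3 := mul_le_mul_of_nonneg_right f4 hq.le
      refine h3.trans (le_of_eq ?_)
      have := hq.ne'
      field_simp

/-- **the row of a face, no couplings**, weights of the apex from `ApxN` -/
theorem row_faceK [IsFiniteMeasure σ]
    (P : Rn X rm qm nb ρ1 Rb gg ε k1 k12 t2 δ)
    (h : CN K σ a c) (v : Viol K a S) (hz : CV a K z)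
    (τ : Equiv.Perm (Fin 4)) (hX : S (τ 0) + (S (τ 1) + S (τ 2) + S (τ 3)) ≤ X)
    {l : Fin 3 → Bool → Bool → E3 × E3 → ℝ} (hl : Lok a l) (hδ : ∀ p, MA σ a l τ p p ≤ 0)
    {ρ : Fin 3 → ℝ} (hρ : ∀ p, 0 < ρ p) (hMρ : ∀ p k, k ≠ p → MA σ a l τ p k ≤ ρ p)
    {K0 K1 e r V : ℝ} {D tt : Fin 3 → ℝ}
    (T : StN X qm nb K0 K1 e r V D tt)
    {mx : Fin 3 → Fin 4} (hmx : ∀ k : Fin 3, mx k = τ 0 ∨ mx k = τ k.succ)
    (hDS : ∀ k : Fin 3, S (mx k) ≤ D k) {sg : ℝ} (hsg : S (mx 0) + S (mx 1) + S (mx 2) ≤ sg)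
    {rb q γc : ℝ} {γs : Fin 3 → ℝ}
    {gc : (Fin 3 → Fin 3 → ℝ) → ℝ} {gs : Fin 3 → (Fin 3 → Fin 3 → ℝ) → ℝ}
    (H : ApxN 2.04 rb q r V γc γs gc gs (DomN D tt sg))
    (hrb : ∀ p, ρ p ≤ rb) (ht2 : ∀ k, tt k ≤ 3 / 4)
    (hs : 1 + S (τ 0) ≤ q ^ 2) (hsum : 2.04 * (K0 * (tt 0 + tt 1 + tt 2)) < ρ 0 + ρ 1 + ρ 2)
    {ι : Type*} [Fintype ι] {lam : ι → ℝ} (h0 : ∀ w, 0 ≤ lam w) (h1 : ∑ w, lam w = 1)
    {W : ι → Fin 4 → ℝ} (hS : ∀ i, S i = ∑ w, lam w * W w i)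
    {μ : Fin 3 → ℝ} (hμ : ∀ k, 0 ≤ μ k)
    {cost : ι → Option (Fin 3) → Fin 3 → Fin 3 → (Fin 3 → Fin 3 → ℝ) → ℝ} {m : ι → ℝ}
    (hC : ∀ w, CertG 2.04 ε k1 (k12 - k1) K0 K1 tt ρ (DomS D tt sg)
      (famG 2.04 rb K0 K1 ρ gc gs γc γs) μ (W w (τ 0))
      (fun k => W w (τ k.succ)) (fun k => W w (mx k)) (cost w) (m w))
    (hW : ∀ x ∈ K, (Qv a (τ 0) x = S (τ 0) ∨ S (τ 0) = 0) → ∀ N : Fin 3 → Fin 3 → ℝ,
      N = NM (fun i => a (τ i)) (fun i j => z (τ i) (τ j)) → (∀ k, nc N k ≤ tt k) →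
      DomS D tt sg N → ∀ i j : Fin 3, i ≠ j →
      PosB a τ x N tt k1 k12 ε (S (τ 0)) i j → ∀ cl, ClsB a τ x N cl →
      ∀ φ, 0 < φ → φ ≤ phiN 2.04 rb (TN N) (QN N) →
      WCF 2.04 σ a K l τ z S x N (Rv tt N) φ
        (bt 2.04 (kv K0 K1 N) ρ) (fun _ => 0) (fun _ => 0) (∑ w, lam w * cost w cl i j N)) :
    ∃ F : ℝ, LLs σ a l (τ 0) + F ≤ Wi a (τ 0) K σ 3.83 ∧ ∑ w, lam w * m w ≤ F := by
  obtain ⟨F, f1, f2⟩ := row_faceG P h v hz τ hX hl (δ3 := fun _ => 0) (dE := fun _ => 0)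
    (dm := fun _ => 0) hδ (fun _ => le_rfl) (fun _ => le_rfl) (fun _ => by norm_num) hρ hMρ T hmx
    hDS hsg h0 h1 hS (Φ := fun N => phiN 2.04 rb (TN N) (QN N))
    (apx_hG H hrb T.tt1 ht2 hs T.r0 T.V0 T.K10 (by
      have h2 := T.K1n
      have h3 := mul_nonneg T.K10 P.nb0
      linarith) hsum) hμ hC hW
  exact ⟨F, by linarith, f2⟩

end Pool.Agent.Helper73.MEI.ArCor
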