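import Pool.Agent.Helper73.MEI.FV6

/-!
# The value of a face as an expression

Polymorphic definitions (numbers through `c n d`, no powers, no divisions) and their real values.
-/

set_option autoImplicit false

namespace Pool.Agent.Helper73.MEI.FE

open Pool.Agent.Helper73.MEI.ArCor
open Pool.Agent.Helper55.Apex (nc)
open Pool.Agent.Helper96.Rr4 (P3 wc4)
open Pool.Agent.Helper31.SR
open Helper93.MEI (pp)

/-- the six leaks, `nij` = row `i`, column `j` -/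
structure Lk (α : Type) where
  n01 : α
  n02 : α
  n10 : α
  n12 : α
  n20 : α
  n21 : α

/-- the numbers of a face: `A = A'`, `e1 = 1 - ε`, `wk = 1 / (1 + τ k / 2)` -/
structure Fc (α : Type) where
  A : α
  e1 : α
  k1 : α
  k2 : α
  K0 : α
  K1 : α
  w0 : α
  w1 : α
  w2 : α

section
variable {α : Type} [Add α] [Mul α] [Neg α] [Sub α] (c : ℤ → ℕ → α)

def dqE (f h : α) : α := c 2 3 * (f * f + f * h + h * h)

/-- node loads -/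
def R0E (F : Fc α) (L : Lk α) : α := dqE c L.n10 L.n20 * F.w0
def R1E (F : Fc α) (L : Lk α) : α := dqE c L.n21 L.n01 * F.w1
def R2E (F : Fc α) (L : Lk α) : α := dqE c L.n02 L.n12 * F.w2

/-- squares of the lengths (for the prices of the caps) -/
def q0E (F : Fc α) (L : Lk α) : α := dqE c L.n10 L.n20 * (F.w0 * F.w0)
def q1E (F : Fc α) (L : Lk α) : α := dqE c L.n21 L.n01 * (F.w1 * F.w1)
def q2E (F : Fc α) (L : Lk α) : α := dqE c L.n02 L.n12 * (F.w2 * F.w2)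

def P3E (a b p q : α) : α :=
  c 1673 10000 * a + c 933 10000 * b - c 1661 10000 * (b * q) - c 923 10000 * (a * p)
    - (c 763 10000 * (a * a) + c 608 10000 * (a * b) + c 304 10000 * (b * b))
    + p * q * (c 1673 10000 * a + c 933 10000 * b)
    + (c 1 1 + p * q) * (c 1617 10000 * (a * b * q)
      + c 638 10000 * (a * a * p + b * b * q + a * b * p))
    + c 1768 10000 * (b * (q * q)) * (c 1 1 - c 1 2 * q) + c 59 1000 * (a * (p * p * p))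

/-- residual masses -/
def r0E (L : Lk α) : α :=
  P3E c L.n10 L.n12 L.n02 L.n20 + P3E c L.n20 L.n21 L.n01 L.n10
    - c 2357 10000 * (L.n10 * L.n20) * (c 1 1 - c 76 100 * (L.n10 + L.n20))
def r1E (L : Lk α) : α :=
  P3E c L.n21 L.n20 L.n10 L.n01 + P3E c L.n01 L.n02 L.n12 L.n21
    - c 2357 10000 * (L.n21 * L.n01) * (c 1 1 - c 76 100 * (L.n21 + L.n01))
def r2E (L : Lk α) : α :=
  P3E c L.n02 L.n01 L.n21 L.n12 + P3E c L.n12 L.n10 L.n20 L.n02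
    - c 2357 10000 * (L.n02 * L.n12) * (c 1 1 - c 76 100 * (L.n02 + L.n12))

/-- strips -/
def kv0E (F : Fc α) (L : Lk α) : α :=
  F.K0 * (L.n01 + L.n02) - F.K1 * (L.n02 * L.n21 + L.n01 * L.n12)
def kv1E (F : Fc α) (L : Lk α) : α :=
  F.K0 * (L.n12 + L.n10) - F.K1 * (L.n10 * L.n02 + L.n12 * L.n20)
def kv2E (F : Fc α) (L : Lk α) : α :=
  F.K0 * (L.n20 + L.n21) - F.K1 * (L.n21 * L.n10 + L.n20 * L.n01)

/-- corner terms -/
def corE (F : Fc α) (L : Lk α) (S0 S1 S2 : α) : α :=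
  R0E c F L * (F.A * (c 2132 10000 * (c 1 1 - (L.n01 + L.n02)) - r0E c L))
    + R1E c F L * (F.A * (c 2132 10000 * (c 1 1 - (L.n12 + L.n10)) - r1E c L))
    + R2E c F L * (F.A * (c 2132 10000 * (c 1 1 - (L.n20 + L.n21)) - r2E c L))
    - F.A * (S0 * r0E c L + S1 * r1E c L + S2 * r2E c L)

/-- apex term, `Ri`, `Rj` = the loads of the two nodes of the position of the apex -/
def apE (F : Fc α) (g Ri Rj s : α) : α := g * (F.e1 * s - F.k1 * Ri - F.k2 * Rj)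

/-- an arc at an end: `rho` its moment, `kp` its strip, `Rk`, `Sk` the end -/
def stE (F : Fc α) (rho kp Rk Sk : α) : α := rho * Rk - F.A * kp * (Rk + Sk)

/-- prices of the caps -/
def muE (F : Fc α) (L : Lk α) (m0 m1 m2 c0 c1 c2 : α) : α :=
  m0 * (q0E c F L - c0) + m1 * (q1E c F L - c1) + m2 * (q2E c F L - c2)

/-- columns -/
def t0E (L : Lk α) : α := L.n10 + L.n20
def t1E (L : Lk α) : α := L.n21 + L.n01
def t2E (L : Lk α) : α := L.n02 + L.n12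

end

/-- the real numbers -/
noncomputable def cR (n : ℤ) (d : ℕ) : ℝ := (n : ℝ) / (d : ℝ)

/-- the leaks of a matrix -/
def lkN (N : Fin 3 → Fin 3 → ℝ) : Lk ℝ := ⟨N 0 1, N 0 2, N 1 0, N 1 2, N 2 0, N 2 1⟩

/-- the real numbers of a face -/
noncomputable def fcR (A' ε k1 k2 K0 K1 : ℝ) (τ : Fin 3 → ℝ) : Fc ℝ :=
  ⟨A', 1 - ε, k1, k2, K0, K1, 1 / (1 + τ 0 / 2), 1 / (1 + τ 1 / 2), 1 / (1 + τ 2 / 2)⟩

theorem dqE_eq (f h : ℝ) : dqE cR f h = dq f h := by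
  unfold dqE cR dq
  push_cast
  ring

section
variable {A' ε k1 k2 K0 K1 : ℝ} {τ : Fin 3 → ℝ} {N : Fin 3 → Fin 3 → ℝ}

theorem R0E_eq : R0E cR (fcR A' ε k1 k2 K0 K1 τ) (lkN N) = Rv τ N 0 := by
  unfold R0E
  rw [dqE_eq]
  show dq (N 1 0) (N 2 0) * (1 / (1 + τ 0 / 2)) = dq (N 1 0) (N 2 0) / (1 + τ 0 / 2)
  ring

theorem R1E_eq : R1E cR (fcR A' ε k1 k2 K0 K1 τ) (lkN N) = Rv τ N 1 := by
  unfold R1E
  rw [dqE_eq]
  show dq (N 2 1) (N 0 1) * (1 / (1 + τ 1 / 2)) = dq (N 2 1) (N 0 1) / (1 + τ 1 / 2)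
  ring

theorem R2E_eq : R2E cR (fcR A' ε k1 k2 K0 K1 τ) (lkN N) = Rv τ N 2 := by
  unfold R2E
  rw [dqE_eq]
  show dq (N 0 2) (N 1 2) * (1 / (1 + τ 2 / 2)) = dq (N 0 2) (N 1 2) / (1 + τ 2 / 2)
  ring

theorem q0E_eq : q0E cR (fcR A' ε k1 k2 K0 K1 τ) (lkN N) =
    dq (N 1 0) (N 2 0) / (1 + τ 0 / 2) ^ 2 := by
  unfold q0E
  rw [dqE_eq]
  show dq (N 1 0) (N 2 0) * (1 / (1 + τ 0 / 2) * (1 / (1 + τ 0 / 2))) = _
  rw [div_mul_div_comm, one_mul, ← sq, mul_one_div]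

theorem q1E_eq : q1E cR (fcR A' ε k1 k2 K0 K1 τ) (lkN N) =
    dq (N 2 1) (N 0 1) / (1 + τ 1 / 2) ^ 2 := by
  unfold q1E
  rw [dqE_eq]
  show dq (N 2 1) (N 0 1) * (1 / (1 + τ 1 / 2) * (1 / (1 + τ 1 / 2))) = _
  rw [div_mul_div_comm, one_mul, ← sq, mul_one_div]

theorem q2E_eq : q2E cR (fcR A' ε k1 k2 K0 K1 τ) (lkN N) =
    dq (N 0 2) (N 1 2) / (1 + τ 2 / 2) ^ 2 := by
  unfold q2E
  rw [dqE_eq]
  show dq (N 0 2) (N 1 2) * (1 / (1 + τ 2 / 2) * (1 / (1 + τ 2 / 2))) = _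
  rw [div_mul_div_comm, one_mul, ← sq, mul_one_div]

theorem P3E_eq (a b p q : ℝ) : P3E cR a b p q = P3 a b p q := by
  unfold P3E cR P3
  push_cast
  ring

theorem r0E_eq : r0E cR (lkN N) = rv N 0 := by
  unfold r0E
  rw [P3E_eq, P3E_eq]
  show _ = P3 (N 1 0) (N 1 2) (N 0 2) (N 2 0) + P3 (N 2 0) (N 2 1) (N 0 1) (N 1 0)
    - 0.2357 * (N 1 0 * N 2 0) * (1 - 0.76 * (N 1 0 + N 2 0))
  unfold cR lkN
  push_cast
  ring

theorem r1E_eq : r1E cR (lkN N) = rv N 1 := by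
  unfold r1E
  rw [P3E_eq, P3E_eq]
  show _ = P3 (N 2 1) (N 2 0) (N 1 0) (N 0 1) + P3 (N 0 1) (N 0 2) (N 1 2) (N 2 1)
    - 0.2357 * (N 2 1 * N 0 1) * (1 - 0.76 * (N 2 1 + N 0 1))
  unfold cR lkN
  push_cast
  ring

theorem r2E_eq : r2E cR (lkN N) = rv N 2 := by
  unfold r2E
  rw [P3E_eq, P3E_eq]
  show _ = P3 (N 0 2) (N 0 1) (N 2 1) (N 1 2) + P3 (N 1 2) (N 1 0) (N 2 0) (N 0 2)
    - 0.2357 * (N 0 2 * N 1 2) * (1 - 0.76 * (N 0 2 + N 1 2))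
  unfold cR lkN
  push_cast
  ring

theorem kv0E_eq : kv0E (fcR A' ε k1 k2 K0 K1 τ) (lkN N) = kv K0 K1 N 0 := rfl

theorem kv1E_eq : kv1E (fcR A' ε k1 k2 K0 K1 τ) (lkN N) = kv K0 K1 N 1 := rfl

theorem kv2E_eq : kv2E (fcR A' ε k1 k2 K0 K1 τ) (lkN N) = kv K0 K1 N 2 := rfl

theorem corE_eq (S : Fin 3 → ℝ) : corE cR (fcR A' ε k1 k2 K0 K1 τ) (lkN N) (S 0) (S 1) (S 2) =
    corX A' N (rv N) (Rv τ N) S := by
  unfold corE
  rw [R0E_eq, R1E_eq, R2E_eq, r0E_eq, r1E_eq, r2E_eq]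
  unfold corX rowN
  show Rv τ N 0 * (A' * (cR 2132 10000 * (cR 1 1 - (N 0 1 + N 0 2)) - rv N 0))
    + Rv τ N 1 * (A' * (cR 2132 10000 * (cR 1 1 - (N 1 2 + N 1 0)) - rv N 1))
    + Rv τ N 2 * (A' * (cR 2132 10000 * (cR 1 1 - (N 2 0 + N 2 1)) - rv N 2))
    - A' * (S 0 * rv N 0 + S 1 * rv N 1 + S 2 * rv N 2) =
    Rv τ N 0 * (A' * (0.2132 * (1 - (N 0 1 + N 0 2)) - rv N 0))
    + Rv τ N 1 * (A' * (0.2132 * (1 - (N 1 2 + N 1 0)) - rv N 1))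
    + Rv τ N 2 * (A' * (0.2132 * (1 - (N 2 0 + N 2 1)) - rv N 2))
    - A' * (S 0 * rv N 0 + S 1 * rv N 1 + S 2 * rv N 2)
  unfold cR
  push_cast
  ring

/-- **the value of a face is the expression** -/
theorem VF_eq {ρ : Fin 3 → ℝ} {g : ℝ} {i j : Fin 3} {s : ℝ} {S : Fin 3 → ℝ} :
    VF A' ε k1 k2 K0 K1 τ ρ N g i j s S =
      corE cR (fcR A' ε k1 k2 K0 K1 τ) (lkN N) (S 0) (S 1) (S 2)
        + apE (fcR A' ε k1 k2 K0 K1 τ) g (Rv τ N i) (Rv τ N j) s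
        - ((pp (stE (fcR A' ε k1 k2 K0 K1 τ) (ρ 0) (kv K0 K1 N 0) (Rv τ N 1) (S 1))
            + pp (stE (fcR A' ε k1 k2 K0 K1 τ) (ρ 0) (kv K0 K1 N 0) (Rv τ N 2) (S 2)))
          + (pp (stE (fcR A' ε k1 k2 K0 K1 τ) (ρ 1) (kv K0 K1 N 1) (Rv τ N 0) (S 0))
            + pp (stE (fcR A' ε k1 k2 K0 K1 τ) (ρ 1) (kv K0 K1 N 1) (Rv τ N 2) (S 2)))
          + (pp (stE (fcR A' ε k1 k2 K0 K1 τ) (ρ 2) (kv K0 K1 N 2) (Rv τ N 0) (S 0))
            + pp (stE (fcR A' ε k1 k2 K0 K1 τ) (ρ 2) (kv K0 K1 N 2) (Rv τ N 1) (S 1)))) := by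
  rw [corE_eq]
  rfl

theorem t0E_eq (hd : ∀ k, N k k = 0) : t0E (lkN N) = nc N 0 := by
  have d0 := hd 0
  show N 1 0 + N 2 0 = N 0 0 + N 1 0 + N 2 0
  linarith

theorem t1E_eq (hd : ∀ k, N k k = 0) : t1E (lkN N) = nc N 1 := by
  have d0 := hd 1
  show N 2 1 + N 0 1 = N 0 1 + N 1 1 + N 2 1
  linarith

theorem t2E_eq (hd : ∀ k, N k k = 0) : t2E (lkN N) = nc N 2 := by
  have d0 := hd 2
  show N 0 2 + N 1 2 = N 0 2 + N 1 2 + N 2 2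
  linarith

end

end Pool.Agent.Helper73.MEI.FE
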