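import Pool.Agent.Helper93.MEI.Bar
import Pool.Agent.Helper14.CW.Tetra

/-!
# Elimination of the position of the highest point of a face

`u` are the three coordinates of a point of the body in the face opposite to `a 0`, with
`(Σ u² + (Σ u)²) / 2 = 1 + s`.  From the slabs and the caps: the support function of the set of
all possible `u` on nonnegative vectors `H`.
-/

set_option autoImplicit false

namespace Pool.Agent.Helper73.MEI.ZEl

open Helper80.CW Helper82.CW Helper14.CW Helper93.MEI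

/-- one coordinate -/
theorem one_le {u v w s Sv Sw : ℝ} (hu : u + (u + v + w) ≤ 2)
    (hv : s - Sv ≤ v + (u + v + w) - 1) (hw : s - Sw ≤ w + (u + v + w) - 1) :
    u ≤ 1 - s / 2 + (Sv + Sw) / 4 := by
  linarith

/-- two coordinates -/
theorem two_sq {u v w s Sw : ℝ} (hf : (u ^ 2 + v ^ 2 + w ^ 2 + (u + v + w) ^ 2) / 2 = 1 + s)
    (hw : s - Sw ≤ w + (u + v + w) - 1) (hS : Sw ≤ 1 + s) :
    (u + v) ^ 2 ≤ 2 * (1 + s) - (1 + s - Sw) ^ 2 / 2 := by
  have h1 : (1 + s - Sw) ^ 2 ≤ (2 * w + (u + v)) ^ 2 :=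
    pow_le_pow_left₀ (by linarith) (by linarith) 2
  nlinarith [sq_nonneg (u - v)]

/-- three coordinates -/
theorem three_sq {u v w s : ℝ} (hf : (u ^ 2 + v ^ 2 + w ^ 2 + (u + v + w) ^ 2) / 2 = 1 + s) :
    (u + v + w) ^ 2 ≤ 3 / 2 * (1 + s) := by
  nlinarith [sq_nonneg (u - v), sq_nonneg (u - w), sq_nonneg (v - w)]

/-- the support function for sorted heights -/
theorem supp_sorted {u v w h1 h2 h3 t1 t2 t3 : ℝ} (k1 : u ≤ t1) (k2 : u + v ≤ t2)
    (k3 : u + v + w ≤ t3) (h12 : h2 ≤ h1) (h23 : h3 ≤ h2) (h30 : 0 ≤ h3) :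
    u * h1 + v * h2 + w * h3 ≤ t1 * (h1 - h2) + t2 * (h2 - h3) + t3 * h3 := by
  have e : u * h1 + v * h2 + w * h3 =
      u * (h1 - h2) + (u + v) * (h2 - h3) + (u + v + w) * h3 := by ring
  rw [e]
  have g1 := mul_le_mul_of_nonneg_right k1 (sub_nonneg.2 h12)
  have g2 := mul_le_mul_of_nonneg_right k2 (sub_nonneg.2 h23)
  have g3 := mul_le_mul_of_nonneg_right k3 h30
  linarith

/-- some order of the three heights -/
theorem supp_cases {u H : Fin 3 → ℝ} {t1 t2 t3 : ℝ} (k1 : ∀ k, u k ≤ t1)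
    (k2 : ∀ j k, j ≠ k → u j + u k ≤ t2) (k3 : u 0 + u 1 + u 2 ≤ t3) (hH : ∀ k, 0 ≤ H k) :
    ∃ j k l : Fin 3, j ≠ k ∧ j ≠ l ∧ k ≠ l ∧ H k ≤ H j ∧ H l ≤ H k ∧
      u 0 * H 0 + u 1 * H 1 + u 2 * H 2 ≤
        t1 * (H j - H k) + t2 * (H k - H l) + t3 * H l := by
  have key : ∀ j k l : Fin 3, j ≠ k → j ≠ l → k ≠ l → H k ≤ H j → H l ≤ H k →
      (u 0 * H 0 + u 1 * H 1 + u 2 * H 2 = u j * H j + u k * H k + u l * H l) →
      u 0 + u 1 + u 2 = u j + u k + u l →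
      ∃ j k l : Fin 3, j ≠ k ∧ j ≠ l ∧ k ≠ l ∧ H k ≤ H j ∧ H l ≤ H k ∧
      u 0 * H 0 + u 1 * H 1 + u 2 * H 2 ≤
        t1 * (H j - H k) + t2 * (H k - H l) + t3 * H l := by
    intro j k l hjk hjl hkl a1 a2 e1 e2
    refine ⟨j, k, l, hjk, hjl, hkl, a1, a2, ?_⟩
    rw [e1]
    exact supp_sorted (k1 j) (k2 j k hjk) (by rw [← e2]; exact k3) a1 a2 (hH l)
  rcases le_total (H 0) (H 1) with a | a <;> rcases le_total (H 1) (H 2) with b | b <;>
    rcases le_total (H 0) (H 2) with c | c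
  · exact key 2 1 0 (by decide) (by decide) (by decide) b a (by ring) (by ring)
  · exact key 2 1 0 (by decide) (by decide) (by decide) b a (by ring) (by ring)
  · exact key 1 2 0 (by decide) (by decide) (by decide) b c (by ring) (by ring)
  · exact key 1 0 2 (by decide) (by decide) (by decide) a c (by ring) (by ring)
  · exact key 2 0 1 (by decide) (by decide) (by decide) c a (by ring) (by ring)
  · exact key 0 2 1 (by decide) (by decide) (by decide) c b (by ring) (by ring)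
  · exact key 0 1 2 (by decide) (by decide) (by decide) a b (by ring) (by ring)
  · exact key 0 1 2 (by decide) (by decide) (by decide) a b (by ring) (by ring)

/-- the numbers of the support function, all caps at most `C` -/
theorem numbers {u S : Fin 3 → ℝ} {s C : ℝ}
    (hf : (u 0 ^ 2 + u 1 ^ 2 + u 2 ^ 2 + (u 0 + u 1 + u 2) ^ 2) / 2 = 1 + s)
    (hu : ∀ k, u k + (u 0 + u 1 + u 2) ≤ 2)
    (hc : ∀ k, s - S k ≤ u k + (u 0 + u 1 + u 2) - 1) (hS : ∀ k, S k ≤ C) (hC : C ≤ 1 + s) :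
    (∀ k, u k ≤ 1 - s / 2 + C / 2) ∧
    (∀ j k, j ≠ k → u j + u k ≤ √(2 * (1 + s) - (1 + s - C) ^ 2 / 2)) ∧
    u 0 + u 1 + u 2 ≤ √(3 / 2 * (1 + s)) := by
  have u0 := hu 0
  have u1 := hu 1
  have u2 := hu 2
  have c0 := hc 0
  have c1 := hc 1
  have c2 := hc 2
  have S0 := hS 0
  have S1 := hS 1
  have S2 := hS 2
  have two : ∀ p q r Sr : ℝ, (p ^ 2 + q ^ 2 + r ^ 2 + (p + q + r) ^ 2) / 2 = 1 + s →
      s - Sr ≤ r + (p + q + r) - 1 → Sr ≤ C →
      p + q ≤ √(2 * (1 + s) - (1 + s - C) ^ 2 / 2) := by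
    intro p q r Sr g1 g2 g3
    apply Real.le_sqrt_of_sq_le
    exact two_sq g1 (by linarith) hC
  have hf1 := hf
  refine ⟨?_, ?_, ?_⟩
  · intro k
    fin_cases k
    · show u 0 ≤ _
      linarith
    · show u 1 ≤ _
      linarith
    · show u 2 ≤ _
      linarith
  · have e01 := two (u 0) (u 1) (u 2) (S 2) hf c2 S2
    have e02 := two (u 0) (u 2) (u 1) (S 1) (by rw [← hf]; ring) (by linarith) S1
    have e12 := two (u 1) (u 2) (u 0) (S 0) (by rw [← hf]; ring) (by linarith) S0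
    intro j k hjk
    fin_cases j <;> fin_cases k
    · exact absurd rfl hjk
    · exact e01
    · exact e02
    · show u 1 + u 0 ≤ _
      linarith
    · exact absurd rfl hjk
    · exact e12
    · show u 2 + u 0 ≤ _
      linarith
    · show u 2 + u 1 ≤ _
      linarith
    · exact absurd rfl hjk
  · apply Real.le_sqrt_of_sq_le
    exact three_sq hf

/-- the coordinates of a point of the body -/
theorem coords {a : Fin 4 → E3} (ha : ∀ i j, i ≠ j → dist (a i) (a j) = 1) {z : E3}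
    (hz : Pl a z) {S : Fin 3 → ℝ} (h1 : Qv a 1 z ≤ S 0) (h2 : Qv a 2 z ≤ S 1)
    (h3 : Qv a 3 z ≤ S 2) :
    ((bar a 1 z) ^ 2 + (bar a 2 z) ^ 2 + (bar a 3 z) ^ 2 +
      (bar a 1 z + bar a 2 z + bar a 3 z) ^ 2) / 2 = 1 + Qv a 0 z ∧
    (bar a 1 z + (bar a 1 z + bar a 2 z + bar a 3 z) ≤ 2 ∧
      bar a 2 z + (bar a 1 z + bar a 2 z + bar a 3 z) ≤ 2 ∧
      bar a 3 z + (bar a 1 z + bar a 2 z + bar a 3 z) ≤ 2) ∧
    (Qv a 0 z - S 0 ≤ bar a 1 z + (bar a 1 z + bar a 2 z + bar a 3 z) - 1 ∧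
      Qv a 0 z - S 1 ≤ bar a 2 z + (bar a 1 z + bar a 2 z + bar a 3 z) - 1 ∧
      Qv a 0 z - S 2 ≤ bar a 3 z + (bar a 1 z + bar a 2 z + bar a 3 z) - 1) := by
  have hg := gram_of_dist ha
  have hs := bar_sum hg z
  have e0 := Qv_eq hg 0 z
  have e1 := Qv_eq hg 1 z
  have e2 := Qv_eq hg 2 z
  have e3 := Qv_eq hg 3 z
  have p1 := (pl_iff hg).1 hz 1 0 (by decide)
  have p2 := (pl_iff hg).1 hz 2 0 (by decide)
  have p3 := (pl_iff hg).1 hz 3 0 (by decide)
  have eb : bar a 0 z = 1 - (bar a 1 z + bar a 2 z + bar a 3 z) := by linarith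
  rw [eb] at e0 e1 e2 e3 p1 p2 p3
  refine ⟨by rw [e0]; ring, ⟨by linarith, by linarith, by linarith⟩,
    ⟨by linarith, by linarith, by linarith⟩⟩

end Pool.Agent.Helper73.MEI.ZEl
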