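import Pool.Agent.Helper73.MEI.ArFace
import Pool.Agent.Helper73.MEI.ZEl

/-!
# The numbers-only lower bound of the value of a face

`zeta_le`: the contact value of the apex, the position of the apex eliminated.
`fv_value`: the value expression of `face_instP` in terms of the values, the leaks and the caps.
-/

set_option autoImplicit false

namespace Pool.Agent.Helper73.MEI.ArCor

open Matrix Pool.Agent.Helper31.SR
open Pool.Agent.Helper55.Mass (LN)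
open Pool.Agent.Helper55.Apex (nc)
open Pool.Agent.Helper55.ApexP (PN mu_bal)
open Pool.Agent.Helper73.MEI.ZEl
open Helper75.MEI2 (mu)

/-- **the contact value of the apex**: `u` the coordinates of the apex, `ζ` its contact
coordinates -/
theorem zeta_le {N : Fin 3 → Fin 3 → ℝ} (hN : ∀ k m, 0 ≤ N k m)
    {R H ζ u : Fin 3 → ℝ} {s ρ1 Rb κ nb g k1 k2 δ ε : ℝ}
    (hH : ∀ j, H j + (N 0 j * H 0 + N 1 j * H 1 + N 2 j * H 2) = R j)
    (hζ : ∀ k, ζ k + LN N ζ k = u k) (hR0 : ∀ k, 0 ≤ R k) (hRs : ∀ k, R k ≤ ρ1 * s)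
    (hRb : ∀ k, R k ≤ Rb) (hκ : 0 < κ) (hRn : ∀ k, κ * nc N k ^ 2 / 2 ≤ R k)
    (hn : ∀ k, nc N k ≤ nb) (hnb : 0 ≤ nb) (hnb1 : nb < 1) (hg : Rb ≤ 2 * κ * g * (1 - nb ^ 2))
    (hg0 : 0 ≤ g) (hng : nb * g < 1) (hs : 0 ≤ s)
    (hk1 : 0 ≤ k1) (hk2 : 0 ≤ k2) (u1 : ∀ k, u k ≤ k1) (u2 : ∀ j k, j ≠ k → u j + u k ≤ k1 + k2)
    (u3 : u 0 + u 1 + u 2 ≤ k1 + k2)
    (hδ : max 0 (-u 0) + max 0 (-u 1) + max 0 (-u 2) ≤ δ)
    (hε : ((k1 + k2) * nb + δ) * (g * ρ1) ≤ ε * (1 - nb * g)) :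
    ∃ i j : Fin 3, i ≠ j ∧ ζ 0 * R 0 + ζ 1 * R 1 + ζ 2 * R 2 ≤ k1 * R i + k2 * R j + ε * s := by
  obtain ⟨M, hM0, hMhi, hMmin⟩ : ∃ M : ℝ, 0 ≤ M ∧ (∀ k, H k ≤ M) ∧
      ∀ b, 0 ≤ b → (∀ k, H k ≤ b) → M ≤ b := by
    refine ⟨max 0 (max (H 0) (max (H 1) (H 2))), le_max_left _ _, ?_, ?_⟩
    · intro k
      fin_cases k
      · exact le_trans (le_max_left _ _) (le_max_right _ _)
      · exact le_trans (le_trans (le_max_left _ _) (le_max_right _ _)) (le_max_right _ _)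
      · exact le_trans (le_trans (le_max_right _ _) (le_max_right _ _)) (le_max_right _ _)
    · intro b hb h1
      exact max_le hb (max_le (h1 0) (max_le (h1 1) (h1 2)))
  obtain ⟨m, hm0, hmlo, hmmin⟩ : ∃ m : ℝ, 0 ≤ m ∧ (∀ k, -H k ≤ m) ∧
      ∀ b, 0 ≤ b → (∀ k, -H k ≤ b) → m ≤ b := by
    refine ⟨max 0 (max (-H 0) (max (-H 1) (-H 2))), le_max_left _ _, ?_, ?_⟩
    · intro k
      fin_cases k
      · exact le_trans (le_max_left _ _) (le_max_right _ _)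
      · exact le_trans (le_trans (le_max_left _ _) (le_max_right _ _)) (le_max_right _ _)
      · exact le_trans (le_trans (le_max_right _ _) (le_max_right _ _)) (le_max_right _ _)
    · intro b hb h1
      exact max_le hb (max_le (h1 0) (max_le (h1 1) (h1 2)))
  have nc0 : ∀ k, 0 ≤ nc N k := fun k => by
    have a0 := hN 0 k
    have a1 := hN 1 k
    have a2 := hN 2 k
    unfold nc
    linarith
  -- upper bound of the heights
  have hup : ∀ k, H k ≤ R k + nc N k * m := by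
    intro k
    have e := hH k
    have b0 := mul_le_mul_of_nonneg_left (show -m ≤ H 0 by linarith [hmlo 0]) (hN 0 k)
    have b1 := mul_le_mul_of_nonneg_left (show -m ≤ H 1 by linarith [hmlo 1]) (hN 1 k)
    have b2 := mul_le_mul_of_nonneg_left (show -m ≤ H 2 by linarith [hmlo 2]) (hN 2 k)
    unfold nc
    linarith
  -- lower bound
  have hlo : ∀ k, -H k ≤ nc N k * M - R k := by
    intro k
    have e := hH k
    have b0 := mul_le_mul_of_nonneg_left (hMhi 0) (hN 0 k)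
    have b1 := mul_le_mul_of_nonneg_left (hMhi 1) (hN 1 k)
    have b2 := mul_le_mul_of_nonneg_left (hMhi 2) (hN 2 k)
    unfold nc
    linarith
  have hnm : ∀ k, nc N k * m ≤ nb * m := fun k => mul_le_mul_of_nonneg_right (hn k) hm0
  have hnM : ∀ k, nc N k * M ≤ nb * M := fun k => mul_le_mul_of_nonneg_right (hn k) hM0
  have hRb0 : 0 ≤ Rb := (hR0 0).trans (hRb 0)
  have g1 : m ≤ nb * M := hmmin _ (mul_nonneg hnb hM0) fun k => by
    linarith [hlo k, hR0 k, hnM k]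
  have g2 : M ≤ Rb + nb * m := hMmin _ (by have := mul_nonneg hnb hm0; linarith) fun k => by
    linarith [hup k, hRb k, hnm k]
  have hMg : M ≤ 2 * κ * g := by
    have h1 : M * (1 - nb ^ 2) ≤ 2 * κ * g * (1 - nb ^ 2) := by
      nlinarith [mul_le_mul_of_nonneg_left g1 hnb]
    exact le_of_mul_le_mul_right h1 (by nlinarith)
  have g3 : m ≤ g * M := by
    refine hmmin _ (mul_nonneg hg0 hM0) fun k => ?_
    have h1 := hlo k
    have h2 := hRn k
    have h3 : nc N k * M - κ * nc N k ^ 2 / 2 ≤ M ^ 2 / (2 * κ) := by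
      rw [le_div_iff₀ (by positivity)]
      nlinarith [sq_nonneg (κ * nc N k - M)]
    have h4 : M ^ 2 / (2 * κ) ≤ g * M := by
      rw [div_le_iff₀ (by positivity)]
      nlinarith [mul_le_mul_of_nonneg_right hMg hM0]
    linarith
  have hρs : 0 ≤ ρ1 * s := (hR0 0).trans (hRs 0)
  have g4 : M ≤ ρ1 * s + nb * m := hMmin _ (by have := mul_nonneg hnb hm0; linarith) fun k => by
    linarith [hup k, hRs k, hnm k]
  have g5 : m * (1 - nb * g) ≤ g * (ρ1 * s) := by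
    have h1 := mul_le_mul_of_nonneg_left g4 hg0
    nlinarith
  -- positive parts
  have hid : ζ 0 * R 0 + ζ 1 * R 1 + ζ 2 * R 2 = u 0 * H 0 + u 1 * H 1 + u 2 * H 2 := by
    rw [← hζ 0, ← hζ 1, ← hζ 2, ← hH 0, ← hH 1, ← hH 2]
    unfold LN
    ring
  have hpart : ∀ k, u k * H k ≤ u k * max (H k) 0 + max 0 (-u k) * m := by
    intro k
    rcases le_total 0 (H k) with h1 | h1
    · rw [max_eq_left h1]
      have := mul_nonneg (le_max_left 0 (-u k)) hm0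
      linarith
    · rw [max_eq_right h1, mul_zero, zero_add]
      have h2 : u k * H k ≤ max 0 (-u k) * (-H k) := by
        have h3 := le_max_right 0 (-u k)
        nlinarith
      exact h2.trans (mul_le_mul_of_nonneg_left (hmlo k) (le_max_left _ _))
  obtain ⟨i, j, l, hij, _, _, hji, hlj, hsum⟩ := supp_cases (u := u) (H := fun k => max (H k) 0)
    (t1 := k1) (t2 := k1 + k2) (t3 := k1 + k2) u1 u2 u3 (fun k => le_max_right _ _)
  refine ⟨i, j, hij, ?_⟩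
  have hHp : ∀ k, max (H k) 0 ≤ R k + nb * m := fun k =>
    max_le (by linarith [hup k, hnm k]) (by have := mul_nonneg hnb hm0; linarith [hR0 k])
  have p0 := hpart 0
  have p1 := hpart 1
  have p2 := hpart 2
  have q1 := mul_le_mul_of_nonneg_left (hHp i) hk1
  have q2 := mul_le_mul_of_nonneg_left (hHp j) hk2
  have q3 := mul_le_mul_of_nonneg_right hδ hm0
  have hA0 : 0 ≤ (k1 + k2) * nb + δ := by
    have : 0 ≤ δ := le_trans (by positivity) hδ
    positivity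
  have q4 : ((k1 + k2) * nb + δ) * m ≤ ε * s := by
    have h1 := mul_le_mul_of_nonneg_left g5 hA0
    have h2 := mul_le_mul_of_nonneg_right hε hs
    have h3 : ((k1 + k2) * nb + δ) * m * (1 - nb * g) ≤ ε * s * (1 - nb * g) := by
      linarith
    exact le_of_mul_le_mul_right h3 (by linarith)
  rw [hid]
  beta_reduce at hsum
  linarith

/-- wall price of the corner `k` -/
noncomputable def wN (N : Fin 3 → Fin 3 → ℝ) (k : Fin 3) : ℝ :=
  0.1673 * (N (k + 1) k + N (k + 2) k) + 0.0933 * (N (k + 1) (k + 2) + N (k + 2) (k + 1))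

/-- leaks of the other two nodes into the coordinate `k` -/
def rowN (N : Fin 3 → Fin 3 → ℝ) (k : Fin 3) : ℝ := N k (k + 1) + N k (k + 2)

theorem rowN_eq {N : Fin 3 → Fin 3 → ℝ} (hd : ∀ k, N k k = 0) (k : Fin 3) :
    rowN N k = N k 0 + N k 1 + N k 2 := by
  have h0 := hd 0
  have h1 := hd 1
  have h2 := hd 2
  fin_cases k
  · show N 0 1 + N 0 2 = N 0 0 + N 0 1 + N 0 2
    linarith
  · show N 1 2 + N 1 0 = N 1 0 + N 1 1 + N 1 2
    linarith
  · show N 2 0 + N 2 1 = N 2 0 + N 2 1 + N 2 2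
    linarith

section
variable {N : Fin 3 → Fin 3 → ℝ} (hN : ∀ k m, 0 ≤ N k m) (hd : ∀ k, N k k = 0) {c : ℝ}
  (hc : c < 1) (hcol : ∀ m, nc N m ≤ c)
include hN hd hc hcol

/-- **the value of a face, numbers only** (`kp p = Kc * rowN N p`, `r k = wN N k`) -/
theorem fv_value {R H ζ u S : Fin 3 → ℝ} {A' B B' Kc ρ s ρ1 Rb κ nb g k1 k2 δ ε p : ℝ}
    (hA : 0 ≤ A') (hB : B' ≤ B)
    (hH : ∀ j, H j + (N 0 j * H 0 + N 1 j * H 1 + N 2 j * H 2) = R j)
    (hζ : ∀ k, ζ k + LN N ζ k = u k) (hS : ∀ k, 0 ≤ S k)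
    (hR0 : ∀ k, 0 ≤ R k) (hRs : ∀ k, R k ≤ ρ1 * s)
    (hRb : ∀ k, R k ≤ Rb) (hκ : 0 < κ) (hRn : ∀ k, κ * nc N k ^ 2 / 2 ≤ R k)
    (hn : ∀ k, nc N k ≤ nb) (hnb : 0 ≤ nb) (hnb1 : nb < 1) (hg : Rb ≤ 2 * κ * g * (1 - nb ^ 2))
    (hg0 : 0 ≤ g) (hng : nb * g < 1) (hs : 0 ≤ s)
    (hk1 : 0 ≤ k1) (hk2 : 0 ≤ k2) (u1 : ∀ k, u k ≤ k1) (u2 : ∀ j k, j ≠ k → u j + u k ≤ k1 + k2)
    (u3 : u 0 + u 1 + u 2 ≤ k1 + k2)
    (hδ : max 0 (-u 0) + max 0 (-u 1) + max 0 (-u 2) ≤ δ)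
    (hε : ((k1 + k2) * nb + δ) * (g * ρ1) ≤ ε * (1 - nb * g))
    (hp : p < 1) (hrow : ∀ k, rowN N k ≤ p) (hwB : ∀ k, B * rowN N k + wN N k ≤ B) :
    ∃ i j : Fin 3, i ≠ j ∧ ∀ G, 0 ≤ G →
      (R 0 * (A' * (B' * (1 - rowN N 0) - wN N 0 + Kc * (rowN N 1 + rowN N 2)) - 2 * ρ)
        + R 1 * (A' * (B' * (1 - rowN N 1) - wN N 1 + Kc * (rowN N 0 + rowN N 2)) - 2 * ρ)
        + R 2 * (A' * (B' * (1 - rowN N 2) - wN N 2 + Kc * (rowN N 0 + rowN N 1)) - 2 * ρ))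
      - A' * (S 0 * (wN N 0 - Kc * (rowN N 1 + rowN N 2))
        + S 1 * (wN N 1 - Kc * (rowN N 0 + rowN N 2))
        + S 2 * (wN N 2 - Kc * (rowN N 0 + rowN N 1)))
      + G * ((1 - ε) * s - k1 * R i - k2 * R j) ≤
      A' * (B * (H 0 + H 1 + H 2)
        - (wN N 0 * max (S 0 + H 0) 0 + wN N 1 * max (S 1 + H 1) 0
          + wN N 2 * max (S 2 + H 2) 0)
        + (Kc * rowN N 0 * ((S 1 + R 1) + (S 2 + R 2))
          + Kc * rowN N 1 * ((S 0 + R 0) + (S 2 + R 2))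
          + Kc * rowN N 2 * ((S 0 + R 0) + (S 1 + R 1))))
      + G * (s - (ζ 0 * R 0 + ζ 1 * R 1 + ζ 2 * R 2))
      - (ρ * (R 1 + R 2) + ρ * (R 0 + R 2) + ρ * (R 0 + R 1)) := by
  obtain ⟨i, j, hij, hz⟩ := zeta_le hN hH hζ hR0 hRs hRb hκ hRn hn hnb hnb1 hg hg0 hng hs hk1 hk2
    u1 u2 u3 hδ hε
  refine ⟨i, j, hij, fun G hG => ?_⟩
  have hw0 : ∀ k, 0 ≤ wN N k := fun k => by
    unfold wN
    have a1 := hN (k + 1) k
    have a2 := hN (k + 2) k
    have a3 := hN (k + 1) (k + 2)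
    have a4 := hN (k + 2) (k + 1)
    linarith
  have hpl := plane_low hN hd hc hcol (R := R) (H := H) (S := S) (r := wN N) (B := B) hp hH hR0 hw0
    hS (fun k => by rw [← rowN_eq hd]; exact hrow k) (fun k => by
      rw [← rowN_eq hd]; exact hwB k)
  rw [← rowN_eq hd, ← rowN_eq hd, ← rowN_eq hd] at hpl
  have hpl' := mul_le_mul_of_nonneg_left hpl hA
  have hz' := mul_le_mul_of_nonneg_left hz hG
  have hB1 : ∀ k, R k * (A' * (B' * (1 - rowN N k))) ≤ R k * (A' * (B * (1 - rowN N k))) := by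
    intro k
    have h1 : 0 ≤ 1 - rowN N k := by linarith [hrow k]
    have h2 : B' * (1 - rowN N k) ≤ B * (1 - rowN N k) := mul_le_mul_of_nonneg_right hB h1
    exact mul_le_mul_of_nonneg_left (mul_le_mul_of_nonneg_left h2 hA) (hR0 k)
  have b0 := hB1 0
  have b1 := hB1 1
  have b2 := hB1 2
  linarith

end

end Pool.Agent.Helper73.MEI.ArCor
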