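import Pool.Agent.Helper31.SR.FI
import Pool.Agent.Helper73.MEI.FV1

/-!
# Numbers of a face of a placed body

`col_facts`: the columns of the matrix of the leaks against the values of the contact points.
`neg_parts`: the negative coordinates of the highest point.
-/

set_option autoImplicit false

namespace Pool.Agent.Helper73.MEI.ArCor

open Helper80.CW Helper82.CW Helper14.CW Helper93.MEI Helper82.M2
open Pool.Agent.Helper31.SR Pool.Agent.Helper52.MEI Pool.Agent.Helper73.MEI.ZEl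
open Pool.Agent.Helper55.Apex (nc)
open scoped RealInnerProductSpace

/-! ### one column -/

/-- own coordinate against the leaks -/
theorem qq_lk {y y' : ℝ} (hq : 0 < qq y y') :
    1 ≤ qq y y' * (1 + (lk y y' + lk y' y) / 2) := by
  have e : qq y y' * (lk y y' + lk y' y) =
      max 0 ((3 * y - y') / 2) + max 0 ((3 * y' - y) / 2) := by
    unfold lk
    rw [qq_comm y' y]
    field_simp
  have h1 : y + y' ≤ max 0 ((3 * y - y') / 2) + max 0 ((3 * y' - y) / 2) := by
    have a1 := le_max_right 0 ((3 * y - y') / 2)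
    have a2 := le_max_right 0 ((3 * y' - y) / 2)
    linarith
  have h2 : qq y y' = 1 - (y + y') / 2 := rfl
  have h3 : qq y y' * (1 + (lk y y' + lk y' y) / 2) =
      qq y y' + qq y y' * (lk y y' + lk y' y) / 2 := by ring
  rw [h3, e, h2]
  linarith

/-- the leaks against the length of the contact vector -/
theorem lk_sq {y y' : ℝ} (hy : 0 ≤ y) (hy' : 0 ≤ y') (hq : 0 < qq y y') :
    (qq y y' * (lk y y' + lk y' y)) ^ 2 ≤ 2 * r2 y y' := by
  have e : qq y y' * (lk y y' + lk y' y) =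
      max 0 ((3 * y - y') / 2) + max 0 ((3 * y' - y) / 2) := by
    unfold lk
    rw [qq_comm y' y]
    field_simp
  rw [e]
  have := leak_sum_sq hy hy'
  linarith

/-- pure numbers of a column: `t` = sum of the leaks, `q` = own coordinate, `r` = square of the
length -/
theorem col_num {t q r : ℝ} (ht : 0 ≤ t) (hq : 0 < q) (h1 : 1 ≤ q * (1 + t / 2))
    (h2 : (q * t) ^ 2 ≤ 2 * r) :
    t ^ 2 ≤ 2 * r * (1 + t / 2) ^ 2 ∧ t ^ 2 * (1 - t) / 2 ≤ r ∧ t ^ 2 * (1 - t / 2) / 2 ≤ r / q ∧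
      t ^ 2 * q / 2 ≤ r / q := by
  have h3 : t ^ 2 ≤ 2 * r * (1 + t / 2) ^ 2 := by
    have a1 : t ≤ q * t * (1 + t / 2) := by nlinarith
    have a2 : t ^ 2 ≤ (q * t * (1 + t / 2)) ^ 2 := pow_le_pow_left₀ ht a1 2
    have a3 := mul_le_mul_of_nonneg_right h2 (sq_nonneg (1 + t / 2))
    nlinarith
  have h4 : t ^ 2 * q / 2 ≤ r / q := by
    rw [le_div_iff₀ hq]
    nlinarith
  have h5 : t ^ 2 * (1 - t / 2) / 2 ≤ t ^ 2 * q / 2 := by
    have : 1 - t / 2 ≤ q := by
      have b1 : (1 - t / 2) * (1 + t / 2) ≤ q * (1 + t / 2) := by nlinarith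
      exact le_of_mul_le_mul_right b1 (by linarith)
    have := mul_le_mul_of_nonneg_left this (sq_nonneg t)
    linarith
  refine ⟨h3, ?_, h5.trans h4, h4⟩
  have hr : 0 ≤ r := by nlinarith [sq_nonneg (q * t)]
  rcases le_total 1 t with c | c
  · nlinarith [sq_nonneg t]
  · have b1 : (1 - t) * t ^ 2 ≤ (1 - t) * (2 * r * (1 + t / 2) ^ 2) :=
      mul_le_mul_of_nonneg_left h3 (by linarith)
    have b2 : (1 - t) * (1 + t / 2) ^ 2 ≤ 1 := by
      nlinarith [mul_nonneg ht (sq_nonneg t), sq_nonneg t]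
    have b3 := mul_le_mul_of_nonneg_left b2 (show 0 ≤ 2 * r by linarith)
    nlinarith

/-! ### the face of the vertex `0` -/

variable {a : Fin 4 → E3} {K : Set E3} {S : Fin 4 → ℝ} {σ : MeasureTheory.Measure (E3 × E3)}
  {c : Fin 4 → E3} {z : Fin 4 → Fin 4 → E3}

/-- **the columns of the face of the vertex `0`** -/
theorem col_facts (h : CN K σ a c) (v : Viol K a S) (hz : CV a K z) (k : Fin 3) :
    0 ≤ nc (NM a z) k ∧ 1 ≤ qM a z k * (1 + nc (NM a z) k / 2) ∧
    (qM a z k * nc (NM a z) k) ^ 2 ≤ 2 * ‖z 0 k.succ‖ ^ 2 ∧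
    ‖z 0 k.succ‖ ^ 2 ≤ S 0 ∧ ‖z 0 k.succ‖ ^ 2 ≤ S k.succ := by
  have g := gram_of_dist h.ha
  obtain ⟨q0, q1, q2⟩ := qM_eq hz g
  obtain ⟨n0, n1, n2⟩ := nc_eq h v hz
  obtain ⟨r0, r1, r2'⟩ := norm_z_eq hz g
  have y := fun {i j k : Fin 4} (hij : i ≠ j) (hik : i ≠ k) => Y_nonneg hz h.hp hij hik
  have hnn : 0 ≤ nc (NM a z) k := by
    have a0 := NM_nonneg h v hz 0 k
    have a1 := NM_nonneg h v hz 1 k
    have a2 := NM_nonneg h v hz 2 k
    unfold nc
    linarith
  have hqk := qM_ge h v hz k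
  have hk : (0 : Fin 4) ≠ k.succ := (Fin.succ_ne_zero k).symm
  refine ⟨hnn, ?_, ?_, norm_z_le hz h.ha v hk, norm_z_le' hz h.ha v hk⟩
  · fin_cases k
    · show 1 ≤ qM a z 0 * (1 + nc (NM a z) 0 / 2)
      have hq' : 69 / 100 ≤ qM a z 0 := hqk
      rw [q0] at hq' ⊢
      rw [n0]
      exact qq_lk (by linarith)
    · show 1 ≤ qM a z 1 * (1 + nc (NM a z) 1 / 2)
      have hq' : 69 / 100 ≤ qM a z 1 := hqk
      rw [q1] at hq' ⊢
      rw [n1]
      exact qq_lk (by linarith)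
    · show 1 ≤ qM a z 2 * (1 + nc (NM a z) 2 / 2)
      have hq' : 69 / 100 ≤ qM a z 2 := hqk
      rw [q2] at hq' ⊢
      rw [n2]
      exact qq_lk (by linarith)
  · fin_cases k
    · show (qM a z 0 * nc (NM a z) 0) ^ 2 ≤ 2 * ‖z 0 1‖ ^ 2
      have hq' : 69 / 100 ≤ qM a z 0 := hqk
      rw [q0] at hq' ⊢
      rw [n0, r0]
      exact lk_sq (y (by decide) (by decide)) (y (by decide) (by decide)) (by linarith)
    · show (qM a z 1 * nc (NM a z) 1) ^ 2 ≤ 2 * ‖z 0 2‖ ^ 2
      have hq' : 69 / 100 ≤ qM a z 1 := hqk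
      rw [q1] at hq' ⊢
      rw [n1, r1]
      exact lk_sq (y (by decide) (by decide)) (y (by decide) (by decide)) (by linarith)
    · show (qM a z 2 * nc (NM a z) 2) ^ 2 ≤ 2 * ‖z 0 3‖ ^ 2
      have hq' : 69 / 100 ≤ qM a z 2 := hqk
      rw [q2] at hq' ⊢
      rw [n2, r2']
      exact lk_sq (y (by decide) (by decide)) (y (by decide) (by decide)) (by linarith)

/-- own coordinate against the length -/
theorem qM_low (h : CN K σ a c) (hz : CV a K z) (k : Fin 3) {r : ℝ} (hr : 0 ≤ r)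
    (h1 : ‖z 0 k.succ‖ ^ 2 ≤ r ^ 2) : 1 - r * 0.707107 ≤ qM a z k := by
  have g := gram_of_dist h.ha
  obtain ⟨q0, q1, q2⟩ := qM_eq hz g
  obtain ⟨r0, r1, r2'⟩ := norm_z_eq hz g
  have hs : √2 ≤ 1.414214 := by
    rw [Real.sqrt_le_left (by norm_num)]
    norm_num
  have key : ∀ y y' : ℝ, r2 y y' ≤ r ^ 2 → 1 - r * 0.707107 ≤ qq y y' := by
    intro y y' hy
    have h2 := add_le hr hy
    have h3 := mul_le_mul_of_nonneg_right hs hr
    unfold qq
    linarith
  fin_cases k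
  · show 1 - r * 0.707107 ≤ qM a z 0
    rw [q0]
    exact key _ _ (by rw [← r0]; exact h1)
  · show 1 - r * 0.707107 ≤ qM a z 1
    rw [q1]
    exact key _ _ (by rw [← r1]; exact h1)
  · show 1 - r * 0.707107 ≤ qM a z 2
    rw [q2]
    exact key _ _ (by rw [← r2']; exact h1)

/-! ### the negative coordinates of the highest point -/

/-- one negative coordinate -/
theorem neg_one {u v w s Su X t2 : ℝ}
    (hf : (u ^ 2 + v ^ 2 + w ^ 2 + (u + v + w) ^ 2) / 2 = 1 + s)
    (hu : s - Su ≤ u + (u + v + w) - 1) (hs : 0 ≤ s) (hX : s + Su ≤ X) (hX1 : X ≤ 1)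
    (ht : 0 ≤ t2) (ht2 : 3 / 2 + X ≤ t2 ^ 2) : -u ≤ (t2 - 1 + X) / 2 := by
  have h1 : (v + w) ^ 2 ≤ 3 / 2 + s + Su := by
    have h2 := two_sq (u := v) (v := w) (w := u) (s := s) (Sw := Su) (by rw [← hf]; ring)
      (by linarith) (by linarith)
    nlinarith [sq_nonneg (s - Su)]
  have h4 : v + w ≤ t2 := by
    have : (v + w) ^ 2 ≤ t2 ^ 2 := by linarith
    exact (abs_le_of_sq_le_sq' this ht).2
  linarith

/-- two nonpositive coordinates -/
theorem neg_two {u v w s Su Sv X : ℝ} (hw : w + (u + v + w) ≤ 2)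
    (hu : s - Su ≤ u + (u + v + w) - 1) (hv : s - Sv ≤ v + (u + v + w) - 1) (hs : 0 ≤ s)
    (hX : s + Su + Sv ≤ X) : -u + -v ≤ X / 2 := by
  linarith

/-- three negative coordinates are impossible -/
theorem neg_three {u v w s Su X : ℝ} (hu : s - Su ≤ u + (u + v + w) - 1) (hs : 0 ≤ s)
    (hX : s + Su ≤ X) (hX1 : X ≤ 1) (h1 : u < 0) (h2 : v < 0) (h3 : w < 0) : False := by
  linarith

/-- **the negative parts of the coordinates of the highest point** -/
theorem neg_parts {u S : Fin 3 → ℝ} {s X t2 δ : ℝ}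
    (hf : (u 0 ^ 2 + u 1 ^ 2 + u 2 ^ 2 + (u 0 + u 1 + u 2) ^ 2) / 2 = 1 + s)
    (hu : ∀ k, u k + (u 0 + u 1 + u 2) ≤ 2)
    (hc : ∀ k, s - S k ≤ u k + (u 0 + u 1 + u 2) - 1) (hs : 0 ≤ s) (hS : ∀ k, 0 ≤ S k)
    (hX : s + (S 0 + S 1 + S 2) ≤ X) (hX1 : X ≤ 1) (ht : 1 ≤ t2) (ht2 : 3 / 2 + X ≤ t2 ^ 2)
    (hδ : (t2 - 1 + X) / 2 ≤ δ) :
    max 0 (-u 0) + max 0 (-u 1) + max 0 (-u 2) ≤ δ := by
  have S0 := hS 0
  have S1 := hS 1
  have S2 := hS 2
  have hu0 := hu 0
  have hu1 := hu 1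
  have hu2 := hu 2
  have hc0 := hc 0
  have hc1 := hc 1
  have hc2 := hc 2
  have hX0 : 0 ≤ X := by linarith
  have hδ0 : X / 2 ≤ δ := by linarith
  rcases le_or_gt 0 (u 0) with a0 | a0 <;> rcases le_or_gt 0 (u 1) with a1 | a1 <;>
    rcases le_or_gt 0 (u 2) with a2 | a2
  · rw [max_eq_left (by linarith), max_eq_left (by linarith), max_eq_left (by linarith)]
    linarith
  · rw [max_eq_left (by linarith), max_eq_left (by linarith), max_eq_right (by linarith)]
    have := neg_one (u := u 2) (v := u 0) (w := u 1) (s := s) (Su := S 2) (X := X) (t2 := t2)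
      (by rw [← hf]; ring) (by linarith) hs (by linarith) hX1 (by linarith) ht2
    linarith
  · rw [max_eq_left (by linarith), max_eq_right (by linarith), max_eq_left (by linarith)]
    have := neg_one (u := u 1) (v := u 0) (w := u 2) (s := s) (Su := S 1) (X := X) (t2 := t2)
      (by rw [← hf]; ring) (by linarith) hs (by linarith) hX1 (by linarith) ht2
    linarith
  · rw [max_eq_left (by linarith), max_eq_right (by linarith), max_eq_right (by linarith)]
    have := neg_two (u := u 1) (v := u 2) (w := u 0) (s := s) (Su := S 1) (Sv := S 2) (X := X)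
      (by linarith) (by linarith) (by linarith) hs (by linarith)
    linarith
  · rw [max_eq_right (by linarith), max_eq_left (by linarith), max_eq_left (by linarith)]
    have := neg_one (u := u 0) (v := u 1) (w := u 2) (s := s) (Su := S 0) (X := X) (t2 := t2)
      (by rw [← hf]) (by linarith) hs (by linarith) hX1 (by linarith) ht2
    linarith
  · rw [max_eq_right (by linarith), max_eq_left (by linarith), max_eq_right (by linarith)]
    have := neg_two (u := u 0) (v := u 2) (w := u 1) (s := s) (Su := S 0) (Sv := S 2) (X := X)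
      (by linarith) (by linarith) (by linarith) hs (by linarith)
    linarith
  · rw [max_eq_right (by linarith), max_eq_right (by linarith), max_eq_left (by linarith)]
    have := neg_two (u := u 0) (v := u 1) (w := u 2) (s := s) (Su := S 0) (Sv := S 1) (X := X)
      (by linarith) (by linarith) (by linarith) hs (by linarith)
    linarith
  · exact (neg_three (u := u 0) (v := u 1) (w := u 2) (s := s) (Su := S 0) (X := X)
      (by linarith) hs (by linarith) hX1 a0 a1 a2).elim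

/-- upper bounds of the coordinates of the highest point -/
theorem pos_parts {u S : Fin 3 → ℝ} {s X t3 : ℝ}
    (hf : (u 0 ^ 2 + u 1 ^ 2 + u 2 ^ 2 + (u 0 + u 1 + u 2) ^ 2) / 2 = 1 + s)
    (hu : ∀ k, u k + (u 0 + u 1 + u 2) ≤ 2)
    (hc : ∀ k, s - S k ≤ u k + (u 0 + u 1 + u 2) - 1) (hs : 0 ≤ s) (hS : ∀ k, 0 ≤ S k)
    (hX : s + (S 0 + S 1 + S 2) ≤ X) (hX1 : X ≤ 1) (ht : 0 ≤ t3)
    (ht3 : 3 / 2 * (1 + X) ≤ t3 ^ 2) :
    (∀ k, u k ≤ 1 + X / 4) ∧ (∀ j k, j ≠ k → u j + u k ≤ t3) ∧ u 0 + u 1 + u 2 ≤ t3 := by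
  have S0 := hS 0
  have S1 := hS 1
  have S2 := hS 2
  have hu0 := hu 0
  have hu1 := hu 1
  have hu2 := hu 2
  have hc0 := hc 0
  have hc1 := hc 1
  have hc2 := hc 2
  have hX0 : 0 ≤ X := by linarith
  have two : ∀ p q r Sr : ℝ, (p ^ 2 + q ^ 2 + r ^ 2 + (p + q + r) ^ 2) / 2 = 1 + s →
      s - Sr ≤ r + (p + q + r) - 1 → s + Sr ≤ X → p + q ≤ t3 := by
    intro p q r Sr g1 g2 g3
    have h2 := two_sq (u := p) (v := q) (w := r) (s := s) (Sw := Sr) g1 g2 (by linarith)
    have h3 : (p + q) ^ 2 ≤ t3 ^ 2 := by nlinarith [sq_nonneg (s - Sr)]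
    exact (abs_le_of_sq_le_sq' h3 ht).2
  refine ⟨?_, ?_, ?_⟩
  · intro k
    fin_cases k
    · show u 0 ≤ _
      linarith
    · show u 1 ≤ _
      linarith
    · show u 2 ≤ _
      linarith
  · have e01 := two (u 0) (u 1) (u 2) (S 2) hf hc2 (by linarith)
    have e02 := two (u 0) (u 2) (u 1) (S 1) (by rw [← hf]; ring) (by linarith) (by linarith)
    have e12 := two (u 1) (u 2) (u 0) (S 0) (by rw [← hf]; ring) (by linarith) (by linarith)
    intro j k hjk
    fin_cases j <;> fin_cases k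
    · exact absurd rfl hjk
    · exact e01
    · exact e02
    · show u 1 + u 0 ≤ _
      linarith
    · exact absurd rfl hjk
    · exact e12
    · show u 2 + u 0 ≤ _
      linarith
    · show u 2 + u 1 ≤ _
      linarith
    · exact absurd rfl hjk
  · have h1 := three_sq hf
    have h3 : (u 0 + u 1 + u 2) ^ 2 ≤ t3 ^ 2 := by nlinarith
    exact (abs_le_of_sq_le_sq' h3 ht).2

end Pool.Agent.Helper73.MEI.ArCor
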