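import Pool.Agent.Helper78.MEI.FGM
import Pool.Agent.Helper73.MEI.FV2

/-!
# The face of a placed body, numbers only (true moments of the arcs)

`Rng` = the numbers of a range `Σ S ≤ X`; `face_numM` = `face_KSM` with the plane, the residual
masses and the position of the highest point eliminated.
-/

set_option autoImplicit false

namespace Pool.Agent.Helper73.MEI.ArCor

open Set Metric MeasureTheory Helper80.CW Helper82.CW Helper14.CW Helper93.MEI Helper82.M2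
open Helper14.MEI2 Pool.Agent.Helper52.MEI Pool.Agent.Helper73.MEI Helper37.MEI Helper41.MEI
open Helper33.MEI (Wi)
open Pool.Agent.Helper55.Mass (LN vv B0 B0_ge)
open Pool.Agent.Helper55.Apex (nc)
open Pool.Agent.Helper55.ApexP (PN alP mu_bal)
open Pool.Agent.Helper55.Fill (wc)
open Pool.Agent.Helper73.MEI.SideP (flP)
open Pool.Agent.Helper96.Kap (kap)
open Pool.Agent.Helper31.SR
open Helper78.MEI
open Pool.Agent.Helper73.MEI.ZEl
open Helper75.MEI2 (mu vt)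
open scoped RealInnerProductSpace ENNReal

/-- the numbers of a range `Σ S ≤ X`: `rm` bounds the lengths of the contact vectors, `qm` the own
coordinates from below, `nb` the columns, `ρ1` and `Rb` the values of the nodes, `k1`, `k12` the
coordinates of the highest point, `δ` its negative parts, `ε` the loss by negative heights -/
structure Rng (X rm qm nb ρ1 Rb gg ε k1 k12 t2 δ : ℝ) : Prop where
  X1 : X ≤ 1
  rm0 : 0 ≤ rm
  rmX : X / 2 ≤ rm ^ 2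
  qm0 : 0 < qm
  qmr : qm ≤ 1 - rm * 0.707107
  nb0 : 0 ≤ nb
  nbq : 1.414214 * rm ≤ nb * qm
  nb3 : 3 * nb ≤ 99 / 100
  ρq : 1 ≤ ρ1 * qm
  Rbq : X / 2 ≤ Rb * qm
  gg0 : 0 ≤ gg
  gR : Rb ≤ 2 * qm * gg * (1 - nb ^ 2)
  k1X : 1 + X / 4 ≤ k1
  k12X : 3 / 2 * (1 + X) ≤ k12 ^ 2
  k12k : k1 ≤ k12
  t21 : 1 ≤ t2
  t2X : 3 / 2 + X ≤ t2 ^ 2
  δt : (t2 - 1 + X) / 2 ≤ δ
  hε : (k12 * nb + δ) * (gg * ρ1) ≤ ε * (1 - nb * gg)
  ng : nb * gg < 1

variable {a : Fin 4 → E3} {K : Set E3} {S : Fin 4 → ℝ} {σ : Measure (E3 × E3)}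
  {c : Fin 4 → E3} {z : Fin 4 → Fin 4 → E3} {X rm qm nb ρ1 Rb gg ε k1 k12 t2 δ : ℝ}

/-- **the numbers of the columns of the face of the vertex `0`** -/
theorem cols (P : Rng X rm qm nb ρ1 Rb gg ε k1 k12 t2 δ) (h : CN K σ a c) (v : Viol K a S)
    (hz : CV a K z) (hX : S 0 + (S 1 + S 2 + S 3) ≤ X) (k : Fin 3) :
    qm ≤ qM a z k ∧ nc (NM a z) k ≤ nb ∧ RM a z k ≤ ρ1 * S 0 ∧ RM a z k ≤ Rb ∧
    qm * nc (NM a z) k ^ 2 / 2 ≤ RM a z k ∧
    nc (NM a z) k ^ 2 * (1 - nc (NM a z) k / 2) / 2 ≤ RM a z k ∧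
    nc (NM a z) k ^ 2 ≤ 2 * S 0 * (1 + nc (NM a z) k / 2) ^ 2 ∧
    nc (NM a z) k ^ 2 ≤ 2 * S k.succ * (1 + nc (NM a z) k / 2) ^ 2 ∧
    nc (NM a z) k ^ 2 * (1 - nc (NM a z) k) / 2 ≤ S 0 ∧
    nc (NM a z) k ^ 2 * (1 - nc (NM a z) k) / 2 ≤ S k.succ := by
  obtain ⟨f1, f2, f3, f4, f5⟩ := col_facts h v hz k
  have s0 := v.nn 0
  have s1 := v.nn 1
  have s2 := v.nn 2
  have s3 := v.nn 3
  have hk2 : S 0 + S k.succ ≤ X := by
    fin_cases k
    · show S 0 + S 1 ≤ X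
      linarith
    · show S 0 + S 2 ≤ X
      linarith
    · show S 0 + S 3 ≤ X
      linarith
  have hr : ‖z 0 k.succ‖ ^ 2 ≤ X / 2 := by linarith
  have hq := qM_low h hz k P.rm0 (hr.trans P.rmX)
  have hq' : qm ≤ qM a z k := P.qmr.trans hq
  have hqp : 0 < qM a z k := P.qm0.trans_le hq'
  obtain ⟨c1, c2, c3, c4⟩ := col_num f1 hqp f2 f3
  have hn : nc (NM a z) k ≤ nb := by
    have e1 : (qM a z k * nc (NM a z) k) ^ 2 ≤ (1.414214 * rm) ^ 2 := by
      have := P.rmX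
      nlinarith [sq_nonneg rm]
    have e2 : qM a z k * nc (NM a z) k ≤ 1.414214 * rm :=
      (abs_le_of_sq_le_sq' e1 (by have := P.rm0; positivity)).2
    have e3 : nb * qm ≤ nb * qM a z k := mul_le_mul_of_nonneg_left hq' P.nb0
    have e4 : nc (NM a z) k * qM a z k ≤ nb * qM a z k := by
      have := P.nbq
      linarith
    exact le_of_mul_le_mul_right e4 hqp
  have hR : RM a z k = ‖z 0 k.succ‖ ^ 2 / qM a z k := rfl
  have hρ0 : 0 ≤ ρ1 := by
    by_contra hneg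
    have := mul_neg_of_neg_of_pos (not_le.1 hneg) P.qm0
    linarith [P.ρq]
  refine ⟨hq', hn, ?_, ?_, ?_, ?_, ?_, ?_, c2.trans f4, c2.trans f5⟩
  · rw [hR, div_le_iff₀ hqp]
    have e1 : 1 ≤ ρ1 * qM a z k := P.ρq.trans (mul_le_mul_of_nonneg_left hq' hρ0)
    have e2 := mul_le_mul_of_nonneg_right e1 s0
    linarith
  · rw [hR, div_le_iff₀ hqp]
    have hRb0 : 0 ≤ Rb := by
      by_contra hneg
      have := mul_neg_of_neg_of_pos (not_le.1 hneg) P.qm0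
      have : 0 ≤ X := by linarith [v.nn k.succ]
      linarith [P.Rbq]
    have e1 : Rb * qm ≤ Rb * qM a z k := mul_le_mul_of_nonneg_left hq' hRb0
    linarith [P.Rbq]
  · rw [hR]
    refine le_trans ?_ c4
    have := mul_le_mul_of_nonneg_right hq' (sq_nonneg (nc (NM a z) k))
    linarith
  · rw [hR]
    exact c3
  · refine c1.trans ?_
    have := mul_le_mul_of_nonneg_right f4 (sq_nonneg (1 + nc (NM a z) k / 2))
    linarith
  · refine c1.trans ?_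
    have := mul_le_mul_of_nonneg_right f5 (sq_nonneg (1 + nc (NM a z) k / 2))
    linarith

theorem wc_eq (N : Fin 3 → Fin 3 → ℝ) : wc N 0 1 2 = wN N 0 ∧ wc N 1 0 2 = wN N 1 ∧
    wc N 2 0 1 = wN N 2 := by
  refine ⟨?_, ?_, ?_⟩
  · show 0.1673 * (N 1 0 + N 2 0) + 0.0933 * (N 1 2 + N 2 1) =
      0.1673 * (N 1 0 + N 2 0) + 0.0933 * (N 1 2 + N 2 1)
    rfl
  · show 0.1673 * (N 0 1 + N 2 1) + 0.0933 * (N 0 2 + N 2 0) =
      0.1673 * (N 2 1 + N 0 1) + 0.0933 * (N 2 0 + N 0 2)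
    ring
  · show 0.1673 * (N 0 2 + N 1 2) + 0.0933 * (N 0 1 + N 1 0) =
      0.1673 * (N 0 2 + N 1 2) + 0.0933 * (N 0 1 + N 1 0)
    rfl

/-- without apex the certificate does not depend on the apex data -/
theorem GM_zero (A' : ℝ) (N : Fin 3 → Fin 3 → ℝ) (ζ ζp ζ' ζp' : Fin 3 → ℝ)
    (hf κ : Fin 3 → ℝ × ℝ → ℝ) (β : Fin 3 → ℝ) (M : Fin 3 → Fin 3 → ℝ) (E R S : Fin 3 → ℝ)
    (s0 s0' : ℝ) :
    GM A' N ζ ζp 0 hf κ β M E R S s0 = GM A' N ζ' ζp' 0 hf κ β M E R S s0' := by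
  funext t
  unfold GM Gg
  simp

theorem DM_zero (A' : ℝ) (N : Fin 3 → Fin 3 → ℝ) (ζ ζp ζ' ζp' : Fin 3 → ℝ)
    (hf κ : Fin 3 → ℝ × ℝ → ℝ) (β : Fin 3 → ℝ) (M : Fin 3 → Fin 3 → ℝ) (μ sm : Fin 3 → ℝ) :
    DM A' N ζ ζp 0 hf κ β M μ sm = DM A' N ζ' ζp' 0 hf κ β M μ sm := by
  funext t
  unfold DM Dg
  simp

/-- the price of the three arcs: `ρ` the bound of their moments, `κ` the masses of the strips -/
noncomputable def arcP (A' ρ : ℝ) (κ R S : Fin 3 → ℝ) : ℝ :=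
  (pp (ρ * R 1 - A' * κ 0 * (R 1 + S 1)) + pp (ρ * R 2 - A' * κ 0 * (R 2 + S 2)))
    + (pp (ρ * R 0 - A' * κ 1 * (R 0 + S 0)) + pp (ρ * R 2 - A' * κ 1 * (R 2 + S 2)))
    + (pp (ρ * R 0 - A' * κ 2 * (R 0 + S 0)) + pp (ρ * R 1 - A' * κ 2 * (R 1 + S 1)))

/-- the corner terms of a face -/
noncomputable def corP (A' : ℝ) (N : Fin 3 → Fin 3 → ℝ) (R S : Fin 3 → ℝ) : ℝ :=
  R 0 * (A' * (0.2132 * (1 - rowN N 0) - wN N 0)) + R 1 * (A' * (0.2132 * (1 - rowN N 1) - wN N 1))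
    + R 2 * (A' * (0.2132 * (1 - rowN N 2) - wN N 2))
    - A' * (S 0 * wN N 0 + S 1 * wN N 1 + S 2 * wN N 2)

/-- **the face of the vertex `τ 0`, numbers only** -/
theorem face_numM [IsFiniteMeasure σ]
    (P : Rng X rm qm nb ρ1 Rb gg ε k1 k12 t2 δ)
    (h : CN K σ a c) (v : Viol K a S) (hz : CV a K z)
    (τ : Equiv.Perm (Fin 4)) (hX : S (τ 0) + (S (τ 1) + S (τ 2) + S (τ 3)) ≤ X)
    {A : ℝ} (hA : 7 / 2 ≤ A)
    {l : Fin 3 → Bool → Bool → E3 × E3 → ℝ} (hl : Lok a l)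
    {δ3 dE dm : Fin 3 → ℝ} (hδ : ∀ p, MA σ a l τ p p ≤ δ3 p) (hdE : ∀ p, 0 ≤ dE p)
    (hdm : ∀ p, 0 ≤ dm p) (hdd : ∀ p, δ3 p ^ 2 ≤ dE p * dm p)
    {ρ : ℝ} (hρ : 0 < ρ) (hMρ : ∀ p k, k ≠ p → MA σ a l τ p k ≤ ρ)
    {x : E3} (hx : x ∈ K) (hxs : Qv a (τ 0) x = S (τ 0) ∨ S (τ 0) = 0)
    {N : Fin 3 → Fin 3 → ℝ} (hNd : N = NM (fun i => a (τ i)) (fun i j => z (τ i) (τ j)))
    {R : Fin 3 → ℝ} (hRd : R = RM (fun i => a (τ i)) (fun i j => z (τ i) (τ j)))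
    {κ : Fin 3 → ℝ} (hκ0 : ∀ p, 0 ≤ κ p) (hκρ : ∀ p, (A / 2 + 1 / 8) * κ p ≤ ρ)
    (hκ : ∀ p, κ p ≤ Pool.Agent.Helper55.Mass.Id (fun t => kap N (vv t) p))
    {φ : ℝ} (hφ0 : 0 < φ) (hφ1 : φ ≤ 1)
    (hF : ∀ p, ρ - (A / 2 + 1 / 8) * κ p ≤
      φ * ((A / 2 + 1 / 8) * Pool.Agent.Helper55.Mass.Id (flP (PN N) p))) :
    ∃ i j : Fin 3, i ≠ j ∧ ∀ ζp : Fin 3 → ℝ, (∀ k, 0 < ζp k) →
      (∀ k, zc (fun i => a (τ i)) N x k ≤ ζp k) → ∀ lamM, 0 ≤ lamM → lamM ≤ 1 - φ →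
      ∀ g, 0 ≤ g → g ≤ (A / 2 + 1 / 8) * (lamM * Pool.Agent.Helper55.Mass.Id (alP N ζp)) →
      ∀ cst, (∀ lam, 0 ≤ lam → lam ≤ lamM → WCost a K τ (A / 2 + 1 / 8)
        (GM (A / 2 + 1 / 8) N (zc (fun i => a (τ i)) N x) ζp lam (fun p t => φ * flP (PN N) p t)
          (fun p t => kap N (vv t) p) (fun p => (A / 2 + 1 / 8) * κ p / ρ) (MB σ a l τ)
          (fun p => aE σ a l (τ 0) (τ p.succ) - dE p) R (fun k => S (τ k.succ)) (S (τ 0)))
        (DM (A / 2 + 1 / 8) N (zc (fun i => a (τ i)) N x) ζp lam (fun p t => φ * flP (PN N) p t)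
          (fun p t => kap N (vv t) p) (fun p => (A / 2 + 1 / 8) * κ p / ρ) (MB σ a l τ)
          (fun j => 1 / qM (fun i => a (τ i)) (fun i j => z (τ i) (τ j)) j)
          (fun p => am σ a l (τ 0) (τ p.succ) - dm p)) cst) →
      LLs σ a l (τ 0) - (dE 0 + dE 1 + dE 2)
        + corP (A / 2 + 1 / 8) N R (fun k => S (τ k.succ))
        + g * ((1 - ε) * S (τ 0) - k1 * R i - (k12 - k1) * R j)
        - arcP (A / 2 + 1 / 8) ρ κ R (fun k => S (τ k.succ)) - cst ≤ Wi a (τ 0) K σ A := by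
  have h' := h.perm τ
  have v' := viol_perm v τ
  have hz' := hz.perm τ
  have hA' : 0 < A / 2 + 1 / 8 := by linarith
  have hN : ∀ k m, 0 ≤ N k m := fun k m => by
    rw [hNd]
    exact NM_nonneg h' v' hz' k m
  have hd : ∀ k, N k k = 0 := fun k => by
    rw [hNd]
    exact NM_diag k
  have hcol : ∀ m, nc N m ≤ 9 / 10 := fun m => by
    rw [hNd]
    exact nc_le h' v' hz' m
  have hc : (9 / 10 : ℝ) < 1 := by norm_num
  have hR0 : ∀ j, 0 ≤ R j := fun j => by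
    rw [hRd]
    exact RM_nonneg h' v' hz' j
  have s0 : 0 ≤ S (τ 0) := v.nn _
  have s1 : 0 ≤ S (τ 1) := v.nn _
  have s2 : 0 ≤ S (τ 2) := v.nn _
  have s3 : 0 ≤ S (τ 3) := v.nn _
  have C := cols P h' v' hz' hX
  rw [← hNd, ← hRd] at C
  obtain ⟨H, hH⟩ := exists_plane hN hc hcol R
  -- prices
  have hβ0 : ∀ p, 0 ≤ (A / 2 + 1 / 8) * κ p / ρ := fun p =>
    div_nonneg (mul_nonneg hA'.le (hκ0 p)) hρ.le
  have hβ1 : ∀ p, (A / 2 + 1 / 8) * κ p / ρ ≤ 1 := fun p => (div_le_one hρ).2 (hκρ p)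
  have hβρ : ∀ p, (A / 2 + 1 / 8) * κ p / ρ * ρ = (A / 2 + 1 / 8) * κ p := fun p =>
    div_mul_cancel₀ _ hρ.ne'
  have hK : ∀ p, (A / 2 + 1 / 8) * κ p / ρ * ρ ≤
      (A / 2 + 1 / 8) * Pool.Agent.Helper55.Mass.Id (fun t => kap N (vv t) p) := fun p => by
    rw [hβρ]
    exact mul_le_mul_of_nonneg_left (hκ p) hA'.le
  have hF' : ∀ p, (1 - (A / 2 + 1 / 8) * κ p / ρ) * ρ ≤
      φ * ((A / 2 + 1 / 8) * Pool.Agent.Helper55.Mass.Id (flP (PN N) p)) := fun p => by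
    rw [sub_mul, hβρ, one_mul]
    exact hF p
  have hpp : ∀ p : Fin 3, ∀ r s : ℝ, ρ * pp ((1 - (A / 2 + 1 / 8) * κ p / ρ) * r
      - (A / 2 + 1 / 8) * κ p / ρ * s) = pp (ρ * r - (A / 2 + 1 / 8) * κ p * (r + s)) := by
    intro p r s
    unfold pp
    rw [mul_max_of_nonneg _ _ hρ.le, mul_zero]
    congr 1
    have := hβρ p
    have e : ρ * ((1 - (A / 2 + 1 / 8) * κ p / ρ) * r - (A / 2 + 1 / 8) * κ p / ρ * s) =
      ρ * r - (A / 2 + 1 / 8) * κ p / ρ * ρ * (r + s) := by ring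
    rw [e, this]
  have hrow : ∀ k, rowN N k ≤ 99 / 100 ∧ B0 * rowN N k + wN N k ≤ B0 := by
    have n0 := (C 0).2.1
    have n1 := (C 1).2.1
    have n2 := (C 2).2.1
    have nb3 := P.nb3
    have a01 := hN 0 1
    have a02 := hN 0 2
    have a10 := hN 1 0
    have a12 := hN 1 2
    have a20 := hN 2 0
    have a21 := hN 2 1
    have d0 := hd 0
    have d1 := hd 1
    have d2 := hd 2
    have e0 : nc N 0 = N 1 0 + N 2 0 := by unfold nc; linarith
    have e1 : nc N 1 = N 0 1 + N 2 1 := by unfold nc; linarith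
    have e2 : nc N 2 = N 0 2 + N 1 2 := by unfold nc; linarith
    rw [e0] at n0
    rw [e1] at n1
    rw [e2] at n2
    have hB := B0_ge
    have hB0 : 0 < B0 := by linarith
    have hT : (N 1 0 + N 2 0) + (N 0 1 + N 2 1) + (N 0 2 + N 1 2) ≤ 1 := by linarith
    have hBT := mul_le_mul_of_nonneg_left hT hB0.le
    have m : ∀ u : ℝ, 0 ≤ u → 0.2132 * u ≤ B0 * u := fun u hu =>
      mul_le_mul_of_nonneg_right hB hu
    have m01 := m _ a01
    have m02 := m _ a02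
    have m10 := m _ a10
    have m12 := m _ a12
    have m20 := m _ a20
    have m21 := m _ a21
    intro k
    fin_cases k
    · constructor
      · show N 0 1 + N 0 2 ≤ 99 / 100
        linarith
      · show B0 * (N 0 1 + N 0 2) + (0.1673 * (N 1 0 + N 2 0) + 0.0933 * (N 1 2 + N 2 1)) ≤ B0
        linarith
    · constructor
      · show N 1 2 + N 1 0 ≤ 99 / 100
        linarith
      · show B0 * (N 1 2 + N 1 0) + (0.1673 * (N 2 1 + N 0 1) + 0.0933 * (N 2 0 + N 0 2)) ≤ B0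
        linarith
    · constructor
      · show N 2 0 + N 2 1 ≤ 99 / 100
        linarith
      · show B0 * (N 2 0 + N 2 1) + (0.1673 * (N 0 2 + N 1 2) + 0.0933 * (N 0 1 + N 1 0)) ≤ B0
        linarith
  have hl1 : (99 / 100 : ℝ) < 1 := by norm_num
  have e1 : τ (Fin.succ 0) = τ 1 := rfl
  have e2 : τ (Fin.succ 1) = τ 2 := rfl
  have e3 : τ (Fin.succ 2) = τ 3 := rfl
  obtain ⟨w0, w1, w2⟩ := wc_eq N
  rcases hxs with hxs | hxs
  · -- the apex is the highest point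
    set u : Fin 3 → ℝ := b3 (fun i => a (τ i)) x with hu
    have cx := coords (a := fun i => a (τ i)) h'.ha (h'.hp x hx) (S := fun k => S (τ k.succ))
      (v'.le 1 x hx) (v'.le 2 x hx) (v'.le 3 x hx)
    have u0 : u 0 = bar (fun i => a (τ i)) 1 x := rfl
    have u1 : u 1 = bar (fun i => a (τ i)) 2 x := rfl
    have u2 : u 2 = bar (fun i => a (τ i)) 3 x := rfl
    rw [← u0, ← u1, ← u2] at cx
    have hq : Qv (fun i => a (τ i)) 0 x = S (τ 0) := hxs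
    rw [hq] at cx
    obtain ⟨cf, ⟨cu0, cu1, cu2⟩, ⟨cc0, cc1, cc2⟩⟩ := cx
    have hu' : ∀ k, u k + (u 0 + u 1 + u 2) ≤ 2 := by
      intro k
      fin_cases k
      · exact cu0
      · exact cu1
      · exact cu2
    have hcc : ∀ k, S (τ 0) - (fun k : Fin 3 => S (τ k.succ)) k ≤ u k + (u 0 + u 1 + u 2) - 1 := by
      intro k
      fin_cases k
      · exact cc0
      · exact cc1
      · exact cc2
    have hS3 : ∀ k, 0 ≤ (fun k : Fin 3 => S (τ k.succ)) k := fun k => v.nn _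
    obtain ⟨g1, g2, g3⟩ := pos_parts (u := u) (S := fun k => S (τ k.succ)) (s := S (τ 0)) (X := X)
      (t3 := k12) cf hu' hcc s0 hS3 hX P.X1 (by
        have := P.k12k
        have := P.k1X
        linarith) P.k12X
    have g4 := neg_parts (u := u) (S := fun k => S (τ k.succ)) (s := S (τ 0)) (X := X)
      (t2 := t2) (δ := δ) cf hu' hcc s0 hS3 hX P.X1 P.t21 P.t2X P.δt
    have hX0 : 0 ≤ X := by linarith
    have hk10 : 0 ≤ k1 := by linarith [P.k1X]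
    have hζ : ∀ k, zc (fun i => a (τ i)) N x k + LN N (zc (fun i => a (τ i)) N x) k = u k :=
      fun k => mu_bal hN hd hc hcol u k
    obtain ⟨i, j, hij, key⟩ := fv_value hN hd hc hcol (A' := A / 2 + 1 / 8) (B := B0)
      (B' := 0.2132) (Kc := 0) (ρ := 0) (R := R) (H := H)
      (ζ := zc (fun i => a (τ i)) N x) (u := u) (S := fun k => S (τ k.succ)) (s := S (τ 0))
      (ρ1 := ρ1) (Rb := Rb) (κ := qm) (nb := nb) (g := gg) (k1 := k1) (k2 := k12 - k1)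
      (δ := δ) (ε := ε) (p := 99 / 100) hA'.le B0_ge hH hζ hS3 hR0 (fun k => (C k).2.2.1)
      (fun k => (C k).2.2.2.1) P.qm0 (fun k => (C k).2.2.2.2.1) (fun k => (C k).2.1) P.nb0
      (by linarith [P.nb3]) P.gR P.gg0 P.ng s0 hk10 (by linarith [P.k12k])
      (fun k => (g1 k).trans P.k1X) (fun j k hjk => (g2 j k hjk).trans (by linarith))
      (g3.trans (by linarith)) g4 (by
        have := P.hε
        have e : k1 + (k12 - k1) = k12 := by ring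
        rw [e]
        exact this) hl1 (fun k => (hrow k).1) (fun k => (hrow k).2)
    refine ⟨i, j, hij, fun ζp hζp hζle lamM hl0 hl1' g hg0 hg cst hW => ?_⟩
    have main := face_KSM h v hz τ hA hl hδ hdE hdm hdd (ρ := fun _ => ρ) (fun _ => hρ) hMρ hx
      hNd hRd (ζ := zc (fun i => a (τ i)) N x) rfl hζp hζle hφ0 hl0 hl1' hβ0 hβ1 hK hF' hH hg0 hg
      (cst := cst) (fun lam q1 q2 => by
        rw [hxs]
        exact hW lam q1 q2)
    have kg := key g hg0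
    rw [w0, w1, w2, hxs] at main
    have t1 := hpp 0 (R 1) (S (τ 2))
    have t2 := hpp 0 (R 2) (S (τ 3))
    have t3 := hpp 1 (R 0) (S (τ 1))
    have t4 := hpp 1 (R 2) (S (τ 3))
    have t5 := hpp 2 (R 0) (S (τ 1))
    have t6 := hpp 2 (R 1) (S (τ 2))
    unfold corP arcP
    beta_reduce at kg main ⊢
    rw [e1, e2, e3] at kg ⊢
    rw [← t1, ← t2, ← t3, ← t4, ← t5, ← t6]
    linarith
  · -- no violation at this vertex
    have hR00 : ∀ k, R k = 0 := fun k => by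
      have := (C k).2.2.1
      rw [hxs, mul_zero] at this
      exact le_antisymm this (hR0 k)
    refine ⟨0, 1, by decide, fun ζp hζp hζle lamM hl0 hl1' g hg0 hg cst hW => ?_⟩
    have main := face_KSM h v hz τ hA hl hδ hdE hdm hdd (ρ := fun _ => ρ) (fun _ => hρ) hMρ hx
      hNd hRd (ζ := zc (fun i => a (τ i)) N x) rfl hζp hζle (lamM := 0) hφ0 le_rfl (by linarith)
      hβ0 hβ1 hK hF' hH (g := 0) le_rfl (by simp)
      (cst := cst) (fun lam q1 q2 => by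
        have e : lam = 0 := le_antisymm q2 q1
        have hw := hW 0 le_rfl hl0
        rw [e, GM_zero _ N _ ζp (zc (fun i => a (τ i)) N x) ζp _ _ _ _ _ _ _
          (Qv a (τ 0) x) (S (τ 0))]
        exact hw)
    have hpl := plane_low hN hd hc hcol (R := R) (H := H) (S := fun k => S (τ k.succ))
      (r := wN N) (B := B0) hl1 hH hR0 (fun k => by
        unfold wN
        have a1 := hN (k + 1) k
        have a2 := hN (k + 2) k
        have a3 := hN (k + 1) (k + 2)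
        have a4 := hN (k + 2) (k + 1)
        linarith) (fun k => v.nn _) (fun k => by
        rw [← rowN_eq hd]
        exact (hrow k).1) (fun k => by
        rw [← rowN_eq hd]
        exact (hrow k).2)
    rw [← rowN_eq hd, ← rowN_eq hd, ← rowN_eq hd] at hpl
    have hpl' := mul_le_mul_of_nonneg_left hpl hA'.le
    rw [w0, w1, w2] at main
    have t1 := hpp 0 (R 1) (S (τ 2))
    have t2 := hpp 0 (R 2) (S (τ 3))
    have t3 := hpp 1 (R 0) (S (τ 1))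
    have t4 := hpp 1 (R 2) (S (τ 3))
    have t5 := hpp 2 (R 0) (S (τ 1))
    have t6 := hpp 2 (R 1) (S (τ 2))
    unfold corP arcP
    beta_reduce at hpl' main ⊢
    rw [e1, e2, e3] at hpl' ⊢
    rw [← t1, ← t2, ← t3, ← t4, ← t5, ← t6, hxs]
    have r0 := hR00 0
    have r1 := hR00 1
    have r2 := hR00 2
    have ri := hR00 0
    have rj := hR00 1
    rw [r0, r1, r2] at hpl' main ⊢
    linarith

end Pool.Agent.Helper73.MEI.ArCor
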