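import Pool.Agent.Helper78.MEI.FaceY
import Pool.Agent.Helper73.MEI.FV3

/-!
# The face of a placed body, numbers only, general families

`face_numX` = `face_instX` (one point inside: the highest point, any apex function; arcs with any
functions, moments per end; any bounds of the residual masses) with the plane, the heights and the
position of the highest point eliminated.
-/

set_option autoImplicit false

namespace Pool.Agent.Helper73.MEI.ArCor

open Set Metric MeasureTheory Helper80.CW Helper82.CW Helper14.CW Helper93.MEI Helper82.M2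
open Helper14.MEI2 Pool.Agent.Helper52.MEI Pool.Agent.Helper73.MEI Helper37.MEI Helper41.MEI
open Helper33.MEI (Wi)
open Pool.Agent.Helper55.Sx (Sim)
open Pool.Agent.Helper55.Mass (LN vv B0 B0_ge)
open Pool.Agent.Helper55.Apex (nc)
open Pool.Agent.Helper55.ApexP (PN alP mu_bal)
open Pool.Agent.Helper55.Fill (xx rr)
open Pool.Agent.Helper31.SR
open Helper78.MEI
open Pool.Agent.Helper73.MEI.ZEl
open Helper75.MEI2 (mu vt)
open scoped RealInnerProductSpace ENNReal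

/-- the price of the three arcs, moments per end -/
noncomputable def arcX (ρ : Fin 3 → Fin 3 → ℝ) (β R S : Fin 3 → ℝ) : ℝ :=
  (ρ 0 1 * pp ((1 - β 0) * R 1 - β 0 * S 1) + ρ 0 2 * pp ((1 - β 0) * R 2 - β 0 * S 2))
    + (ρ 1 0 * pp ((1 - β 1) * R 0 - β 1 * S 0) + ρ 1 2 * pp ((1 - β 1) * R 2 - β 1 * S 2))
    + (ρ 2 0 * pp ((1 - β 2) * R 0 - β 2 * S 0) + ρ 2 1 * pp ((1 - β 2) * R 1 - β 2 * S 1))

/-- the corner terms of a face, residual masses `r` -/
noncomputable def corX (A' : ℝ) (N : Fin 3 → Fin 3 → ℝ) (r R S : Fin 3 → ℝ) : ℝ :=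
  R 0 * (A' * (0.2132 * (1 - rowN N 0) - r 0)) + R 1 * (A' * (0.2132 * (1 - rowN N 1) - r 1))
    + R 2 * (A' * (0.2132 * (1 - rowN N 2) - r 2))
    - A' * (S 0 * r 0 + S 1 * r 1 + S 2 * r 2)

/-- plane form from below, `B0` replaced by its lower bound -/
theorem corX_le {N : Fin 3 → Fin 3 → ℝ} (hN : ∀ k m, 0 ≤ N k m) (hd : ∀ k, N k k = 0) {c : ℝ}
    (hc : c < 1) (hcol : ∀ m, nc N m ≤ c) {A' p : ℝ} (hA : 0 ≤ A') {R H S r : Fin 3 → ℝ}
    (hH : ∀ j, H j + (N 0 j * H 0 + N 1 j * H 1 + N 2 j * H 2) = R j) (hR0 : ∀ k, 0 ≤ R k)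
    (hr0 : ∀ k, 0 ≤ r k) (hS : ∀ k, 0 ≤ S k) (hp : p < 1) (hrow : ∀ k, rowN N k ≤ p)
    (hrB : ∀ k, B0 * rowN N k + r k ≤ B0) :
    corX A' N r R S ≤ A' * (B0 * (H 0 + H 1 + H 2)
        - (r 0 * max (S 0 + H 0) 0 + r 1 * max (S 1 + H 1) 0 + r 2 * max (S 2 + H 2) 0)) := by
  have hpl := plane_low hN hd hc hcol (R := R) (H := H) (S := S) (r := r) (B := B0) hp hH hR0 hr0
    hS (fun k => by rw [← rowN_eq hd]; exact hrow k) (fun k => by
      rw [← rowN_eq hd]; exact hrB k)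
  rw [← rowN_eq hd, ← rowN_eq hd, ← rowN_eq hd] at hpl
  have hpl' := mul_le_mul_of_nonneg_left hpl hA
  have hB1 : ∀ k, R k * (A' * (0.2132 * (1 - rowN N k))) ≤ R k * (A' * (B0 * (1 - rowN N k))) := by
    intro k
    have h1 : 0 ≤ 1 - rowN N k := by linarith [hrow k]
    have h2 : 0.2132 * (1 - rowN N k) ≤ B0 * (1 - rowN N k) :=
      mul_le_mul_of_nonneg_right B0_ge h1
    exact mul_le_mul_of_nonneg_left (mul_le_mul_of_nonneg_left h2 hA) (hR0 k)
  have b0 := hB1 0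
  have b1 := hB1 1
  have b2 := hB1 2
  unfold corX
  linarith

variable {a : Fin 4 → E3} {K : Set E3} {S : Fin 4 → ℝ} {σ : Measure (E3 × E3)}
  {c : Fin 4 → E3} {z : Fin 4 → Fin 4 → E3} {X rm qm nb ρ1 Rb gg ε k1 k12 t2 δ : ℝ}

/-- the contact value of the highest point of a placed body -/
theorem zeta_body (P : Rng X rm qm nb ρ1 Rb gg ε k1 k12 t2 δ)
    (h : CN K σ a c) (v : Viol K a S) (hz : CV a K z)
    (τ : Equiv.Perm (Fin 4)) (hX : S (τ 0) + (S (τ 1) + S (τ 2) + S (τ 3)) ≤ X)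
    {x : E3} (hx : x ∈ K) (hxs : Qv a (τ 0) x = S (τ 0))
    {N : Fin 3 → Fin 3 → ℝ} (hNd : N = NM (fun i => a (τ i)) (fun i j => z (τ i) (τ j)))
    {R : Fin 3 → ℝ} (hRd : R = RM (fun i => a (τ i)) (fun i j => z (τ i) (τ j)))
    {H : Fin 3 → ℝ} (hH : ∀ j, H j + (N 0 j * H 0 + N 1 j * H 1 + N 2 j * H 2) = R j) :
    ∃ i j : Fin 3, i ≠ j ∧
      zc (fun i => a (τ i)) N x 0 * R 0 + zc (fun i => a (τ i)) N x 1 * R 1
        + zc (fun i => a (τ i)) N x 2 * R 2 ≤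
      k1 * R i + (k12 - k1) * R j + ε * S (τ 0) := by
  have h' := h.perm τ
  have v' := viol_perm v τ
  have hz' := hz.perm τ
  have hN : ∀ k m, 0 ≤ N k m := fun k m => by
    rw [hNd]
    exact NM_nonneg h' v' hz' k m
  have hd : ∀ k, N k k = 0 := fun k => by
    rw [hNd]
    exact NM_diag k
  have hcol : ∀ m, nc N m ≤ 9 / 10 := fun m => by
    rw [hNd]
    exact nc_le h' v' hz' m
  have hc : (9 / 10 : ℝ) < 1 := by norm_num
  have hR0 : ∀ j, 0 ≤ R j := fun j => by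
    rw [hRd]
    exact RM_nonneg h' v' hz' j
  have C := cols P h' v' hz' hX
  rw [← hNd, ← hRd] at C
  set u : Fin 3 → ℝ := b3 (fun i => a (τ i)) x with hu
  have cx := coords (a := fun i => a (τ i)) h'.ha (h'.hp x hx) (S := fun k => S (τ k.succ))
    (v'.le 1 x hx) (v'.le 2 x hx) (v'.le 3 x hx)
  have u0 : u 0 = bar (fun i => a (τ i)) 1 x := rfl
  have u1 : u 1 = bar (fun i => a (τ i)) 2 x := rfl
  have u2 : u 2 = bar (fun i => a (τ i)) 3 x := rfl
  rw [← u0, ← u1, ← u2] at cx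
  have hq : Qv (fun i => a (τ i)) 0 x = S (τ 0) := hxs
  rw [hq] at cx
  obtain ⟨cf, ⟨cu0, cu1, cu2⟩, ⟨cc0, cc1, cc2⟩⟩ := cx
  have s0 : 0 ≤ S (τ 0) := v.nn _
  have s1 : 0 ≤ S (τ 1) := v.nn _
  have s2 : 0 ≤ S (τ 2) := v.nn _
  have s3 : 0 ≤ S (τ 3) := v.nn _
  have hu' : ∀ k, u k + (u 0 + u 1 + u 2) ≤ 2 := by
    intro k
    fin_cases k
    · exact cu0
    · exact cu1
    · exact cu2
  have hcc : ∀ k, S (τ 0) - (fun k : Fin 3 => S (τ k.succ)) k ≤ u k + (u 0 + u 1 + u 2) - 1 := by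
    intro k
    fin_cases k
    · exact cc0
    · exact cc1
    · exact cc2
  have hS3 : ∀ k, 0 ≤ (fun k : Fin 3 => S (τ k.succ)) k := fun k => v.nn _
  have hX0 : 0 ≤ X := by linarith
  have hk10 : 0 ≤ k1 := by linarith [P.k1X]
  obtain ⟨g1, g2, g3⟩ := pos_parts (u := u) (S := fun k => S (τ k.succ)) (s := S (τ 0)) (X := X)
    (t3 := k12) cf hu' hcc s0 hS3 hX P.X1 (by linarith [P.k12k]) P.k12X
  have g4 := neg_parts (u := u) (S := fun k => S (τ k.succ)) (s := S (τ 0)) (X := X)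
    (t2 := t2) (δ := δ) cf hu' hcc s0 hS3 hX P.X1 P.t21 P.t2X P.δt
  have hζ : ∀ k, zc (fun i => a (τ i)) N x k + LN N (zc (fun i => a (τ i)) N x) k = u k :=
    fun k => mu_bal hN hd hc hcol u k
  exact zeta_le hN (R := R) (H := H) (ζ := zc (fun i => a (τ i)) N x) (u := u) (s := S (τ 0))
    (ρ1 := ρ1) (Rb := Rb) (κ := qm) (nb := nb) (g := gg) (k1 := k1) (k2 := k12 - k1)
    (δ := δ) (ε := ε) hH hζ hR0 (fun k => (C k).2.2.1)
    (fun k => (C k).2.2.2.1) P.qm0 (fun k => (C k).2.2.2.2.1) (fun k => (C k).2.1) P.nb0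
    (by linarith [P.nb3]) P.gR P.gg0 P.ng s0 hk10 (by linarith [P.k12k])
    (fun k => (g1 k).trans P.k1X) (fun j k hjk => (g2 j k hjk).trans (by linarith))
    (g3.trans (by linarith)) g4 (by
      have := P.hε
      have e : k1 + (k12 - k1) = k12 := by ring
      rw [e]
      exact this)

/-- **the face of the vertex `τ 0`, numbers only, general families** -/
theorem face_numX [IsFiniteMeasure σ]
    (P : Rng X rm qm nb ρ1 Rb gg ε k1 k12 t2 δ)
    (h : CN K σ a c) (v : Viol K a S) (hz : CV a K z)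
    (τ : Equiv.Perm (Fin 4)) (hX : S (τ 0) + (S (τ 1) + S (τ 2) + S (τ 3)) ≤ X)
    {A : ℝ} (hA : 7 / 2 ≤ A)
    {l : Fin 3 → Bool → Bool → E3 × E3 → ℝ} (hl : Lok a l)
    {δ3 dE dm : Fin 3 → ℝ} (hδ : ∀ p, MA σ a l τ p p ≤ δ3 p) (hdE : ∀ p, 0 ≤ dE p)
    (hdm : ∀ p, 0 ≤ dm p) (hdd : ∀ p, δ3 p ^ 2 ≤ dE p * dm p)
    {β : Fin 3 → ℝ} {ρ : Fin 3 → Fin 3 → ℝ} (hMρ : ∀ p k, k ≠ p → MA σ a l τ p k ≤ ρ p k)
    {x : E3} (hx : x ∈ K) (hxs : Qv a (τ 0) x = S (τ 0) ∨ S (τ 0) = 0)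
    {N : Fin 3 → Fin 3 → ℝ} (hNd : N = NM (fun i => a (τ i)) (fun i j => z (τ i) (τ j)))
    {R : Fin 3 → ℝ} (hRd : R = RM (fun i => a (τ i)) (fun i j => z (τ i) (τ j)))
    {ap : ℝ × ℝ → ℝ} (hapm : Measurable ap) (hap0 : ∀ t ∈ Sim, 0 ≤ ap t)
    {α g : Fin 3 → ℝ × ℝ → ℝ} (hαm : ∀ l, Measurable (α l)) (hα0 : ∀ l, ∀ t ∈ Sim, 0 ≤ α l t)
    (hgm : ∀ l, Measurable (g l)) (hg0 : ∀ l, ∀ t ∈ Sim, 0 ≤ g l t)
    {Ca : ℝ} (hapC : ∀ t ∈ Sim, ap t ≤ Ca) (hαC : ∀ l, ∀ t ∈ Sim, α l t ≤ Ca)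
    (hgC : ∀ l, ∀ t ∈ Sim, g l t ≤ Ca)
    (hx0 : ∀ t ∈ Sim, ∀ k, ∑ l', α l' t * (if k = l' then 0 else ρ l' k) ≤ xx N (vv t) k)
    (hx1 : ∀ t ∈ Sim, ∀ k, ap t * zc (fun i => a (τ i)) N x k +
      ∑ l', α l' t * (if k = l' then 0 else ρ l' k) ≤ xx N (vv t) k)
    (hrr : ∀ t ∈ Sim, ∀ k, ∑ l', g l' t * (if k = l' then 0 else ρ l' k) ≤ rr N (vv t) k)
    (hαI : ∀ l, (A / 2 + 1 / 8) * Pool.Agent.Helper55.Mass.Id (α l) = 1 - β l)
    (hgI : ∀ l, (A / 2 + 1 / 8) * Pool.Agent.Helper55.Mass.Id (g l) = β l)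
    {r : Fin 3 → ℝ} (hr0 : ∀ k, 0 ≤ r k)
    (hr : ∀ k, Pool.Agent.Helper55.Mass.Id (fun t => rr N (vv t) k) ≤ r k)
    {prow : ℝ} (hprow : prow < 1) (hrow : ∀ k, rowN N k ≤ prow)
    (hrB : ∀ k, B0 * rowN N k + r k ≤ B0) :
    ∃ i j : Fin 3, i ≠ j ∧ ∀ G, 0 ≤ G →
      G ≤ (A / 2 + 1 / 8) * Pool.Agent.Helper55.Mass.Id ap →
      ∀ cst, (∀ lam, 0 ≤ lam → lam ≤ 1 → WCost a K τ (A / 2 + 1 / 8)
        (GX N (fun (_ : Unit) t => lam * ap t) (fun _ => zc (fun i => a (τ i)) N x)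
          (fun _ => Qv a (τ 0) x) α g (MB σ a l τ)
          (fun p => aE σ a l (τ 0) (τ p.succ) - dE p) R (fun k => S (τ k.succ))
          (fun (_ : Empty) _ => 0) (fun _ _ => 0) (fun _ => 0))
        (DX N (fun (_ : Unit) t => lam * ap t) (fun _ => zc (fun i => a (τ i)) N x)
          (fun j => 1 / qM (fun i => a (τ i)) (fun i j => z (τ i) (τ j)) j)
          (fun _ => 1) α g (MB σ a l τ)
          (fun p => Pool.Agent.Helper31.SR.am σ a l (τ 0) (τ p.succ) - dm p)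
          (fun (_ : Empty) _ => 0) (fun _ _ => 0) (fun _ => 1)) cst) →
      LLs σ a l (τ 0) - (dE 0 + dE 1 + dE 2)
        + corX (A / 2 + 1 / 8) N r R (fun k => S (τ k.succ))
        + G * ((1 - ε) * S (τ 0) - k1 * R i - (k12 - k1) * R j)
        - arcX ρ β R (fun k => S (τ k.succ)) - cst ≤ Wi a (τ 0) K σ A := by
  have h' := h.perm τ
  have v' := viol_perm v τ
  have hz' := hz.perm τ
  have hA' : 0 < A / 2 + 1 / 8 := by linarith
  have hN : ∀ k m, 0 ≤ N k m := fun k m => by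
    rw [hNd]
    exact NM_nonneg h' v' hz' k m
  have hd : ∀ k, N k k = 0 := fun k => by
    rw [hNd]
    exact NM_diag k
  have hcol : ∀ m, nc N m ≤ 9 / 10 := fun m => by
    rw [hNd]
    exact nc_le h' v' hz' m
  have hc : (9 / 10 : ℝ) < 1 := by norm_num
  have hR0 : ∀ j, 0 ≤ R j := fun j => by
    rw [hRd]
    exact RM_nonneg h' v' hz' j
  obtain ⟨H, hH⟩ := exists_plane hN hc hcol R
  have e1 : τ (Fin.succ 0) = τ 1 := rfl
  have e2 : τ (Fin.succ 1) = τ 2 := rfl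
  have e3 : τ (Fin.succ 2) = τ 3 := rfl
  have hpl := corX_le hN hd hc hcol (A' := A / 2 + 1 / 8) hA'.le (R := R) (H := H)
    (S := fun k => S (τ k.succ)) (r := r) hH hR0 hr0 (fun k => v.nn _) hprow hrow hrB
  beta_reduce at hpl
  rw [e1, e2, e3] at hpl
  have hb : ∀ k, b3 (fun i => a (τ i)) x k ≤ zc (fun i => a (τ i)) N x k
      + LN N (zc (fun i => a (τ i)) N x) k := fun k =>
    (mu_bal hN hd hc hcol (b3 (fun i => a (τ i)) x) k).ge
  have hCa0 : ∀ t ∈ Sim, (0 : ℝ) ≤ Ca := fun t ht => (hap0 t ht).trans (hapC t ht)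
  have main : ∀ lam : ℝ, 0 ≤ lam → lam ≤ 1 → ∀ cst, WCost a K τ (A / 2 + 1 / 8)
        (GX N (fun (_ : Unit) t => lam * ap t) (fun _ => zc (fun i => a (τ i)) N x)
          (fun _ => Qv a (τ 0) x) α g (MB σ a l τ)
          (fun p => aE σ a l (τ 0) (τ p.succ) - dE p) R (fun k => S (τ k.succ))
          (fun (_ : Empty) _ => 0) (fun _ _ => 0) (fun _ => 0))
        (DX N (fun (_ : Unit) t => lam * ap t) (fun _ => zc (fun i => a (τ i)) N x)
          (fun j => 1 / qM (fun i => a (τ i)) (fun i j => z (τ i) (τ j)) j)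
          (fun _ => 1) α g (MB σ a l τ)
          (fun p => Pool.Agent.Helper31.SR.am σ a l (τ 0) (τ p.succ) - dm p)
          (fun (_ : Empty) _ => 0) (fun _ _ => 0) (fun _ => 1)) cst →
      LLs σ a l (τ 0) - (dE 0 + dE 1 + dE 2)
        + corX (A / 2 + 1 / 8) N r R (fun k => S (τ k.succ))
        + (A / 2 + 1 / 8) * ((Qv a (τ 0) x - (zc (fun i => a (τ i)) N x 0 * R 0
          + zc (fun i => a (τ i)) N x 1 * R 1 + zc (fun i => a (τ i)) N x 2 * R 2)) *
            (lam * Pool.Agent.Helper55.Mass.Id ap))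
        - arcX ρ β R (fun k => S (τ k.succ)) - cst ≤ Wi a (τ 0) K σ A := by
    intro lam hl0 hl1 cst hW
    have key := face_instX h v hz τ hA hl hδ hdE hdm hdd (β := β) (ρ := ρ) hMρ
      (ι := Unit) (ν := Empty) (x := fun _ => x) (fun _ => hx) (y := fun n => n.elim)
      (fun n => n.elim) hNd hRd (ζ := fun _ => zc (fun i => a (τ i)) N x) (fun _ k => hb k)
      (Y := fun _ _ => 0) (fun n => n.elim) (ap := fun _ t => lam * ap t)
      (fun _ => hapm.const_mul _) (fun _ t ht => mul_nonneg hl0 (hap0 t ht))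
      (gr := fun _ _ => 0) (fun n => n.elim) (fun n => n.elim) hαm hα0 hgm hg0
      (Ca := Ca) (fun _ t ht => by
        have := mul_le_mul_of_nonneg_right hl1 (hap0 t ht)
        linarith [hapC t ht]) hαC (fun n => n.elim) hgC
      (fun t ht k => by
        have q0 := hx0 t ht k
        have q1 := hx1 t ht k
        simp only [Finset.univ_unique, Finset.sum_singleton]
        have h1 := mul_le_mul_of_nonneg_left q1 hl0
        have h2 := mul_le_mul_of_nonneg_left q0 (sub_nonneg.2 hl1)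
        linarith)
      (fun t ht k => by
        simpa using hrr t ht k) hαI hgI hH hr (cst := cst) (by
        have eY : (fun n : Empty => Qv a (τ 0) ((fun n : Empty => (n.elim : E3)) n)) =
            fun _ => 0 := by
          funext n
          exact n.elim
        have eZ : (fun (_ : Empty) (_ : ℝ × ℝ) => (0 : ℝ)) = fun _ _ => 0 := rfl
        convert hW using 2)
    have eI : Pool.Agent.Helper55.Mass.Id (fun t => lam * ap t) =
        lam * Pool.Agent.Helper55.Mass.Id ap := Pool.Agent.Helper55.Mass.Id_const lam _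
    simp only [Finset.univ_unique, Finset.sum_singleton, Finset.univ_eq_empty,
      Finset.sum_empty, add_zero, eI] at key
    unfold arcX
    beta_reduce
    rw [e1, e2, e3]
    linarith
  have hI0 : 0 ≤ Pool.Agent.Helper55.Mass.Id ap := by
    unfold Pool.Agent.Helper55.Mass.Id
    refine mul_nonneg (by positivity) (setIntegral_nonneg
      Pool.Agent.Helper55.Sx.Sim_meas fun t ht => ?_)
    exact div_nonneg (hap0 t ht) (by positivity)
  rcases hxs with hxs | hxs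
  · obtain ⟨i, j, hij, hU⟩ := zeta_body P h v hz τ hX hx hxs hNd hRd hH
    refine ⟨i, j, hij, fun G hG0 hG cst hW => ?_⟩
    obtain ⟨lam, hl0, hl1, hlg⟩ : ∃ lam, 0 ≤ lam ∧ lam ≤ 1 ∧
        (A / 2 + 1 / 8) * (lam * Pool.Agent.Helper55.Mass.Id ap) = G := by
      rcases eq_or_lt_of_le hI0 with e | hpos
      · refine ⟨0, le_rfl, zero_le_one, ?_⟩
        rw [← e, mul_zero] at hG
        rw [zero_mul, mul_zero]
        exact le_antisymm hG0 hG
      · have hAI := mul_pos hA' hpos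
        refine ⟨G / ((A / 2 + 1 / 8) * Pool.Agent.Helper55.Mass.Id ap),
          div_nonneg hG0 hAI.le, (div_le_one hAI).2 hG, ?_⟩
        rw [show (A / 2 + 1 / 8) * (G / ((A / 2 + 1 / 8) * Pool.Agent.Helper55.Mass.Id ap) *
            Pool.Agent.Helper55.Mass.Id ap) =
          G / ((A / 2 + 1 / 8) * Pool.Agent.Helper55.Mass.Id ap) *
            ((A / 2 + 1 / 8) * Pool.Agent.Helper55.Mass.Id ap) by ring,
          div_mul_cancel₀ _ hAI.ne']
    have m := main lam hl0 hl1 cst (hW lam hl0 hl1)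
    have hk : (A / 2 + 1 / 8) * ((Qv a (τ 0) x - (zc (fun i => a (τ i)) N x 0 * R 0
          + zc (fun i => a (τ i)) N x 1 * R 1 + zc (fun i => a (τ i)) N x 2 * R 2)) *
            (lam * Pool.Agent.Helper55.Mass.Id ap)) =
        G * (S (τ 0) - (zc (fun i => a (τ i)) N x 0 * R 0
          + zc (fun i => a (τ i)) N x 1 * R 1 + zc (fun i => a (τ i)) N x 2 * R 2)) := by
      rw [← hlg, hxs]
      ring
    have hU' := mul_le_mul_of_nonneg_left hU hG0
    linarith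
  · have C := cols P h' v' hz' hX
    rw [← hNd, ← hRd] at C
    have hR00 : ∀ k, R k = 0 := fun k => by
      have := (C k).2.2.1
      rw [hxs, mul_zero] at this
      exact le_antisymm this (hR0 k)
    refine ⟨0, 1, by decide, fun G hG0 hG cst hW => ?_⟩
    have m := main 0 le_rfl zero_le_one cst (hW 0 le_rfl zero_le_one)
    rw [hR00 0, hR00 1, hxs]
    rw [zero_mul, mul_zero, mul_zero] at m
    linarith

end Pool.Agent.Helper73.MEI.ArCor
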