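import Pool.Agent.Helper31.SR.Inp
import Pool.Agent.Helper55.MEI.ApexP

/-!
# The plane form of a face in separable form, and the corner minimum

`plane_low`: the value of the contact plane with the caps is at least the sum over the contact
nodes of `R j (B (1 - row j) - r j)` minus `r k S k`: the leaks of a node cost nothing for its own
value, only the leaks of the other nodes into its coordinate count.
`corner_min`: gain of a contact node against linear losses in its two leaks.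
-/

set_option autoImplicit false

namespace Pool.Agent.Helper73.MEI.ArCor

open Matrix Pool.Agent.Helper31.SR
open Pool.Agent.Helper55.Mass (LN)
open Pool.Agent.Helper55.Apex (nc)
open Pool.Agent.Helper55.ApexP (PN mu_bal)
open Helper75.MEI2 (mu)

/-- sharp quadratic bound of the length by the two leaks -/
theorem r2_leaks (y y' : ℝ) :
    2 / 3 * (max 0 ((3 * y - y') / 2) ^ 2 + max 0 ((3 * y' - y) / 2) ^ 2 +
      max 0 ((3 * y - y') / 2) * max 0 ((3 * y' - y) / 2)) ≤ r2 y y' := by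
  unfold r2
  rcases le_total 0 ((3 * y - y') / 2) with h1 | h1 <;>
  rcases le_total 0 ((3 * y' - y) / 2) with h2 | h2
  · rw [max_eq_right h1, max_eq_right h2]
    nlinarith [sq_nonneg (y - y')]
  · rw [max_eq_right h1, max_eq_left h2]
    nlinarith [sq_nonneg y']
  · rw [max_eq_left h1, max_eq_right h2]
    nlinarith [sq_nonneg y]
  · rw [max_eq_left h1, max_eq_left h2]
    nlinarith [sq_nonneg (y - y'), sq_nonneg (y + y')]

/-- the value of a contact node against its leaks -/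
theorem R_leaks {y y' : ℝ} (hq : 0 < qq y y') :
    2 / 3 * qq y y' * (lk y y' ^ 2 + lk y' y ^ 2 + lk y y' * lk y' y) ≤ r2 y y' / qq y y' := by
  have h := r2_leaks y y'
  have e : qq y' y = qq y y' := (qq_comm y y').symm
  unfold lk
  rw [e, le_div_iff₀ hq]
  have e2 : 2 / 3 * qq y y' * ((max 0 ((3 * y - y') / 2) / qq y y') ^ 2 +
      (max 0 ((3 * y' - y) / 2) / qq y y') ^ 2 +
      max 0 ((3 * y - y') / 2) / qq y y' * (max 0 ((3 * y' - y) / 2) / qq y y')) * qq y y' =
      2 / 3 * (max 0 ((3 * y - y') / 2) ^ 2 + max 0 ((3 * y' - y) / 2) ^ 2 +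
      max 0 ((3 * y - y') / 2) * max 0 ((3 * y' - y) / 2)) := by
    field_simp
  rw [e2]
  exact h

/-- **corner minimum**: the quadratic gain of a node against linear losses in its leaks -/
theorem corner_min {c n m l1 l2 : ℝ} (hc : 0 < c) :
    -((l1 ^ 2 + l2 ^ 2 - l1 * l2) / (2 * c)) ≤
      2 / 3 * c * (n ^ 2 + m ^ 2 + n * m) - n * l1 - m * l2 := by
  rw [neg_le_iff_add_nonneg, ← sub_nonneg]
  have e : 2 / 3 * c * (n ^ 2 + m ^ 2 + n * m) - n * l1 - m * l2 +
      (l1 ^ 2 + l2 ^ 2 - l1 * l2) / (2 * c) - 0 =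
      (2 / (3 * c)) * ((c * n + c * m / 2 - 3 / 4 * l1) ^ 2 +
        3 / 4 * (c * m + l1 / 2 - l2) ^ 2) := by
    field_simp
    ring
  rw [e]
  positivity

/-- the corner minimum for a contact node, `c` the coefficient of its value -/
theorem corner_min' {y y' c l1 l2 : ℝ} (hq : 0 < qq y y') (hc : 0 < c) :
    -((l1 ^ 2 + l2 ^ 2 - l1 * l2) / (2 * (c * qq y y'))) ≤
      c * (r2 y y' / qq y y') - lk y y' * l1 - lk y' y * l2 := by
  have h1 := corner_min (n := lk y y') (m := lk y' y) (l1 := l1) (l2 := l2) (mul_pos hc hq)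
  have h2 := mul_le_mul_of_nonneg_left (R_leaks hq) hc.le
  have e : c * (2 / 3 * qq y y' * (lk y y' ^ 2 + lk y' y ^ 2 + lk y y' * lk y' y)) =
      2 / 3 * (c * qq y y') * (lk y y' ^ 2 + lk y' y ^ 2 + lk y y' * lk y' y) := by ring
  rw [e] at h2
  linarith

/-- balanced loads stay between `0` and `B` -/
theorem dual_range {N : Fin 3 → Fin 3 → ℝ} (hN : ∀ k m, 0 ≤ N k m) {x v : Fin 3 → ℝ} {B p : ℝ}
    (hp : p < 1) (hx : ∀ k, x k + LN N x k = v k)
    (hrow : ∀ k, N k 0 + N k 1 + N k 2 ≤ p) (hv : ∀ k, v k ≤ B)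
    (hvB : ∀ k, B * (N k 0 + N k 1 + N k 2) ≤ v k) (k : Fin 3) : 0 ≤ x k ∧ x k ≤ B := by
  obtain ⟨M, hM0, hMlo, hMhi, hMmin⟩ : ∃ M : ℝ, 0 ≤ M ∧ (∀ k, -x k ≤ M) ∧ (∀ k, x k - B ≤ M) ∧
      ∀ b, 0 ≤ b → (∀ k, -x k ≤ b) → (∀ k, x k - B ≤ b) → M ≤ b := by
    refine ⟨max 0 (max (max (-x 0) (max (-x 1) (-x 2))) (max (x 0 - B) (max (x 1 - B) (x 2 - B)))),
      le_max_left _ _, ?_, ?_, ?_⟩
    · intro k
      fin_cases k
      · exact le_trans (le_trans (le_max_left _ _) (le_max_left _ _)) (le_max_right _ _)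
      · exact le_trans (le_trans (le_trans (le_max_left _ _) (le_max_right _ _))
          (le_max_left _ _)) (le_max_right _ _)
      · exact le_trans (le_trans (le_trans (le_max_right _ _) (le_max_right _ _))
          (le_max_left _ _)) (le_max_right _ _)
    · intro k
      fin_cases k
      · exact le_trans (le_trans (le_max_left _ _) (le_max_right _ _)) (le_max_right _ _)
      · exact le_trans (le_trans (le_trans (le_max_left _ _) (le_max_right _ _))
          (le_max_right _ _)) (le_max_right _ _)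
      · exact le_trans (le_trans (le_trans (le_max_right _ _) (le_max_right _ _))
          (le_max_right _ _)) (le_max_right _ _)
    · intro b hb h1 h2
      exact max_le hb (max_le (max_le (h1 0) (max_le (h1 1) (h1 2)))
        (max_le (h2 0) (max_le (h2 1) (h2 2))))
  have hrow0 : ∀ k, 0 ≤ N k 0 + N k 1 + N k 2 := fun k => by
    have a0 := hN k 0
    have a1 := hN k 1
    have a2 := hN k 2
    linarith
  have hlo : ∀ k, -x k ≤ p * M := by
    intro k
    have e := hx k
    unfold LN at e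
    have b0 := mul_le_mul_of_nonneg_left (show x 0 ≤ B + M by linarith [hMhi 0]) (hN k 0)
    have b1 := mul_le_mul_of_nonneg_left (show x 1 ≤ B + M by linarith [hMhi 1]) (hN k 1)
    have b2 := mul_le_mul_of_nonneg_left (show x 2 ≤ B + M by linarith [hMhi 2]) (hN k 2)
    have c0 := hvB k
    have c1 := mul_le_mul_of_nonneg_right (hrow k) hM0
    nlinarith
  have hhi : ∀ k, x k - B ≤ p * M := by
    intro k
    have e := hx k
    unfold LN at e
    have b0 := mul_le_mul_of_nonneg_left (show -M ≤ x 0 by linarith [hMlo 0]) (hN k 0)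
    have b1 := mul_le_mul_of_nonneg_left (show -M ≤ x 1 by linarith [hMlo 1]) (hN k 1)
    have b2 := mul_le_mul_of_nonneg_left (show -M ≤ x 2 by linarith [hMlo 2]) (hN k 2)
    have c0 := hv k
    have c1 := mul_le_mul_of_nonneg_right (hrow k) hM0
    nlinarith
  have hp0 : 0 ≤ p := (hrow0 0).trans (hrow 0)
  have hM : M ≤ p * M := hMmin _ (mul_nonneg hp0 hM0) hlo hhi
  have hMz : M = 0 := by nlinarith
  have g1 := hMlo k
  have g2 := hMhi k
  rw [hMz] at g1 g2
  exact ⟨by linarith, by linarith⟩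

section
variable {N : Fin 3 → Fin 3 → ℝ} (hN : ∀ k m, 0 ≤ N k m) (hd : ∀ k, N k k = 0) {c : ℝ}
  (hc : c < 1) (hcol : ∀ m, nc N m ≤ c)
include hN hd hc hcol

/-- **plane form, separable lower bound** -/
theorem plane_low {R H S r : Fin 3 → ℝ} {B p : ℝ} (hp : p < 1)
    (hH : ∀ j, H j + (N 0 j * H 0 + N 1 j * H 1 + N 2 j * H 2) = R j) (hR : ∀ j, 0 ≤ R j)
    (hr : ∀ j, 0 ≤ r j) (hS : ∀ j, 0 ≤ S j) (hrow : ∀ k, N k 0 + N k 1 + N k 2 ≤ p)
    (hrB : ∀ k, B * (N k 0 + N k 1 + N k 2) + r k ≤ B) :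
    R 0 * (B * (1 - (N 0 0 + N 0 1 + N 0 2)) - r 0) + R 1 * (B * (1 - (N 1 0 + N 1 1 + N 1 2)) - r 1)
      + R 2 * (B * (1 - (N 2 0 + N 2 1 + N 2 2)) - r 2) - (r 0 * S 0 + r 1 * S 1 + r 2 * S 2) ≤
    B * (H 0 + H 1 + H 2) - (r 0 * max (S 0 + H 0) 0 + r 1 * max (S 1 + H 1) 0
      + r 2 * max (S 2 + H 2) 0) := by
  obtain ⟨θ, hθ0, hθ1, hθ⟩ : ∃ θ : Fin 3 → ℝ, (∀ k, 0 ≤ θ k) ∧ (∀ k, θ k ≤ 1) ∧
      ∀ k, max (S k + H k) 0 = θ k * (S k + H k) := by
    refine ⟨fun k => if 0 ≤ S k + H k then 1 else 0, fun k => ?_, fun k => ?_, fun k => ?_⟩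
    · simp only; split_ifs <;> norm_num
    · simp only; split_ifs <;> norm_num
    · simp only
      split_ifs with h
      · rw [max_eq_left h, one_mul]
      · rw [max_eq_right (by linarith [not_le.1 h]), zero_mul]
  set v : Fin 3 → ℝ := fun k => B - θ k * r k with hv
  set x : Fin 3 → ℝ := mu (PN N) v with hx
  have hbal : ∀ k, x k + LN N x k = v k := fun k => mu_bal hN hd hc hcol v k
  have hθr : ∀ k, 0 ≤ θ k * r k := fun k => mul_nonneg (hθ0 k) (hr k)
  have hθr1 : ∀ k, θ k * r k ≤ r k := fun k => by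
    have := mul_le_mul_of_nonneg_right (hθ1 k) (hr k)
    linarith
  have hrng := dual_range hN hp hbal hrow (B := B) (fun k => by
    show B - θ k * r k ≤ B
    linarith [hθr k]) (fun k => by
    show _ ≤ B - θ k * r k
    linarith [hθr1 k, hrB k])
  have hlow : ∀ k, B * (1 - (N k 0 + N k 1 + N k 2)) - r k ≤ x k := by
    intro k
    have e := hbal k
    unfold LN at e
    have ev : v k = B - θ k * r k := rfl
    have b0 := mul_le_mul_of_nonneg_left (hrng 0).2 (hN k 0)
    have b1 := mul_le_mul_of_nonneg_left (hrng 1).2 (hN k 1)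
    have b2 := mul_le_mul_of_nonneg_left (hrng 2).2 (hN k 2)
    have := hθr1 k
    nlinarith
  have hdual : R 0 * x 0 + R 1 * x 1 + R 2 * x 2 = v 0 * H 0 + v 1 * H 1 + v 2 * H 2 := by
    have e0 := hbal 0
    have e1 := hbal 1
    have e2 := hbal 2
    unfold LN at e0 e1 e2
    rw [← hH 0, ← hH 1, ← hH 2]
    linear_combination (H 0) * e0 + (H 1) * e1 + (H 2) * e2
  have m0 := mul_le_mul_of_nonneg_left (hlow 0) (hR 0)
  have m1 := mul_le_mul_of_nonneg_left (hlow 1) (hR 1)
  have m2 := mul_le_mul_of_nonneg_left (hlow 2) (hR 2)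
  have s0 := mul_le_mul_of_nonneg_right (hθr1 0) (hS 0)
  have s1 := mul_le_mul_of_nonneg_right (hθr1 1) (hS 1)
  have s2 := mul_le_mul_of_nonneg_right (hθr1 2) (hS 2)
  rw [hθ 0, hθ 1, hθ 2]
  have ev0 : v 0 = B - θ 0 * r 0 := rfl
  have ev1 : v 1 = B - θ 1 * r 1 := rfl
  have ev2 : v 2 = B - θ 2 * r 2 := rfl
  rw [ev0, ev1, ev2] at hdual
  linarith

end

end Pool.Agent.Helper73.MEI.ArCor
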