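import Pool.Agent.Helper73.MEI.ArCor
import Pool.Agent.Helper55.MEI.Fill2

/-!
# The arithmetic of one face: from the plane form to the corners

`plane_gen`: the plane form with arbitrary weights of the heights (so that the apex term, which is
linear in the heights, is included) in separable form.  `face_sep`: the value of `face_share` /
`face_strip` in separable form.
-/

set_option autoImplicit false

namespace Pool.Agent.Helper73.MEI.ArCor

open Matrix Pool.Agent.Helper31.SR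
open Pool.Agent.Helper55.Mass (LN)
open Pool.Agent.Helper55.Apex (nc)
open Pool.Agent.Helper55.ApexP (PN mu_bal)
open Helper75.MEI2 (mu)

/-- balanced loads stay between `-e` and `B` -/
theorem dual_range2 {N : Fin 3 → Fin 3 → ℝ} (hN : ∀ k m, 0 ≤ N k m) {x v : Fin 3 → ℝ}
    {B e p : ℝ} (hp : p < 1) (hx : ∀ k, x k + LN N x k = v k)
    (hrow : ∀ k, N k 0 + N k 1 + N k 2 ≤ p)
    (hv : ∀ k, v k + e * (N k 0 + N k 1 + N k 2) ≤ B)
    (hvB : ∀ k, B * (N k 0 + N k 1 + N k 2) ≤ v k + e) (k : Fin 3) : -e ≤ x k ∧ x k ≤ B := by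
  have h := dual_range hN (x := fun k => x k + e)
    (v := fun k => v k + e + e * (N k 0 + N k 1 + N k 2)) (B := B + e) hp (fun k => by
      have e1 := hx k
      unfold LN at e1 ⊢
      linear_combination e1) hrow (fun k => by
      have := hv k
      linarith) (fun k => by
      have := hvB k
      linarith) k
  exact ⟨by linarith [h.1], by linarith [h.2]⟩

section
variable {N : Fin 3 → Fin 3 → ℝ} (hN : ∀ k m, 0 ≤ N k m) (hd : ∀ k, N k k = 0) {c : ℝ}
  (hc : c < 1) (hcol : ∀ m, nc N m ≤ c)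
include hN hd hc hcol

/-- **plane form with weights `β k` of the heights, separable lower bound** -/
theorem plane_gen {R H S r β : Fin 3 → ℝ} {B e p : ℝ} (hp : p < 1)
    (hH : ∀ j, H j + (N 0 j * H 0 + N 1 j * H 1 + N 2 j * H 2) = R j) (hR : ∀ j, 0 ≤ R j)
    (hr : ∀ j, 0 ≤ r j) (hS : ∀ j, 0 ≤ S j) (hrow : ∀ k, N k 0 + N k 1 + N k 2 ≤ p)
    (hv : ∀ k, β k + e * (N k 0 + N k 1 + N k 2) ≤ B)
    (hvB : ∀ k, B * (N k 0 + N k 1 + N k 2) + r k ≤ β k + e) :
    R 0 * (β 0 - B * (N 0 0 + N 0 1 + N 0 2) - r 0) + R 1 * (β 1 - B * (N 1 0 + N 1 1 + N 1 2) - r 1)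
      + R 2 * (β 2 - B * (N 2 0 + N 2 1 + N 2 2) - r 2) - (r 0 * S 0 + r 1 * S 1 + r 2 * S 2) ≤
    (β 0 * H 0 + β 1 * H 1 + β 2 * H 2) - (r 0 * max (S 0 + H 0) 0 + r 1 * max (S 1 + H 1) 0
      + r 2 * max (S 2 + H 2) 0) := by
  obtain ⟨θ, hθ0, hθ1, hθ⟩ : ∃ θ : Fin 3 → ℝ, (∀ k, 0 ≤ θ k) ∧ (∀ k, θ k ≤ 1) ∧
      ∀ k, max (S k + H k) 0 = θ k * (S k + H k) := by
    refine ⟨fun k => if 0 ≤ S k + H k then 1 else 0, fun k => ?_, fun k => ?_, fun k => ?_⟩
    · simp only; split_ifs <;> norm_num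
    · simp only; split_ifs <;> norm_num
    · simp only
      split_ifs with h
      · rw [max_eq_left h, one_mul]
      · rw [max_eq_right (by linarith [not_le.1 h]), zero_mul]
  set v : Fin 3 → ℝ := fun k => β k - θ k * r k with hvd
  set x : Fin 3 → ℝ := mu (PN N) v with hx
  have hbal : ∀ k, x k + LN N x k = v k := fun k => mu_bal hN hd hc hcol v k
  have hθr : ∀ k, 0 ≤ θ k * r k := fun k => mul_nonneg (hθ0 k) (hr k)
  have hθr1 : ∀ k, θ k * r k ≤ r k := fun k => by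
    have := mul_le_mul_of_nonneg_right (hθ1 k) (hr k)
    linarith
  have hrng := dual_range2 hN hp hbal hrow (B := B) (e := e) (fun k => by
    show β k - θ k * r k + _ ≤ B
    linarith [hθr k, hv k]) (fun k => by
    show _ ≤ β k - θ k * r k + e
    linarith [hθr1 k, hvB k])
  have hlow : ∀ k, β k - B * (N k 0 + N k 1 + N k 2) - r k ≤ x k := by
    intro k
    have e1 := hbal k
    unfold LN at e1
    have ev : v k = β k - θ k * r k := rfl
    have b0 := mul_le_mul_of_nonneg_left (hrng 0).2 (hN k 0)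
    have b1 := mul_le_mul_of_nonneg_left (hrng 1).2 (hN k 1)
    have b2 := mul_le_mul_of_nonneg_left (hrng 2).2 (hN k 2)
    have := hθr1 k
    nlinarith
  have hdual : R 0 * x 0 + R 1 * x 1 + R 2 * x 2 = v 0 * H 0 + v 1 * H 1 + v 2 * H 2 := by
    have e0 := hbal 0
    have e1 := hbal 1
    have e2 := hbal 2
    unfold LN at e0 e1 e2
    rw [← hH 0, ← hH 1, ← hH 2]
    linear_combination (H 0) * e0 + (H 1) * e1 + (H 2) * e2
  have m0 := mul_le_mul_of_nonneg_left (hlow 0) (hR 0)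
  have m1 := mul_le_mul_of_nonneg_left (hlow 1) (hR 1)
  have m2 := mul_le_mul_of_nonneg_left (hlow 2) (hR 2)
  have s0 := mul_le_mul_of_nonneg_right (hθr1 0) (hS 0)
  have s1 := mul_le_mul_of_nonneg_right (hθr1 1) (hS 1)
  have s2 := mul_le_mul_of_nonneg_right (hθr1 2) (hS 2)
  rw [hθ 0, hθ 1, hθ 2]
  have ev0 : v 0 = β 0 - θ 0 * r 0 := rfl
  have ev1 : v 1 = β 1 - θ 1 * r 1 := rfl
  have ev2 : v 2 = β 2 - θ 2 * r 2 := rfl
  rw [ev0, ev1, ev2] at hdual
  linarith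

/-- **one face in separable form**: `G` is the coefficient of the apex term, `u` are the
coordinates of the apex, `ζ` its contact coordinates, `δ` bounds the negative parts of `u` -/
theorem face_sep {R H S r u ζ : Fin 3 → ℝ} {A' B G s δ e p : ℝ} (hp : p < 1) (hA : 0 ≤ A')
    (hG : 0 ≤ G) (he : 0 ≤ e) (hu : ∀ k, -δ ≤ u k)
    (hζ : ∀ k, ζ k + LN N ζ k = u k)
    (hH : ∀ j, H j + (N 0 j * H 0 + N 1 j * H 1 + N 2 j * H 2) = R j) (hR : ∀ j, 0 ≤ R j)
    (hr : ∀ j, 0 ≤ r j) (hS : ∀ j, 0 ≤ S j) (hrow : ∀ k, N k 0 + N k 1 + N k 2 ≤ p)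
    (hvB : ∀ k, (A' * B + G * δ + e * p) * (N k 0 + N k 1 + N k 2) + A' * r k ≤
      A' * B - G * u k + e) :
    G * s + (R 0 * (A' * B - G * u 0 - (A' * B + G * δ + e * p) * (N 0 0 + N 0 1 + N 0 2)
          - A' * r 0)
        + R 1 * (A' * B - G * u 1 - (A' * B + G * δ + e * p) * (N 1 0 + N 1 1 + N 1 2)
          - A' * r 1)
        + R 2 * (A' * B - G * u 2 - (A' * B + G * δ + e * p) * (N 2 0 + N 2 1 + N 2 2)
          - A' * r 2))
      - A' * (r 0 * S 0 + r 1 * S 1 + r 2 * S 2) ≤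
    A' * (B * (H 0 + H 1 + H 2) - (r 0 * max (S 0 + H 0) 0 + r 1 * max (S 1 + H 1) 0
      + r 2 * max (S 2 + H 2) 0)) + G * (s - (ζ 0 * R 0 + ζ 1 * R 1 + ζ 2 * R 2)) := by
  have h := plane_gen hN hd hc hcol (R := R) (H := H) (S := S) (r := fun k => A' * r k)
    (β := fun k => A' * B - G * u k) (B := A' * B + G * δ + e * p) (e := e) hp hH hR
    (fun j => mul_nonneg hA (hr j)) hS hrow (fun k => by
      have g1 := mul_le_mul_of_nonneg_left (hu k) hG
      have g2 := mul_le_mul_of_nonneg_left (hrow k) he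
      linarith) hvB
  have hz : ζ 0 * R 0 + ζ 1 * R 1 + ζ 2 * R 2 = u 0 * H 0 + u 1 * H 1 + u 2 * H 2 := by
    rw [← hζ 0, ← hζ 1, ← hζ 2, ← hH 0, ← hH 1, ← hH 2]
    unfold LN
    ring
  rw [hz]
  linarith

end

/-- the corner minima of a face: `C j` actual coefficients of the values, `c j > 0` lower bounds -/
theorem corner_sum {R C c q : Fin 3 → ℝ} {n m l l' : Fin 3 → ℝ} (hc : ∀ j, 0 < c j)
    (hq : ∀ j, 0 < q j) (hC : ∀ j, c j ≤ C j)
    (hR : ∀ j, 2 / 3 * q j * (n j ^ 2 + m j ^ 2 + n j * m j) ≤ R j) :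
    -((l 0 ^ 2 + l' 0 ^ 2 - l 0 * l' 0) / (2 * (c 0 * q 0)) +
      (l 1 ^ 2 + l' 1 ^ 2 - l 1 * l' 1) / (2 * (c 1 * q 1)) +
      (l 2 ^ 2 + l' 2 ^ 2 - l 2 * l' 2) / (2 * (c 2 * q 2))) ≤
    (R 0 * C 0 + R 1 * C 1 + R 2 * C 2) - ((n 0 * l 0 + m 0 * l' 0) + (n 1 * l 1 + m 1 * l' 1) +
      (n 2 * l 2 + m 2 * l' 2)) := by
  have key : ∀ j, -((l j ^ 2 + l' j ^ 2 - l j * l' j) / (2 * (c j * q j))) ≤
      R j * C j - (n j * l j + m j * l' j) := by
    intro j
    have h1 := corner_min (n := n j) (m := m j) (l1 := l j) (l2 := l' j) (mul_pos (hc j) (hq j))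
    have hq3 : 0 ≤ n j ^ 2 + m j ^ 2 + n j * m j := by
      nlinarith [sq_nonneg (n j + m j), sq_nonneg (n j), sq_nonneg (m j)]
    have hR0 : 0 ≤ R j := (mul_nonneg (by have := hq j; positivity) hq3).trans (hR j)
    have h2 := mul_le_mul_of_nonneg_left (hC j) hR0
    have h3 := mul_le_mul_of_nonneg_right (hR j) (hc j).le
    have e1 : 2 / 3 * (c j * q j) * (n j ^ 2 + m j ^ 2 + n j * m j) =
        2 / 3 * q j * (n j ^ 2 + m j ^ 2 + n j * m j) * c j := by ring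
    rw [e1] at h1
    linarith
  have k0 := key 0
  have k1 := key 1
  have k2 := key 2
  linarith

/-- a share of the apex with a prescribed coefficient -/
theorem choose_lam {g M : ℝ} (hg : 0 ≤ g) (hgM : g ≤ M) :
    ∃ lam : ℝ, 0 ≤ lam ∧ lam ≤ 1 ∧ lam * M = g := by
  rcases eq_or_lt_of_le (hg.trans hgM) with h | h
  · refine ⟨0, le_rfl, zero_le_one, ?_⟩
    rw [zero_mul]
    linarith
  · exact ⟨g / M, div_nonneg hg h.le, (div_le_one h).2 hgM, div_mul_cancel₀ _ h.ne'⟩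

end Pool.Agent.Helper73.MEI.ArCor
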