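import Pool.Agent.Helper73.MEI.FV3

/-!
# Columns with direction

The two leaks of a contact point against its value: `2/3 (f² + f h + h²) (1 - (f + h)/2) ≤ R`.
-/

set_option autoImplicit false

namespace Pool.Agent.Helper73.MEI.ArCor

open Helper80.CW Helper82.CW Helper14.CW Helper93.MEI Helper82.M2
open Pool.Agent.Helper31.SR Pool.Agent.Helper52.MEI
open Pool.Agent.Helper55.Apex (nc)
open scoped RealInnerProductSpace

/-- form of the two leaks -/
noncomputable def dq (f h : ℝ) : ℝ := 2 / 3 * (f ^ 2 + f * h + h ^ 2)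

/-- the two leaks against the length -/
theorem dir_sq {y y' : ℝ} (hy : 0 ≤ y) (hy' : 0 ≤ y') :
    dq (max 0 ((3 * y - y') / 2)) (max 0 ((3 * y' - y) / 2)) ≤ r2 y y' := by
  unfold dq r2
  rcases le_total 0 ((3 * y - y') / 2) with h1 | h1 <;>
  rcases le_total 0 ((3 * y' - y) / 2) with h2 | h2
  · rw [max_eq_right h1, max_eq_right h2]
    nlinarith [sq_nonneg (y - y')]
  · rw [max_eq_right h1, max_eq_left h2]
    nlinarith [sq_nonneg y']
  · rw [max_eq_left h1, max_eq_right h2]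
    nlinarith [sq_nonneg y]
  · rw [max_eq_left h1, max_eq_left h2]
    have := mul_nonneg hy hy'
    nlinarith [sq_nonneg (y - y')]

/-- the normalised leaks -/
theorem dir_lk {y y' : ℝ} (hy : 0 ≤ y) (hy' : 0 ≤ y') (hq : 0 < qq y y') :
    qq y y' ^ 2 * dq (lk y y') (lk y' y) ≤ r2 y y' := by
  refine le_trans (le_of_eq ?_) (dir_sq hy hy')
  unfold dq lk
  rw [qq_comm y' y]
  field_simp

/-- pure numbers -/
theorem dir_num {f h q r : ℝ} (hf : 0 ≤ f) (hh : 0 ≤ h) (hq : 0 < q)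
    (h1 : 1 ≤ q * (1 + (f + h) / 2)) (h2 : q ^ 2 * dq f h ≤ r) :
    dq f h * (1 - (f + h) / 2) ≤ r / q ∧ dq f h * q ≤ r / q ∧
      dq f h ≤ r * (1 + (f + h) / 2) ^ 2 := by
  have hd : 0 ≤ dq f h := by
    unfold dq
    positivity
  have h3 : dq f h * q ≤ r / q := by
    rw [le_div_iff₀ hq]
    linarith
  have h4 : 1 - (f + h) / 2 ≤ q := by
    have ht : 0 ≤ f + h := by positivity
    have b1 : (1 - (f + h) / 2) * (1 + (f + h) / 2) ≤ q * (1 + (f + h) / 2) := by nlinarith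
    exact le_of_mul_le_mul_right b1 (by linarith)
  refine ⟨(mul_le_mul_of_nonneg_left h4 hd).trans h3, h3, ?_⟩
  have h5 : 1 ≤ (q * (1 + (f + h) / 2)) ^ 2 := by
    have := pow_le_pow_left₀ (show (0 : ℝ) ≤ 1 by norm_num) h1 2
    linarith
  have h6 := mul_le_mul_of_nonneg_left h5 hd
  have h7 := mul_le_mul_of_nonneg_right h2 (sq_nonneg (1 + (f + h) / 2))
  nlinarith

variable {a : Fin 4 → E3} {K : Set E3} {S : Fin 4 → ℝ} {σ : MeasureTheory.Measure (E3 × E3)}
  {c : Fin 4 → E3} {z : Fin 4 → Fin 4 → E3} {X rm qm nb ρ1 Rb gg ε k1 k12 t2 δ : ℝ}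

/-- **the columns of the face of the vertex `0` with direction** (`j, l` the other two) -/
theorem dir_facts (h : CN K σ a c) (v : Viol K a S) (hz : CV a K z) {k j l : Fin 3} (hkj : k ≠ j)
    (hkl : k ≠ l) (hjl : j ≠ l) :
    1 ≤ qM a z k * (1 + (NM a z j k + NM a z l k) / 2) ∧
    qM a z k ^ 2 * dq (NM a z j k) (NM a z l k) ≤ ‖z 0 k.succ‖ ^ 2 := by
  have g := gram_of_dist h.ha
  obtain ⟨f1, f2, f3, f4, f5⟩ := col_facts h v hz k
  have hqk := qM_ge h v hz k
  have hd := NM_diag (a := a) (z := z) k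
  have hnc : nc (NM a z) k = NM a z j k + NM a z l k := by
    unfold nc
    fin_cases k <;> fin_cases j <;> fin_cases l <;> simp at hkj hkl hjl hd ⊢ <;> linarith
  refine ⟨by rw [← hnc]; exact f2, ?_⟩
  obtain ⟨q0, q1, q2⟩ := qM_eq hz g
  obtain ⟨n10, n20, n01, n21, n02, n12⟩ := NM_eq hz g
  obtain ⟨r0, r1, r2'⟩ := norm_z_eq hz g
  have y := fun {i j k : Fin 4} (hij : i ≠ j) (hik : i ≠ k) => Y_nonneg hz h.hp hij hik
  have comm : ∀ u w : ℝ, dq u w = dq w u := fun u w => by unfold dq; ring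
  have k0 : qM a z 0 ^ 2 * dq (NM a z 1 0) (NM a z 2 0) ≤ ‖z 0 1‖ ^ 2 := by
    have hq' := qM_ge h v hz 0
    rw [q0] at hq' ⊢
    rw [n10, n20, r0]
    exact dir_lk (y (by decide) (by decide)) (y (by decide) (by decide)) (by linarith)
  have k1 : qM a z 1 ^ 2 * dq (NM a z 0 1) (NM a z 2 1) ≤ ‖z 0 2‖ ^ 2 := by
    have hq' := qM_ge h v hz 1
    rw [q1] at hq' ⊢
    rw [n01, n21, r1]
    exact dir_lk (y (by decide) (by decide)) (y (by decide) (by decide)) (by linarith)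
  have k2 : qM a z 2 ^ 2 * dq (NM a z 0 2) (NM a z 1 2) ≤ ‖z 0 3‖ ^ 2 := by
    have hq' := qM_ge h v hz 2
    rw [q2] at hq' ⊢
    rw [n02, n12, r2']
    exact dir_lk (y (by decide) (by decide)) (y (by decide) (by decide)) (by linarith)
  fin_cases k <;> fin_cases j <;> fin_cases l <;> first
    | exact absurd rfl hkj
    | exact absurd rfl hkl
    | exact absurd rfl hjl
    | exact k0
    | exact k1
    | exact k2
    | (rw [comm]; exact k0)
    | (rw [comm]; exact k1)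
    | (rw [comm]; exact k2)

/-- **a column with direction**, all bounds -/
theorem dir_cols (P : Rng X rm qm nb ρ1 Rb gg ε k1 k12 t2 δ) (h : CN K σ a c) (v : Viol K a S)
    (hz : CV a K z) (hX : S 0 + (S 1 + S 2 + S 3) ≤ X) {k j l : Fin 3} (hkj : k ≠ j)
    (hkl : k ≠ l) (hjl : j ≠ l) :
    dq (NM a z j k) (NM a z l k) * (1 - (NM a z j k + NM a z l k) / 2) ≤ RM a z k ∧
    dq (NM a z j k) (NM a z l k) ≤ S 0 * (1 + (NM a z j k + NM a z l k) / 2) ^ 2 ∧
    dq (NM a z j k) (NM a z l k) ≤ S k.succ * (1 + (NM a z j k + NM a z l k) / 2) ^ 2 ∧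
    dq (NM a z j k) (NM a z l k) * qm ^ 2 ≤ S 0 ∧
    dq (NM a z j k) (NM a z l k) * qm ^ 2 ≤ S k.succ := by
  obtain ⟨f1, f2, f3, f4, f5⟩ := col_facts h v hz k
  obtain ⟨g1, -⟩ := cols P h v hz hX k
  obtain ⟨d1, d2⟩ := dir_facts h v hz hkj hkl hjl
  have hqp : 0 < qM a z k := P.qm0.trans_le g1
  have hdd : 0 ≤ dq (NM a z j k) (NM a z l k) := by
    have a1 := NM_nonneg h v hz j k
    have a2 := NM_nonneg h v hz l k
    unfold dq
    positivity
  obtain ⟨e1, e2, e3⟩ := dir_num (NM_nonneg h v hz j k) (NM_nonneg h v hz l k) hqp d1 d2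
  have hq2 := pow_le_pow_left₀ P.qm0.le g1 2
  have hd3 := mul_le_mul_of_nonneg_left hq2 hdd
  refine ⟨e1, ?_, ?_, ?_, ?_⟩
  · exact e3.trans (mul_le_mul_of_nonneg_right f4 (sq_nonneg _))
  · exact e3.trans (mul_le_mul_of_nonneg_right f5 (sq_nonneg _))
  · linarith
  · linarith

end Pool.Agent.Helper73.MEI.ArCor
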