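import Pool.Agent.Helper73.MEI.FW6
import Pool.Agent.Helper43.MEI.FCert

/-!
# From the kernel certificates to the certificates of the row of a face

`DOk` = the rational data of a certificate are the numbers of a face at a vertex;
`certG_of_okN`: the certificates without couplings, with an affine cost.
-/

set_option autoImplicit false

namespace Pool.Agent.Helper73.MEI.ArCor

open Pool.Agent.Helper73.MEI.FE
open Helper43.FCert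
open Helper93.MEI (pp)
open Pool.Agent.Helper55.Apex (nc)
open Pool.Agent.Helper31.SR
open Pool.Agent.Helper73.MEI.SideP

/-- the bound of the leaks of a column -/
def LbOk (tt D f : ℝ) : Prop := 0 ≤ f ∧ (tt ≤ f ∨ 3 / 2 * D * (1 + tt / 2) ^ 2 ≤ f ^ 2)

/-- **the rational data `F` are the numbers of a face at a vertex** -/
structure DOk (F : FD) (ε k1 k2 K0 K1 : ℝ) (tt ρ μ : Fin 3 → ℝ) (s : ℝ) (S cp D : Fin 3 → ℝ)
    (m z0 : ℝ) (z : Fin 3 → ℝ) : Prop where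
  A : q cR F.A = 2.04
  e1 : q cR F.e1 = 1 - ε
  k1 : q cR F.k1 = k1
  k2 : q cR F.k2 = k2
  K0 : q cR F.K0 = K0
  K1 : q cR F.K1 = K1
  w0 : q cR F.w0 = 1 / (1 + tt 0 / 2)
  w1 : q cR F.w1 = 1 / (1 + tt 1 / 2)
  w2 : q cR F.w2 = 1 / (1 + tt 2 / 2)
  s : q cR F.s = s
  S0 : q cR F.S0 = S 0
  S1 : q cR F.S1 = S 1
  S2 : q cR F.S2 = S 2
  f0 : LbOk (tt 0) (D 0) (q cR F.f0)
  f1 : LbOk (tt 1) (D 1) (q cR F.f1)
  f2 : LbOk (tt 2) (D 2) (q cR F.f2)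
  d0 : D 0 < q cR F.d0
  d1 : D 1 < q cR F.d1
  d2 : D 2 < q cR F.d2
  m0 : q cR F.m0 = μ 0
  m1 : q cR F.m1 = μ 1
  m2 : q cR F.m2 = μ 2
  c0 : q cR F.c0 = cp 0
  c1 : q cR F.c1 = cp 1
  c2 : q cR F.c2 = cp 2
  r0 : q cR F.r0 = ρ 0
  r1 : q cR F.r1 = ρ 1
  r2 : q cR F.r2 = ρ 2
  m : m ≤ q cR F.m
  z0 : z0 ≤ q cR F.z0
  z1 : z 0 ≤ q cR F.z1
  z2 : z 1 ≤ q cR F.z2
  z3 : z 2 ≤ q cR F.z3

theorem leak_le {tt D f a b t : ℝ} (h : LbOk tt D f) (ht : 0 ≤ tt) (ha : 0 ≤ a) (hb : 0 ≤ b)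
    (h1 : a ≤ t) (h2 : t ≤ tt) (hd : dq a b / (1 + tt / 2) ^ 2 ≤ D) : a ≤ f := by
  obtain ⟨f0, h3 | h3⟩ := h
  · linarith
  · have hp : 0 < (1 + tt / 2) ^ 2 := by positivity
    rw [div_le_iff₀ hp] at hd
    have h4 : a ^ 2 ≤ f ^ 2 := by
      have : dq a b = 2 / 3 * (a ^ 2 + a * b + b ^ 2) := rfl
      rw [this] at hd
      have h5 := mul_nonneg ha hb
      have h6 := sq_nonneg b
      linarith
    exact (abs_le_of_sq_le_sq' h4 f0).2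

theorem leak_le' {tt D f a b t : ℝ} (h : LbOk tt D f) (ht : 0 ≤ tt) (ha : 0 ≤ a) (hb : 0 ≤ b)
    (h1 : b ≤ t) (h2 : t ≤ tt) (hd : dq a b / (1 + tt / 2) ^ 2 ≤ D) : b ≤ f := by
  refine leak_le h ht hb ha h1 h2 ?_
  have : dq b a = dq a b := by
    unfold dq
    ring
  rw [this]
  exact hd

/-- the affine cost of the second order term at a vertex -/
def aff (z0 : ℝ) (z : Fin 3 → ℝ) (N : Fin 3 → Fin 3 → ℝ) : ℝ :=
  z0 + z 0 * nc N 0 + z 1 * nc N 1 + z 2 * nc N 2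

/-- **certificates of the kernel are certificates of the row** (no couplings, affine cost) -/
theorem certG_of_okN {F : FD} {gs : List GD} {w b Qr : ℕ} {ds : List ℕ}
    {T : Helper43.GBox.GT} (h : okN F gs w b Qr ds T = true)
    {ε k1 k2 K0 K1 : ℝ} {tt ρ μ : Fin 3 → ℝ} {s : ℝ} {S cp D : Fin 3 → ℝ} {m z0 : ℝ}
    {z : Fin 3 → ℝ}
    (O : DOk F ε k1 k2 K0 K1 tt ρ μ s S cp D m z0 z) (ht0 : ∀ k, 0 ≤ tt k)
    {Dom : (Fin 3 → Fin 3 → ℝ) → Prop} (hDom : ∀ N, Dom N → DomF D tt N)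
    {G : Option (Fin 3) → (Fin 3 → Fin 3 → ℝ) → ℝ → Prop}
    (hG : ∀ cl, ∀ N : Fin 3 → Fin 3 → ℝ, (∀ k m, 0 ≤ N k m) → (∀ k, N k k = 0) →
      ∀ g, G cl N g → ∃ G' ∈ gs, g = gE cR F G' (lkN N)) :
    CertG 2.04 ε k1 k2 K0 K1 tt ρ Dom G μ s S cp (fun _ _ _ N => aff z0 z N) m := by
  intro N hN hd htt hD i j hij cl g hg
  obtain ⟨G', hG', rfl⟩ := hG cl N hN hd g hg
  have hF : fcD cR F = fcR 2.04 ε k1 k2 K0 K1 tt := by
    unfold fcD fcR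
    rw [O.A, O.e1, O.k1, O.k2, O.K0, O.K1, O.w0, O.w1, O.w2]
  have hD' := hDom N hD
  have D0 : dq (N 1 0) (N 2 0) / (1 + tt 0 / 2) ^ 2 ≤ D 0 := hD' 0
  have D1 : dq (N 2 1) (N 0 1) / (1 + tt 1 / 2) ^ 2 ≤ D 1 := hD' 1
  have D2 : dq (N 0 2) (N 1 2) / (1 + tt 2 / 2) ^ 2 ≤ D 2 := hD' 2
  have n01 := hN 0 1
  have n02 := hN 0 2
  have n10 := hN 1 0
  have n12 := hN 1 2
  have n20 := hN 2 0
  have n21 := hN 2 1
  have e0 : nc N 0 = N 1 0 + N 2 0 := by unfold nc; linarith [hd 0]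
  have e1 : nc N 1 = N 0 1 + N 2 1 := by unfold nc; linarith [hd 1]
  have e2 : nc N 2 = N 0 2 + N 1 2 := by unfold nc; linarith [hd 2]
  have m01 : (lkN N).n01 ≤ nc N 1 := by show N 0 1 ≤ _; linarith
  have m02 : (lkN N).n02 ≤ nc N 2 := by show N 0 2 ≤ _; linarith
  have m10 : (lkN N).n10 ≤ nc N 0 := by show N 1 0 ≤ _; linarith
  have m12 : (lkN N).n12 ≤ nc N 2 := by show N 1 2 ≤ _; linarith
  have m20 : (lkN N).n20 ≤ nc N 0 := by show N 2 0 ≤ _; linarith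
  have m21 : (lkN N).n21 ≤ nc N 1 := by show N 2 1 ≤ _; linarith
  have key := certN h (L := lkN N) (i := i) (j := j)
    ⟨n01, leak_le' O.f1 (ht0 1) n21 n01 (t := nc N 1) m01 (htt 1) D1⟩
    ⟨n02, leak_le O.f2 (ht0 2) n02 n12 (t := nc N 2) m02 (htt 2) D2⟩
    ⟨n10, leak_le O.f0 (ht0 0) n10 n20 (t := nc N 0) m10 (htt 0) D0⟩
    ⟨n12, leak_le' O.f2 (ht0 2) n02 n12 (t := nc N 2) m12 (htt 2) D2⟩
    ⟨n20, leak_le' O.f0 (ht0 0) n10 n20 (t := nc N 0) m20 (htt 0) D0⟩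
    ⟨n21, leak_le O.f1 (ht0 1) n21 n01 (t := nc N 1) m21 (htt 1) D1⟩
    (by rw [hF, q0E_eq]; exact lt_of_le_of_lt D0 O.d0)
    (by rw [hF, q1E_eq]; exact lt_of_le_of_lt D1 O.d1)
    (by rw [hF, q2E_eq]; exact lt_of_le_of_lt D2 O.d2) hG' hij
  have hR : ∀ k : Fin 3, RkE F (lkN N) k = Rv tt N k := by
    intro k
    fin_cases k
    · show R0E cR (fcD cR F) (lkN N) = _
      rw [hF, R0E_eq]
      rfl
    · show R1E cR (fcD cR F) (lkN N) = _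
      rw [hF, R1E_eq]
      rfl
    · show R2E cR (fcD cR F) (lkN N) = _
      rw [hF, R2E_eq]
      rfl
  rw [hR, hR] at key
  have c0 := nc_nonneg hN 0
  have c1 := nc_nonneg hN 1
  have c2 := nc_nonneg hN 2
  have z1 := mul_le_mul_of_nonneg_right O.z1 c0
  have z2 := mul_le_mul_of_nonneg_right O.z2 c1
  have z3 := mul_le_mul_of_nonneg_right O.z3 c2
  have z0' := O.z0
  unfold prsN x01E x02E x10E x12E x20E x21E mainE apD muE at key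
  rw [hF, R0E_eq, R1E_eq, R2E_eq, kv0E_eq, kv1E_eq, kv2E_eq, q0E_eq, q1E_eq, q2E_eq, O.s, O.S0,
    O.S1, O.S2, O.m0, O.m1, O.m2, O.c0, O.c1, O.c2, O.r0, O.r1, O.r2, t0E_eq hd, t1E_eq hd,
    t2E_eq hd] at key
  rw [VF_eq]
  unfold aff pp
  simp only [max_comm _ (0 : ℝ)]
  have hm := O.m
  linarith

end Pool.Agent.Helper73.MEI.ArCor
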