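import Pool.Agent.Helper73.MEI.FB
import Pool.Agent.Helper31.SR.PcK
import Pool.Agent.Helper55.MEI.GApxN

/-!
# The data of a face over the rational numbers

`FQ` = the rational data of a face of a piece; `VChk`, `FChk`, `DChk`, `NChk`, `MChk` = decidable
conditions; `FQ.ok` = the hypotheses `FK.Ok` of the face.
-/

set_option autoImplicit false

namespace Pool.Agent.Helper73.MEI.FI

open Pool.Agent.Helper73.MEI.ArCor Pool.Agent.Helper73.MEI.FE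
open Pool.Agent.Helper73.MEI.SideP
open Helper43.FCert
open Pool.Agent.Helper55.Apex (nc)
open Pool.Agent.Helper31.SR.PcK

/-- the labelling of the face of `i` -/
def tau : Fin 4 → Equiv.Perm (Fin 4)
  | 0 => Equiv.refl _
  | 1 => ⟨![1, 0, 2, 3], ![1, 0, 2, 3], by decide, by decide⟩
  | 2 => ⟨![2, 0, 1, 3], ![1, 2, 0, 3], by decide, by decide⟩
  | 3 => ⟨![3, 0, 1, 2], ![1, 2, 3, 0], by decide, by decide⟩

theorem tau_zero (i : Fin 4) : tau i 0 = i := by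
  revert i
  decide

/-- the rational number of a pair -/
def qv (x : Q) : ℚ := x.1 / x.2

theorem qv_cast (x : Q) : q cR x = ((qv x : ℚ) : ℝ) := by
  unfold q cR qv
  push_cast
  rfl

/-- the multi affine part of a weight -/
noncomputable def gN (G : GD) (N : Fin 3 → Fin 3 → ℝ) : ℝ :=
  q cR G.a0 + q cR G.a1 * nc N 0 + q cR G.a2 * nc N 1 + q cR G.a3 * nc N 2
    + (q cR G.a4 * (nc N 0 * nc N 1) + q cR G.a5 * (nc N 0 * nc N 2)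
      + q cR G.a6 * (nc N 1 * nc N 2))
    + q cR G.a7 * (nc N 0 * (nc N 1 * nc N 2))

theorem gE_gM {F : FD} {G : GD} {N : Fin 3 → Fin 3 → ℝ} (hd : ∀ k, N k k = 0) {K0 K1 : ℝ}
    (h0 : q cR F.K0 = K0) (h1 : q cR F.K1 = K1) :
    gE cR F G (lkN N) = gN G N + (q cR G.b0 * kv K0 K1 N 0 + q cR G.b1 * kv K0 K1 N 1
      + q cR G.b2 * kv K0 K1 N 2) := by
  subst h0 h1
  unfold gE gN
  rw [t0E_eq hd, t1E_eq hd, t2E_eq hd]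
  rfl

/-- the weight `G'` of the list is the weight `G` with the strip of the arc `p` -/
def GEq (G G' : GD) (p : Fin 3) (γ off : ℚ) : Prop :=
  (qv G'.a0 = qv G.a0 + γ * off ∧ qv G'.a1 = qv G.a1 ∧ qv G'.a2 = qv G.a2
    ∧ qv G'.a3 = qv G.a3) ∧
  (qv G'.a4 = qv G.a4 ∧ qv G'.a5 = qv G.a5 ∧ qv G'.a6 = qv G.a6 ∧ qv G'.a7 = qv G.a7) ∧
  (qv G'.b0 = if p = 0 then γ else 0) ∧ (qv G'.b1 = if p = 1 then γ else 0) ∧
  (qv G'.b2 = if p = 2 then γ else 0)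

instance (G G' : GD) (p : Fin 3) (γ off : ℚ) : Decidable (GEq G G' p γ off) := by
  unfold GEq
  infer_instance

theorem GEq.eq {G G' : GD} {p : Fin 3} {γ off : ℚ} (h : GEq G G' p γ off) {F : FD}
    {N : Fin 3 → Fin 3 → ℝ} (hd : ∀ k, N k k = 0) {K0 K1 : ℝ}
    (h0 : q cR F.K0 = K0) (h1 : q cR F.K1 = K1) :
    gN G N + (γ : ℝ) * (kv K0 K1 N p + (off : ℝ)) = gE cR F G' (lkN N) := by
  obtain ⟨⟨e0, e1, e2, e3⟩, ⟨e4, e5, e6, e7⟩, b0, b1, b2⟩ := h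
  rw [gE_gM hd h0 h1]
  unfold gN
  rw [qv_cast, qv_cast, qv_cast, qv_cast, qv_cast, qv_cast, qv_cast, qv_cast, qv_cast G'.a0,
    qv_cast G'.a1, qv_cast G'.a2, qv_cast G'.a3, qv_cast G'.a4, qv_cast G'.a5, qv_cast G'.a6,
    qv_cast G'.a7, qv_cast G'.b0, qv_cast G'.b1, qv_cast G'.b2, e0, e1, e2, e3, e4, e5, e6, e7,
    b0, b1, b2]
  fin_cases p
  · simp
    ring
  · simp
    ring
  · simp
    ring

/-- rational data of a face of a piece -/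
structure FQ (ι : Type) where
  ρ : Fin 3 → ℚ
  rb : ℚ
  q : ℚ
  γc : ℚ
  γs : Fin 3 → ℚ
  D : Fin 3 → ℚ
  tt : Fin 3 → ℚ
  sg : ℚ
  mx : Fin 3 → Fin 4
  μ : Fin 3 → ℚ
  GC : GD
  GS : Fin 3 → GD
  m : ι → ℚ
  z0 : ι → ℚ
  z : ι → Fin 3 → ℚ

variable {ι : Type} [Fintype ι]

/-- the face -/
noncomputable def FQ.fk (F : FQ ι) (i : Fin 4) : FK ι where
  τ := tau i
  ρ := fun p => (F.ρ p : ℝ)
  rb := (F.rb : ℝ)
  q := (F.q : ℝ)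
  γc := (F.γc : ℝ)
  γs := fun l => (F.γs l : ℝ)
  D := fun k => (F.D k : ℝ)
  tt := fun k => (F.tt k : ℝ)
  sg := (F.sg : ℝ)
  mx := F.mx
  μ := fun k => (F.μ k : ℝ)
  gc := gN F.GC
  gs := fun l => gN (F.GS l)
  cost := fun v _ _ _ N => aff (F.z0 v : ℝ) (fun k => (F.z v k : ℝ)) N
  m := fun v => (F.m v : ℝ)

/-- checks at a vertex `V` -/
def VChk (F : FQ ι) (i : Fin 4) (c cj ck c0 cp : ℚ) (V : Fin 4 → ℚ) : Prop :=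
  (∀ p k j : Fin 3, k ≠ p → j ≠ p → j ≠ k →
    c + cj * V (tau i j.succ) + ck * V (tau i k.succ) + c0 * V (tau i 0)
      + cp * V (tau i p.succ) ≤ F.ρ p) ∧
  (∀ k, V (F.mx k) ≤ F.D k) ∧ V (F.mx 0) + V (F.mx 1) + V (F.mx 2) ≤ F.sg ∧
  1 + V (tau i 0) ≤ F.q ^ 2

instance (F : FQ ι) (i : Fin 4) (c cj ck c0 cp : ℚ) (V : Fin 4 → ℚ) :
    Decidable (VChk F i c cj ck c0 cp V) := by
  unfold VChk
  infer_instance

/-- checks of the face -/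
def FChk (F : FQ ι) (i : Fin 4) (nb K0 : ℚ) : Prop :=
  (∀ p, 0 < F.ρ p) ∧ (∀ k, 0 ≤ F.tt k) ∧ (∀ k, F.tt k ≤ nb) ∧
  (∀ k, 2 * F.D k * (1 + F.tt k / 2) ^ 2 ≤ F.tt k ^ 2) ∧
  (∀ k : Fin 3, F.mx k = tau i 0 ∨ F.mx k = tau i k.succ) ∧ (∀ p, F.ρ p ≤ F.rb) ∧
  (∀ k, F.tt k ≤ 3 / 4) ∧
  204 / 100 * (K0 * (F.tt 0 + F.tt 1 + F.tt 2)) < F.ρ 0 + F.ρ 1 + F.ρ 2 ∧ (∀ k, 0 ≤ F.μ k)

instance (F : FQ ι) (i : Fin 4) (nb K0 : ℚ) : Decidable (FChk F i nb K0) := by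
  unfold FChk
  infer_instance

/-- the bound of the leaks of a column -/
def LChk (tt D f : ℚ) : Prop := 0 ≤ f ∧ (tt ≤ f ∨ 3 / 2 * D * (1 + tt / 2) ^ 2 ≤ f ^ 2)

instance (tt D f : ℚ) : Decidable (LChk tt D f) := by
  unfold LChk
  infer_instance

theorem LChk.ok {tt D f : ℚ} (h : LChk tt D f) : LbOk (tt : ℝ) (D : ℝ) (f : ℝ) := by
  obtain ⟨h1, h2⟩ := h
  refine ⟨by exact_mod_cast h1, ?_⟩
  rcases h2 with h2 | h2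
  · left
    exact_mod_cast h2
  · right
    have h3 : ((3 / 2 * D * (1 + tt / 2) ^ 2 : ℚ) : ℝ) ≤ ((f ^ 2 : ℚ) : ℝ) := by
      exact_mod_cast h2
    push_cast at h3
    exact h3

/-- checks of the data of a certificate at the vertex `v` with the state `V` -/
def DChk (G : FD) (F : FQ ι) (i : Fin 4) (v : ι) (V : Fin 4 → ℚ) (ε k1 k12 K0 K1 : ℚ) : Prop :=
  (qv G.A = 204 / 100 ∧ qv G.e1 = 1 - ε ∧ qv G.k1 = k1 ∧ qv G.k2 = k12 - k1 ∧ qv G.K0 = K0 ∧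
    qv G.K1 = K1) ∧
  (qv G.w0 = 1 / (1 + F.tt 0 / 2) ∧ qv G.w1 = 1 / (1 + F.tt 1 / 2) ∧
    qv G.w2 = 1 / (1 + F.tt 2 / 2)) ∧
  (qv G.s = V (tau i 0) ∧ qv G.S0 = V (tau i 1) ∧ qv G.S1 = V (tau i 2) ∧
    qv G.S2 = V (tau i 3)) ∧
  (LChk (F.tt 0) (F.D 0) (qv G.f0) ∧ LChk (F.tt 1) (F.D 1) (qv G.f1) ∧
    LChk (F.tt 2) (F.D 2) (qv G.f2)) ∧
  (F.D 0 < qv G.d0 ∧ F.D 1 < qv G.d1 ∧ F.D 2 < qv G.d2) ∧
  (qv G.m0 = F.μ 0 ∧ qv G.m1 = F.μ 1 ∧ qv G.m2 = F.μ 2) ∧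
  (qv G.c0 = V (F.mx 0) ∧ qv G.c1 = V (F.mx 1) ∧ qv G.c2 = V (F.mx 2)) ∧
  (qv G.r0 = F.ρ 0 ∧ qv G.r1 = F.ρ 1 ∧ qv G.r2 = F.ρ 2) ∧
  F.m v ≤ qv G.m ∧ F.z0 v ≤ qv G.z0 ∧ F.z v 0 ≤ qv G.z1 ∧ F.z v 1 ≤ qv G.z2 ∧
  F.z v 2 ≤ qv G.z3

instance (G : FD) (F : FQ ι) (i : Fin 4) (v : ι) (V : Fin 4 → ℚ) (ε k1 k12 K0 K1 : ℚ) :
    Decidable (DChk G F i v V ε k1 k12 K0 K1) := by
  unfold DChk
  infer_instance

theorem DChk.ok {G : FD} {F : FQ ι} {i : Fin 4} {v : ι} {V : Fin 4 → ℚ} {ε k1 k12 K0 K1 : ℚ}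
    (h : DChk G F i v V ε k1 k12 K0 K1) :
    DOk G (ε : ℝ) (k1 : ℝ) ((k12 : ℝ) - (k1 : ℝ)) (K0 : ℝ) (K1 : ℝ) (fun k => (F.tt k : ℝ))
      (fun p => (F.ρ p : ℝ)) (fun k => (F.μ k : ℝ)) ((V (tau i 0) : ℚ) : ℝ)
      (fun k => ((V (tau i k.succ) : ℚ) : ℝ)) (fun k => ((V (F.mx k) : ℚ) : ℝ))
      (fun k => (F.D k : ℝ)) (F.m v : ℝ) (F.z0 v : ℝ) (fun k => (F.z v k : ℝ)) := by
  obtain ⟨⟨a1, a2, a3, a4, a5, a6⟩, ⟨w0, w1, w2⟩, ⟨s0, s1, s2, s3⟩, ⟨f0, f1, f2⟩, ⟨d0, d1, d2⟩,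
    ⟨m0, m1, m2⟩, ⟨c0, c1, c2⟩, ⟨r0, r1, r2⟩, m, z0, z1, z2, z3⟩ := h
  refine ⟨?_, ?_, ?_, ?_, ?_, ?_, ?_, ?_, ?_, ?_, ?_, ?_, ?_, ?_, ?_, ?_, ?_, ?_, ?_, ?_, ?_, ?_,
    ?_, ?_, ?_, ?_, ?_, ?_, ?_, ?_, ?_, ?_, ?_⟩
  · rw [qv_cast, a1]; norm_num
  · rw [qv_cast, a2]; push_cast; rfl
  · rw [qv_cast, a3]
  · rw [qv_cast, a4]; push_cast; rfl
  · rw [qv_cast, a5]
  · rw [qv_cast, a6]
  · rw [qv_cast, w0]; push_cast; rfl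
  · rw [qv_cast, w1]; push_cast; rfl
  · rw [qv_cast, w2]; push_cast; rfl
  · rw [qv_cast, s0]
  · rw [qv_cast, s1]; rfl
  · rw [qv_cast, s2]; rfl
  · rw [qv_cast, s3]; rfl
  · rw [qv_cast]; exact f0.ok
  · rw [qv_cast]; exact f1.ok
  · rw [qv_cast]; exact f2.ok
  · rw [qv_cast]; exact_mod_cast d0
  · rw [qv_cast]; exact_mod_cast d1
  · rw [qv_cast]; exact_mod_cast d2
  · rw [qv_cast, m0]
  · rw [qv_cast, m1]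
  · rw [qv_cast, m2]
  · rw [qv_cast, c0]
  · rw [qv_cast, c1]
  · rw [qv_cast, c2]
  · rw [qv_cast, r0]
  · rw [qv_cast, r1]
  · rw [qv_cast, r2]
  · rw [qv_cast]; exact_mod_cast m
  · rw [qv_cast]; exact_mod_cast z0
  · rw [qv_cast]; exact_mod_cast z1
  · rw [qv_cast]; exact_mod_cast z2
  · rw [qv_cast]; exact_mod_cast z3

/-- the weights of the face are in the list `gs` -/
def GChk (F : FQ ι) (gs : List GD) : Prop :=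
  (∀ p : Fin 3, ∃ G' ∈ gs, GEq F.GC G' p F.γc ((F.rb - F.ρ p) / (204 / 100))) ∧
  ∀ l p : Fin 3, ∃ G' ∈ gs, GEq (F.GS l) G' p (F.γs l) ((F.rb - F.ρ p) / (204 / 100))

instance (F : FQ ι) (gs : List GD) : Decidable (GChk F gs) := by
  unfold GChk
  infer_instance

/-- **the certificates of a face at a vertex** -/
theorem certG_q {G : FD} {gs : List GD} {w b Qr : ℕ} {ds : List ℕ} {T : Helper43.GBox.GT}
    (h : okN G gs w b Qr ds T = true) {F : FQ ι} {i : Fin 4} {v : ι} {V : Fin 4 → ℚ}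
    {ε k1 k12 K0 K1 : ℚ} (hD : DChk G F i v V ε k1 k12 K0 K1) (hG : GChk F gs)
    (h0 : ∀ k, 0 ≤ F.tt k) :
    CertG 2.04 (ε : ℝ) (k1 : ℝ) ((k12 : ℝ) - (k1 : ℝ)) (K0 : ℝ) (K1 : ℝ) (F.fk i).tt (F.fk i).ρ
      (DomS (F.fk i).D (F.fk i).tt (F.fk i).sg)
      (famG 2.04 (F.fk i).rb (K0 : ℝ) (K1 : ℝ) (F.fk i).ρ (F.fk i).gc (F.fk i).gs (F.fk i).γc
        (F.fk i).γs) (F.fk i).μ ((V ((F.fk i).τ 0) : ℚ) : ℝ)
      (fun k => ((V ((F.fk i).τ k.succ) : ℚ) : ℝ)) (fun k => ((V ((F.fk i).mx k) : ℚ) : ℝ))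
      ((F.fk i).cost v) ((F.fk i).m v) := by
  have hO := hD.ok
  refine certG_of_okN h hO (fun k => by exact_mod_cast h0 k) (fun N hN => hN.1) ?_
  intro cl N hN hd g hg
  have off : ∀ p, (((F.rb - F.ρ p) / (204 / 100) : ℚ) : ℝ) =
      ((F.rb : ℝ) - (F.ρ p : ℝ)) / 2.04 := fun p => by
    push_cast
    norm_num
  cases cl with
  | none =>
    obtain ⟨p, rfl⟩ := hg
    obtain ⟨G', hG', e⟩ := hG.1 p
    refine ⟨G', hG', ?_⟩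
    rw [← e.eq hd hO.K0 hO.K1, off]
    rfl
  | some l =>
    obtain ⟨p, rfl⟩ := hg
    obtain ⟨G', hG', e⟩ := hG.2 l p
    refine ⟨G', hG', ?_⟩
    rw [← e.eq hd hO.K0 hO.K1, off]
    rfl

/-- **the hypotheses of a face of a piece** -/
theorem FQ.ok {F : FQ ι} {V : ι → Fin 4 → ℝ} {W : ι → Fin 4 → ℚ} (hW : ∀ v i, V v i = (W v i : ℝ))
    {i : Fin 4} {c cj ck c0 cp nb ε k1 k12 K0 K1 : ℚ} {X' qm e r U : ℝ}
    (hV : ∀ v, VChk F i c cj ck c0 cp (W v)) (hF : FChk F i nb K0)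
    (hT : (∀ k, (0 : ℝ) ≤ (F.tt k : ℝ)) → (∀ k, (F.tt k : ℝ) ≤ (nb : ℝ)) →
      (∀ k, 2 * (F.D k : ℝ) * (1 + (F.tt k : ℝ) / 2) ^ 2 ≤ (F.tt k : ℝ) ^ 2) →
      StN X' qm (nb : ℝ) (K0 : ℝ) (K1 : ℝ) e r U (fun k => (F.D k : ℝ)) fun k => (F.tt k : ℝ))
    (hA : ApxN 2.04 (F.fk i).rb (F.fk i).q r U (F.fk i).γc (F.fk i).γs (F.fk i).gc (F.fk i).gs
      (DomN (F.fk i).D (F.fk i).tt (F.fk i).sg))
    (hC : ∀ v, CertG 2.04 (ε : ℝ) (k1 : ℝ) ((k12 : ℝ) - (k1 : ℝ)) (K0 : ℝ) (K1 : ℝ) (F.fk i).tt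
      (F.fk i).ρ (DomS (F.fk i).D (F.fk i).tt (F.fk i).sg)
      (famG 2.04 (F.fk i).rb (K0 : ℝ) (K1 : ℝ) (F.fk i).ρ (F.fk i).gc (F.fk i).gs (F.fk i).γc
        (F.fk i).γs) (F.fk i).μ ((W v ((F.fk i).τ 0) : ℚ) : ℝ)
      (fun k => ((W v ((F.fk i).τ k.succ) : ℚ) : ℝ)) (fun k => ((W v ((F.fk i).mx k) : ℚ) : ℝ))
      ((F.fk i).cost v) ((F.fk i).m v)) :
    (F.fk i).Ok V i (c : ℝ) (cj : ℝ) (ck : ℝ) (c0 : ℝ) (cp : ℝ) X' qm (nb : ℝ) (ε : ℝ) (k1 : ℝ)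
      (k12 : ℝ) (K0 : ℝ) (K1 : ℝ) e r U := by
  obtain ⟨f1, f2, f3, f4, f5, f6, f7, f8, f9⟩ := hF
  have hW' : V = fun v i => (W v i : ℝ) := by
    funext v i
    exact hW v i
  subst hW'
  refine ⟨tau_zero i, fun p => ?_, fun v p k j h1 h2 h3 => ?_, ?_, f5, fun v k => ?_, fun v => ?_,
    hA, fun p => ?_, fun k => ?_, fun v => ?_, ?_, fun k => ?_, fun v => hC v⟩
  · have h' : ((0 : ℚ) : ℝ) < (F.ρ p : ℝ) := Rat.cast_lt.2 (f1 p)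
    rw [Rat.cast_zero] at h'
    exact h'
  · have h' := (Rat.cast_le (K := ℝ)).2 ((hV v).1 p k j h1 h2 h3)
    push_cast at h'
    exact h'
  · exact hT (fun k => by exact_mod_cast f2 k) (fun k => by exact_mod_cast f3 k) fun k => by
      have h3 : ((2 * F.D k * (1 + F.tt k / 2) ^ 2 : ℚ) : ℝ) ≤ ((F.tt k ^ 2 : ℚ) : ℝ) := by
        exact_mod_cast f4 k
      push_cast at h3
      exact h3
  · exact (Rat.cast_le (K := ℝ)).2 ((hV v).2.1 k)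
  · have h' := (Rat.cast_le (K := ℝ)).2 (hV v).2.2.1
    push_cast at h'
    exact h'
  · exact (Rat.cast_le (K := ℝ)).2 (f6 p)
  · have h := f7 k
    have h' : (F.tt k : ℝ) ≤ ((3 / 4 : ℚ) : ℝ) := by exact_mod_cast h
    have e1 : ((3 / 4 : ℚ) : ℝ) = 3 / 4 := by norm_num
    rw [e1] at h'
    exact h'
  · have h' := (Rat.cast_le (K := ℝ)).2 (hV v).2.2.2
    push_cast at h'
    exact h'
  · have h' : ((204 / 100 * (K0 * (F.tt 0 + F.tt 1 + F.tt 2)) : ℚ) : ℝ) <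
        ((F.ρ 0 + F.ρ 1 + F.ρ 2 : ℚ) : ℝ) := by exact_mod_cast f8
    push_cast at h'
    show 2.04 * ((K0 : ℝ) * ((F.tt 0 : ℝ) + (F.tt 1 : ℝ) + (F.tt 2 : ℝ))) <
      (F.ρ 0 : ℝ) + (F.ρ 1 : ℝ) + (F.ρ 2 : ℝ)
    norm_num at h' ⊢
    exact h'
  · have h' : ((0 : ℚ) : ℝ) ≤ (F.μ k : ℝ) := Rat.cast_le.2 (f9 k)
    rw [Rat.cast_zero] at h'
    exact h'

/-- **the hypotheses of a face of a piece**, real numbers -/
theorem FQ.okR {F : FQ ι} {V : ι → Fin 4 → ℝ} {W : ι → Fin 4 → ℚ}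
    (hW : ∀ v i, V v i = (W v i : ℝ))
    {i : Fin 4} {c cj ck c0 cp nb ε k1 k12 K0 K1 : ℚ}
    {c' cj' ck' c0' cp' nb' ε' k1' k12' K0' K1' X' qm e r U : ℝ}
    (hV : ∀ v, VChk F i c cj ck c0 cp (W v)) (hF : FChk F i nb K0)
    (hT : (∀ k, (0 : ℝ) ≤ (F.tt k : ℝ)) → (∀ k, (F.tt k : ℝ) ≤ nb') →
      (∀ k, 2 * (F.D k : ℝ) * (1 + (F.tt k : ℝ) / 2) ^ 2 ≤ (F.tt k : ℝ) ^ 2) →
      StN X' qm nb' K0' K1' e r U (fun k => (F.D k : ℝ)) fun k => (F.tt k : ℝ))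
    (hA : ApxN 2.04 (F.fk i).rb (F.fk i).q r U (F.fk i).γc (F.fk i).γs (F.fk i).gc (F.fk i).gs
      (DomN (F.fk i).D (F.fk i).tt (F.fk i).sg))
    (hC : ∀ v, CertG 2.04 (ε : ℝ) (k1 : ℝ) ((k12 : ℝ) - (k1 : ℝ)) (K0 : ℝ) (K1 : ℝ) (F.fk i).tt
      (F.fk i).ρ (DomS (F.fk i).D (F.fk i).tt (F.fk i).sg)
      (famG 2.04 (F.fk i).rb (K0 : ℝ) (K1 : ℝ) (F.fk i).ρ (F.fk i).gc (F.fk i).gs (F.fk i).γc
        (F.fk i).γs) (F.fk i).μ ((W v ((F.fk i).τ 0) : ℚ) : ℝ)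
      (fun k => ((W v ((F.fk i).τ k.succ) : ℚ) : ℝ)) (fun k => ((W v ((F.fk i).mx k) : ℚ) : ℝ))
      ((F.fk i).cost v) ((F.fk i).m v))
    (e0 : (c : ℝ) = c') (e1 : (cj : ℝ) = cj') (e2 : (ck : ℝ) = ck') (e3 : (c0 : ℝ) = c0')
    (e4 : (cp : ℝ) = cp') (e5 : (nb : ℝ) = nb') (e6 : (ε : ℝ) = ε') (e7 : (k1 : ℝ) = k1')
    (e8 : (k12 : ℝ) = k12') (e9 : (K0 : ℝ) = K0') (e10 : (K1 : ℝ) = K1') :
    (F.fk i).Ok V i c' cj' ck' c0' cp' X' qm nb' ε' k1' k12' K0' K1' e r U := by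
  subst e0 e1 e2 e3 e4 e5 e6 e7 e8 e9 e10
  exact FQ.ok hW hV hF hT hA hC

/-- nonnegative multi affine function on a box -/
theorem lin_nn {a b t T : ℝ} (h0 : 0 ≤ a) (h1 : 0 ≤ a + b * T) (ht : 0 ≤ t) (hT : t ≤ T) :
    0 ≤ a + b * t := by
  rcases le_total 0 b with hb | hb
  · have := mul_nonneg hb ht
    linarith
  · have := mul_le_mul_of_nonpos_left hT hb
    linarith

/-- the value of a weight at a corner of the box -/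
def gCo (G : GD) (t0 t1 t2 : ℚ) : ℚ :=
  qv G.a0 + qv G.a1 * t0 + qv G.a2 * t1 + qv G.a3 * t2
    + (qv G.a4 * (t0 * t1) + qv G.a5 * (t0 * t2) + qv G.a6 * (t1 * t2))
    + qv G.a7 * (t0 * (t1 * t2))

/-- nonnegative at the corners -/
def PChk (G : GD) (T : Fin 3 → ℚ) : Prop :=
  (0 ≤ gCo G 0 0 0 ∧ 0 ≤ gCo G (T 0) 0 0 ∧ 0 ≤ gCo G 0 (T 1) 0 ∧ 0 ≤ gCo G 0 0 (T 2)) ∧
  0 ≤ gCo G (T 0) (T 1) 0 ∧ 0 ≤ gCo G (T 0) 0 (T 2) ∧ 0 ≤ gCo G 0 (T 1) (T 2) ∧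
  0 ≤ gCo G (T 0) (T 1) (T 2)

instance (G : GD) (T : Fin 3 → ℚ) : Decidable (PChk G T) := by
  unfold PChk
  infer_instance

theorem PChk.nn {G : GD} {T : Fin 3 → ℚ} (h : PChk G T) {N : Fin 3 → Fin 3 → ℝ}
    (hN : ∀ k m, 0 ≤ N k m) (ht : ∀ k, nc N k ≤ (T k : ℝ)) : 0 ≤ gN G N := by
  obtain ⟨⟨h0, h1, h2, h3⟩, h4, h5, h6, h7⟩ := h
  have c : ∀ t0 t1 t2 : ℚ, 0 ≤ gCo G t0 t1 t2 →
      0 ≤ q cR G.a0 + q cR G.a1 * (t0 : ℝ) + q cR G.a2 * (t1 : ℝ) + q cR G.a3 * (t2 : ℝ)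
        + (q cR G.a4 * ((t0 : ℝ) * t1) + q cR G.a5 * ((t0 : ℝ) * t2)
          + q cR G.a6 * ((t1 : ℝ) * t2)) + q cR G.a7 * ((t0 : ℝ) * (t1 * t2)) := by
    intro t0 t1 t2 h
    simp only [qv_cast]
    unfold gCo at h
    exact_mod_cast h
  have k0 := c _ _ _ h0
  have k1 := c _ _ _ h1
  have k2 := c _ _ _ h2
  have k3 := c _ _ _ h3
  have k4 := c _ _ _ h4
  have k5 := c _ _ _ h5
  have k6 := c _ _ _ h6
  have k7 := c _ _ _ h7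
  have n0 := nc_nonneg hN 0
  have n1 := nc_nonneg hN 1
  have n2 := nc_nonneg hN 2
  push_cast at k0 k1 k2 k3 k4 k5 k6
  unfold gN
  -- along the first variable, at the four corners of the others
  have l00 := lin_nn (a := q cR G.a0) (b := q cR G.a1) (t := nc N 0) (by linarith) (by linarith)
    n0 (ht 0)
  have l10 := lin_nn (a := q cR G.a0 + q cR G.a2 * (T 1 : ℝ))
    (b := q cR G.a1 + q cR G.a4 * (T 1 : ℝ)) (t := nc N 0) (by linarith) (by linarith) n0 (ht 0)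
  have l01 := lin_nn (a := q cR G.a0 + q cR G.a3 * (T 2 : ℝ))
    (b := q cR G.a1 + q cR G.a5 * (T 2 : ℝ)) (t := nc N 0) (by linarith) (by linarith) n0 (ht 0)
  have l11 := lin_nn (a := q cR G.a0 + q cR G.a2 * (T 1 : ℝ) + q cR G.a3 * (T 2 : ℝ)
      + q cR G.a6 * ((T 1 : ℝ) * T 2))
    (b := q cR G.a1 + q cR G.a4 * (T 1 : ℝ) + q cR G.a5 * (T 2 : ℝ)
      + q cR G.a7 * ((T 1 : ℝ) * T 2)) (t := nc N 0) (by linarith) (by linarith) n0 (ht 0)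
  have m0 := lin_nn (a := q cR G.a0 + q cR G.a1 * nc N 0)
    (b := q cR G.a2 + q cR G.a4 * nc N 0) (t := nc N 1) (T := (T 1 : ℝ)) (by linarith)
    (by linarith) n1 (ht 1)
  have m1 := lin_nn (a := q cR G.a0 + q cR G.a1 * nc N 0 + (q cR G.a3 + q cR G.a5 * nc N 0) * T 2)
    (b := q cR G.a2 + q cR G.a4 * nc N 0 + (q cR G.a6 + q cR G.a7 * nc N 0) * T 2)
    (t := nc N 1) (T := (T 1 : ℝ)) (by linarith) (by linarith) n1 (ht 1)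
  have r := lin_nn (a := q cR G.a0 + q cR G.a1 * nc N 0 + (q cR G.a2 + q cR G.a4 * nc N 0)
      * nc N 1)
    (b := q cR G.a3 + q cR G.a5 * nc N 0 + (q cR G.a6 + q cR G.a7 * nc N 0) * nc N 1)
    (t := nc N 2) (T := (T 2 : ℝ)) (by linarith) (by linarith) n2 (ht 2)
  linarith

open Pool.Agent.Helper55.GApx (gM GBx apxN_common)

theorem gN_eq (G : GD) : gN G = fun N => gM (q cR G.a0) (q cR G.a1) (q cR G.a2) (q cR G.a4)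
    (q cR G.a3) (q cR G.a5) (q cR G.a6) (q cR G.a7) (nc N 0) (nc N 1) (nc N 2) := by
  funext N
  unfold gN gM
  ring

/-- **the field `apx`**, one common weight of the apex (helper55's `GBx`) -/
theorem apx_of_gbx {F : FQ ι} {i : Fin 4}
    {rb q' r' U' r U γ t0 t1 t2 c0 c1 c2 c3 c4 c5 c6 c7 : ℝ}
    (H : GBx rb q' r' U' γ t0 t1 t2 (gM c0 c1 c2 c3 c4 c5 c6 c7)) (er : r' = r) (eU : U' = U)
    (e1 : (F.rb : ℝ) = rb) (e2 : (F.q : ℝ) = q') (e3 : (F.γc : ℝ) = γ)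
    (e4 : ∀ l, F.γs l = F.γc) (e5 : ∀ l, F.GS l = F.GC)
    (u0 : (F.tt 0 : ℝ) = t0) (u1 : (F.tt 1 : ℝ) = t1) (u2 : (F.tt 2 : ℝ) = t2)
    (a0 : q cR F.GC.a0 = c0) (a1 : q cR F.GC.a1 = c1) (a2 : q cR F.GC.a2 = c2)
    (a4 : q cR F.GC.a4 = c3) (a3 : q cR F.GC.a3 = c4) (a5 : q cR F.GC.a5 = c5)
    (a6 : q cR F.GC.a6 = c6) (a7 : q cR F.GC.a7 = c7) :
    ApxN 2.04 (F.fk i).rb (F.fk i).q r U (F.fk i).γc (F.fk i).γs (F.fk i).gc (F.fk i).gs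
      (DomN (F.fk i).D (F.fk i).tt (F.fk i).sg) := by
  subst er eU e1 e2 e3 u0 u1 u2 a0 a1 a2 a3 a4 a5 a6 a7
  have key := apxN_common (D := (F.fk i).D) (tt := (F.fk i).tt) (sg := (F.fk i).sg) H
  have g1 : (F.fk i).gc = fun N => gM (q cR F.GC.a0) (q cR F.GC.a1) (q cR F.GC.a2)
      (q cR F.GC.a4) (q cR F.GC.a3) (q cR F.GC.a5) (q cR F.GC.a6) (q cR F.GC.a7) (nc N 0)
      (nc N 1) (nc N 2) := gN_eq _
  have g2 : (F.fk i).gs = fun _ N => gM (q cR F.GC.a0) (q cR F.GC.a1) (q cR F.GC.a2)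
      (q cR F.GC.a4) (q cR F.GC.a3) (q cR F.GC.a5) (q cR F.GC.a6) (q cR F.GC.a7) (nc N 0)
      (nc N 1) (nc N 2) := by
    funext l
    show gN (F.GS l) = _
    rw [e5 l]
    exact gN_eq _
  have g3 : (F.fk i).γs = fun _ => (F.γc : ℝ) := by
    funext l
    show ((F.γs l : ℚ) : ℝ) = _
    rw [e4 l]
  rw [g1, g2, g3]
  exact key

end Pool.Agent.Helper73.MEI.FI
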