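import Pool.Agent.Helper73.MEI.FI
import Pool.Agent.Helper73.MEI.FN2

/-!
# The core statement on a piece from rational data

`NChk` = the balance at a vertex; `coreP_FQ` = the core statement on a piece.
-/

set_option autoImplicit false

namespace Pool.Agent.Helper73.MEI.FI

open Helper41.MEI Helper37.MEI Helper93.MEI Helper80.CW Helper14.MEI2 Helper82.M2
open Pool.Agent.Helper73.MEI Helper78.MEI
open Pool.Agent.Helper73.MEI.ArCor Pool.Agent.Helper73.MEI.FE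
open Pool.Agent.Helper31.SR
open Pool.Agent.Helper31.SR.IntC Pool.Agent.Helper31.SR.PcK

variable {ι : Type} [Fintype ι]

/-- the balance at a vertex with the state `V` -/
def NChk (F : Fin 4 → FQ ι) (v : ι) (V : Fin 4 → ℚ) (d0 d1 X : ℚ) : Prop :=
  (∀ i, 0 ≤ V i) ∧ V 0 + V 1 + V 2 + V 3 ≤ X ∧
  d0 + ((d1 * V 0 + 501 / 1000 * V 0 ^ 3) + (d1 * V 1 + 501 / 1000 * V 1 ^ 3)
    + (d1 * V 2 + 501 / 1000 * V 2 ^ 3) + (d1 * V 3 + 501 / 1000 * V 3 ^ 3)) ≤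
    (F 0).m v + (F 1).m v + (F 2).m v + (F 3).m v

instance (F : Fin 4 → FQ ι) (v : ι) (V : Fin 4 → ℚ) (d0 d1 X : ℚ) :
    Decidable (NChk F v V d0 d1 X) := by
  unfold NChk
  infer_instance

/-- **the core statement on a piece**, rational data -/
theorem coreP_FQ {κ T c cj ck c0 cp X X' rm qm nb ρ1 Rb gg ε k1 k12 t2 δ K0 K1 e r U : ℝ}
    {d0 d1 Xq : ℚ} {P : (Fin 4 → ℝ) → Prop} (hκ : 0 ≤ κ) {V : ι → Fin 4 → ℝ}
    {W : ι → Fin 4 → ℚ} (hVW : ∀ v i, V v i = (W v i : ℝ)) (F : Fin 4 → FQ ι)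
    (hM : MomB T c cj ck c0 cp) (R : Rn X' rm qm nb ρ1 Rb gg ε k1 k12 t2 δ) (hX' : X' ≤ T)
    (hXq : (Xq : ℝ) ≤ X') (hP : ∀ S : Fin 4 → ℝ, P S → ∃ lam, Dc V S lam)
    (hP26 : ∀ S, P S → ∀ i, S i ≤ 0.026)
    (hc : ∀ S : Fin 4 → ℝ, P S →
      1.85e-4 + (0.0039 + 4.08 * κ) * ∑ i, S i ≤ (d0 : ℝ) + (d1 : ℝ) * ∑ i, S i)
    (hn : ∀ v, NChk F v (W v) d0 d1 Xq)
    (h : ∀ i, ((F i).fk i).Ok V i c cj ck c0 cp X' qm nb ε k1 k12 K0 K1 e r U)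
    (hW : ∀ i, ((F i).fk i).W V X P ε k1 k12 K0 K1) : CoreP P X κ := by
  have hVW' : V = fun v i => (W v i : ℝ) := by
    funext v i
    exact hVW v i
  refine coreP_FK (d0 := (d0 : ℝ)) (d1 := (d1 : ℝ)) hκ V (fun i => (F i).fk i) hM R hX' ?_ ?_ hP
    hP26 hc ?_ h hW
  · intro v i
    rw [hVW]
    have h' : ((0 : ℚ) : ℝ) ≤ (W v i : ℝ) := Rat.cast_le.2 ((hn v).1 i)
    rw [Rat.cast_zero] at h'
    exact h'
  · intro v
    have h' := (Rat.cast_le (K := ℝ)).2 (hn v).2.1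
    push_cast at h'
    rw [Fin.sum_univ_four, hVW, hVW, hVW, hVW]
    exact h'.trans hXq
  · intro v
    have h' := (Rat.cast_le (K := ℝ)).2 (hn v).2.2
    push_cast at h'
    unfold nd
    rw [Fin.sum_univ_four, Fin.sum_univ_four, hVW, hVW, hVW, hVW]
    have e : (0.501 : ℝ) = 501 / 1000 := by norm_num
    rw [e]
    exact h'

end Pool.Agent.Helper73.MEI.FI
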