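import Pool.Agent.Helper73.MEI.FW4
import Pool.Agent.Helper96.MEI.Kap5

/-!
# Numbers of the ranges `Σ S ≤ .0585` and `Σ S ≤ .0874`

`kapL_bilG` (columns up to `.39`), `rn_0585`, `rn_0874`, `kb_0585`, `kb_0874`, `stc_0585`,
`stc_0874` = `Stc` of a piece from the numbers of the piece.
-/

set_option autoImplicit false

namespace Pool.Agent.Helper73.MEI.ArCor

open Pool.Agent.Helper96.Kap

/-- bilinear form of the strip bound on a larger box -/
theorem kapL_bilG {e K0 K1 x y p q : ℝ} (he : 0 ≤ e) (he3 : e ≤ 0.39) (hx : 0 ≤ x) (hy : 0 ≤ y)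
    (hp : 0 ≤ p) (hq : 0 ≤ q) (hxq : x + q ≤ e) (hyp : y + p ≤ e)
    (hK : ∀ z : ℝ, 0 ≤ z → z ≤ e → K0 ≤ 0.071 + (K1 - 0.071) * z
      - 0.0304 * (2 + e) * (e * (1 + z ^ 2)) - 0.1768 * z ^ 3) :
    K0 * (x + y) - K1 * (y * q + x * p) ≤ kapL e x y p q := by
  refine le_trans ?_ (kapL_sep he hx hy hp hq)
  have key : ∀ {w d b : ℝ}, 0 ≤ w → 0 ≤ d → w + d ≤ e → 1 ≤ b →
      0.0304 * (2 + e) * (w * b) + 0.1768 * d ^ 2 ≤ 0.0304 * (2 + e) * (e * b) := by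
    intro w d b hw hd hwd hb
    have h2 : 0.0304 * (2 + e) * (w * b) ≤ 0.0304 * (2 + e) * ((e - d) * b) :=
      mul_le_mul_of_nonneg_left (mul_le_mul_of_nonneg_right (by linarith) (by linarith))
        (by linarith)
    have h3 : 0.1768 * d ^ 2 ≤ 0.0304 * (2 + e) * (d * b) := by
      have h4 : d * 1 ≤ d * b := mul_le_mul_of_nonneg_left hb hd
      have h6 : 0.0304 * (2 + e) * (d * 1) ≤ 0.0304 * (2 + e) * (d * b) :=
        mul_le_mul_of_nonneg_left h4 (by linarith)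
      have h7 : d * d ≤ d * e := mul_le_mul_of_nonneg_left (by linarith) hd
      have h8 : d * e ≤ d * 0.39 := mul_le_mul_of_nonneg_left he3 hd
      have h9 : 0.1768 * (d * d) ≤ 0.0304 * (2 + e) * d := by
        nlinarith
      linarith
    linarith
  have a1 := key (b := 1 + p ^ 2) hx hq hxq (by nlinarith [sq_nonneg p])
  have a2 := key (b := 1 + q ^ 2) hy hp hyp (by nlinarith [sq_nonneg q])
  have k1 := hK p hp (by linarith)
  have k2 := hK q hq (by linarith)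
  have c1 : K0 - K1 * p ≤ 0.071 - 0.071 * p - 0.0304 * (2 + e) * (x * (1 + p ^ 2))
      - 0.1768 * (p ^ 3 + q ^ 2) := by linarith
  have c2 : K0 - K1 * q ≤ 0.071 - 0.071 * q - 0.0304 * (2 + e) * (y * (1 + q ^ 2))
      - 0.1768 * (q ^ 3 + p ^ 2) := by linarith
  have d1 := mul_le_mul_of_nonneg_left c1 hx
  have d2 := mul_le_mul_of_nonneg_left c2 hy
  linarith

theorem rn_0585 : Rn 0.0585 0.17103 0.87906 0.27515 1.13758 0.03328 0.02048 0.01172 1.01463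
    1.26006 1.2484 0.15345 := by
  constructor <;> norm_num

theorem rn_0874 : Rn 0.0874 0.20905 0.85217 0.34693 1.17348 0.05129 0.03422 0.02507 1.02185
    1.27715 1.25993 0.17367 := by
  constructor <;> norm_num

theorem kb_0585 {x y p q : ℝ} (hx : 0 ≤ x) (hy : 0 ≤ y) (hp : 0 ≤ p) (hq : 0 ≤ q)
    (hxq : x + q ≤ 0.27515) (hyp : y + p ≤ 0.27515) :
    0.0519 * (x + y) - 0.09 * (y * q + x * p) ≤ kapL 0.27515 x y p q := by
  refine kapL_bilG (by norm_num) (by norm_num) hx hy hp hq hxq hyp fun z h0 h1 => ?_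
  nlinarith [mul_nonneg h0 (sub_nonneg.2 h1), mul_nonneg (mul_nonneg h0 h0) (sub_nonneg.2 h1)]

theorem kb_0874 {x y p q : ℝ} (hx : 0 ≤ x) (hy : 0 ≤ y) (hp : 0 ≤ p) (hq : 0 ≤ q)
    (hxq : x + q ≤ 0.34693) (hyp : y + p ≤ 0.34693) :
    0.0462 * (x + y) - 0.101 * (y * q + x * p) ≤ kapL 0.34693 x y p q := by
  refine kapL_bilG (by norm_num) (by norm_num) hx hy hp hq hxq hyp fun z h0 h1 => ?_
  nlinarith [mul_nonneg h0 (sub_nonneg.2 h1), mul_nonneg (mul_nonneg h0 h0) (sub_nonneg.2 h1)]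

/-- the statics of a piece of the range `.0585`: `r = 1.0812`, `V = .1532` -/
theorem stc_0585 {rb : ℝ} {D tt : Fin 3 → ℝ} (t0 : ∀ k, 0 ≤ tt k) (t1 : ∀ k, tt k ≤ 0.27515)
    (tD : ∀ k, 2 * D k * (1 + tt k / 2) ^ 2 ≤ tt k ^ 2) (rb0 : 0 < rb)
    (φ1 : 22.6276 * rb * (35 / 48 + 9 / 16 * (tt 0 + tt 1 + tt 2)
      + 5 / 12 * (tt 0 + tt 1 + tt 2) ^ 2) ^ 2 ≤ 2.04 * (1 - (tt 0 + tt 1 + tt 2) ^ 2 / 4)) :
    Stc 0.0585 0.87906 0.27515 0.0519 0.09 0.27515 rb 1.0812 0.1532 D tt where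
  tt0 := t0
  ttD := tD
  tt1 := by linarith [t1 0, t1 1, t1 2]
  qt := fun k => by linarith [t1 k]
  nb5 := by norm_num
  nbe := le_rfl
  K10 := by norm_num
  K1n := by norm_num
  K := fun _ _ _ _ => kb_0585
  rb0 := rb0
  φ1 := φ1
  X3 := by norm_num
  r0 := by norm_num
  rX := by norm_num
  V0 := by norm_num
  VX := by norm_num
  Vr := by norm_num

/-- the statics of a piece of the range `.0874`: `r = 1.0911`, `V = .1731` -/
theorem stc_0874 {rb : ℝ} {D tt : Fin 3 → ℝ} (t0 : ∀ k, 0 ≤ tt k) (t1 : ∀ k, tt k ≤ 0.34693)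
    (ts : tt 0 + tt 1 + tt 2 ≤ 1)
    (tD : ∀ k, 2 * D k * (1 + tt k / 2) ^ 2 ≤ tt k ^ 2) (rb0 : 0 < rb)
    (φ1 : 22.6276 * rb * (35 / 48 + 9 / 16 * (tt 0 + tt 1 + tt 2)
      + 5 / 12 * (tt 0 + tt 1 + tt 2) ^ 2) ^ 2 ≤ 2.04 * (1 - (tt 0 + tt 1 + tt 2) ^ 2 / 4)) :
    Stc 0.0874 0.85217 0.34693 0.0462 0.101 0.34693 rb 1.0912 0.1732 D tt where
  tt0 := t0
  ttD := tD
  tt1 := ts
  qt := fun k => by linarith [t1 k]
  nb5 := by norm_num
  nbe := le_rfl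
  K10 := by norm_num
  K1n := by norm_num
  K := fun _ _ _ _ => kb_0874
  rb0 := rb0
  φ1 := φ1
  X3 := by norm_num
  r0 := by norm_num
  rX := by norm_num
  V0 := by norm_num
  VX := by norm_num
  Vr := by norm_num

end Pool.Agent.Helper73.MEI.ArCor
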