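import Pool.Agent.Helper73.MEI.FS1

/-!
# The plane form, second order lower bound

`plane2`: `B Σ H - Σ r_k (S_k + H_k)⁺` from below by the leaks, second order; `plane2_body`.
-/

set_option autoImplicit false

namespace Pool.Agent.Helper73.MEI.ArCor

open Set Metric MeasureTheory Helper80.CW Helper82.CW Helper14.CW Helper93.MEI Helper82.M2
open Helper14.MEI2 Pool.Agent.Helper52.MEI Pool.Agent.Helper73.MEI Helper37.MEI Helper41.MEI
open Pool.Agent.Helper55.Mass (LN vv B0 B0_ge)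
open Pool.Agent.Helper55.Apex (nc)
open Pool.Agent.Helper55.ApexP (PN alP mu_bal)
open Pool.Agent.Helper31.SR
open Helper78.MEI
open Helper75.MEI2 (mu vt)
open scoped RealInnerProductSpace ENNReal

/-- row sum of the products: `Σ_m N_km Σ_j N_mj w_j` -/
def nn (N : Fin 3 → Fin 3 → ℝ) (w : Fin 3 → ℝ) (k : Fin 3) : ℝ :=
  N k 0 * (N 0 0 * w 0 + N 0 1 * w 1 + N 0 2 * w 2)
    + N k 1 * (N 1 0 * w 0 + N 1 1 * w 1 + N 1 2 * w 2)
    + N k 2 * (N 2 0 * w 0 + N 2 1 * w 1 + N 2 2 * w 2)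

/-- load of the corner `k` by the three nodes -/
def qq3 (N : Fin 3 → Fin 3 → ℝ) (R : Fin 3 → ℝ) (k : Fin 3) : ℝ :=
  N 0 k * R 0 + N 1 k * R 1 + N 2 k * R 2

/-- second order plane form -/
noncomputable def pl2 (N : Fin 3 → Fin 3 → ℝ) (r R S : Fin 3 → ℝ) : ℝ :=
  R 0 * (0.2132 * (1 - rowN N 0) + nn N (fun j => 0.2132 * (1 - rowN N j) - r j) 0)
    + R 1 * (0.2132 * (1 - rowN N 1) + nn N (fun j => 0.2132 * (1 - rowN N j) - r j) 1)
    + R 2 * (0.2132 * (1 - rowN N 2) + nn N (fun j => 0.2132 * (1 - rowN N j) - r j) 2)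
    - (r 0 * pp (R 0 + S 0 - qq3 N R 0) + r 1 * pp (R 1 + S 1 - qq3 N R 1)
      + r 2 * pp (R 2 + S 2 - qq3 N R 2))

section
variable {N : Fin 3 → Fin 3 → ℝ} (hN : ∀ k m, 0 ≤ N k m) (hd : ∀ k, N k k = 0) {c : ℝ}
  (hc : c < 1) (hcol : ∀ m, nc N m ≤ c)
include hN hd hc hcol

/-- **plane form, second order lower bound** -/
theorem plane2 {R H S r : Fin 3 → ℝ} {p : ℝ} (hp : p < 1)
    (hH : ∀ j, H j + (N 0 j * H 0 + N 1 j * H 1 + N 2 j * H 2) = R j) (hR : ∀ j, 0 ≤ R j)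
    (hr : ∀ j, 0 ≤ r j) (hrow : ∀ k, rowN N k ≤ p)
    (hrB : ∀ k, B0 * rowN N k + r k ≤ B0) :
    pl2 N r R S ≤ B0 * (H 0 + H 1 + H 2) - (r 0 * max (S 0 + H 0) 0 + r 1 * max (S 1 + H 1) 0
      + r 2 * max (S 2 + H 2) 0) := by
  obtain ⟨θ, hθ0, hθ1, hθ⟩ : ∃ θ : Fin 3 → ℝ, (∀ k, 0 ≤ θ k) ∧ (∀ k, θ k ≤ 1) ∧
      ∀ k, max (S k + H k) 0 = θ k * (S k + H k) := by
    refine ⟨fun k => if 0 ≤ S k + H k then 1 else 0, fun k => ?_, fun k => ?_, fun k => ?_⟩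
    · simp only; split_ifs <;> norm_num
    · simp only; split_ifs <;> norm_num
    · simp only
      split_ifs with h
      · rw [max_eq_left h, one_mul]
      · rw [max_eq_right (by linarith [not_le.1 h]), zero_mul]
  have hB := B0_ge
  have hrow' : ∀ k, N k 0 + N k 1 + N k 2 ≤ p := fun k => by
    rw [← rowN_eq hd]
    exact hrow k
  set v : Fin 3 → ℝ := fun k => B0 - θ k * r k with hv
  set x : Fin 3 → ℝ := mu (PN N) v with hx
  have hbal : ∀ k, x k + LN N x k = v k := fun k => mu_bal hN hd hc hcol v k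
  have hθr : ∀ k, 0 ≤ θ k * r k := fun k => mul_nonneg (hθ0 k) (hr k)
  have hθr1 : ∀ k, θ k * r k ≤ r k := fun k => by
    have := mul_le_mul_of_nonneg_right (hθ1 k) (hr k)
    linarith
  have hrng := dual_range hN hp hbal hrow' (B := B0) (fun k => by
    show B0 - θ k * r k ≤ B0
    linarith [hθr k]) (fun k => by
    show _ ≤ B0 - θ k * r k
    have := hrB k
    rw [rowN_eq hd] at this
    linarith [hθr1 k])
  have hB1 : ∀ k, 0.2132 * (1 - rowN N k) ≤ B0 * (1 - rowN N k) := fun k =>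
    mul_le_mul_of_nonneg_right hB (by linarith [hrow k])
  have hlow : ∀ k, 0.2132 * (1 - rowN N k) - r k ≤ x k := by
    intro k
    have e := hbal k
    unfold LN at e
    have ev : v k = B0 - θ k * r k := rfl
    have b0 := mul_le_mul_of_nonneg_left (hrng 0).2 (hN k 0)
    have b1 := mul_le_mul_of_nonneg_left (hrng 1).2 (hN k 1)
    have b2 := mul_le_mul_of_nonneg_left (hrng 2).2 (hN k 2)
    have := hθr1 k
    have := hB1 k
    have hr' := rowN_eq hd k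
    rw [hr'] at this ⊢
    nlinarith
  -- second step: from above
  have hup : ∀ k, x k ≤ v k - (N k 0 * (0.2132 * (1 - rowN N 0) - r 0)
      + N k 1 * (0.2132 * (1 - rowN N 1) - r 1) + N k 2 * (0.2132 * (1 - rowN N 2) - r 2)) := by
    intro k
    have e := hbal k
    unfold LN at e
    have b0 := mul_le_mul_of_nonneg_left (hlow 0) (hN k 0)
    have b1 := mul_le_mul_of_nonneg_left (hlow 1) (hN k 1)
    have b2 := mul_le_mul_of_nonneg_left (hlow 2) (hN k 2)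
    linarith
  -- third step: from below
  have hlow2 : ∀ k, 0.2132 * (1 - rowN N k) - θ k * r k
      + (N k 0 * (θ 0 * r 0) + N k 1 * (θ 1 * r 1) + N k 2 * (θ 2 * r 2))
      + nn N (fun j => 0.2132 * (1 - rowN N j) - r j) k ≤ x k := by
    intro k
    have e := hbal k
    unfold LN at e
    have ev : v k = B0 - θ k * r k := rfl
    have ev0 : v 0 = B0 - θ 0 * r 0 := rfl
    have ev1 : v 1 = B0 - θ 1 * r 1 := rfl
    have ev2 : v 2 = B0 - θ 2 * r 2 := rfl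
    have u0 := hup 0
    have u1 := hup 1
    have u2 := hup 2
    rw [ev0] at u0
    rw [ev1] at u1
    rw [ev2] at u2
    have b0 := mul_le_mul_of_nonneg_left u0 (hN k 0)
    have b1 := mul_le_mul_of_nonneg_left u1 (hN k 1)
    have b2 := mul_le_mul_of_nonneg_left u2 (hN k 2)
    have h5 := hB1 k
    have hr' := rowN_eq hd k
    unfold nn
    beta_reduce
    have h6 : B0 * rowN N k = B0 * (N k 0 + N k 1 + N k 2) := by rw [hr']
    nlinarith
  have hdual : R 0 * x 0 + R 1 * x 1 + R 2 * x 2 = v 0 * H 0 + v 1 * H 1 + v 2 * H 2 := by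
    have e0 := hbal 0
    have e1 := hbal 1
    have e2 := hbal 2
    unfold LN at e0 e1 e2
    rw [← hH 0, ← hH 1, ← hH 2]
    linear_combination (H 0) * e0 + (H 1) * e1 + (H 2) * e2
  have m0 := mul_le_mul_of_nonneg_left (hlow2 0) (hR 0)
  have m1 := mul_le_mul_of_nonneg_left (hlow2 1) (hR 1)
  have m2 := mul_le_mul_of_nonneg_left (hlow2 2) (hR 2)
  have hs : ∀ m, -(r m * pp (R m + S m - qq3 N R m)) ≤
      θ m * r m * (qq3 N R m - R m - S m) := by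
    intro m
    have h1 := hr m
    have h2 := hθ0 m
    have h3 := hθ1 m
    unfold pp
    rcases le_total 0 (R m + S m - qq3 N R m) with h | h
    · rw [max_eq_left h]
      have := mul_nonneg (mul_nonneg (sub_nonneg.2 h3) h1) h
      nlinarith
    · rw [max_eq_right h, mul_zero, neg_zero]
      exact mul_nonneg (mul_nonneg h2 h1) (by linarith)
  have s0 := hs 0
  have s1 := hs 1
  have s2 := hs 2
  rw [hθ 0, hθ 1, hθ 2]
  have ev0 : v 0 = B0 - θ 0 * r 0 := rfl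
  have ev1 : v 1 = B0 - θ 1 * r 1 := rfl
  have ev2 : v 2 = B0 - θ 2 * r 2 := rfl
  rw [ev0, ev1, ev2] at hdual
  unfold pl2
  unfold qq3 at s0 s1 s2 ⊢
  linarith

end

/-- without the positive parts, `η` small -/
theorem pl2_lin {N : Fin 3 → Fin 3 → ℝ} {r R S : Fin 3 → ℝ} {η : ℝ} (hr : ∀ j, 0 ≤ r j)
    (h0 : qq3 N R 0 - R 0 - S 0 ≤ η * (R 1 + R 2)) (h1 : qq3 N R 1 - R 1 - S 1 ≤ η * (R 0 + R 2))
    (h2 : qq3 N R 2 - R 2 - S 2 ≤ η * (R 0 + R 1)) (hη : 0 ≤ η) (hR : ∀ j, 0 ≤ R j) :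
    R 0 * (0.2132 * (1 - rowN N 0) + nn N (fun j => 0.2132 * (1 - rowN N j) - r j) 0 - r 0)
    + R 1 * (0.2132 * (1 - rowN N 1) + nn N (fun j => 0.2132 * (1 - rowN N j) - r j) 1 - r 1)
    + R 2 * (0.2132 * (1 - rowN N 2) + nn N (fun j => 0.2132 * (1 - rowN N j) - r j) 2 - r 2)
    - (r 0 * (S 0 - qq3 N R 0 + η * (R 1 + R 2)) + r 1 * (S 1 - qq3 N R 1 + η * (R 0 + R 2))
      + r 2 * (S 2 - qq3 N R 2 + η * (R 0 + R 1))) ≤ pl2 N r R S := by
  have key : ∀ {u y w : ℝ}, 0 ≤ u → 0 ≤ w → -y ≤ w → u * pp y ≤ u * (y + w) := by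
    intro u y w hu hw hy
    refine mul_le_mul_of_nonneg_left ?_ hu
    exact max_le (by linarith) (by linarith)
  have k0 := key (hr 0) (mul_nonneg hη (add_nonneg (hR 1) (hR 2)))
    (show -(R 0 + S 0 - qq3 N R 0) ≤ η * (R 1 + R 2) by linarith)
  have k1 := key (hr 1) (mul_nonneg hη (add_nonneg (hR 0) (hR 2)))
    (show -(R 1 + S 1 - qq3 N R 1) ≤ η * (R 0 + R 2) by linarith)
  have k2 := key (hr 2) (mul_nonneg hη (add_nonneg (hR 0) (hR 1)))
    (show -(R 2 + S 2 - qq3 N R 2) ≤ η * (R 0 + R 1) by linarith)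
  unfold pl2
  linarith

/-- the excess of a load at a corner is small: `η ≥ Rb / (4 (1 - 3 nb / 4))` -/
theorem load_le {n m R1 R2 Rk Sk Rb nb η : ℝ} (hn : 0 ≤ n) (hm : 0 ≤ m) (h1 : 0 ≤ R1)
    (h2 : 0 ≤ R2) (h1b : R1 ≤ Rb) (h2b : R2 ≤ Rb) (hnb : n + m ≤ nb) (hnb1 : nb ≤ 1)
    (hR : (n + m) ^ 2 * (1 - (n + m) / 2) / 2 ≤ Rk)
    (hS : (n + m) ^ 2 * (1 - (n + m)) / 2 ≤ Sk)
    (hη : Rb ≤ 4 * (1 - 3 / 4 * nb) * η) :
    n * R1 + m * R2 - Rk - Sk ≤ η * (R1 + R2) := by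
  obtain ⟨M, hM1, hM2, hMb, hMs⟩ : ∃ M, R1 ≤ M ∧ R2 ≤ M ∧ M ≤ Rb ∧ M ≤ R1 + R2 :=
    ⟨max R1 R2, le_max_left _ _, le_max_right _ _, max_le h1b h2b,
      max_le (by linarith) (by linarith)⟩
  have hM0 : 0 ≤ M := h1.trans hM1
  have ht : 0 ≤ n + m := by linarith
  set t := n + m with htd
  have c0 : 0 < 1 - 3 / 4 * nb := by linarith
  have a1 : n * R1 + m * R2 ≤ t * M := by
    have := mul_le_mul_of_nonneg_left hM1 hn
    have := mul_le_mul_of_nonneg_left hM2 hm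
    rw [htd]
    linarith
  have a2 : t ^ 2 * (1 - 3 / 4 * nb) ≤ Rk + Sk := by
    have h3 : t ^ 2 * (1 - 3 / 4 * nb) ≤ t ^ 2 * (1 - 3 / 4 * t) :=
      mul_le_mul_of_nonneg_left (by linarith) (sq_nonneg t)
    have e : t ^ 2 * (1 - 3 / 4 * t) = t ^ 2 * (1 - t / 2) / 2 + t ^ 2 * (1 - t) / 2 := by ring
    linarith
  -- `4 c (t M - c t²) ≤ M²`
  have a3 : 4 * (1 - 3 / 4 * nb) * (t * M - t ^ 2 * (1 - 3 / 4 * nb)) ≤ M ^ 2 := by
    nlinarith [sq_nonneg (M - 2 * (1 - 3 / 4 * nb) * t)]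
  have a4 : M ^ 2 ≤ 4 * (1 - 3 / 4 * nb) * (η * (R1 + R2)) := by
    have h3 : M ^ 2 ≤ Rb * (R1 + R2) := by
      have := mul_le_mul hMb hMs hM0 (hM0.trans hMb)
      nlinarith
    have h4 := mul_le_mul_of_nonneg_right hη (show 0 ≤ R1 + R2 by linarith)
    linarith
  have a5 : t * M - t ^ 2 * (1 - 3 / 4 * nb) ≤ η * (R1 + R2) :=
    le_of_mul_le_mul_left (a3.trans a4) (by linarith)
  linarith

end Pool.Agent.Helper73.MEI.ArCor
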