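import Pool.Agent.Helper73.MEI.FV4

/-!
# (FV): the face of a placed body as an inequality between numbers

`Apx` = the numbers of the apex line; `face_fv`.
-/

set_option autoImplicit false

namespace Pool.Agent.Helper73.MEI.ArCor

open Set Metric MeasureTheory Helper80.CW Helper82.CW Helper14.CW Helper93.MEI Helper82.M2
open Helper14.MEI2 Pool.Agent.Helper52.MEI Pool.Agent.Helper73.MEI Helper37.MEI Helper41.MEI
open Helper33.MEI (Wi)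
open Pool.Agent.Helper55.Mass (LN vv B0 B0_ge)
open Pool.Agent.Helper55.Apex (nc)
open Pool.Agent.Helper55.ApexP (PN alP mu_bal)
open Pool.Agent.Helper73.MEI.SideP
open Pool.Agent.Helper96.Kap (kap)
open Pool.Agent.Helper31.SR
open Helper78.MEI
open Pool.Agent.Helper73.MEI.ZEl
open Helper75.MEI2 (mu vt)
open scoped RealInnerProductSpace ENNReal

/-- the numbers of the apex line `g0 - g1 T` on the range `Σ S ≤ X`, total leak at most `Tm` -/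
structure Apx (X qm Tm A' ρ r V x0 x1 g0 g1 : ℝ) : Prop where
  X3 : X ≤ 1 / 3
  Tm0 : 0 ≤ Tm
  Tm2 : Tm < 2
  TmX : 9 / 2 * X ≤ (Tm * qm) ^ 2
  r0 : 0 < r
  rX : 9 / 8 + 3 / 4 * X ≤ r ^ 2
  V0 : 0 ≤ V
  VX : 3 / 8 + X / 4 - X ^ 2 / 8 ≤ (V + (1 - X) / 2) ^ 2
  x00 : 0 ≤ x0
  x0r : x0 * r ≤ 1872 / 10000
  x1r : x0 * (5 / 4 * r + V) ≤ x1 * r
  xT : x1 * Tm ≤ x0
  phi : 22.6276 * ρ * (35 / 48 + 9 / 16 * Tm + 5 / 12 * Tm ^ 2) ^ 2 ≤ A' * (1 - Tm ^ 2 / 4)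
  line : ∀ T, 0 ≤ T → T ≤ Tm →
    22.6276 * ρ * (35 / 48 + 9 / 16 * T + 5 / 12 * T ^ 2) ^ 2 * (x0 - x1 * T) ≤
      (A' * (x0 - x1 * T) - (g0 - g1 * T)) * (1 - T ^ 2 / 4)

variable {a : Fin 4 → E3} {K : Set E3} {S : Fin 4 → ℝ} {σ : Measure (E3 × E3)}
  {c : Fin 4 → E3} {z : Fin 4 → Fin 4 → E3} {X rm qm nb ρ1 Rb gg ε k1 k12 t2 δ : ℝ}

/-- the total leak of a face -/
theorem TN_le (P : Rng X rm qm nb ρ1 Rb gg ε k1 k12 t2 δ) (h : CN K σ a c) (v : Viol K a S)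
    (hz : CV a K z) (hX : S 0 + (S 1 + S 2 + S 3) ≤ X) {Tm : ℝ} (hT0 : 0 ≤ Tm)
    (hT : 9 / 2 * X ≤ (Tm * qm) ^ 2) : TN (NM a z) ≤ Tm := by
  have key : ∀ k : Fin 3, 0 ≤ nc (NM a z) k ∧ (qm * nc (NM a z) k) ^ 2 ≤ 2 * S 0 ∧
      (qm * nc (NM a z) k) ^ 2 ≤ 2 * S k.succ := by
    intro k
    obtain ⟨f1, f2, f3, f4, f5⟩ := col_facts h v hz k
    obtain ⟨g1, -⟩ := cols P h v hz hX k
    have h1 : qm * nc (NM a z) k ≤ qM a z k * nc (NM a z) k := mul_le_mul_of_nonneg_right g1 f1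
    have h2 : 0 ≤ qm * nc (NM a z) k := mul_nonneg P.qm0.le f1
    have h3 := pow_le_pow_left₀ h2 h1 2
    exact ⟨f1, by linarith, by linarith⟩
  obtain ⟨a0, b0, c0⟩ := key 0
  obtain ⟨a1, b1, c1⟩ := key 1
  obtain ⟨a2, b2, c2⟩ := key 2
  have c0' : (qm * nc (NM a z) 0) ^ 2 ≤ 2 * S 1 := c0
  have c1' : (qm * nc (NM a z) 1) ^ 2 ≤ 2 * S 2 := c1
  have c2' : (qm * nc (NM a z) 2) ^ 2 ≤ 2 * S 3 := c2
  have hsum : (qm * TN (NM a z)) ^ 2 ≤ (qm * Tm) ^ 2 := by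
    unfold TN
    nlinarith [sq_nonneg (nc (NM a z) 0 - nc (NM a z) 1), sq_nonneg (nc (NM a z) 0 - nc (NM a z) 2),
      sq_nonneg (nc (NM a z) 1 - nc (NM a z) 2), sq_nonneg qm,
      mul_nonneg (sq_nonneg qm) (sq_nonneg (nc (NM a z) 0 - nc (NM a z) 1)),
      mul_nonneg (sq_nonneg qm) (sq_nonneg (nc (NM a z) 0 - nc (NM a z) 2)),
      mul_nonneg (sq_nonneg qm) (sq_nonneg (nc (NM a z) 1 - nc (NM a z) 2))]
  have h1 := (abs_le_of_sq_le_sq' hsum (mul_nonneg P.qm0.le hT0)).2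
  exact le_of_mul_le_mul_left h1 P.qm0

/-- **(FV)** -/
theorem face_fv [IsFiniteMeasure σ]
    (P : Rng X rm qm nb ρ1 Rb gg ε k1 k12 t2 δ)
    (h : CN K σ a c) (v : Viol K a S) (hz : CV a K z)
    (τ : Equiv.Perm (Fin 4)) (hX : S (τ 0) + (S (τ 1) + S (τ 2) + S (τ 3)) ≤ X)
    {A : ℝ} (hA : 7 / 2 ≤ A)
    {l : Fin 3 → Bool → Bool → E3 × E3 → ℝ} (hl : Lok a l)
    {δ3 dE dm : Fin 3 → ℝ} (hδ : ∀ p, MA σ a l τ p p ≤ δ3 p) (hdE : ∀ p, 0 ≤ dE p)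
    (hdm : ∀ p, 0 ≤ dm p) (hdd : ∀ p, δ3 p ^ 2 ≤ dE p * dm p)
    {ρ : ℝ} (hρ : 0 < ρ) (hMρ : ∀ p k, k ≠ p → MA σ a l τ p k ≤ ρ)
    {Tm r V x0 x1 g0 g1 : ℝ} (Q : Apx X qm Tm (A / 2 + 1 / 8) ρ r V x0 x1 g0 g1)
    {x : E3} (hx : x ∈ K) (hxs : Qv a (τ 0) x = S (τ 0) ∨ S (τ 0) = 0)
    {N : Fin 3 → Fin 3 → ℝ} (hNd : N = NM (fun i => a (τ i)) (fun i j => z (τ i) (τ j)))
    {R : Fin 3 → ℝ} (hRd : R = RM (fun i => a (τ i)) (fun i j => z (τ i) (τ j)))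
    {κ : Fin 3 → ℝ} (hκ0 : ∀ p, 0 ≤ κ p) (hκρ : ∀ p, (A / 2 + 1 / 8) * κ p ≤ ρ)
    (hκ : ∀ p, κ p ≤ Pool.Agent.Helper55.Mass.Id (fun t => kap N (vv t) p))
    {cst : ℝ}
    (hW : ∀ ζp : Fin 3 → ℝ, (∀ k, 0 < ζp k) → (∀ k, zc (fun i => a (τ i)) N x k ≤ ζp k) →
      ∀ lam, 0 ≤ lam → lam ≤ 1 - phiN (A / 2 + 1 / 8) ρ (TN N) (QN N) →
      WCost a K τ (A / 2 + 1 / 8)
        (GM (A / 2 + 1 / 8) N (zc (fun i => a (τ i)) N x) ζp lam
          (fun p t => phiN (A / 2 + 1 / 8) ρ (TN N) (QN N) * flP (PN N) p t)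
          (fun p t => kap N (vv t) p) (fun p => (A / 2 + 1 / 8) * κ p / ρ) (MB σ a l τ)
          (fun p => aE σ a l (τ 0) (τ p.succ) - dE p) R (fun k => S (τ k.succ)) (S (τ 0)))
        (DM (A / 2 + 1 / 8) N (zc (fun i => a (τ i)) N x) ζp lam
          (fun p t => phiN (A / 2 + 1 / 8) ρ (TN N) (QN N) * flP (PN N) p t)
          (fun p t => kap N (vv t) p) (fun p => (A / 2 + 1 / 8) * κ p / ρ) (MB σ a l τ)
          (fun j => 1 / qM (fun i => a (τ i)) (fun i j => z (τ i) (τ j)) j)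
          (fun p => am σ a l (τ 0) (τ p.succ) - dm p)) cst) :
    ∃ i j : Fin 3, i ≠ j ∧ ∀ g, 0 ≤ g → (g = 0 ∨ g ≤ g0 - g1 * TN N) →
      LLs σ a l (τ 0) - (dE 0 + dE 1 + dE 2)
        + corP (A / 2 + 1 / 8) N R (fun k => S (τ k.succ))
        + g * ((1 - ε) * S (τ 0) - k1 * R i - (k12 - k1) * R j)
        - arcP (A / 2 + 1 / 8) ρ κ R (fun k => S (τ k.succ)) - cst ≤ Wi a (τ 0) K σ A := by
  have h' := h.perm τ
  have v' := viol_perm v τ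
  have hz' := hz.perm τ
  have hA' : 0 < A / 2 + 1 / 8 := by linarith
  have hN : ∀ k m, 0 ≤ N k m := fun k m => by
    rw [hNd]
    exact NM_nonneg h' v' hz' k m
  have hd : ∀ k, N k k = 0 := fun k => by
    rw [hNd]
    exact NM_diag k
  have hcol : ∀ m, nc N m ≤ 9 / 10 := fun m => by
    rw [hNd]
    exact nc_le h' v' hz' m
  have hc : (9 / 10 : ℝ) < 1 := by norm_num
  have hT0 := TN_nonneg hN
  have hTm : TN N ≤ Tm := by
    rw [hNd]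
    exact TN_le P h' v' hz' hX Q.Tm0 Q.TmX
  have hT2 : TN N < 2 := lt_of_le_of_lt hTm Q.Tm2
  have hTm0 : 0 ≤ Tm := hT0.trans hTm
  have hφp := phiN_pos hA' hρ hT0 hT2 (QN_nonneg (N := N))
  have hok := fun p => phi_ok hN hd hc hcol hA' hρ.le hT2 p
  have hx1 : 0 ≤ x1 := by
    have h1 : 0 ≤ x1 * r := le_trans (by
      have := Q.x00
      have := Q.r0
      have := Q.V0
      positivity) Q.x1r
    exact nonneg_of_mul_nonneg_left h1 Q.r0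
  have hxT : 0 ≤ x0 - x1 * TN N := by
    have := mul_le_mul_of_nonneg_left hTm hx1
    linarith [Q.xT]
  have hφ1 : 22.6276 * ρ * (35 / 48 + 9 / 16 * TN N + 5 / 12 * TN N ^ 2) ^ 2 ≤
      (A / 2 + 1 / 8) * (1 - TN N ^ 2 / 4) := by
    have hTT : TN N ^ 2 ≤ Tm ^ 2 := pow_le_pow_left₀ hT0 hTm 2
    have h1 : (35 / 48 + 9 / 16 * TN N + 5 / 12 * TN N ^ 2) ^ 2 ≤
        (35 / 48 + 9 / 16 * Tm + 5 / 12 * Tm ^ 2) ^ 2 :=
      pow_le_pow_left₀ (by positivity) (by linarith) 2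
    have h2 := mul_le_mul_of_nonneg_left h1 (show 0 ≤ 22.6276 * ρ by positivity)
    have h3 : (A / 2 + 1 / 8) * (1 - Tm ^ 2 / 4) ≤ (A / 2 + 1 / 8) * (1 - TN N ^ 2 / 4) :=
      mul_le_mul_of_nonneg_left (by linarith) hA'.le
    linarith [Q.phi]
  have hgl : ∀ I, x0 - x1 * TN N ≤ I → phiN (A / 2 + 1 / 8) ρ (TN N) (QN N) ≤ 1 ∧
      g0 - g1 * TN N ≤ (A / 2 + 1 / 8) * ((1 - phiN (A / 2 + 1 / 8) ρ (TN N) (QN N)) * I) :=
    fun I hI => gline hN hA' hρ hT2 hφ1 hxT hI (Q.line _ hT0 hTm)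
  have hF : ∀ p, ρ - (A / 2 + 1 / 8) * κ p ≤ phiN (A / 2 + 1 / 8) ρ (TN N) (QN N) *
      ((A / 2 + 1 / 8) * Pool.Agent.Helper55.Mass.Id (flP (PN N) p)) := fun p => by
    have h1 := hok p
    have h2 := mul_nonneg hA'.le (hκ0 p)
    linarith
  obtain ⟨hφle, -⟩ := hgl _ le_rfl
  obtain ⟨i, j, hij, key⟩ := face_numM P h v hz τ hX hA hl hδ hdE hdm hdd hρ hMρ hx hxs hNd hRd
    hκ0 hκρ hκ hφp hφle hF
  refine ⟨i, j, hij, ?_⟩
  rcases hxs with hxs | hxs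
  · -- the apex is the highest point
    set u : Fin 3 → ℝ := b3 (fun i => a (τ i)) x with hu
    have cx := coords (a := fun i => a (τ i)) h'.ha (h'.hp x hx) (S := fun k => S (τ k.succ))
      (v'.le 1 x hx) (v'.le 2 x hx) (v'.le 3 x hx)
    have u0 : u 0 = bar (fun i => a (τ i)) 1 x := rfl
    have u1 : u 1 = bar (fun i => a (τ i)) 2 x := rfl
    have u2 : u 2 = bar (fun i => a (τ i)) 3 x := rfl
    rw [← u0, ← u1, ← u2] at cx
    have hq : Qv (fun i => a (τ i)) 0 x = S (τ 0) := hxs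
    rw [hq] at cx
    obtain ⟨cf, -, ⟨cc0, cc1, cc2⟩⟩ := cx
    have hcc : ∀ k, S (τ 0) - (fun k : Fin 3 => S (τ k.succ)) k ≤ u k + (u 0 + u 1 + u 2) - 1 := by
      intro k
      fin_cases k
      · exact cc0
      · exact cc1
      · exact cc2
    obtain ⟨ζp, z1, z2, z3⟩ := apex_X hN hd hc hcol (u := u) (S := fun k => S (τ k.succ))
      (s := S (τ 0)) (X := X) cf hcc (v.nn _) (fun k => v.nn _) hX Q.X3 Q.r0 Q.rX Q.V0 Q.VX
      Q.x00 Q.x0r Q.x1r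
    obtain ⟨-, hg⟩ := hgl _ z3
    intro g hg0 hg1
    refine key ζp z1 z2 (1 - phiN (A / 2 + 1 / 8) ρ (TN N) (QN N)) (by linarith) le_rfl g hg0 ?_
      cst (fun lam q1 q2 => hW ζp z1 z2 lam q1 q2)
    rcases hg1 with hg1 | hg1
    · rw [hg1]
      refine mul_nonneg hA'.le (mul_nonneg (by linarith) ?_)
      exact (hxT.trans z3)
    · exact hg1.trans hg
  · -- no violation at this vertex
    have hR0 : ∀ j, 0 ≤ R j := fun j => by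
      rw [hRd]
      exact RM_nonneg h' v' hz' j
    have C := cols P h' v' hz' hX
    rw [← hNd, ← hRd] at C
    have hR00 : ∀ k, R k = 0 := fun k => by
      have := (C k).2.2.1
      rw [hxs, mul_zero] at this
      exact le_antisymm this (hR0 k)
    intro g hg0 hg1
    have hz1 : ∀ k, 0 < |zc (fun i => a (τ i)) N x k| + 1 := fun k => by
      have := abs_nonneg (zc (fun i => a (τ i)) N x k)
      linarith
    have hz2 : ∀ k, zc (fun i => a (τ i)) N x k ≤ |zc (fun i => a (τ i)) N x k| + 1 := fun k => by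
      have := le_abs_self (zc (fun i => a (τ i)) N x k)
      linarith
    have key' := key (fun k => |zc (fun i => a (τ i)) N x k| + 1) hz1 hz2 0 le_rfl (by linarith)
      0 le_rfl (by simp) cst (fun lam q1 q2 => hW _ hz1 hz2 lam q1 (q2.trans (by linarith)))
    rw [hR00 i, hR00 j, hxs] at key' ⊢
    linarith

end Pool.Agent.Helper73.MEI.ArCor
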