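import Pool.Agent.Helper73.MEI.FS1
import Pool.Agent.Helper73.MEI.Dir

/-!
# The face of a placed body, large ranges

`Rn` = the numbers of a range without the bound of the sum of the three columns; `colsN`,
`zeta_bodyN`, `face_numT`, `dir_colsN`.
-/

set_option autoImplicit false

namespace Pool.Agent.Helper73.MEI.ArCor

open Set Metric MeasureTheory Helper80.CW Helper82.CW Helper14.CW Helper93.MEI Helper82.M2
open Helper14.MEI2 Pool.Agent.Helper52.MEI Pool.Agent.Helper73.MEI Helper37.MEI Helper41.MEI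
open Helper33.MEI (Wi)
open Pool.Agent.Helper55.Sx (Sim)
open Pool.Agent.Helper55.Mass (LN vv vv_nonneg B0 B0_ge)
open Pool.Agent.Helper55.Apex (nc)
open Pool.Agent.Helper55.ApexP (PN alP alP_nonneg alP_zeta mu_bal)
open Pool.Agent.Helper55.Fill (xx rr)
open Pool.Agent.Helper73.MEI.SideP (flP flP_meas flP_nonneg flP_zero flP_pair)
open Pool.Agent.Helper96.Kap (kap kap_nonneg kap_meas kap_le_one kap_add)
open Pool.Agent.Helper31.SR
open Helper78.MEI
open Pool.Agent.Helper73.MEI.ZEl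
open Helper75.MEI2 (mu vt)
open scoped RealInnerProductSpace ENNReal

/-- the numbers of a range `Σ S ≤ X`, columns below `1` -/
structure Rn (X rm qm nb ρ1 Rb gg ε k1 k12 t2 δ : ℝ) : Prop where
  X1 : X ≤ 1
  rm0 : 0 ≤ rm
  rmX : X / 2 ≤ rm ^ 2
  qm0 : 0 < qm
  qmr : qm ≤ 1 - rm * 0.707107
  nb0 : 0 ≤ nb
  nbq : 1.414214 * rm ≤ nb * qm
  nb1 : nb ≤ 99 / 100
  ρq : 1 ≤ ρ1 * qm
  Rbq : X / 2 ≤ Rb * qm
  gg0 : 0 ≤ gg
  gR : Rb ≤ 2 * qm * gg * (1 - nb ^ 2)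
  k1X : 1 + X / 4 ≤ k1
  k12X : 3 / 2 * (1 + X) ≤ k12 ^ 2
  k12k : k1 ≤ k12
  t21 : 1 ≤ t2
  t2X : 3 / 2 + X ≤ t2 ^ 2
  δt : (t2 - 1 + X) / 2 ≤ δ
  hε : (k12 * nb + δ) * (gg * ρ1) ≤ ε * (1 - nb * gg)
  ng : nb * gg < 1

variable {a : Fin 4 → E3} {K : Set E3} {S : Fin 4 → ℝ} {σ : Measure (E3 × E3)}
  {c : Fin 4 → E3} {z : Fin 4 → Fin 4 → E3} {X rm qm nb ρ1 Rb gg ε k1 k12 t2 δ : ℝ}

theorem Rng.rn (P : Rng X rm qm nb ρ1 Rb gg ε k1 k12 t2 δ) :
    Rn X rm qm nb ρ1 Rb gg ε k1 k12 t2 δ :=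
  ⟨P.X1, P.rm0, P.rmX, P.qm0, P.qmr, P.nb0, P.nbq, by linarith [P.nb3, P.nb0], P.ρq, P.Rbq,
    P.gg0, P.gR, P.k1X, P.k12X, P.k12k, P.t21, P.t2X, P.δt, P.hε, P.ng⟩

/-- **the numbers of the columns of the face of the vertex `0`** -/
theorem colsN (P : Rn X rm qm nb ρ1 Rb gg ε k1 k12 t2 δ) (h : CN K σ a c) (v : Viol K a S)
    (hz : CV a K z) (hX : S 0 + (S 1 + S 2 + S 3) ≤ X) (k : Fin 3) :
    qm ≤ qM a z k ∧ nc (NM a z) k ≤ nb ∧ RM a z k ≤ ρ1 * S 0 ∧ RM a z k ≤ Rb ∧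
    qm * nc (NM a z) k ^ 2 / 2 ≤ RM a z k ∧
    nc (NM a z) k ^ 2 * (1 - nc (NM a z) k / 2) / 2 ≤ RM a z k ∧
    nc (NM a z) k ^ 2 ≤ 2 * S 0 * (1 + nc (NM a z) k / 2) ^ 2 ∧
    nc (NM a z) k ^ 2 ≤ 2 * S k.succ * (1 + nc (NM a z) k / 2) ^ 2 ∧
    nc (NM a z) k ^ 2 * (1 - nc (NM a z) k) / 2 ≤ S 0 ∧
    nc (NM a z) k ^ 2 * (1 - nc (NM a z) k) / 2 ≤ S k.succ := by
  obtain ⟨f1, f2, f3, f4, f5⟩ := col_facts h v hz k
  have s0 := v.nn 0
  have s1 := v.nn 1
  have s2 := v.nn 2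
  have s3 := v.nn 3
  have hk2 : S 0 + S k.succ ≤ X := by
    fin_cases k
    · show S 0 + S 1 ≤ X
      linarith
    · show S 0 + S 2 ≤ X
      linarith
    · show S 0 + S 3 ≤ X
      linarith
  have hr : ‖z 0 k.succ‖ ^ 2 ≤ X / 2 := by linarith
  have hq := qM_low h hz k P.rm0 (hr.trans P.rmX)
  have hq' : qm ≤ qM a z k := P.qmr.trans hq
  have hqp : 0 < qM a z k := P.qm0.trans_le hq'
  obtain ⟨c1, c2, c3, c4⟩ := col_num f1 hqp f2 f3
  have hn : nc (NM a z) k ≤ nb := by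
    have e1 : (qM a z k * nc (NM a z) k) ^ 2 ≤ (1.414214 * rm) ^ 2 := by
      have := P.rmX
      nlinarith [sq_nonneg rm]
    have e2 : qM a z k * nc (NM a z) k ≤ 1.414214 * rm :=
      (abs_le_of_sq_le_sq' e1 (by have := P.rm0; positivity)).2
    have e3 : nb * qm ≤ nb * qM a z k := mul_le_mul_of_nonneg_left hq' P.nb0
    have e4 : nc (NM a z) k * qM a z k ≤ nb * qM a z k := by
      have := P.nbq
      linarith
    exact le_of_mul_le_mul_right e4 hqp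
  have hR : RM a z k = ‖z 0 k.succ‖ ^ 2 / qM a z k := rfl
  have hρ0 : 0 ≤ ρ1 := by
    by_contra hneg
    have := mul_neg_of_neg_of_pos (not_le.1 hneg) P.qm0
    linarith [P.ρq]
  refine ⟨hq', hn, ?_, ?_, ?_, ?_, ?_, ?_, c2.trans f4, c2.trans f5⟩
  · rw [hR, div_le_iff₀ hqp]
    have e1 : 1 ≤ ρ1 * qM a z k := P.ρq.trans (mul_le_mul_of_nonneg_left hq' hρ0)
    have e2 := mul_le_mul_of_nonneg_right e1 s0
    linarith
  · rw [hR, div_le_iff₀ hqp]
    have hRb0 : 0 ≤ Rb := by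
      by_contra hneg
      have := mul_neg_of_neg_of_pos (not_le.1 hneg) P.qm0
      have : 0 ≤ X := by linarith [v.nn k.succ]
      linarith [P.Rbq]
    have e1 : Rb * qm ≤ Rb * qM a z k := mul_le_mul_of_nonneg_left hq' hRb0
    linarith [P.Rbq]
  · rw [hR]
    refine le_trans ?_ c4
    have := mul_le_mul_of_nonneg_right hq' (sq_nonneg (nc (NM a z) k))
    linarith
  · rw [hR]
    exact c3
  · refine c1.trans ?_
    have := mul_le_mul_of_nonneg_right f4 (sq_nonneg (1 + nc (NM a z) k / 2))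
    linarith
  · refine c1.trans ?_
    have := mul_le_mul_of_nonneg_right f5 (sq_nonneg (1 + nc (NM a z) k / 2))
    linarith

/-- the contact value of the highest point of a placed body -/
theorem zeta_bodyN (P : Rn X rm qm nb ρ1 Rb gg ε k1 k12 t2 δ)
    (h : CN K σ a c) (v : Viol K a S) (hz : CV a K z)
    (τ : Equiv.Perm (Fin 4)) (hX : S (τ 0) + (S (τ 1) + S (τ 2) + S (τ 3)) ≤ X)
    {x : E3} (hx : x ∈ K) (hxs : Qv a (τ 0) x = S (τ 0))
    {N : Fin 3 → Fin 3 → ℝ} (hNd : N = NM (fun i => a (τ i)) (fun i j => z (τ i) (τ j)))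
    {R : Fin 3 → ℝ} (hR0 : ∀ k, 0 ≤ R k)
    (hRd : ∀ k, R k ≤ RM (fun i => a (τ i)) (fun i j => z (τ i) (τ j)) k)
    (hRl : ∀ k, qm * nc N k ^ 2 / 2 ≤ R k)
    {H : Fin 3 → ℝ} (hH : ∀ j, H j + (N 0 j * H 0 + N 1 j * H 1 + N 2 j * H 2) = R j) :
    ∃ i j : Fin 3, i ≠ j ∧
      zc (fun i => a (τ i)) N x 0 * R 0 + zc (fun i => a (τ i)) N x 1 * R 1
        + zc (fun i => a (τ i)) N x 2 * R 2 ≤
      k1 * R i + (k12 - k1) * R j + ε * S (τ 0) := by
  have h' := h.perm τ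
  have v' := viol_perm v τ
  have hz' := hz.perm τ
  have hN : ∀ k m, 0 ≤ N k m := fun k m => by
    rw [hNd]
    exact NM_nonneg h' v' hz' k m
  have hd : ∀ k, N k k = 0 := fun k => by
    rw [hNd]
    exact NM_diag k
  have hcol : ∀ m, nc N m ≤ 9 / 10 := fun m => by
    rw [hNd]
    exact nc_le h' v' hz' m
  have hc : (9 / 10 : ℝ) < 1 := by norm_num
  have C := colsN P h' v' hz' hX
  rw [← hNd] at C
  set u : Fin 3 → ℝ := b3 (fun i => a (τ i)) x with hu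
  have cx := coords (a := fun i => a (τ i)) h'.ha (h'.hp x hx) (S := fun k => S (τ k.succ))
    (v'.le 1 x hx) (v'.le 2 x hx) (v'.le 3 x hx)
  have u0 : u 0 = bar (fun i => a (τ i)) 1 x := rfl
  have u1 : u 1 = bar (fun i => a (τ i)) 2 x := rfl
  have u2 : u 2 = bar (fun i => a (τ i)) 3 x := rfl
  rw [← u0, ← u1, ← u2] at cx
  have hq : Qv (fun i => a (τ i)) 0 x = S (τ 0) := hxs
  rw [hq] at cx
  obtain ⟨cf, ⟨cu0, cu1, cu2⟩, ⟨cc0, cc1, cc2⟩⟩ := cx
  have s0 : 0 ≤ S (τ 0) := v.nn _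
  have s1 : 0 ≤ S (τ 1) := v.nn _
  have s2 : 0 ≤ S (τ 2) := v.nn _
  have s3 : 0 ≤ S (τ 3) := v.nn _
  have hu' : ∀ k, u k + (u 0 + u 1 + u 2) ≤ 2 := by
    intro k
    fin_cases k
    · exact cu0
    · exact cu1
    · exact cu2
  have hcc : ∀ k, S (τ 0) - (fun k : Fin 3 => S (τ k.succ)) k ≤ u k + (u 0 + u 1 + u 2) - 1 := by
    intro k
    fin_cases k
    · exact cc0
    · exact cc1
    · exact cc2
  have hS3 : ∀ k, 0 ≤ (fun k : Fin 3 => S (τ k.succ)) k := fun k => v.nn _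
  have hX0 : 0 ≤ X := by linarith
  have hk10 : 0 ≤ k1 := by linarith [P.k1X]
  obtain ⟨g1, g2, g3⟩ := pos_parts (u := u) (S := fun k => S (τ k.succ)) (s := S (τ 0)) (X := X)
    (t3 := k12) cf hu' hcc s0 hS3 hX P.X1 (by linarith [P.k12k]) P.k12X
  have g4 := neg_parts (u := u) (S := fun k => S (τ k.succ)) (s := S (τ 0)) (X := X)
    (t2 := t2) (δ := δ) cf hu' hcc s0 hS3 hX P.X1 P.t21 P.t2X P.δt
  have hζ : ∀ k, zc (fun i => a (τ i)) N x k + LN N (zc (fun i => a (τ i)) N x) k = u k :=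
    fun k => mu_bal hN hd hc hcol u k
  exact zeta_le hN (R := R) (H := H) (ζ := zc (fun i => a (τ i)) N x) (u := u) (s := S (τ 0))
    (ρ1 := ρ1) (Rb := Rb) (κ := qm) (nb := nb) (g := gg) (k1 := k1) (k2 := k12 - k1)
    (δ := δ) (ε := ε) hH hζ hR0 (fun k => (hRd k).trans (C k).2.2.1)
    (fun k => (hRd k).trans (C k).2.2.2.1) P.qm0 hRl (fun k => (C k).2.1) P.nb0
    (by linarith [P.nb1]) P.gR P.gg0 P.ng s0 hk10 (by linarith [P.k12k])
    (fun k => (g1 k).trans P.k1X) (fun j k hjk => (g2 j k hjk).trans (by linarith))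
    (g3.trans (by linarith)) g4 (by
      have := P.hε
      have e : k1 + (k12 - k1) = k12 := by ring
      rw [e]
      exact this)

/-- `face_numS` for large ranges -/
theorem face_numT [IsFiniteMeasure σ]
    (P : Rn X rm qm nb ρ1 Rb gg ε k1 k12 t2 δ)
    (h : CN K σ a c) (v : Viol K a S) (hz : CV a K z)
    (τ : Equiv.Perm (Fin 4)) (hX : S (τ 0) + (S (τ 1) + S (τ 2) + S (τ 3)) ≤ X)
    {A : ℝ} (hA : 7 / 2 ≤ A)
    {l : Fin 3 → Bool → Bool → E3 × E3 → ℝ} (hl : Lok a l)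
    {δ3 dE dm : Fin 3 → ℝ} (hδ : ∀ p, MA σ a l τ p p ≤ δ3 p) (hdE : ∀ p, 0 ≤ dE p)
    (hdm : ∀ p, 0 ≤ dm p) (hdd : ∀ p, δ3 p ^ 2 ≤ dE p * dm p)
    {ρ : Fin 3 → ℝ} (hρ : ∀ p, 0 < ρ p) (hMρ : ∀ p k, k ≠ p → MA σ a l τ p k ≤ ρ p)
    {x : E3} (hx : x ∈ K) (hxs : Qv a (τ 0) x = S (τ 0) ∨ S (τ 0) = 0)
    {N : Fin 3 → Fin 3 → ℝ} (hNd : N = NM (fun i => a (τ i)) (fun i j => z (τ i) (τ j)))
    {R : Fin 3 → ℝ} (hR0 : ∀ k, 0 ≤ R k)
    (hRd : ∀ k, R k ≤ RM (fun i => a (τ i)) (fun i j => z (τ i) (τ j)) k)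
    (hRl : ∀ k, qm * nc N k ^ 2 / 2 ≤ R k)
    {κ : Fin 3 → ℝ} (hκ0 : ∀ p, 0 ≤ κ p) (hκρ : ∀ p, (A / 2 + 1 / 8) * κ p ≤ ρ p)
    (hκ : ∀ p, κ p ≤ Pool.Agent.Helper55.Mass.Id (fun t => kap N (vv t) p))
    {φ : ℝ} (hφ0 : 0 < φ) (hφ1 : φ ≤ 1)
    (hF : ∀ p, ρ p - (A / 2 + 1 / 8) * κ p ≤
      φ * ((A / 2 + 1 / 8) * Pool.Agent.Helper55.Mass.Id (flP (PN N) p)))
    {r : Fin 3 → ℝ} (hr : ∀ k, Pool.Agent.Helper55.Mass.Id (fun t => rr N (vv t) k) ≤ r k)
    {H : Fin 3 → ℝ} (hH : ∀ j, H j + (N 0 j * H 0 + N 1 j * H 1 + N 2 j * H 2) = R j) :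
    ∃ i j : Fin 3, i ≠ j ∧ ∀ ζp : Fin 3 → ℝ, (∀ k, 0 < ζp k) →
      (∀ k, zc (fun i => a (τ i)) N x k ≤ ζp k) → ∀ lamM, 0 ≤ lamM → lamM ≤ 1 - φ →
      ∀ g, 0 ≤ g → g ≤ (A / 2 + 1 / 8) * (lamM * Pool.Agent.Helper55.Mass.Id (alP N ζp)) →
      ∀ cst, (∀ lam, 0 ≤ lam → lam ≤ lamM → WCost a K τ (A / 2 + 1 / 8)
        (GM (A / 2 + 1 / 8) N (zc (fun i => a (τ i)) N x) ζp lam (fun p t => φ * flP (PN N) p t)
          (fun p t => kap N (vv t) p) (fun p => (A / 2 + 1 / 8) * κ p / ρ p) (MB σ a l τ)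
          (fun p => aE σ a l (τ 0) (τ p.succ) - dE p) R (fun k => S (τ k.succ)) (S (τ 0)))
        (DM (A / 2 + 1 / 8) N (zc (fun i => a (τ i)) N x) ζp lam (fun p t => φ * flP (PN N) p t)
          (fun p t => kap N (vv t) p) (fun p => (A / 2 + 1 / 8) * κ p / ρ p) (MB σ a l τ)
          (fun j => 1 / qM (fun i => a (τ i)) (fun i j => z (τ i) (τ j)) j)
          (fun p => Pool.Agent.Helper31.SR.am σ a l (τ 0) (τ p.succ) - dm p)) cst) →
      LLs σ a l (τ 0) - (dE 0 + dE 1 + dE 2)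
        + (A / 2 + 1 / 8) * (B0 * (H 0 + H 1 + H 2)
          - (r 0 * max (S (τ 1) + H 0) 0 + r 1 * max (S (τ 2) + H 1) 0
            + r 2 * max (S (τ 3) + H 2) 0))
        + g * ((1 - ε) * S (τ 0) - k1 * R i - (k12 - k1) * R j)
        - arcS (A / 2 + 1 / 8) ρ κ R (fun k => S (τ k.succ)) - cst ≤ Wi a (τ 0) K σ A := by
  have h' := h.perm τ
  have v' := viol_perm v τ
  have hz' := hz.perm τ
  have hA' : 0 < A / 2 + 1 / 8 := by linarith
  have hN : ∀ k m, 0 ≤ N k m := fun k m => by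
    rw [hNd]
    exact NM_nonneg h' v' hz' k m
  have hd : ∀ k, N k k = 0 := fun k => by
    rw [hNd]
    exact NM_diag k
  have hcol : ∀ m, nc N m ≤ 9 / 10 := fun m => by
    rw [hNd]
    exact nc_le h' v' hz' m
  have hc : (9 / 10 : ℝ) < 1 := by norm_num
  have hβ0 : ∀ p, 0 ≤ (A / 2 + 1 / 8) * κ p / ρ p := fun p =>
    div_nonneg (mul_nonneg hA'.le (hκ0 p)) (hρ p).le
  have hβ1 : ∀ p, (A / 2 + 1 / 8) * κ p / ρ p ≤ 1 := fun p => (div_le_one (hρ p)).2 (hκρ p)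
  have hβρ : ∀ p, (A / 2 + 1 / 8) * κ p / ρ p * ρ p = (A / 2 + 1 / 8) * κ p := fun p =>
    div_mul_cancel₀ _ (hρ p).ne'
  have hK : ∀ p, (A / 2 + 1 / 8) * κ p / ρ p * ρ p ≤
      (A / 2 + 1 / 8) * Pool.Agent.Helper55.Mass.Id (fun t => kap N (vv t) p) := fun p => by
    rw [hβρ]
    exact mul_le_mul_of_nonneg_left (hκ p) hA'.le
  have hpp : ∀ p : Fin 3, ∀ r s : ℝ, ρ p * pp ((1 - (A / 2 + 1 / 8) * κ p / ρ p) * r
      - (A / 2 + 1 / 8) * κ p / ρ p * s) = pp (ρ p * r - (A / 2 + 1 / 8) * κ p * (r + s)) := by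
    intro p r s
    unfold pp
    rw [mul_max_of_nonneg _ _ (hρ p).le, mul_zero]
    congr 1
    have := hβρ p
    have e : ρ p * ((1 - (A / 2 + 1 / 8) * κ p / ρ p) * r - (A / 2 + 1 / 8) * κ p / ρ p * s) =
      ρ p * r - (A / 2 + 1 / 8) * κ p / ρ p * ρ p * (r + s) := by ring
    rw [e, this]
  have hF0 : ∀ p, 0 < Pool.Agent.Helper55.Mass.Id (flP (PN N) p) := fun p => by
    have h1 := Pool.Agent.Helper73.MEI.SideP.flN_mass hN hd hc hcol p
    have h2 := Pool.Agent.Helper55.ApexP.PN_det_pos hN hd hc hcol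
    have h3 := Pool.Agent.Helper73.MEI.SideP.mbN_ge hN p
    refine lt_of_lt_of_le ?_ h1
    have h4 : 0 < Pool.Agent.Helper73.MEI.SideP.mbN N p := by linarith
    positivity
  have eI : ∀ p, Pool.Agent.Helper55.Mass.Id (fun t => φ * flP (PN N) p t) =
      φ * Pool.Agent.Helper55.Mass.Id (flP (PN N) p) := fun p =>
    Pool.Agent.Helper55.Mass.Id_const φ _
  have hb : ∀ k, b3 (fun i => a (τ i)) x k ≤ zc (fun i => a (τ i)) N x k
      + LN N (zc (fun i => a (τ i)) N x) k := fun k =>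
    (mu_bal hN hd hc hcol (b3 (fun i => a (τ i)) x) k).ge
  -- the general instance
  have main : ∀ ζp : Fin 3 → ℝ, (∀ k, 0 < ζp k) →
      (∀ k, zc (fun i => a (τ i)) N x k ≤ ζp k) → ∀ lamM, 0 ≤ lamM → lamM ≤ 1 - φ →
      ∀ g, 0 ≤ g → g ≤ (A / 2 + 1 / 8) * (lamM * Pool.Agent.Helper55.Mass.Id (alP N ζp)) →
      ∀ cst, (∀ lam, 0 ≤ lam → lam ≤ lamM → WCost a K τ (A / 2 + 1 / 8)
        (GM (A / 2 + 1 / 8) N (zc (fun i => a (τ i)) N x) ζp lam (fun p t => φ * flP (PN N) p t)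
          (fun p t => kap N (vv t) p) (fun p => (A / 2 + 1 / 8) * κ p / ρ p) (MB σ a l τ)
          (fun p => aE σ a l (τ 0) (τ p.succ) - dE p) R (fun k => S (τ k.succ))
          (Qv a (τ 0) x))
        (DM (A / 2 + 1 / 8) N (zc (fun i => a (τ i)) N x) ζp lam (fun p t => φ * flP (PN N) p t)
          (fun p t => kap N (vv t) p) (fun p => (A / 2 + 1 / 8) * κ p / ρ p) (MB σ a l τ)
          (fun j => 1 / qM (fun i => a (τ i)) (fun i j => z (τ i) (τ j)) j)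
          (fun p => Pool.Agent.Helper31.SR.am σ a l (τ 0) (τ p.succ) - dm p)) cst) →
      LLs σ a l (τ 0) - (dE 0 + dE 1 + dE 2)
        + (A / 2 + 1 / 8) * (B0 * (H 0 + H 1 + H 2)
          - (r 0 * max (S (τ 1) + H 0) 0 + r 1 * max (S (τ 2) + H 1) 0
            + r 2 * max (S (τ 3) + H 2) 0))
        + g * (Qv a (τ 0) x - (zc (fun i => a (τ i)) N x 0 * R 0
          + zc (fun i => a (τ i)) N x 1 * R 1 + zc (fun i => a (τ i)) N x 2 * R 2))
        - arcS (A / 2 + 1 / 8) ρ κ R (fun k => S (τ k.succ)) - cst ≤ Wi a (τ 0) K σ A := by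
    intro ζp hζp hζle lamM hl0 hl1 g hg0 hg cst hW
    have key := Helper46.MEI.face_HGMR h v hz τ hA hl hδ hdE hdm hdd hρ hMρ hx hNd hRd
      (ζ := zc (fun i => a (τ i)) N x) hζp hζle hb
      (lamM := lamM) hl0
      (hf := fun p t => φ * flP (PN N) p t)
      (fun p => (flP_meas p).const_mul _)
      (fun p t => mul_nonneg hφ0.le (flP_nonneg p t))
      (fun p t ht => by
        show φ * flP (PN N) p t = 0
        rw [flP_zero (by push Not at ht; exact ht) p, mul_zero])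
      (fun t ht k => by
        obtain ⟨p0, p1, p2⟩ := flP_pair (P := PN N) ht
        have hx := ht k
        have ha := mul_le_mul_of_nonneg_left (alP_zeta hζp ht k) hl0
        have ha2 := mul_le_mul_of_nonneg_right hl1 (ht k)
        have hfk : (flP (PN N) 0 t + flP (PN N) 1 t + flP (PN N) 2 t) - flP (PN N) k t ≤
            mu (PN N) (vt t) k := by
          fin_cases k
          · simp only [Fin.zero_eta]
            linarith
          · simp only [Fin.mk_one]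
            linarith
          · simp only [Fin.reduceFinMk]
            linarith
        have hfk' := mul_le_mul_of_nonneg_left hfk hφ0.le
        linarith)
      (κ := fun p t => kap N (vv t) p)
      (fun p => kap_meas hN hc hcol p)
      (fun p t ht => kap_nonneg hN hc hcol (fun k => vv_nonneg ht k) p)
      (Ck := 1) (fun p t ht => kap_le_one hN hc hcol ht p)
      (fun t ht k => by
        have hbv := fun k => vv_nonneg ht k
        fin_cases k
        · have := kap_add hN hc hcol hbv (j := 1) (l := 2) (k := 0) (by decide) (by decide)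
            (by decide)
          simp only [Fin.zero_eta]
          linarith
        · have := kap_add hN hc hcol hbv (j := 0) (l := 2) (k := 1) (by decide) (by decide)
            (by decide)
          simp only [Fin.mk_one]
          linarith
        · have := kap_add hN hc hcol hbv (j := 0) (l := 1) (k := 2) (by decide) (by decide)
            (by decide)
          simp only [Fin.reduceFinMk]
          linarith)
      hβ0 hβ1 hK
      (fun p => by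
        rw [eI]
        exact mul_pos hφ0 (hF0 p))
      (fun p => by
        rw [eI, sub_mul, hβρ, one_mul]
        have := hF p
        linarith)
      (r := r) hr hH hg0 hg hW
    have t1 := hpp 0 (R 1) (S (τ 2))
    have t2 := hpp 0 (R 2) (S (τ 3))
    have t3 := hpp 1 (R 0) (S (τ 1))
    have t4 := hpp 1 (R 2) (S (τ 3))
    have t5 := hpp 2 (R 0) (S (τ 1))
    have t6 := hpp 2 (R 1) (S (τ 2))
    have e1 : τ (Fin.succ 0) = τ 1 := rfl
    have e2 : τ (Fin.succ 1) = τ 2 := rfl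
    have e3 : τ (Fin.succ 2) = τ 3 := rfl
    unfold arcS
    beta_reduce
    rw [e1, e2, e3]
    rw [← t1, ← t2, ← t3, ← t4, ← t5, ← t6]
    linarith only [key]
  rcases hxs with hxs | hxs
  · obtain ⟨i, j, hij, hU⟩ := zeta_bodyN P h v hz τ hX hx hxs hNd hR0 hRd hRl hH
    refine ⟨i, j, hij, fun ζp hζp hζle lamM hl0 hl1 g hg0 hg cst hW => ?_⟩
    have m := main ζp hζp hζle lamM hl0 hl1 g hg0 hg cst (fun lam q1 q2 => by
      rw [hxs]
      exact hW lam q1 q2)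
    rw [hxs] at m
    have hU' := mul_le_mul_of_nonneg_left hU hg0
    linarith
  · have C := colsN P h' v' hz' hX
    rw [← hNd] at C
    have hR00 : ∀ k, R k = 0 := fun k => by
      have := (C k).2.2.1
      rw [hxs, mul_zero] at this
      exact le_antisymm ((hRd k).trans this) (hR0 k)
    refine ⟨0, 1, by decide, fun ζp hζp hζle lamM hl0 hl1 g hg0 hg cst hW => ?_⟩
    have m := main ζp hζp hζle 0 le_rfl (by linarith) 0 le_rfl (by simp) cst
      (fun lam q1 q2 => by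
        have e : lam = 0 := le_antisymm q2 q1
        have hw := hW 0 le_rfl hl0
        rw [e, GM_zero _ N _ ζp (zc (fun i => a (τ i)) N x) ζp _ _ _ _ _ _ _
          (Qv a (τ 0) x) (S (τ 0))]
        exact hw)
    rw [hR00 0, hR00 1, hxs]
    rw [zero_mul] at m
    linarith

/-- a placed column with direction, `T` = upper bound of the column -/
theorem dir_colsN (h : CN K σ a c) (v : Viol K a S) (hz : CV a K z) {k j l : Fin 3}
    (hkj : k ≠ j) (hkl : k ≠ l) (hjl : j ≠ l) {T : ℝ} (hT : NM a z j k + NM a z l k ≤ T) :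
    dq (NM a z j k) (NM a z l k) / (1 + T / 2) ≤ RM a z k ∧
    dq (NM a z j k) (NM a z l k) / (1 + T / 2) ^ 2 ≤ S 0 ∧
    dq (NM a z j k) (NM a z l k) / (1 + T / 2) ^ 2 ≤ S k.succ := by
  obtain ⟨f1, f2, f3, f4, f5⟩ := col_facts h v hz k
  obtain ⟨d1, d2⟩ := dir_facts h v hz hkj hkl hjl
  have hN1 := NM_nonneg h v hz j k
  have hN2 := NM_nonneg h v hz l k
  have hT0 : 0 ≤ T := by linarith
  have hqp : 0 < qM a z k := by
    by_contra hneg
    have := mul_nonpos_of_nonpos_of_nonneg (not_lt.1 hneg)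
      (show 0 ≤ 1 + (NM a z j k + NM a z l k) / 2 by linarith)
    linarith
  have hdd : 0 ≤ dq (NM a z j k) (NM a z l k) := by
    unfold dq
    positivity
  have h1 : 1 ≤ qM a z k * (1 + T / 2) := by
    have := mul_le_mul_of_nonneg_left (show 1 + (NM a z j k + NM a z l k) / 2 ≤ 1 + T / 2 by
      linarith) hqp.le
    linarith
  have hp : 0 < 1 + T / 2 := by linarith
  have e2 : dq (NM a z j k) (NM a z l k) / (1 + T / 2) ^ 2 ≤ ‖z 0 k.succ‖ ^ 2 := by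
    rw [div_le_iff₀ (by positivity)]
    have h5 : 1 ≤ (qM a z k * (1 + T / 2)) ^ 2 := by
      have := pow_le_pow_left₀ (show (0 : ℝ) ≤ 1 by norm_num) h1 2
      linarith
    have h6 := mul_le_mul_of_nonneg_left h5 hdd
    have h7 := mul_le_mul_of_nonneg_right d2 (sq_nonneg (1 + T / 2))
    nlinarith
  refine ⟨?_, e2.trans f4, e2.trans f5⟩
  have hR : RM a z k = ‖z 0 k.succ‖ ^ 2 / qM a z k := rfl
  rw [hR, div_le_div_iff₀ hp hqp]
  have h6 := mul_le_mul_of_nonneg_left h1 (mul_nonneg hdd hqp.le)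
  have h7 := mul_le_mul_of_nonneg_right d2 hp.le
  nlinarith

end Pool.Agent.Helper73.MEI.ArCor
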