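import Pool.Agent.Helper73.MEI.FV5

/-!
# The arithmetic of a face without strips, small range

`scal` = one face in scalars; `num_low` = the value of a face from below by a quadratic form of the
four violations; `sum_quad` = the sum of the four faces.
-/

set_option autoImplicit false

namespace Pool.Agent.Helper73.MEI.ArCor

open Pool.Agent.Helper55.Apex (nc)
open Pool.Agent.Helper73.MEI.SideP
open Helper93.MEI

/-- one column -/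
theorem colq {C μ K L t : ℝ} (h : 1 ≤ 4 * (C * μ) * K) (hC : 0 < C * μ) :
    -(K * L ^ 2) ≤ C * μ * t ^ 2 - L * t := by
  have h1 : 0 ≤ (2 * (C * μ) * t - L) ^ 2 := sq_nonneg _
  have h2 : L ^ 2 ≤ 4 * (C * μ) * K * L ^ 2 := by
    have := mul_le_mul_of_nonneg_right h (sq_nonneg L)
    linarith
  have h3 : 4 * (C * μ) * -(K * L ^ 2) ≤ 4 * (C * μ) * (C * μ * t ^ 2 - L * t) := by nlinarith
  exact le_of_mul_le_mul_left h3 (by positivity)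

/-- value of a node against its column -/
theorem mcol {t R nb c C : ℝ} (htn : t ≤ nb) (hR : t ^ 2 * (1 - t / 2) / 2 ≤ R)
    (hc : C ≤ c) (hC : 0 ≤ C) (hnb : nb ≤ 1) : C * ((1 - nb / 2) / 2) * t ^ 2 ≤ c * R := by
  have h1 : (1 - nb / 2) / 2 * t ^ 2 ≤ R := by
    have : t ^ 2 * (1 - nb / 2) ≤ t ^ 2 * (1 - t / 2) :=
      mul_le_mul_of_nonneg_left (by linarith) (sq_nonneg t)
    linarith
  have hR0 : 0 ≤ R := le_trans (mul_nonneg (by linarith) (sq_nonneg t)) h1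
  have h2 := mul_le_mul_of_nonneg_left h1 hC
  have h3 := mul_le_mul_of_nonneg_right hc hR0
  linarith

/-- the leaks of a face with the violations -/
def lkS (N : Fin 3 → Fin 3 → ℝ) (S : Fin 3 → ℝ) (s : ℝ) : ℝ :=
  (N 0 1 + N 1 0) * (s + S 0 + S 1) + (N 0 2 + N 2 0) * (s + S 0 + S 2)
    + (N 1 2 + N 2 1) * (s + S 1 + S 2)

/-- **one face in scalars**: `a1, a2` the leaks of the node `i` on `j, l`; `b1, b2` of `j` on
`i, l`; `d1, d2` of `l` on `i, j` -/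
theorem scal {A ρ g0 g1 k1 k2 ε nb Tm w3 C1 C2 K1 K2 s Si Sj Sl Ri Rj Rl a1 a2 b1 b2 d1 d2 : ℝ}
    (ha1 : 0 ≤ a1) (ha2 : 0 ≤ a2) (hb1 : 0 ≤ b1) (hb2 : 0 ≤ b2) (hd1 : 0 ≤ d1) (hd2 : 0 ≤ d2)
    (hA : 0 ≤ A) (hg1 : 0 ≤ g1) (hk1 : A * 0.2132 ≤ k1 * g1)
    (hk2g : k2 * g1 ≤ A * 0.2132)
    (hε0 : 0 ≤ ε) (hnb : nb ≤ 1) (hw3A : w3 ≤ A * 0.0933)
    (hC1 : C1 ≤ A * 0.2132 - 2 * ρ - k1 * g0) (hC10 : 0 < C1)
    (hC2 : C2 ≤ A * 0.2132 - 2 * ρ - k2 * g0 - (A * 0.2132 - k2 * g1) * Tm)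
    (hC2' : C2 ≤ A * 0.2132 - 2 * ρ - A * 0.2132 * Tm) (hC20 : 0 < C2)
    (hK1 : 1 ≤ 4 * (C1 * ((1 - nb / 2) / 2)) * K1) (hK2 : 1 ≤ 4 * (C2 * ((1 - nb / 2) / 2)) * K2)
    (hs : 0 ≤ s) (hSi : 0 ≤ Si) (hSj : 0 ≤ Sj) (hSl : 0 ≤ Sl)
    (ti : a1 + a2 ≤ nb) (tj : b1 + b2 ≤ nb) (tl : d1 + d2 ≤ nb)
    (hRi : (a1 + a2) ^ 2 * (1 - (a1 + a2) / 2) / 2 ≤ Ri)
    (hRj : (b1 + b2) ^ 2 * (1 - (b1 + b2) / 2) / 2 ≤ Rj)
    (hRl : (d1 + d2) ^ 2 * (1 - (d1 + d2) / 2) / 2 ≤ Rl)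
    (hT : a1 + a2 + (b1 + b2) + (d1 + d2) ≤ Tm) :
    g0 * (1 - ε) * s
      - K1 * ((g1 + w3) * s + (A * 0.1673 + w3) * Si + A * 0.0933 * (Sj + Sl)) ^ 2
      - K2 * ((g1 + w3) * s + (A * 0.1673 + w3) * Sj + A * 0.0933 * (Si + Sl)) ^ 2
      - K2 * ((g1 + w3) * s + (A * 0.1673 + w3) * Sl + A * 0.0933 * (Si + Sj)) ^ 2 ≤
    Ri * (A * (0.2132 * (1 - (b1 + d1)) - (0.1673 * (a1 + a2) + 0.0933 * (b2 + d2))))
      + Rj * (A * (0.2132 * (1 - (a1 + d2)) - (0.1673 * (b1 + b2) + 0.0933 * (a2 + d1))))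
      + Rl * (A * (0.2132 * (1 - (a2 + b2)) - (0.1673 * (d1 + d2) + 0.0933 * (a1 + b1))))
      - A * (Si * (0.1673 * (a1 + a2) + 0.0933 * (b2 + d2))
        + Sj * (0.1673 * (b1 + b2) + 0.0933 * (a2 + d1))
        + Sl * (0.1673 * (d1 + d2) + 0.0933 * (a1 + b1)))
      + (g0 - g1 * (a1 + a2 + (b1 + b2) + (d1 + d2))) * ((1 - ε) * s - k1 * Ri - k2 * Rj)
      - 2 * ρ * (Ri + Rj + Rl)
      - w3 * ((a1 + b1) * (s + Si + Sj) + (a2 + d1) * (s + Si + Sl)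
        + (b2 + d2) * (s + Sj + Sl)) := by
  obtain ⟨T, hTd⟩ : ∃ T, T = a1 + a2 + (b1 + b2) + (d1 + d2) := ⟨_, rfl⟩
  have hT' : T ≤ Tm := by rw [hTd]; exact hT
  have hT0 : 0 ≤ T := by rw [hTd]; positivity
  have hBA : 0 ≤ A * 0.2132 := by positivity
  -- coefficients
  have hnn : 0 ≤ b1 + d1 := by positivity
  have hμ : 0 < (1 - nb / 2) / 2 := by linarith
  have ci : C1 ≤ A * (0.2132 * (1 - (b1 + d1)) - (0.1673 * (a1 + a2) + 0.0933 * (b2 + d2)))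
      - 2 * ρ - k1 * (g0 - g1 * T) := by
    have h1 : A * 0.2132 * T ≤ k1 * g1 * T := mul_le_mul_of_nonneg_right hk1 hT0
    have h2 := mul_nonneg hA (show 0 ≤ (0.2132 - 0.1673) * (a1 + a2) by positivity)
    have h3 := mul_nonneg hA (show 0 ≤ (0.2132 - 0.0933) * (b2 + d2) by positivity)
    rw [hTd] at h1
    rw [hTd]
    linarith
  have cj : C2 ≤ A * (0.2132 * (1 - (a1 + d2)) - (0.1673 * (b1 + b2) + 0.0933 * (a2 + d1)))
      - 2 * ρ - k2 * (g0 - g1 * T) := by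
    have h1 : (A * 0.2132 - k2 * g1) * T ≤ (A * 0.2132 - k2 * g1) * Tm :=
      mul_le_mul_of_nonneg_left hT' (by linarith)
    have h2 := mul_nonneg hA (show 0 ≤ (0.2132 - 0.1673) * (b1 + b2) by positivity)
    have h3 := mul_nonneg hA (show 0 ≤ (0.2132 - 0.0933) * (a2 + d1) by positivity)
    rw [hTd] at h1
    rw [hTd]
    linarith
  have cl : C2 ≤ A * (0.2132 * (1 - (a2 + b2)) - (0.1673 * (d1 + d2) + 0.0933 * (a1 + b1)))
      - 2 * ρ := by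
    have h1 : A * 0.2132 * T ≤ A * 0.2132 * Tm := mul_le_mul_of_nonneg_left hT' hBA
    have h2 := mul_nonneg hA (show 0 ≤ (0.2132 - 0.1673) * (d1 + d2) by positivity)
    have h3 := mul_nonneg hA (show 0 ≤ (0.2132 - 0.0933) * (a1 + b1) by positivity)
    rw [hTd] at h1
    linarith
  have mi := mcol ti hRi ci hC10.le hnb
  have mj := mcol tj hRj cj hC20.le hnb
  have ml := mcol tl hRl cl hC20.le hnb
  have qi := colq (L := (g1 + w3) * s + (A * 0.1673 + w3) * Si + A * 0.0933 * (Sj + Sl))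
    (t := a1 + a2) hK1 (mul_pos hC10 hμ)
  have qj := colq (L := (g1 + w3) * s + (A * 0.1673 + w3) * Sj + A * 0.0933 * (Si + Sl))
    (t := b1 + b2) hK2 (mul_pos hC20 hμ)
  have ql := colq (L := (g1 + w3) * s + (A * 0.1673 + w3) * Sl + A * 0.0933 * (Si + Sj))
    (t := d1 + d2) hK2 (mul_pos hC20 hμ)
  -- linear terms
  have e1 : g1 * T * (ε * s) ≥ 0 := by positivity
  have lin : ∀ x y u v : ℝ, 0 ≤ x → 0 ≤ u → 0 ≤ v →
      x * (w3 * u + A * 0.0933 * v) ≤ x * (A * 0.0933 * (u + v)) := by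
    intro x y u v hx hu hv
    refine mul_le_mul_of_nonneg_left ?_ hx
    have := mul_le_mul_of_nonneg_right hw3A hu
    linarith
  have l1 := lin a1 0 Sj Sl ha1 hSj hSl
  have l2 := lin a2 0 Sl Sj ha2 hSl hSj
  have l3 := lin b1 0 Si Sl hb1 hSi hSl
  have l4 := lin b2 0 Sl Si hb2 hSl hSi
  have l5 := lin d1 0 Si Sj hd1 hSi hSj
  have l6 := lin d2 0 Sj Si hd2 hSj hSi
  rw [← hTd]
  rw [hTd] at e1
  have hsplit : (g0 - g1 * T) * ((1 - ε) * s - k1 * Ri - k2 * Rj) =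
      g0 * (1 - ε) * s - g1 * (a1 + a2 + (b1 + b2) + (d1 + d2)) * s
        + g1 * (a1 + a2 + (b1 + b2) + (d1 + d2)) * (ε * s)
        - k1 * (g0 - g1 * T) * Ri - k2 * (g0 - g1 * T) * Rj := by
    rw [hTd]
    ring
  rw [hsplit]
  clear hsplit ci cj cl hRi hRj hRl hC1 hC2 hC2' hK1 hK2 hT hT'
  linarith

/-- the numbers of the small range -/
structure Sml (A ρ g0 g1 k1 k2 ε nb Tm w3 C1 C2 K1 K2 : ℝ) : Prop where
  A0 : 0 ≤ A
  g10 : 0 ≤ g1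
  k1g : A * 0.2132 ≤ k1 * g1
  k2g : k2 * g1 ≤ A * 0.2132
  ε0 : 0 ≤ ε
  nb1 : nb ≤ 1
  w30 : 0 ≤ w3
  w3A : w3 ≤ A * 0.0933
  hC1 : C1 ≤ A * 0.2132 - 2 * ρ - k1 * g0
  C10 : 0 < C1
  hC2 : C2 ≤ A * 0.2132 - 2 * ρ - k2 * g0 - (A * 0.2132 - k2 * g1) * Tm
  hC2' : C2 ≤ A * 0.2132 - 2 * ρ - A * 0.2132 * Tm
  C20 : 0 < C2
  hK1 : 1 ≤ 4 * (C1 * ((1 - nb / 2) / 2)) * K1
  hK2 : 1 ≤ 4 * (C2 * ((1 - nb / 2) / 2)) * K2
  K20 : 0 ≤ K2
  K12 : K2 ≤ K1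
  gT : g1 * Tm ≤ g0

/-- the quadratic price of a face: `p` for `s`, `q` for the own violation of a column, `r` for the
others -/
def lossQ (p q r K1 K2 : ℝ) (s : ℝ) (S : Fin 3 → ℝ) : ℝ :=
  K2 * ((p * s + q * S 0 + r * (S 1 + S 2)) ^ 2 + (p * s + q * S 1 + r * (S 0 + S 2)) ^ 2
    + (p * s + q * S 2 + r * (S 0 + S 1)) ^ 2)
    + (K1 - K2) * (p * s + q * (S 0 + S 1 + S 2)) ^ 2

/-- **the value of a face from below, small range, no strips** -/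
theorem num_low {N : Fin 3 → Fin 3 → ℝ} (hN : ∀ k m, 0 ≤ N k m) (hd : ∀ k, N k k = 0)
    {A ρ g0 g1 k1 k2 ε nb Tm w3 C1 C2 K1 K2 : ℝ}
    (P : Sml A ρ g0 g1 k1 k2 ε nb Tm w3 C1 C2 K1 K2) (hρ : 0 ≤ ρ)
    {R S : Fin 3 → ℝ} {s : ℝ} (hs : 0 ≤ s) (hS : ∀ k, 0 ≤ S k) (hR0 : ∀ k, 0 ≤ R k)
    (hn : ∀ k, nc N k ≤ nb) (hR : ∀ k, nc N k ^ 2 * (1 - nc N k / 2) / 2 ≤ R k)
    (hT : TN N ≤ Tm) {i j : Fin 3} (hij : i ≠ j) :
    g0 * (1 - ε) * s - lossQ (g1 + w3) (A * 0.1673 + w3) (A * 0.0933) K1 K2 s S ≤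
      corP A N R S + (g0 - g1 * TN N) * ((1 - ε) * s - k1 * R i - k2 * R j)
        - arcP A ρ (fun _ => 0) R S - w3 * lkS N S s := by
  have S0 := hS 0
  have S1 := hS 1
  have S2 := hS 2
  have d0 := hd 0
  have d1 := hd 1
  have d2 := hd 2
  have n0 := hn 0
  have n1 := hn 1
  have n2 := hn 2
  have r0 := hR 0
  have r1 := hR 1
  have r2 := hR 2
  have e0 : nc N 0 = N 1 0 + N 2 0 := by unfold nc; linarith
  have e1 : nc N 1 = N 0 1 + N 2 1 := by unfold nc; linarith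
  have e2 : nc N 2 = N 0 2 + N 1 2 := by unfold nc; linarith
  have eT : TN N = N 1 0 + N 2 0 + (N 0 1 + N 2 1) + (N 0 2 + N 1 2) := by
    unfold TN
    rw [e0, e1, e2]
  rw [e0] at n0 r0
  rw [e1] at n1 r1
  rw [e2] at n2 r2
  rw [eT] at hT ⊢
  have harc : arcP A ρ (fun _ => 0) R S = 2 * ρ * (R 0 + R 1 + R 2) := by
    have h : ∀ k, pp (ρ * R k - A * 0 * (R k + S k)) = ρ * R k := by
      intro k
      unfold pp
      have := mul_nonneg hρ (hR0 k)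
      rw [mul_zero, zero_mul, sub_zero, max_eq_left this]
    unfold arcP
    beta_reduce
    rw [h 0, h 1, h 2]
    ring
  rw [harc]
  have q0 : A * 0.0933 ≤ A * 0.1673 + w3 := by
    have h1 := P.w30
    have h2 := mul_le_mul_of_nonneg_left (show (0.0933 : ℝ) ≤ 0.1673 by norm_num) P.A0
    linarith
  have r00 : 0 ≤ A * 0.0933 := mul_nonneg P.A0 (by norm_num)
  have hp0 : 0 ≤ (g1 + w3) * s := mul_nonneg (by linarith [P.g10, P.w30]) hs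
  have hq00 : 0 ≤ A * 0.1673 + w3 := r00.trans q0
  have mx : ∀ x y z : ℝ, 0 ≤ x → 0 ≤ y → 0 ≤ z → x + y + z = S 0 + S 1 + S 2 →
      ((g1 + w3) * s + (A * 0.1673 + w3) * x + A * 0.0933 * (y + z)) ^ 2 ≤
      ((g1 + w3) * s + (A * 0.1673 + w3) * (S 0 + S 1 + S 2)) ^ 2 := by
    intro x y z hx hy hz h
    have h1 : A * 0.0933 * (y + z) ≤ (A * 0.1673 + w3) * (y + z) :=
      mul_le_mul_of_nonneg_right q0 (by linarith)
    refine pow_le_pow_left₀ ?_ ?_ 2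
    · have := mul_nonneg hq00 hx
      have := mul_nonneg r00 (add_nonneg hy hz)
      linarith
    · rw [← h]
      linarith
  have hK := sub_nonneg.2 P.K12
  have key : ∀ a1 a2 b1 b2 c1 c2 Si Sj Sl Ri Rj Rl : ℝ, 0 ≤ a1 → 0 ≤ a2 → 0 ≤ b1 → 0 ≤ b2 →
      0 ≤ c1 → 0 ≤ c2 → 0 ≤ Si → 0 ≤ Sj → 0 ≤ Sl → a1 + a2 ≤ nb → b1 + b2 ≤ nb →
      c1 + c2 ≤ nb → (a1 + a2) ^ 2 * (1 - (a1 + a2) / 2) / 2 ≤ Ri →
      (b1 + b2) ^ 2 * (1 - (b1 + b2) / 2) / 2 ≤ Rj →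
      (c1 + c2) ^ 2 * (1 - (c1 + c2) / 2) / 2 ≤ Rl → a1 + a2 + (b1 + b2) + (c1 + c2) ≤ Tm →
      Si + Sj + Sl = S 0 + S 1 + S 2 →
      g0 * (1 - ε) * s
        - K2 * (((g1 + w3) * s + (A * 0.1673 + w3) * Si + A * 0.0933 * (Sj + Sl)) ^ 2
          + ((g1 + w3) * s + (A * 0.1673 + w3) * Sj + A * 0.0933 * (Si + Sl)) ^ 2
          + ((g1 + w3) * s + (A * 0.1673 + w3) * Sl + A * 0.0933 * (Si + Sj)) ^ 2)
        - (K1 - K2) * ((g1 + w3) * s + (A * 0.1673 + w3) * (S 0 + S 1 + S 2)) ^ 2 ≤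
      Ri * (A * (0.2132 * (1 - (b1 + c1)) - (0.1673 * (a1 + a2) + 0.0933 * (b2 + c2))))
      + Rj * (A * (0.2132 * (1 - (a1 + c2)) - (0.1673 * (b1 + b2) + 0.0933 * (a2 + c1))))
      + Rl * (A * (0.2132 * (1 - (a2 + b2)) - (0.1673 * (c1 + c2) + 0.0933 * (a1 + b1))))
      - A * (Si * (0.1673 * (a1 + a2) + 0.0933 * (b2 + c2))
        + Sj * (0.1673 * (b1 + b2) + 0.0933 * (a2 + c1))
        + Sl * (0.1673 * (c1 + c2) + 0.0933 * (a1 + b1)))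
      + (g0 - g1 * (a1 + a2 + (b1 + b2) + (c1 + c2))) * ((1 - ε) * s - k1 * Ri - k2 * Rj)
      - 2 * ρ * (Ri + Rj + Rl)
      - w3 * ((a1 + b1) * (s + Si + Sj) + (a2 + c1) * (s + Si + Sl)
        + (b2 + c2) * (s + Sj + Sl)) := by
    intro a1 a2 b1 b2 c1 c2 Si Sj Sl Ri Rj Rl h1 h2 h3 h4 h5 h6 h7 h8 h9 h10 h11 h12 h13 h14 h15
      h16 h17
    have m := mx Si Sj Sl h7 h8 h9 h17
    have m' := mul_le_mul_of_nonneg_left m hK
    have sc := scal (A := A) (ρ := ρ) (g0 := g0) (g1 := g1) (k1 := k1) (k2 := k2) (ε := ε)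
      (nb := nb) (Tm := Tm) (w3 := w3) (C1 := C1) (C2 := C2) (K1 := K1) (K2 := K2) (s := s)
      h1 h2 h3 h4 h5 h6 P.A0 P.g10 P.k1g P.k2g P.ε0 P.nb1 P.w3A P.hC1 P.C10 P.hC2 P.hC2' P.C20
      P.hK1 P.hK2 hs h7 h8 h9 h10 h11 h12 h13 h14 h15 h16
    linarith
  have hN01 := hN 0 1
  have hN02 := hN 0 2
  have hN10 := hN 1 0
  have hN12 := hN 1 2
  have hN20 := hN 2 0
  have hN21 := hN 2 1
  have c0 : rowN N 0 = N 0 1 + N 0 2 := rfl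
  have c1 : rowN N 1 = N 1 2 + N 1 0 := rfl
  have c2 : rowN N 2 = N 2 0 + N 2 1 := rfl
  have v0 : wN N 0 = 0.1673 * (N 1 0 + N 2 0) + 0.0933 * (N 1 2 + N 2 1) := rfl
  have v1 : wN N 1 = 0.1673 * (N 2 1 + N 0 1) + 0.0933 * (N 2 0 + N 0 2) := rfl
  have v2 : wN N 2 = 0.1673 * (N 0 2 + N 1 2) + 0.0933 * (N 0 1 + N 1 0) := rfl
  unfold corP lossQ lkS
  rw [c0, c1, c2, v0, v1, v2]
  fin_cases i <;> fin_cases j
  · exact absurd rfl hij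
  · have := key (N 1 0) (N 2 0) (N 0 1) (N 2 1) (N 0 2) (N 1 2) (S 0) (S 1) (S 2) (R 0) (R 1)
      (R 2) hN10 hN20 hN01 hN21 hN02 hN12 S0 S1 S2 n0 n1 n2 r0 r1 r2 hT rfl
    simp only [Fin.zero_eta, Fin.mk_one]
    linarith
  · have := key (N 2 0) (N 1 0) (N 0 2) (N 1 2) (N 0 1) (N 2 1) (S 0) (S 2) (S 1) (R 0) (R 2)
      (R 1) hN20 hN10 hN02 hN12 hN01 hN21 S0 S2 S1 (by linarith) (by linarith) (by linarith)
      (by rw [add_comm (N 2 0)]; exact r0) r2 r1 (by linarith) (by ring)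
    simp only [Fin.zero_eta, Fin.reduceFinMk]
    linarith
  · have := key (N 0 1) (N 2 1) (N 1 0) (N 2 0) (N 1 2) (N 0 2) (S 1) (S 0) (S 2) (R 1) (R 0)
      (R 2) hN01 hN21 hN10 hN20 hN12 hN02 S1 S0 S2 (by linarith) (by linarith) (by linarith)
      r1 r0 (by rw [add_comm (N 1 2)]; exact r2) (by linarith) (by ring)
    simp only [Fin.zero_eta, Fin.mk_one]
    linarith
  · exact absurd rfl hij
  · have := key (N 2 1) (N 0 1) (N 1 2) (N 0 2) (N 1 0) (N 2 0) (S 1) (S 2) (S 0) (R 1) (R 2)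
      (R 0) hN21 hN01 hN12 hN02 hN10 hN20 S1 S2 S0 (by linarith) (by linarith) (by linarith)
      (by rw [add_comm (N 2 1)]; exact r1) (by rw [add_comm (N 1 2)]; exact r2) r0
      (by linarith) (by ring)
    simp only [Fin.mk_one, Fin.reduceFinMk]
    linarith
  · have := key (N 0 2) (N 1 2) (N 2 0) (N 1 0) (N 2 1) (N 0 1) (S 2) (S 0) (S 1) (R 2) (R 0)
      (R 1) hN02 hN12 hN20 hN10 hN21 hN01 S2 S0 S1 (by linarith) (by linarith) (by linarith)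
      r2 (by rw [add_comm (N 2 0)]; exact r0) (by rw [add_comm (N 2 1)]; exact r1)
      (by linarith) (by ring)
    simp only [Fin.zero_eta, Fin.reduceFinMk]
    linarith
  · have := key (N 1 2) (N 0 2) (N 2 1) (N 0 1) (N 2 0) (N 1 0) (S 2) (S 1) (S 0) (R 2) (R 1)
      (R 0) hN12 hN02 hN21 hN01 hN20 hN10 S2 S1 S0 (by linarith) (by linarith) (by linarith)
      (by rw [add_comm (N 1 2)]; exact r2) (by rw [add_comm (N 2 1)]; exact r1)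
      (by rw [add_comm (N 2 0)]; exact r0) (by linarith) (by ring)
    simp only [Fin.mk_one, Fin.reduceFinMk]
    linarith
  · exact absurd rfl hij

end Pool.Agent.Helper73.MEI.ArCor
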