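import Pool.Agent.Helper73.MEI.MA2

/-!
# The small range, general form of the cost

Cost `w0 + w1 s + w2 (S_1 + S_2 + S_3) + Σ nc_k (v1 s + v2 S_k + v3 (S_1 + S_2 + S_3))`:
`num_lowG`, `WOKG`, `coreP_smallG`.
-/

set_option autoImplicit false

namespace Pool.Agent.Helper73.MEI.ArCor

open Set Metric MeasureTheory Filter Topology Helper80.CW Helper82.CW Helper14.CW Helper93.MEI
open Helper82.M2 Helper14.MEI2 Pool.Agent.Helper52.MEI Pool.Agent.Helper73.MEI Helper37.MEI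
open Helper41.MEI
open Helper33.MEI (Wi)
open Pool.Agent.Helper55.Mass (LN vv B0 B0_ge)
open Pool.Agent.Helper55.Apex (nc)
open Pool.Agent.Helper55.ApexP (PN alP mu_bal)
open Pool.Agent.Helper73.MEI.SideP
open Pool.Agent.Helper96.Kap (kap)
open Pool.Agent.Helper31.SR
open Helper78.MEI
open scoped RealInnerProductSpace ENNReal

/-- the leaks of a face with the violations, per column -/
noncomputable def lkC (N : Fin 3 → Fin 3 → ℝ) (v1 v2 v3 : ℝ) (S : Fin 3 → ℝ) (s : ℝ) : ℝ :=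
  nc N 0 * (v1 * s + v2 * S 0 + v3 * (S 0 + S 1 + S 2))
    + nc N 1 * (v1 * s + v2 * S 1 + v3 * (S 0 + S 1 + S 2))
    + nc N 2 * (v1 * s + v2 * S 2 + v3 * (S 0 + S 1 + S 2))

/-- **one face in scalars**: `a1, a2` the leaks of the node `i` on `j, l`; `b1, b2` of `j` on
`i, l`; `d1, d2` of `l` on `i, j` -/
theorem scalG {A ρ g0 g1 k1 k2 ε nb Tm v1 v2 v3 C1 C2 K1 K2 s Si Sj Sl Ri Rj Rl a1 a2 b1 b2 d1 d2 : ℝ}
    (ha1 : 0 ≤ a1) (ha2 : 0 ≤ a2) (hb1 : 0 ≤ b1) (hb2 : 0 ≤ b2) (hd1 : 0 ≤ d1) (hd2 : 0 ≤ d2)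
    (hA : 0 ≤ A) (hg1 : 0 ≤ g1) (hk1 : A * 0.2132 ≤ k1 * g1)
    (hk2g : k2 * g1 ≤ A * 0.2132)
    (hε0 : 0 ≤ ε) (hnb : nb ≤ 1)
    (hC1 : C1 ≤ A * 0.2132 - 2 * ρ - k1 * g0) (hC10 : 0 < C1)
    (hC2 : C2 ≤ A * 0.2132 - 2 * ρ - k2 * g0 - (A * 0.2132 - k2 * g1) * Tm)
    (hC2' : C2 ≤ A * 0.2132 - 2 * ρ - A * 0.2132 * Tm) (hC20 : 0 < C2)
    (hK1 : 1 ≤ 4 * (C1 * ((1 - nb / 2) / 2)) * K1) (hK2 : 1 ≤ 4 * (C2 * ((1 - nb / 2) / 2)) * K2)
    (hs : 0 ≤ s) (hSi : 0 ≤ Si) (hSj : 0 ≤ Sj) (hSl : 0 ≤ Sl)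
    (ti : a1 + a2 ≤ nb) (tj : b1 + b2 ≤ nb) (tl : d1 + d2 ≤ nb)
    (hRi : (a1 + a2) ^ 2 * (1 - (a1 + a2) / 2) / 2 ≤ Ri)
    (hRj : (b1 + b2) ^ 2 * (1 - (b1 + b2) / 2) / 2 ≤ Rj)
    (hRl : (d1 + d2) ^ 2 * (1 - (d1 + d2) / 2) / 2 ≤ Rl)
    (hT : a1 + a2 + (b1 + b2) + (d1 + d2) ≤ Tm) :
    g0 * (1 - ε) * s
      - K1 * ((g1 + v1) * s + (A * 0.1673 + v2 + v3) * Si + (A * 0.0933 + v3) * (Sj + Sl)) ^ 2
      - K2 * ((g1 + v1) * s + (A * 0.1673 + v2 + v3) * Sj + (A * 0.0933 + v3) * (Si + Sl)) ^ 2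
      - K2 * ((g1 + v1) * s + (A * 0.1673 + v2 + v3) * Sl + (A * 0.0933 + v3) * (Si + Sj)) ^ 2 ≤
    Ri * (A * (0.2132 * (1 - (b1 + d1)) - (0.1673 * (a1 + a2) + 0.0933 * (b2 + d2))))
      + Rj * (A * (0.2132 * (1 - (a1 + d2)) - (0.1673 * (b1 + b2) + 0.0933 * (a2 + d1))))
      + Rl * (A * (0.2132 * (1 - (a2 + b2)) - (0.1673 * (d1 + d2) + 0.0933 * (a1 + b1))))
      - A * (Si * (0.1673 * (a1 + a2) + 0.0933 * (b2 + d2))
        + Sj * (0.1673 * (b1 + b2) + 0.0933 * (a2 + d1))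
        + Sl * (0.1673 * (d1 + d2) + 0.0933 * (a1 + b1)))
      + (g0 - g1 * (a1 + a2 + (b1 + b2) + (d1 + d2))) * ((1 - ε) * s - k1 * Ri - k2 * Rj)
      - 2 * ρ * (Ri + Rj + Rl)
      - ((a1 + a2) * (v1 * s + v2 * Si + v3 * (Si + Sj + Sl))
        + (b1 + b2) * (v1 * s + v2 * Sj + v3 * (Si + Sj + Sl))
        + (d1 + d2) * (v1 * s + v2 * Sl + v3 * (Si + Sj + Sl))) := by
  obtain ⟨T, hTd⟩ : ∃ T, T = a1 + a2 + (b1 + b2) + (d1 + d2) := ⟨_, rfl⟩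
  have hT' : T ≤ Tm := by rw [hTd]; exact hT
  have hT0 : 0 ≤ T := by rw [hTd]; positivity
  have hBA : 0 ≤ A * 0.2132 := by positivity
  -- coefficients
  have hnn : 0 ≤ b1 + d1 := by positivity
  have hμ : 0 < (1 - nb / 2) / 2 := by linarith
  have ci : C1 ≤ A * (0.2132 * (1 - (b1 + d1)) - (0.1673 * (a1 + a2) + 0.0933 * (b2 + d2)))
      - 2 * ρ - k1 * (g0 - g1 * T) := by
    have h1 : A * 0.2132 * T ≤ k1 * g1 * T := mul_le_mul_of_nonneg_right hk1 hT0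
    have h2 := mul_nonneg hA (show 0 ≤ (0.2132 - 0.1673) * (a1 + a2) by positivity)
    have h3 := mul_nonneg hA (show 0 ≤ (0.2132 - 0.0933) * (b2 + d2) by positivity)
    rw [hTd] at h1
    rw [hTd]
    linarith
  have cj : C2 ≤ A * (0.2132 * (1 - (a1 + d2)) - (0.1673 * (b1 + b2) + 0.0933 * (a2 + d1)))
      - 2 * ρ - k2 * (g0 - g1 * T) := by
    have h1 : (A * 0.2132 - k2 * g1) * T ≤ (A * 0.2132 - k2 * g1) * Tm :=
      mul_le_mul_of_nonneg_left hT' (by linarith)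
    have h2 := mul_nonneg hA (show 0 ≤ (0.2132 - 0.1673) * (b1 + b2) by positivity)
    have h3 := mul_nonneg hA (show 0 ≤ (0.2132 - 0.0933) * (a2 + d1) by positivity)
    rw [hTd] at h1
    rw [hTd]
    linarith
  have cl : C2 ≤ A * (0.2132 * (1 - (a2 + b2)) - (0.1673 * (d1 + d2) + 0.0933 * (a1 + b1)))
      - 2 * ρ := by
    have h1 : A * 0.2132 * T ≤ A * 0.2132 * Tm := mul_le_mul_of_nonneg_left hT' hBA
    have h2 := mul_nonneg hA (show 0 ≤ (0.2132 - 0.1673) * (d1 + d2) by positivity)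
    have h3 := mul_nonneg hA (show 0 ≤ (0.2132 - 0.0933) * (a1 + b1) by positivity)
    rw [hTd] at h1
    linarith
  have mi := mcol ti hRi ci hC10.le hnb
  have mj := mcol tj hRj cj hC20.le hnb
  have ml := mcol tl hRl cl hC20.le hnb
  have qi := colq (L := (g1 + v1) * s + (A * 0.1673 + v2 + v3) * Si + (A * 0.0933 + v3) * (Sj + Sl))
    (t := a1 + a2) hK1 (mul_pos hC10 hμ)
  have qj := colq (L := (g1 + v1) * s + (A * 0.1673 + v2 + v3) * Sj + (A * 0.0933 + v3) * (Si + Sl))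
    (t := b1 + b2) hK2 (mul_pos hC20 hμ)
  have ql := colq (L := (g1 + v1) * s + (A * 0.1673 + v2 + v3) * Sl + (A * 0.0933 + v3) * (Si + Sj))
    (t := d1 + d2) hK2 (mul_pos hC20 hμ)
  -- linear terms
  have e1 : g1 * T * (ε * s) ≥ 0 := by positivity
  have l1 := mul_nonneg ha1 hSj
  have l2 := mul_nonneg ha2 hSl
  have l3 := mul_nonneg hb1 hSi
  have l4 := mul_nonneg hb2 hSl
  have l5 := mul_nonneg hd1 hSi
  have l6 := mul_nonneg hd2 hSj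
  have m1 := mul_nonneg hA l1
  have m2 := mul_nonneg hA l2
  have m3 := mul_nonneg hA l3
  have m4 := mul_nonneg hA l4
  have m5 := mul_nonneg hA l5
  have m6 := mul_nonneg hA l6
  rw [← hTd]
  rw [hTd] at e1
  have hsplit : (g0 - g1 * T) * ((1 - ε) * s - k1 * Ri - k2 * Rj) =
      g0 * (1 - ε) * s - g1 * (a1 + a2 + (b1 + b2) + (d1 + d2)) * s
        + g1 * (a1 + a2 + (b1 + b2) + (d1 + d2)) * (ε * s)
        - k1 * (g0 - g1 * T) * Ri - k2 * (g0 - g1 * T) * Rj := by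
    rw [hTd]
    ring
  rw [hsplit]
  clear hsplit ci cj cl hRi hRj hRl hC1 hC2 hC2' hK1 hK2 hT hT'
  linarith

/-- **the value of a face from below, small range, no strips** -/
theorem num_lowG {N : Fin 3 → Fin 3 → ℝ} (hN : ∀ k m, 0 ≤ N k m) (hd : ∀ k, N k k = 0)
    {A ρ g0 g1 k1 k2 ε nb Tm v1 v2 v3 C1 C2 K1 K2 : ℝ}
    (P : Sml A ρ g0 g1 k1 k2 ε nb Tm 0 C1 C2 K1 K2) (hv1 : 0 ≤ v1) (hv2 : 0 ≤ v2) (hv3 : 0 ≤ v3) (hρ : 0 ≤ ρ)
    {R S : Fin 3 → ℝ} {s : ℝ} (hs : 0 ≤ s) (hS : ∀ k, 0 ≤ S k) (hR0 : ∀ k, 0 ≤ R k)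
    (hn : ∀ k, nc N k ≤ nb) (hR : ∀ k, nc N k ^ 2 * (1 - nc N k / 2) / 2 ≤ R k)
    (hT : TN N ≤ Tm) {i j : Fin 3} (hij : i ≠ j) :
    g0 * (1 - ε) * s - lossQ (g1 + v1) (A * 0.1673 + v2 + v3) (A * 0.0933 + v3) K1 K2 s S ≤
      corP A N R S + (g0 - g1 * TN N) * ((1 - ε) * s - k1 * R i - k2 * R j)
        - arcP A ρ (fun _ => 0) R S - lkC N v1 v2 v3 S s := by
  have S0 := hS 0
  have S1 := hS 1
  have S2 := hS 2
  have d0 := hd 0
  have d1 := hd 1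
  have d2 := hd 2
  have n0 := hn 0
  have n1 := hn 1
  have n2 := hn 2
  have r0 := hR 0
  have r1 := hR 1
  have r2 := hR 2
  have e0 : nc N 0 = N 1 0 + N 2 0 := by unfold nc; linarith
  have e1 : nc N 1 = N 0 1 + N 2 1 := by unfold nc; linarith
  have e2 : nc N 2 = N 0 2 + N 1 2 := by unfold nc; linarith
  have eT : TN N = N 1 0 + N 2 0 + (N 0 1 + N 2 1) + (N 0 2 + N 1 2) := by
    unfold TN
    rw [e0, e1, e2]
  rw [e0] at n0 r0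
  rw [e1] at n1 r1
  rw [e2] at n2 r2
  rw [eT] at hT ⊢
  have harc : arcP A ρ (fun _ => 0) R S = 2 * ρ * (R 0 + R 1 + R 2) := by
    have h : ∀ k, pp (ρ * R k - A * 0 * (R k + S k)) = ρ * R k := by
      intro k
      unfold pp
      have := mul_nonneg hρ (hR0 k)
      rw [mul_zero, zero_mul, sub_zero, max_eq_left this]
    unfold arcP
    beta_reduce
    rw [h 0, h 1, h 2]
    ring
  rw [harc]
  have q0 : A * 0.0933 + v3 ≤ A * 0.1673 + v2 + v3 := by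
    have h2 := mul_le_mul_of_nonneg_left (show (0.0933 : ℝ) ≤ 0.1673 by norm_num) P.A0
    linarith
  have r00 : 0 ≤ A * 0.0933 + v3 := add_nonneg (mul_nonneg P.A0 (by norm_num)) hv3
  have hp0 : 0 ≤ (g1 + v1) * s := mul_nonneg (by linarith [P.g10]) hs
  have hq00 : 0 ≤ A * 0.1673 + v2 + v3 := r00.trans q0
  have mx : ∀ x y z : ℝ, 0 ≤ x → 0 ≤ y → 0 ≤ z → x + y + z = S 0 + S 1 + S 2 →
      ((g1 + v1) * s + (A * 0.1673 + v2 + v3) * x + (A * 0.0933 + v3) * (y + z)) ^ 2 ≤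
      ((g1 + v1) * s + (A * 0.1673 + v2 + v3) * (S 0 + S 1 + S 2)) ^ 2 := by
    intro x y z hx hy hz h
    have h1 : (A * 0.0933 + v3) * (y + z) ≤ (A * 0.1673 + v2 + v3) * (y + z) :=
      mul_le_mul_of_nonneg_right q0 (by linarith)
    refine pow_le_pow_left₀ ?_ ?_ 2
    · have := mul_nonneg hq00 hx
      have := mul_nonneg r00 (add_nonneg hy hz)
      linarith
    · rw [← h]
      linarith
  have hK := sub_nonneg.2 P.K12
  have key : ∀ a1 a2 b1 b2 c1 c2 Si Sj Sl Ri Rj Rl : ℝ, 0 ≤ a1 → 0 ≤ a2 → 0 ≤ b1 → 0 ≤ b2 →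
      0 ≤ c1 → 0 ≤ c2 → 0 ≤ Si → 0 ≤ Sj → 0 ≤ Sl → a1 + a2 ≤ nb → b1 + b2 ≤ nb →
      c1 + c2 ≤ nb → (a1 + a2) ^ 2 * (1 - (a1 + a2) / 2) / 2 ≤ Ri →
      (b1 + b2) ^ 2 * (1 - (b1 + b2) / 2) / 2 ≤ Rj →
      (c1 + c2) ^ 2 * (1 - (c1 + c2) / 2) / 2 ≤ Rl → a1 + a2 + (b1 + b2) + (c1 + c2) ≤ Tm →
      Si + Sj + Sl = S 0 + S 1 + S 2 →
      g0 * (1 - ε) * s
        - K2 * (((g1 + v1) * s + (A * 0.1673 + v2 + v3) * Si + (A * 0.0933 + v3) * (Sj + Sl)) ^ 2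
          + ((g1 + v1) * s + (A * 0.1673 + v2 + v3) * Sj + (A * 0.0933 + v3) * (Si + Sl)) ^ 2
          + ((g1 + v1) * s + (A * 0.1673 + v2 + v3) * Sl + (A * 0.0933 + v3) * (Si + Sj)) ^ 2)
        - (K1 - K2) * ((g1 + v1) * s + (A * 0.1673 + v2 + v3) * (S 0 + S 1 + S 2)) ^ 2 ≤
      Ri * (A * (0.2132 * (1 - (b1 + c1)) - (0.1673 * (a1 + a2) + 0.0933 * (b2 + c2))))
      + Rj * (A * (0.2132 * (1 - (a1 + c2)) - (0.1673 * (b1 + b2) + 0.0933 * (a2 + c1))))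
      + Rl * (A * (0.2132 * (1 - (a2 + b2)) - (0.1673 * (c1 + c2) + 0.0933 * (a1 + b1))))
      - A * (Si * (0.1673 * (a1 + a2) + 0.0933 * (b2 + c2))
        + Sj * (0.1673 * (b1 + b2) + 0.0933 * (a2 + c1))
        + Sl * (0.1673 * (c1 + c2) + 0.0933 * (a1 + b1)))
      + (g0 - g1 * (a1 + a2 + (b1 + b2) + (c1 + c2))) * ((1 - ε) * s - k1 * Ri - k2 * Rj)
      - 2 * ρ * (Ri + Rj + Rl)
      - ((a1 + a2) * (v1 * s + v2 * Si + v3 * (Si + Sj + Sl))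
        + (b1 + b2) * (v1 * s + v2 * Sj + v3 * (Si + Sj + Sl))
        + (c1 + c2) * (v1 * s + v2 * Sl + v3 * (Si + Sj + Sl))) := by
    intro a1 a2 b1 b2 c1 c2 Si Sj Sl Ri Rj Rl h1 h2 h3 h4 h5 h6 h7 h8 h9 h10 h11 h12 h13 h14 h15
      h16 h17
    have m := mx Si Sj Sl h7 h8 h9 h17
    have m' := mul_le_mul_of_nonneg_left m hK
    have sc := scalG (A := A) (ρ := ρ) (g0 := g0) (g1 := g1) (k1 := k1) (k2 := k2) (ε := ε)
      (nb := nb) (Tm := Tm) (v1 := v1) (v2 := v2) (v3 := v3) (C1 := C1) (C2 := C2) (K1 := K1) (K2 := K2) (s := s)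
      h1 h2 h3 h4 h5 h6 P.A0 P.g10 P.k1g P.k2g P.ε0 P.nb1 P.hC1 P.C10 P.hC2 P.hC2' P.C20
      P.hK1 P.hK2 hs h7 h8 h9 h10 h11 h12 h13 h14 h15 h16
    linarith
  have hN01 := hN 0 1
  have hN02 := hN 0 2
  have hN10 := hN 1 0
  have hN12 := hN 1 2
  have hN20 := hN 2 0
  have hN21 := hN 2 1
  have c0 : rowN N 0 = N 0 1 + N 0 2 := rfl
  have c1 : rowN N 1 = N 1 2 + N 1 0 := rfl
  have c2 : rowN N 2 = N 2 0 + N 2 1 := rfl
  have v0 : wN N 0 = 0.1673 * (N 1 0 + N 2 0) + 0.0933 * (N 1 2 + N 2 1) := rfl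
  have v1 : wN N 1 = 0.1673 * (N 2 1 + N 0 1) + 0.0933 * (N 2 0 + N 0 2) := rfl
  have v2 : wN N 2 = 0.1673 * (N 0 2 + N 1 2) + 0.0933 * (N 0 1 + N 1 0) := rfl
  unfold corP lossQ lkC
  rw [e0, e1, e2]
  rw [c0, c1, c2, v0, v1, v2]
  fin_cases i <;> fin_cases j
  · exact absurd rfl hij
  · have := key (N 1 0) (N 2 0) (N 0 1) (N 2 1) (N 0 2) (N 1 2) (S 0) (S 1) (S 2) (R 0) (R 1)
      (R 2) hN10 hN20 hN01 hN21 hN02 hN12 S0 S1 S2 n0 n1 n2 r0 r1 r2 hT rfl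
    simp only [Fin.zero_eta, Fin.mk_one]
    linarith
  · have := key (N 2 0) (N 1 0) (N 0 2) (N 1 2) (N 0 1) (N 2 1) (S 0) (S 2) (S 1) (R 0) (R 2)
      (R 1) hN20 hN10 hN02 hN12 hN01 hN21 S0 S2 S1 (by linarith) (by linarith) (by linarith)
      (by rw [add_comm (N 2 0)]; exact r0) r2 r1 (by linarith) (by ring)
    simp only [Fin.zero_eta, Fin.reduceFinMk]
    linarith
  · have := key (N 0 1) (N 2 1) (N 1 0) (N 2 0) (N 1 2) (N 0 2) (S 1) (S 0) (S 2) (R 1) (R 0)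
      (R 2) hN01 hN21 hN10 hN20 hN12 hN02 S1 S0 S2 (by linarith) (by linarith) (by linarith)
      r1 r0 (by rw [add_comm (N 1 2)]; exact r2) (by linarith) (by ring)
    simp only [Fin.zero_eta, Fin.mk_one]
    linarith
  · exact absurd rfl hij
  · have := key (N 2 1) (N 0 1) (N 1 2) (N 0 2) (N 1 0) (N 2 0) (S 1) (S 2) (S 0) (R 1) (R 2)
      (R 0) hN21 hN01 hN12 hN02 hN10 hN20 S1 S2 S0 (by linarith) (by linarith) (by linarith)
      (by rw [add_comm (N 2 1)]; exact r1) (by rw [add_comm (N 1 2)]; exact r2) r0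
      (by linarith) (by ring)
    simp only [Fin.mk_one, Fin.reduceFinMk]
    linarith
  · have := key (N 0 2) (N 1 2) (N 2 0) (N 1 0) (N 2 1) (N 0 1) (S 2) (S 0) (S 1) (R 2) (R 0)
      (R 1) hN02 hN12 hN20 hN10 hN21 hN01 S2 S0 S1 (by linarith) (by linarith) (by linarith)
      r2 (by rw [add_comm (N 2 0)]; exact r0) (by rw [add_comm (N 2 1)]; exact r1)
      (by linarith) (by ring)
    simp only [Fin.zero_eta, Fin.reduceFinMk]
    linarith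
  · have := key (N 1 2) (N 0 2) (N 2 1) (N 0 1) (N 2 0) (N 1 0) (S 2) (S 1) (S 0) (R 2) (R 1)
      (R 0) hN12 hN02 hN21 hN01 hN20 hN10 S2 S1 S0 (by linarith) (by linarith) (by linarith)
      (by rw [add_comm (N 1 2)]; exact r2) (by rw [add_comm (N 2 1)]; exact r1)
      (by rw [add_comm (N 2 0)]; exact r0) (by linarith) (by ring)
    simp only [Fin.mk_one, Fin.reduceFinMk]
    linarith
  · exact absurd rfl hij
/-- **the cost of the second order term in all faces** (`κ = 0`, no strips, `dE = dm = 0`):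
at most `w0 + w1 s + w2 (S_1 + S_2 + S_3) + Σ nc_k (v1 s + v2 S_k + v3 (S_1 + S_2 + S_3))` -/
def WOKG (ρ w0 w1 w2 v1 v2 v3 X : ℝ) (P : (Fin 4 → ℝ) → Prop) : Prop :=
  ∀ (K : Set E3) (σ : Measure (E3 × E3)), IsFiniteMeasure σ →
    ∀ a c : Fin 4 → E3, CN K σ a c → EpsLe c X → ∀ S : Fin 4 → ℝ, Viol K a S → P S →
    ∀ z : Fin 4 → Fin 4 → E3, CV a K z → ∀ τ : Equiv.Perm (Fin 4), ∀ x ∈ K,
    (Qv a (τ 0) x = S (τ 0) ∨ S (τ 0) = 0) →
    ∀ N : Fin 3 → Fin 3 → ℝ, N = NM (fun i => a (τ i)) (fun i j => z (τ i) (τ j)) →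
    ∀ R : Fin 3 → ℝ, R = RM (fun i => a (τ i)) (fun i j => z (τ i) (τ j)) →
    ∀ ζp : Fin 3 → ℝ, (∀ k, 0 < ζp k) → (∀ k, zc (fun i => a (τ i)) N x k ≤ ζp k) →
    ∀ lam, 0 ≤ lam → lam ≤ 1 - phiN 2.04 ρ (TN N) (QN N) →
      WCost a K τ 2.04
        (GM 2.04 N (zc (fun i => a (τ i)) N x) ζp lam
          (fun p t => phiN 2.04 ρ (TN N) (QN N) * flP (PN N) p t)
          (fun p t => kap N (vv t) p) (fun _ => 0) (MB σ a (l2 a) τ)
          (fun p => aE σ a (l2 a) (τ 0) (τ p.succ)) R (fun k => S (τ k.succ)) (S (τ 0)))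
        (DM 2.04 N (zc (fun i => a (τ i)) N x) ζp lam
          (fun p t => phiN 2.04 ρ (TN N) (QN N) * flP (PN N) p t)
          (fun p t => kap N (vv t) p) (fun _ => 0) (MB σ a (l2 a) τ)
          (fun j => 1 / qM (fun i => a (τ i)) (fun i j => z (τ i) (τ j)) j)
          (fun p => Pool.Agent.Helper31.SR.am σ a (l2 a) (τ 0) (τ p.succ)))
        (w0 + w1 * S (τ 0) + w2 * (S (τ 1) + S (τ 2) + S (τ 3))
          + lkC N v1 v2 v3 (fun k => S (τ k.succ)) (S (τ 0)))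

variable {X' rm qm nb ρ1 Rb gg ε k1 k12 t2 δ : ℝ}

/-- **core statement on a small range**, no strips, general form of the cost -/
theorem coreP_smallG {c0 c1 c3 : ℝ} (hA : Asm c0 c1 c3) {P : (Fin 4 → ℝ) → Prop}
    {X κ ρ w0 w1 w2 v1 v2 v3 T0 e Tm r V x0 x1 g0 g1 C1 C2 K1 K2 : ℝ}
    (hκ : 0 ≤ κ) (h3 : 0 ≤ c3) (hρ : 0 < ρ) (hv1 : 0 ≤ v1)
    (hv2 : 0 ≤ v2) (hv3 : 0 ≤ v3)
    (hP : ∀ (K : Set E3) (σ : Measure (E3 × E3)), IsFiniteMeasure σ →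
      ∀ a c : Fin 4 → E3, CN K σ a c → EpsLe c X → ∀ S : Fin 4 → ℝ, Viol K a S → P S →
      T0 ≤ ∑ i, S i ∧ ∑ i, S i ≤ X' ∧ ∀ i, S i ≤ 0.026)
    (hM : ∀ (K : Set E3) (σ : Measure (E3 × E3)), IsFiniteMeasure σ →
      ∀ a c : Fin 4 → E3, CN K σ a c → EpsLe c X → ∀ S : Fin 4 → ℝ, Viol K a S → P S →
      ∀ (τ : Equiv.Perm (Fin 4)) (p k : Fin 3), k ≠ p → MA σ a (l2 a) τ p k ≤ ρ)
    (hW : WOKG ρ w0 w1 w2 v1 v2 v3 X P)
    (R1 : Rng X' rm qm nb ρ1 Rb gg ε k1 k12 t2 δ)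
    (R2 : Apx X' qm Tm 2.04 ρ r V x0 x1 g0 g1)
    (R3 : Sml 2.04 ρ g0 g1 k1 (k12 - k1) ε nb Tm 0 C1 C2 K1 K2)
    (he1 : (K1 + 2 * K2) * (g1 + v1) ^ 2
      + 3 * (K1 * (2.04 * 0.1673 + v2 + v3) ^ 2 + 2 * K2 * (2.04 * 0.0933 + v3) ^ 2) ≤ e)
    (he2 : ((K1 + 2 * K2) * (g1 + v1) ^ 2
      + 6 * ((K1 * (2.04 * 0.1673 + v2 + v3) + 2 * K2 * (2.04 * 0.0933 + v3)) * (g1 + v1))
      + 9 * (K1 * (2.04 * 0.1673 + v2 + v3) ^ 2 + 2 * K2 * (2.04 * 0.0933 + v3) ^ 2)) / 4 ≤ e)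
    (hT0 : 0 ≤ T0) (he : 0 ≤ e)
    (k0 : (c0 + 4 * w0) + c1 * T0 + c3 * T0 ^ 3 + 4.08 * κ * T0 ≤
      (g0 * (1 - ε) - w1 - 3 * w2) * T0 - e * T0 ^ 2)
    (kX : (c0 + 4 * w0) + c1 * X' + c3 * X' ^ 3 + 4.08 * κ * X' ≤
      (g0 * (1 - ε) - w1 - 3 * w2) * X' - e * X' ^ 2) :
    CoreP P X κ := by
  refine coreP_K hA hκ fun K σ hσ a c hC hX S hV hPS => ?_
  obtain ⟨t0, t1, t26⟩ := hP K σ hσ a c hC hX S hV hPS
  obtain ⟨z, hz⟩ := cv_exists hC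
  set α := (K1 + 2 * K2) * (g1 + v1) ^ 2 with hα
  set β := (K1 * (2.04 * 0.1673 + v2 + v3) + 2 * K2 * (2.04 * 0.0933 + v3)) * (g1 + v1) with hβ
  set γ := K1 * (2.04 * 0.1673 + v2 + v3) ^ 2 + 2 * K2 * (2.04 * 0.0933 + v3) ^ 2 with hγ
  refine ⟨fun i => -w0 + ((g0 * (1 - ε) - w1) * S i - w2 * ((∑ k, S k) - S i)
        - (α * S i ^ 2 + 2 * β * S i * ((∑ k, S k) - S i) + γ * ((∑ k, S k) - S i) ^ 2)), ?_, ?_⟩
  · intro i
    obtain ⟨τ, rfl⟩ := RegII.exists_perm i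
    have h' := hC.perm τ
    have v' := viol_perm hV τ
    have hz' := hz.perm τ
    have hsum : ∑ k, S k = S (τ 0) + S (τ 1) + S (τ 2) + S (τ 3) := by
      rw [← Equiv.sum_comp τ S, Fin.sum_univ_four]
    have hXs : S (τ 0) + (S (τ 1) + S (τ 2) + S (τ 3)) ≤ X' := by
      rw [hsum] at t1
      linarith
    obtain ⟨x, hx, hxs⟩ : ∃ x ∈ K, Qv a (τ 0) x = S (τ 0) ∨ S (τ 0) = 0 := by
      rcases hV.att (τ 0) with h | ⟨x, hx, h⟩
      · obtain ⟨x, hx⟩ := hC.ne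
        exact ⟨x, hx, Or.inr h⟩
      · exact ⟨x, hx, Or.inl h⟩
    have e204 : (3.83 : ℝ) / 2 + 1 / 8 = 2.04 := by norm_num
    obtain ⟨N, hN⟩ : ∃ N, N = NM (fun i => a (τ i)) (fun i j => z (τ i) (τ j)) := ⟨_, rfl⟩
    obtain ⟨R, hR⟩ : ∃ R, R = RM (fun i => a (τ i)) (fun i j => z (τ i) (τ j)) := ⟨_, rfl⟩
    have hN0 : ∀ k m, 0 ≤ N k m := fun k m => by
      rw [hN]
      exact NM_nonneg h' v' hz' k m
    have hd : ∀ k, N k k = 0 := fun k => by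
      rw [hN]
      exact NM_diag k
    have hR0 : ∀ j, 0 ≤ R j := fun j => by
      rw [hR]
      exact RM_nonneg h' v' hz' j
    have hk0 : ∀ p : Fin 3, (0 : ℝ) ≤ Pool.Agent.Helper55.Mass.Id
        (fun t => kap N (vv t) p) := fun p => by
      unfold Pool.Agent.Helper55.Mass.Id
      refine mul_nonneg (by positivity) (setIntegral_nonneg
        Pool.Agent.Helper55.Sx.Sim_meas fun t ht => ?_)
      have hcol : ∀ m, nc N m ≤ 9 / 10 := fun m => by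
        rw [hN]
        exact nc_le h' v' hz' m
      exact div_nonneg (Pool.Agent.Helper96.Kap.kap_nonneg hN0 (by norm_num : (9 / 10 : ℝ) < 1)
        hcol (fun k => Pool.Agent.Helper55.Mass.vv_nonneg ht k) p) (by positivity)
    have R2' : Apx X' qm Tm (3.83 / 2 + 1 / 8) ρ r V x0 x1 g0 g1 := by
      rw [e204]
      exact R2
    obtain ⟨i, j, hij, key⟩ := face_fv R1 hC hV hz τ hXs (A := 3.83) (by norm_num)
      (l := l2 a) (l2_ok hC.ha) (δ3 := fun _ => 0) (dE := fun _ => 0) (dm := fun _ => 0)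
      (fun p => (MA_third hC.ha hC.cpt hC.pm.mem hC.hp τ
        (fun y hy => (hV.le _ y hy).trans (t26 _)) p).le) (fun _ => le_rfl) (fun _ => le_rfl)
      (fun _ => by norm_num) hρ (hM K σ hσ a c hC hX S hV hPS τ) R2' hx hxs hN hR
      (κ := fun _ => 0) (fun _ => le_rfl) (fun _ => by simpa using hρ.le) hk0
      (cst := w0 + w1 * S (τ 0) + w2 * (S (τ 1) + S (τ 2) + S (τ 3))
          + lkC N v1 v2 v3 (fun k => S (τ k.succ)) (S (τ 0)))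
      (fun ζp z1 z2 lam q1 q2 => by
        have hw := hW K σ hσ a c hC hX S hV hPS z hz τ x hx hxs N hN R hR ζp z1 z2 lam q1
          (by rw [← e204]; exact q2)
        rw [e204]
        simp only [mul_zero, zero_div, sub_zero]
        exact hw)
    have hT := TN_le R1 h' v' hz' hXs R2.Tm0 R2.TmX
    rw [← hN] at hT
    have C := cols R1 h' v' hz' hXs
    rw [← hN, ← hR] at C
    have low := num_lowG hN0 hd R3 hv1 hv2 hv3 hρ.le (R := R) (S := fun k => S (τ k.succ)) (s := S (τ 0))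
      (hV.nn _) (fun k => hV.nn _) hR0 (fun k => (C k).2.1) (fun k => (C k).2.2.2.2.2.1) hT hij
    have hT00 := TN_nonneg hN0
    have hg : 0 ≤ g0 - g1 * TN N := by
      have := mul_le_mul_of_nonneg_left hT R3.g10
      linarith [R3.gT]
    have kk := key (g0 - g1 * TN N) hg (Or.inr le_rfl)
    have lq := lossQ_le (p := g1 + v1) (q := 2.04 * 0.1673 + v2 + v3)
      (r := 2.04 * 0.0933 + v3)
      (K1 := K1) (K2 := K2) (s := S (τ 0)) (S := fun k => S (τ k.succ)) (fun k => hV.nn _)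
      R3.K20
    rw [e204] at kk
    have e1 : τ (Fin.succ 0) = τ 1 := rfl
    have e2 : τ (Fin.succ 1) = τ 2 := rfl
    have e3 : τ (Fin.succ 2) = τ 3 := rfl
    beta_reduce at lq
    rw [e1, e2, e3, ← hα, ← hβ, ← hγ] at lq
    have hs3 : (∑ k, S k) - S (τ 0) = S (τ 1) + S (τ 2) + S (τ 3) := by
      rw [hsum]
      ring
    beta_reduce
    rw [hs3]
    linarith
  · have h1 := sum_quad (G := g0 * (1 - ε)) (w1 := w1) (w2 := w2) hV.nn he1 he2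
    have h2 := quad_end hT0 t0 t1 h3 he k0 kX
    have ew : ∑ i : Fin 4, (-w0 + ((g0 * (1 - ε) - w1) * S i - w2 * ((∑ k, S k) - S i)
        - (α * S i ^ 2 + 2 * β * S i * ((∑ k, S k) - S i) + γ * ((∑ k, S k) - S i) ^ 2))) =
        -(4 * w0) + ∑ i : Fin 4, ((g0 * (1 - ε) - w1) * S i - w2 * ((∑ k, S k) - S i)
        - (α * S i ^ 2 + 2 * β * S i * ((∑ k, S k) - S i) + γ * ((∑ k, S k) - S i) ^ 2)) := by
      rw [Finset.sum_add_distrib]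
      simp
    have h4 : ∑ i, (c1 * S i + c3 * S i ^ 3) ≤ c1 * (∑ i, S i) + c3 * (∑ i, S i) ^ 3 := by
      rw [Finset.sum_add_distrib, ← Finset.mul_sum, ← Finset.mul_sum]
      have h5 : ∑ i, S i ^ 3 ≤ (∑ i, S i) ^ 3 := by
        have s0 := hV.nn 0
        have s1 := hV.nn 1
        have s2 := hV.nn 2
        have s3 := hV.nn 3
        rw [Fin.sum_univ_four, Fin.sum_univ_four]
        have hT : 0 ≤ S 0 + S 1 + S 2 + S 3 := by linarith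
        have b : ∀ u : ℝ, 0 ≤ u → u ≤ S 0 + S 1 + S 2 + S 3 →
            u ^ 3 ≤ (S 0 + S 1 + S 2 + S 3) ^ 2 * u := by
          intro u hu hu2
          have := pow_le_pow_left₀ hu hu2 2
          have := mul_le_mul_of_nonneg_right this hu
          calc u ^ 3 = u ^ 2 * u := by ring
            _ ≤ _ := this
        have b0 := b _ s0 (by linarith)
        have b1 := b _ s1 (by linarith)
        have b2 := b _ s2 (by linarith)
        have b3 := b _ s3 (by linarith)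
        nlinarith
      have := mul_le_mul_of_nonneg_left h5 h3
      linarith
    rw [ew]
    linarith

end Pool.Agent.Helper73.MEI.ArCor
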