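import Pool.Agent.Helper73.MEI.MA3

/-!
# Numbers of the small ranges

`rng_*`, `apx_*`, `sml_*` = the numbers of `Σ S ≤ X'`, `ρ`; `pc_*` = the core statement on a piece
`T0 ≤ Σ S ≤ X'` from the cost of the second order term with its budget.
-/

set_option autoImplicit false

namespace Pool.Agent.Helper73.MEI.ArCor

open MeasureTheory Helper80.CW Helper82.CW Helper14.CW Helper93.MEI Helper82.M2
open Helper14.MEI2 Pool.Agent.Helper52.MEI Helper41.MEI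
open Pool.Agent.Helper31.SR
open Helper78.MEI

/-- the numbers of the range `Σ S ≤ 0.0035` -/
theorem rng_0350_43 : Rng 0.0035 0.041834 0.97041 0.061 1.0305 0.00181 0.00094 0.00019 1.00088 1.22689 1.22618 0.11485 := by
  constructor <;> norm_num

/-- the apex line, `A' = 2.04`, `ρ = 0.043` -/
theorem apx_0350_43 : Apx 0.0035 0.97041 0.1294 2.04 0.043 1.0619 0.11484 0.17628 0.23942 0.26836 0.5048 := by
  refine ⟨by norm_num, by norm_num, by norm_num, by norm_num, by norm_num, by norm_num,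
    by norm_num, by norm_num, by norm_num, by norm_num, by norm_num, by norm_num,
    by norm_num, fun T h0 h1 => ?_⟩
  nlinarith [mul_nonneg h0 (sub_nonneg.2 h1), mul_nonneg (mul_nonneg h0 h0) (sub_nonneg.2 h1),
    mul_nonneg (mul_nonneg (mul_nonneg h0 h0) h0) (sub_nonneg.2 h1),
    mul_nonneg (mul_nonneg (mul_nonneg h0 h0) (mul_nonneg h0 h0)) (sub_nonneg.2 h1)]

/-- the numbers of the price -/
theorem sml_0350_43 : Sml 2.04 0.043 0.26836 0.5048 1.00088 (1.22689 - 1.00088) 0.00019 0.061 0.1294 0 0.08033 0.24675 6.421 2.091 := by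
  constructor <;> norm_num

/-- **the piece `0.002 ≤ Σ S ≤ 0.0035`**, moments `≤ 0.043`: budget `w1 + 3 w2 + 4.08 κ ≤ 0.161` -/
theorem pc_0350_43 {c0 c1 c3 : ℝ} (hA : Asm c0 c1 c3) (hc0 : c0 ≤ 1.85e-4) (hc1 : c1 ≤ 0.0039)
    (hc3 : 0 ≤ c3) (hc3' : c3 ≤ 0.501)
    {P : (Fin 4 → ℝ) → Prop} {X κ w0 w1 w2 : ℝ} (hκ : 0 ≤ κ)
    (hP : ∀ (K : Set E3) (σ : Measure (E3 × E3)), IsFiniteMeasure σ →
      ∀ a c : Fin 4 → E3, CN K σ a c → EpsLe c X → ∀ S : Fin 4 → ℝ, Viol K a S → P S →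
      (0.002 : ℝ) ≤ ∑ i, S i ∧ ∑ i, S i ≤ 0.0035 ∧ ∀ i, S i ≤ 0.026)
    (hM : ∀ (K : Set E3) (σ : Measure (E3 × E3)), IsFiniteMeasure σ →
      ∀ a c : Fin 4 → E3, CN K σ a c → EpsLe c X → ∀ S : Fin 4 → ℝ, Viol K a S → P S →
      ∀ (τ : Equiv.Perm (Fin 4)) (p k : Fin 3), k ≠ p → MA σ a (l2 a) τ p k ≤ 0.043)
    (hW : WOKG 0.043 w0 w1 w2 0 0 0 X P) (hw0 : 0 ≤ w0)
    (hb : w1 + 3 * w2 + 4.08 * κ + 2000.0 * w0 ≤ 0.161) : CoreP P X κ := by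
  refine coreP_smallG (e := 5.4002) hA hκ hc3 (by norm_num) le_rfl le_rfl le_rfl hP hM hW
    rng_0350_43 apx_0350_43 sml_0350_43 ?_ ?_ (by norm_num) (by norm_num) ?_ ?_
  · norm_num
  · norm_num
  · have h3 : c3 * (0.002 : ℝ) ^ 3 ≤ 0.501 * (0.002 : ℝ) ^ 3 :=
      mul_le_mul_of_nonneg_right hc3' (by norm_num)
    norm_num at h3 ⊢
    linarith
  · have h3 : c3 * (0.0035 : ℝ) ^ 3 ≤ 0.501 * (0.0035 : ℝ) ^ 3 :=
      mul_le_mul_of_nonneg_right hc3' (by norm_num)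
    norm_num at h3 ⊢
    linarith

/-- the numbers of the range `Σ S ≤ 0.006` -/
theorem rng_0600_43 : Rng 0.006 0.054773 0.96126 0.0806 1.0404 0.00313 0.00164 0.00037 1.0015 1.22842 1.2272 0.11661 := by
  constructor <;> norm_num

/-- the apex line, `A' = 2.04`, `ρ = 0.043` -/
theorem apx_0600_43 : Apx 0.006 0.96126 0.171 2.04 0.043 1.06278 0.1166 0.17614 0.2395 0.26815 0.5049 := by
  refine ⟨by norm_num, by norm_num, by norm_num, by norm_num, by norm_num, by norm_num,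
    by norm_num, by norm_num, by norm_num, by norm_num, by norm_num, by norm_num,
    by norm_num, fun T h0 h1 => ?_⟩
  nlinarith [mul_nonneg h0 (sub_nonneg.2 h1), mul_nonneg (mul_nonneg h0 h0) (sub_nonneg.2 h1),
    mul_nonneg (mul_nonneg (mul_nonneg h0 h0) h0) (sub_nonneg.2 h1),
    mul_nonneg (mul_nonneg (mul_nonneg h0 h0) (mul_nonneg h0 h0)) (sub_nonneg.2 h1)]

/-- the numbers of the price -/
theorem sml_0600_43 : Sml 2.04 0.043 0.26815 0.5049 1.0015 (1.22842 - 1.0015) 0.00037 0.0806 0.171 0 0.08037 0.23329 6.483 2.234 := by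
  constructor <;> norm_num

/-- **the piece `0.0035 ≤ Σ S ≤ 0.006`**, moments `≤ 0.043`: budget `w1 + 3 w2 + 4.08 κ ≤ 0.1918` -/
theorem pc_0600_43 {c0 c1 c3 : ℝ} (hA : Asm c0 c1 c3) (hc0 : c0 ≤ 1.85e-4) (hc1 : c1 ≤ 0.0039)
    (hc3 : 0 ≤ c3) (hc3' : c3 ≤ 0.501)
    {P : (Fin 4 → ℝ) → Prop} {X κ w0 w1 w2 : ℝ} (hκ : 0 ≤ κ)
    (hP : ∀ (K : Set E3) (σ : Measure (E3 × E3)), IsFiniteMeasure σ →
      ∀ a c : Fin 4 → E3, CN K σ a c → EpsLe c X → ∀ S : Fin 4 → ℝ, Viol K a S → P S →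
      (0.0035 : ℝ) ≤ ∑ i, S i ∧ ∑ i, S i ≤ 0.006 ∧ ∀ i, S i ≤ 0.026)
    (hM : ∀ (K : Set E3) (σ : Measure (E3 × E3)), IsFiniteMeasure σ →
      ∀ a c : Fin 4 → E3, CN K σ a c → EpsLe c X → ∀ S : Fin 4 → ℝ, Viol K a S → P S →
      ∀ (τ : Equiv.Perm (Fin 4)) (p k : Fin 3), k ≠ p → MA σ a (l2 a) τ p k ≤ 0.043)
    (hW : WOKG 0.043 w0 w1 w2 0 0 0 X P) (hw0 : 0 ≤ w0)
    (hb : w1 + 3 * w2 + 4.08 * κ + 1142.9 * w0 ≤ 0.1918) : CoreP P X κ := by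
  refine coreP_smallG (e := 5.5427) hA hκ hc3 (by norm_num) le_rfl le_rfl le_rfl hP hM hW
    rng_0600_43 apx_0600_43 sml_0600_43 ?_ ?_ (by norm_num) (by norm_num) ?_ ?_
  · norm_num
  · norm_num
  · have h3 : c3 * (0.0035 : ℝ) ^ 3 ≤ 0.501 * (0.0035 : ℝ) ^ 3 :=
      mul_le_mul_of_nonneg_right hc3' (by norm_num)
    norm_num at h3 ⊢
    linarith
  · have h3 : c3 * (0.006 : ℝ) ^ 3 ≤ 0.501 * (0.006 : ℝ) ^ 3 :=
      mul_le_mul_of_nonneg_right hc3' (by norm_num)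
    norm_num at h3 ⊢
    linarith

/-- the numbers of the range `Σ S ≤ 0.0082` -/
theorem rng_0820_43 : Rng 0.0082 0.064032 0.95472 0.0949 1.0475 0.0043 0.00228 0.00057 1.00206 1.22976 1.22809 0.11815 := by
  constructor <;> norm_num

/-- the apex line, `A' = 2.04`, `ρ = 0.043` -/
theorem apx_0820_43 : Apx 0.0082 0.95472 0.2013 2.04 0.043 1.06356 0.11814 0.17601 0.23957 0.26795 0.5048 := by
  refine ⟨by norm_num, by norm_num, by norm_num, by norm_num, by norm_num, by norm_num,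
    by norm_num, by norm_num, by norm_num, by norm_num, by norm_num, by norm_num,
    by norm_num, fun T h0 h1 => ?_⟩
  nlinarith [mul_nonneg h0 (sub_nonneg.2 h1), mul_nonneg (mul_nonneg h0 h0) (sub_nonneg.2 h1),
    mul_nonneg (mul_nonneg (mul_nonneg h0 h0) h0) (sub_nonneg.2 h1),
    mul_nonneg (mul_nonneg (mul_nonneg h0 h0) (mul_nonneg h0 h0)) (sub_nonneg.2 h1)]

/-- the numbers of the price -/
theorem sml_0820_43 : Sml 2.04 0.043 0.26795 0.5048 1.00206 (1.22976 - 1.00206) 0.00057 0.0949 0.2013 0 0.08042 0.2235 6.528 2.349 := by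
  constructor <;> norm_num

/-- **the piece `0.006 ≤ Σ S ≤ 0.0082`**, moments `≤ 0.043`: budget `w1 + 3 w2 + 4.08 κ ≤ 0.1949` -/
theorem pc_0820_43 {c0 c1 c3 : ℝ} (hA : Asm c0 c1 c3) (hc0 : c0 ≤ 1.85e-4) (hc1 : c1 ≤ 0.0039)
    (hc3 : 0 ≤ c3) (hc3' : c3 ≤ 0.501)
    {P : (Fin 4 → ℝ) → Prop} {X κ w0 w1 w2 : ℝ} (hκ : 0 ≤ κ)
    (hP : ∀ (K : Set E3) (σ : Measure (E3 × E3)), IsFiniteMeasure σ →
      ∀ a c : Fin 4 → E3, CN K σ a c → EpsLe c X → ∀ S : Fin 4 → ℝ, Viol K a S → P S →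
      (0.006 : ℝ) ≤ ∑ i, S i ∧ ∑ i, S i ≤ 0.0082 ∧ ∀ i, S i ≤ 0.026)
    (hM : ∀ (K : Set E3) (σ : Measure (E3 × E3)), IsFiniteMeasure σ →
      ∀ a c : Fin 4 → E3, CN K σ a c → EpsLe c X → ∀ S : Fin 4 → ℝ, Viol K a S → P S →
      ∀ (τ : Equiv.Perm (Fin 4)) (p k : Fin 3), k ≠ p → MA σ a (l2 a) τ p k ≤ 0.043)
    (hW : WOKG 0.043 w0 w1 w2 0 0 0 X P) (hw0 : 0 ≤ w0)
    (hb : w1 + 3 * w2 + 4.08 * κ + 666.7 * w0 ≤ 0.1949) : CoreP P X κ := by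
  refine coreP_smallG (e := 5.6524) hA hκ hc3 (by norm_num) le_rfl le_rfl le_rfl hP hM hW
    rng_0820_43 apx_0820_43 sml_0820_43 ?_ ?_ (by norm_num) (by norm_num) ?_ ?_
  · norm_num
  · norm_num
  · have h3 : c3 * (0.006 : ℝ) ^ 3 ≤ 0.501 * (0.006 : ℝ) ^ 3 :=
      mul_le_mul_of_nonneg_right hc3' (by norm_num)
    norm_num at h3 ⊢
    linarith
  · have h3 : c3 * (0.0082 : ℝ) ^ 3 ≤ 0.501 * (0.0082 : ℝ) ^ 3 :=
      mul_le_mul_of_nonneg_right hc3' (by norm_num)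
    norm_num at h3 ⊢
    linarith

/-- the numbers of the range `Σ S ≤ 0.0104` -/
theorem rng_1040_43 : Rng 0.0104 0.072112 0.949 0.1075 1.0538 0.00548 0.00293 0.00078 1.0026 1.2311 1.22899 0.1197 := by
  constructor <;> norm_num

/-- the apex line, `A' = 2.04`, `ρ = 0.043` -/
theorem apx_1040_43 : Apx 0.0104 0.949 0.228 2.04 0.043 1.06434 0.11969 0.17588 0.23963 0.26775 0.5048 := by
  refine ⟨by norm_num, by norm_num, by norm_num, by norm_num, by norm_num, by norm_num,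
    by norm_num, by norm_num, by norm_num, by norm_num, by norm_num, by norm_num,
    by norm_num, fun T h0 h1 => ?_⟩
  nlinarith [mul_nonneg h0 (sub_nonneg.2 h1), mul_nonneg (mul_nonneg h0 h0) (sub_nonneg.2 h1),
    mul_nonneg (mul_nonneg (mul_nonneg h0 h0) h0) (sub_nonneg.2 h1),
    mul_nonneg (mul_nonneg (mul_nonneg h0 h0) (mul_nonneg h0 h0)) (sub_nonneg.2 h1)]

/-- the numbers of the price -/
theorem sml_1040_43 : Sml 2.04 0.043 0.26775 0.5048 1.0026 (1.2311 - 1.0026) 0.00078 0.1075 0.228 0 0.08048 0.21488 6.566 2.46 := by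
  constructor <;> norm_num

/-- **the piece `0.0082 ≤ Σ S ≤ 0.0104`**, moments `≤ 0.043`: budget `w1 + 3 w2 + 4.08 κ ≤ 0.1859` -/
theorem pc_1040_43 {c0 c1 c3 : ℝ} (hA : Asm c0 c1 c3) (hc0 : c0 ≤ 1.85e-4) (hc1 : c1 ≤ 0.0039)
    (hc3 : 0 ≤ c3) (hc3' : c3 ≤ 0.501)
    {P : (Fin 4 → ℝ) → Prop} {X κ w0 w1 w2 : ℝ} (hκ : 0 ≤ κ)
    (hP : ∀ (K : Set E3) (σ : Measure (E3 × E3)), IsFiniteMeasure σ →
      ∀ a c : Fin 4 → E3, CN K σ a c → EpsLe c X → ∀ S : Fin 4 → ℝ, Viol K a S → P S →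
      (0.0082 : ℝ) ≤ ∑ i, S i ∧ ∑ i, S i ≤ 0.0104 ∧ ∀ i, S i ≤ 0.026)
    (hM : ∀ (K : Set E3) (σ : Measure (E3 × E3)), IsFiniteMeasure σ →
      ∀ a c : Fin 4 → E3, CN K σ a c → EpsLe c X → ∀ S : Fin 4 → ℝ, Viol K a S → P S →
      ∀ (τ : Equiv.Perm (Fin 4)) (p k : Fin 3), k ≠ p → MA σ a (l2 a) τ p k ≤ 0.043)
    (hW : WOKG 0.043 w0 w1 w2 0 0 0 X P) (hw0 : 0 ≤ w0)
    (hb : w1 + 3 * w2 + 4.08 * κ + 487.9 * w0 ≤ 0.1859) : CoreP P X κ := by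
  refine coreP_smallG (e := 5.7561) hA hκ hc3 (by norm_num) le_rfl le_rfl le_rfl hP hM hW
    rng_1040_43 apx_1040_43 sml_1040_43 ?_ ?_ (by norm_num) (by norm_num) ?_ ?_
  · norm_num
  · norm_num
  · have h3 : c3 * (0.0082 : ℝ) ^ 3 ≤ 0.501 * (0.0082 : ℝ) ^ 3 :=
      mul_le_mul_of_nonneg_right hc3' (by norm_num)
    norm_num at h3 ⊢
    linarith
  · have h3 : c3 * (0.0104 : ℝ) ^ 3 ≤ 0.501 * (0.0104 : ℝ) ^ 3 :=
      mul_le_mul_of_nonneg_right hc3' (by norm_num)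
    norm_num at h3 ⊢
    linarith

/-- the numbers of the range `Σ S ≤ 0.0035` -/
theorem rng_0350_45 : Rng 0.0035 0.041834 0.97041 0.061 1.0305 0.00181 0.00094 0.00019 1.00088 1.22689 1.22618 0.11485 := by
  constructor <;> norm_num

/-- the apex line, `A' = 2.04`, `ρ = 0.045` -/
theorem apx_0350_45 : Apx 0.0035 0.97041 0.1294 2.04 0.045 1.0619 0.11484 0.17628 0.23942 0.26412 0.5056 := by
  refine ⟨by norm_num, by norm_num, by norm_num, by norm_num, by norm_num, by norm_num,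
    by norm_num, by norm_num, by norm_num, by norm_num, by norm_num, by norm_num,
    by norm_num, fun T h0 h1 => ?_⟩
  nlinarith [mul_nonneg h0 (sub_nonneg.2 h1), mul_nonneg (mul_nonneg h0 h0) (sub_nonneg.2 h1),
    mul_nonneg (mul_nonneg (mul_nonneg h0 h0) h0) (sub_nonneg.2 h1),
    mul_nonneg (mul_nonneg (mul_nonneg h0 h0) (mul_nonneg h0 h0)) (sub_nonneg.2 h1)]

/-- the numbers of the price -/
theorem sml_0350_45 : Sml 2.04 0.045 0.26412 0.5056 1.00088 (1.22689 - 1.00088) 0.00019 0.061 0.1294 0 0.08057 0.24374 6.402 2.116 := by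
  constructor <;> norm_num

/-- **the piece `0.002 ≤ Σ S ≤ 0.0035`**, moments `≤ 0.045`: budget `w1 + 3 w2 + 4.08 κ ≤ 0.1568` -/
theorem pc_0350_45 {c0 c1 c3 : ℝ} (hA : Asm c0 c1 c3) (hc0 : c0 ≤ 1.85e-4) (hc1 : c1 ≤ 0.0039)
    (hc3 : 0 ≤ c3) (hc3' : c3 ≤ 0.501)
    {P : (Fin 4 → ℝ) → Prop} {X κ w0 w1 w2 : ℝ} (hκ : 0 ≤ κ)
    (hP : ∀ (K : Set E3) (σ : Measure (E3 × E3)), IsFiniteMeasure σ →
      ∀ a c : Fin 4 → E3, CN K σ a c → EpsLe c X → ∀ S : Fin 4 → ℝ, Viol K a S → P S →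
      (0.002 : ℝ) ≤ ∑ i, S i ∧ ∑ i, S i ≤ 0.0035 ∧ ∀ i, S i ≤ 0.026)
    (hM : ∀ (K : Set E3) (σ : Measure (E3 × E3)), IsFiniteMeasure σ →
      ∀ a c : Fin 4 → E3, CN K σ a c → EpsLe c X → ∀ S : Fin 4 → ℝ, Viol K a S → P S →
      ∀ (τ : Equiv.Perm (Fin 4)) (p k : Fin 3), k ≠ p → MA σ a (l2 a) τ p k ≤ 0.045)
    (hW : WOKG 0.045 w0 w1 w2 0 0 0 X P) (hw0 : 0 ≤ w0)
    (hb : w1 + 3 * w2 + 4.08 * κ + 2000.0 * w0 ≤ 0.1568) : CoreP P X κ := by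
  refine coreP_smallG (e := 5.4155) hA hκ hc3 (by norm_num) le_rfl le_rfl le_rfl hP hM hW
    rng_0350_45 apx_0350_45 sml_0350_45 ?_ ?_ (by norm_num) (by norm_num) ?_ ?_
  · norm_num
  · norm_num
  · have h3 : c3 * (0.002 : ℝ) ^ 3 ≤ 0.501 * (0.002 : ℝ) ^ 3 :=
      mul_le_mul_of_nonneg_right hc3' (by norm_num)
    norm_num at h3 ⊢
    linarith
  · have h3 : c3 * (0.0035 : ℝ) ^ 3 ≤ 0.501 * (0.0035 : ℝ) ^ 3 :=
      mul_le_mul_of_nonneg_right hc3' (by norm_num)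
    norm_num at h3 ⊢
    linarith

/-- the numbers of the range `Σ S ≤ 0.006` -/
theorem rng_0600_45 : Rng 0.006 0.054773 0.96126 0.0806 1.0404 0.00313 0.00164 0.00037 1.0015 1.22842 1.2272 0.11661 := by
  constructor <;> norm_num

/-- the apex line, `A' = 2.04`, `ρ = 0.045` -/
theorem apx_0600_45 : Apx 0.006 0.96126 0.171 2.04 0.045 1.06278 0.1166 0.17614 0.2395 0.2639 0.5054 := by
  refine ⟨by norm_num, by norm_num, by norm_num, by norm_num, by norm_num, by norm_num,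
    by norm_num, by norm_num, by norm_num, by norm_num, by norm_num, by norm_num,
    by norm_num, fun T h0 h1 => ?_⟩
  nlinarith [mul_nonneg h0 (sub_nonneg.2 h1), mul_nonneg (mul_nonneg h0 h0) (sub_nonneg.2 h1),
    mul_nonneg (mul_nonneg (mul_nonneg h0 h0) h0) (sub_nonneg.2 h1),
    mul_nonneg (mul_nonneg (mul_nonneg h0 h0) (mul_nonneg h0 h0)) (sub_nonneg.2 h1)]

/-- the numbers of the price -/
theorem sml_0600_45 : Sml 2.04 0.045 0.2639 0.5054 1.0015 (1.22842 - 1.0015) 0.00037 0.0806 0.171 0 0.08063 0.23028 6.462 2.263 := by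
  constructor <;> norm_num

/-- **the piece `0.0035 ≤ Σ S ≤ 0.006`**, moments `≤ 0.045`: budget `w1 + 3 w2 + 4.08 κ ≤ 0.1875` -/
theorem pc_0600_45 {c0 c1 c3 : ℝ} (hA : Asm c0 c1 c3) (hc0 : c0 ≤ 1.85e-4) (hc1 : c1 ≤ 0.0039)
    (hc3 : 0 ≤ c3) (hc3' : c3 ≤ 0.501)
    {P : (Fin 4 → ℝ) → Prop} {X κ w0 w1 w2 : ℝ} (hκ : 0 ≤ κ)
    (hP : ∀ (K : Set E3) (σ : Measure (E3 × E3)), IsFiniteMeasure σ →
      ∀ a c : Fin 4 → E3, CN K σ a c → EpsLe c X → ∀ S : Fin 4 → ℝ, Viol K a S → P S →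
      (0.0035 : ℝ) ≤ ∑ i, S i ∧ ∑ i, S i ≤ 0.006 ∧ ∀ i, S i ≤ 0.026)
    (hM : ∀ (K : Set E3) (σ : Measure (E3 × E3)), IsFiniteMeasure σ →
      ∀ a c : Fin 4 → E3, CN K σ a c → EpsLe c X → ∀ S : Fin 4 → ℝ, Viol K a S → P S →
      ∀ (τ : Equiv.Perm (Fin 4)) (p k : Fin 3), k ≠ p → MA σ a (l2 a) τ p k ≤ 0.045)
    (hW : WOKG 0.045 w0 w1 w2 0 0 0 X P) (hw0 : 0 ≤ w0)
    (hb : w1 + 3 * w2 + 4.08 * κ + 1142.9 * w0 ≤ 0.1875) : CoreP P X κ := by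
  refine coreP_smallG (e := 5.5567) hA hκ hc3 (by norm_num) le_rfl le_rfl le_rfl hP hM hW
    rng_0600_45 apx_0600_45 sml_0600_45 ?_ ?_ (by norm_num) (by norm_num) ?_ ?_
  · norm_num
  · norm_num
  · have h3 : c3 * (0.0035 : ℝ) ^ 3 ≤ 0.501 * (0.0035 : ℝ) ^ 3 :=
      mul_le_mul_of_nonneg_right hc3' (by norm_num)
    norm_num at h3 ⊢
    linarith
  · have h3 : c3 * (0.006 : ℝ) ^ 3 ≤ 0.501 * (0.006 : ℝ) ^ 3 :=
      mul_le_mul_of_nonneg_right hc3' (by norm_num)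
    norm_num at h3 ⊢
    linarith

/-- the numbers of the range `Σ S ≤ 0.0082` -/
theorem rng_0820_45 : Rng 0.0082 0.064032 0.95472 0.0949 1.0475 0.0043 0.00228 0.00057 1.00206 1.22976 1.22809 0.11815 := by
  constructor <;> norm_num

/-- the apex line, `A' = 2.04`, `ρ = 0.045` -/
theorem apx_0820_45 : Apx 0.0082 0.95472 0.2013 2.04 0.045 1.06356 0.11814 0.17601 0.23957 0.26372 0.5057 := by
  refine ⟨by norm_num, by norm_num, by norm_num, by norm_num, by norm_num, by norm_num,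
    by norm_num, by norm_num, by norm_num, by norm_num, by norm_num, by norm_num,
    by norm_num, fun T h0 h1 => ?_⟩
  nlinarith [mul_nonneg h0 (sub_nonneg.2 h1), mul_nonneg (mul_nonneg h0 h0) (sub_nonneg.2 h1),
    mul_nonneg (mul_nonneg (mul_nonneg h0 h0) h0) (sub_nonneg.2 h1),
    mul_nonneg (mul_nonneg (mul_nonneg h0 h0) (mul_nonneg h0 h0)) (sub_nonneg.2 h1)]

/-- the numbers of the price -/
theorem sml_0820_45 : Sml 2.04 0.045 0.26372 0.5057 1.00206 (1.22976 - 1.00206) 0.00057 0.0949 0.2013 0 0.08066 0.2205 6.508 2.381 := by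
  constructor <;> norm_num

/-- **the piece `0.006 ≤ Σ S ≤ 0.0082`**, moments `≤ 0.045`: budget `w1 + 3 w2 + 4.08 κ ≤ 0.1905` -/
theorem pc_0820_45 {c0 c1 c3 : ℝ} (hA : Asm c0 c1 c3) (hc0 : c0 ≤ 1.85e-4) (hc1 : c1 ≤ 0.0039)
    (hc3 : 0 ≤ c3) (hc3' : c3 ≤ 0.501)
    {P : (Fin 4 → ℝ) → Prop} {X κ w0 w1 w2 : ℝ} (hκ : 0 ≤ κ)
    (hP : ∀ (K : Set E3) (σ : Measure (E3 × E3)), IsFiniteMeasure σ →
      ∀ a c : Fin 4 → E3, CN K σ a c → EpsLe c X → ∀ S : Fin 4 → ℝ, Viol K a S → P S →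
      (0.006 : ℝ) ≤ ∑ i, S i ∧ ∑ i, S i ≤ 0.0082 ∧ ∀ i, S i ≤ 0.026)
    (hM : ∀ (K : Set E3) (σ : Measure (E3 × E3)), IsFiniteMeasure σ →
      ∀ a c : Fin 4 → E3, CN K σ a c → EpsLe c X → ∀ S : Fin 4 → ℝ, Viol K a S → P S →
      ∀ (τ : Equiv.Perm (Fin 4)) (p k : Fin 3), k ≠ p → MA σ a (l2 a) τ p k ≤ 0.045)
    (hW : WOKG 0.045 w0 w1 w2 0 0 0 X P) (hw0 : 0 ≤ w0)
    (hb : w1 + 3 * w2 + 4.08 * κ + 666.7 * w0 ≤ 0.1905) : CoreP P X κ := by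
  refine coreP_smallG (e := 5.6738) hA hκ hc3 (by norm_num) le_rfl le_rfl le_rfl hP hM hW
    rng_0820_45 apx_0820_45 sml_0820_45 ?_ ?_ (by norm_num) (by norm_num) ?_ ?_
  · norm_num
  · norm_num
  · have h3 : c3 * (0.006 : ℝ) ^ 3 ≤ 0.501 * (0.006 : ℝ) ^ 3 :=
      mul_le_mul_of_nonneg_right hc3' (by norm_num)
    norm_num at h3 ⊢
    linarith
  · have h3 : c3 * (0.0082 : ℝ) ^ 3 ≤ 0.501 * (0.0082 : ℝ) ^ 3 :=
      mul_le_mul_of_nonneg_right hc3' (by norm_num)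
    norm_num at h3 ⊢
    linarith

/-- the numbers of the range `Σ S ≤ 0.0104` -/
theorem rng_1040_45 : Rng 0.0104 0.072112 0.949 0.1075 1.0538 0.00548 0.00293 0.00078 1.0026 1.2311 1.22899 0.1197 := by
  constructor <;> norm_num

/-- the apex line, `A' = 2.04`, `ρ = 0.045` -/
theorem apx_1040_45 : Apx 0.0104 0.949 0.228 2.04 0.045 1.06434 0.11969 0.17588 0.23963 0.26352 0.5055 := by
  refine ⟨by norm_num, by norm_num, by norm_num, by norm_num, by norm_num, by norm_num,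
    by norm_num, by norm_num, by norm_num, by norm_num, by norm_num, by norm_num,
    by norm_num, fun T h0 h1 => ?_⟩
  nlinarith [mul_nonneg h0 (sub_nonneg.2 h1), mul_nonneg (mul_nonneg h0 h0) (sub_nonneg.2 h1),
    mul_nonneg (mul_nonneg (mul_nonneg h0 h0) h0) (sub_nonneg.2 h1),
    mul_nonneg (mul_nonneg (mul_nonneg h0 h0) (mul_nonneg h0 h0)) (sub_nonneg.2 h1)]

/-- the numbers of the price -/
theorem sml_1040_45 : Sml 2.04 0.045 0.26352 0.5055 1.0026 (1.2311 - 1.0026) 0.00078 0.1075 0.228 0 0.08072 0.21188 6.547 2.494 := by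
  constructor <;> norm_num

/-- **the piece `0.0082 ≤ Σ S ≤ 0.0104`**, moments `≤ 0.045`: budget `w1 + 3 w2 + 4.08 κ ≤ 0.1814` -/
theorem pc_1040_45 {c0 c1 c3 : ℝ} (hA : Asm c0 c1 c3) (hc0 : c0 ≤ 1.85e-4) (hc1 : c1 ≤ 0.0039)
    (hc3 : 0 ≤ c3) (hc3' : c3 ≤ 0.501)
    {P : (Fin 4 → ℝ) → Prop} {X κ w0 w1 w2 : ℝ} (hκ : 0 ≤ κ)
    (hP : ∀ (K : Set E3) (σ : Measure (E3 × E3)), IsFiniteMeasure σ →
      ∀ a c : Fin 4 → E3, CN K σ a c → EpsLe c X → ∀ S : Fin 4 → ℝ, Viol K a S → P S →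
      (0.0082 : ℝ) ≤ ∑ i, S i ∧ ∑ i, S i ≤ 0.0104 ∧ ∀ i, S i ≤ 0.026)
    (hM : ∀ (K : Set E3) (σ : Measure (E3 × E3)), IsFiniteMeasure σ →
      ∀ a c : Fin 4 → E3, CN K σ a c → EpsLe c X → ∀ S : Fin 4 → ℝ, Viol K a S → P S →
      ∀ (τ : Equiv.Perm (Fin 4)) (p k : Fin 3), k ≠ p → MA σ a (l2 a) τ p k ≤ 0.045)
    (hW : WOKG 0.045 w0 w1 w2 0 0 0 X P) (hw0 : 0 ≤ w0)
    (hb : w1 + 3 * w2 + 4.08 * κ + 487.9 * w0 ≤ 0.1814) : CoreP P X κ := by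
  refine coreP_smallG (e := 5.7775) hA hκ hc3 (by norm_num) le_rfl le_rfl le_rfl hP hM hW
    rng_1040_45 apx_1040_45 sml_1040_45 ?_ ?_ (by norm_num) (by norm_num) ?_ ?_
  · norm_num
  · norm_num
  · have h3 : c3 * (0.0082 : ℝ) ^ 3 ≤ 0.501 * (0.0082 : ℝ) ^ 3 :=
      mul_le_mul_of_nonneg_right hc3' (by norm_num)
    norm_num at h3 ⊢
    linarith
  · have h3 : c3 * (0.0104 : ℝ) ^ 3 ≤ 0.501 * (0.0104 : ℝ) ^ 3 :=
      mul_le_mul_of_nonneg_right hc3' (by norm_num)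
    norm_num at h3 ⊢
    linarith

end Pool.Agent.Helper73.MEI.ArCor
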