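import Pool.Agent.Helper73.MEI.Reg1
import Pool.Agent.Helper21.MEI.Alp

/-!
# MEI M2, regime I: the edge part without open hypotheses
-/

set_option autoImplicit false

namespace Pool.Agent.Helper73.MEI

open Set MeasureTheory Filter Topology Metric
open Helper80.CW Helper22.Wedge Helper22.Sig Helper14.CW Helper14.MEI2 Helper93.MEI
open Pool.Agent.Helper95.MEI.Cst (vAs vAx)
open Pool.Agent.Helper95.MEI.Fub (Zp exn)
open scoped RealInnerProductSpace ContDiff Real

section global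
variable {a : Fin 4 → E3} {K : Set E3} {σ : Measure (E3 × E3)} [IsFiniteMeasure σ]
  {B : Fin 3 → Bool → OrthonormalBasis (Fin 3) ℝ E3}

/-- **regime I**: faces against the negative parts of the edges, no open hypothesis -/
theorem reg1_final (h : PM K σ) (ha : ∀ i j, i ≠ j → dist (a i) (a j) = 1)
    (hp : ∀ x ∈ K, Pl a x) (hz : ∀ᵐ z ∂σ, Pl a z.1 ∧ ∀ k, bar a k z.1 ≠ 0)
    (hd : ∀ x ∈ K, ∀ y ∈ K, ‖x - y‖ ≤ 1)
    (hull : ∀ p, (∀ q ∈ K, ‖p - q‖ ≤ 1) → p ∈ K)
    (hB : ∀ m e, Fr (fun i => a (pr m e i)) (B m e)) {S : Fin 4 → ℝ} (hS0 : ∀ i, 0 ≤ S i)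
    (hS : ∀ i, S i ≤ 0.002) (hQ : ∀ x ∈ K, ∀ i, Qv a i x ≤ S i) :
    FT a σ + 3.97 * (∑ i, volume.real (K ∩ Wc a i) - 4 * (Om / 3 - √2 / 12))
      - 1.72 * (√2 / 12 - volume.real (K ∩ T0 a)) - 0.1351 * (S 0 + S 1 + S 2 + S 3)
      - ∑ m, ((∫ z in Zp (fun i => a (pr m false i)) 2 3, exn (fun i => a (pr m false i)) z ∂σ) +
          ∫ z in Zp (fun i => a (pr m true i)) 2 3, exn (fun i => a (pr m true i)) z ∂σ) ≤
    4.22 * (volume.real K - Helper82.CW.VM) := by
  have hcomp : ∀ p, (∀ q ∈ K, dist p q ≤ 1) → p ∈ K := fun p hq =>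
    hull p fun q hqK => by rw [← dist_eq_norm]; exact hq q hqK
  have ha' : ∀ m e, ∀ i j, i ≠ j → dist ((fun i => a (pr m e i)) i)
      ((fun i => a (pr m e i)) j) = 1 :=
    fun m e i j hij => ha _ _ (fun h => hij ((pr m e).injective h))
  have hp' : ∀ m e, ∀ x ∈ K, Pl (fun i => a (pr m e i)) x := fun m e x hx => Pl_perm _ (hp x hx)
  have hc : ∀ m e, cen (fun i => a (pr m e i)) = cen a := fun m e => cen_perm _
  have hsum : ∀ m e, S (pr m e 0) + S (pr m e 1) + S (pr m e 2) + S (pr m e 3) =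
      S 0 + S 1 + S 2 + S 3 := by
    intro m e
    have := Equiv.sum_comp (pr m e) S
    rwa [Fin.sum_univ_four, Fin.sum_univ_four] at this
  refine reg1_star h ha hp hz hd hull hB hS0 hS hQ ?_ ?_
  · intro m e
    have h1 := Helper21.Alp.alpha (S := fun i => S (pr m e i)) (ha' m e) h hcomp (hp' m e)
      (hB m e) (fun x hx i => hQ x hx _) (fun i => hS0 _) (fun i => hS _)
    rw [hc] at h1
    have h2 := hsum m e
    have h3 := hS0 (pr m e 0)
    have h4 := hS0 (pr m e 1)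
    refine le_trans ?_ h1
    linarith
  · intro m e
    have h1 := Helper21.Alp.null (S := fun i => S (pr m e i)) (ha' m e) h hcomp (hp' m e)
      (hB m e) (fun x hx i => hQ x hx _) (fun i => hS0 _) (fun i => hS _)
    exact h1.trans (by norm_num)

end global

end Pool.Agent.Helper73.MEI
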