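import Pool.Agent.Helper31.ARC.ArcP
import Pool.Agent.Helper55.MEI.Sx6

/-!
# Arc loads on a uniform share of the side functions, exact contact coordinates

`P` is the matrix of the contact nodes and `mu P (vt t)` the contact coordinates of the direction
`t`.  The side function opposite to the coordinate `l`, with the other two coordinates `j, k`, is
`fl l x = max 0 (min ((x_j + x_k - x_l) / 2) (min x_j x_k))`.  The three side functions can be used
together: the two side functions living on a coordinate have sum at most this coordinate.  The file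
computes their moments on the flat simplex and bounds their mass in the coordinates of the contact
points from below.
-/

set_option autoImplicit false

namespace Pool.Agent.Helper73.MEI.SideP

open Set MeasureTheory Matrix Pool.Agent.Helper55.Sx Pool.Agent.Helper55.Mass
open Helper75.MEI2 (vt Qf mu TC nn dd qp)
open Helper29.MEI (TD)

/-- homogeneous side function opposite to the coordinate `l` -/
noncomputable def fl (l : Fin 3) (x : Fin 3 → ℝ) : ℝ :=
  max 0 (min ((x (l + 1) + x (l + 2) - x l) / 2) (min (x (l + 1)) (x (l + 2))))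

theorem fl_cont (l : Fin 3) : Continuous (fl l) := by
  unfold fl
  fun_prop

theorem fl_nonneg (l : Fin 3) (x : Fin 3 → ℝ) : 0 ≤ fl l x := le_max_left _ _

theorem fl_le1 (l : Fin 3) {x : Fin 3 → ℝ} (hx : 0 ≤ x (l + 1)) : fl l x ≤ x (l + 1) :=
  max_le hx ((min_le_right _ _).trans (min_le_left _ _))

theorem fl_le2 (l : Fin 3) {x : Fin 3 → ℝ} (hx : 0 ≤ x (l + 2)) : fl l x ≤ x (l + 2) :=
  max_le hx ((min_le_right _ _).trans (min_le_right _ _))

theorem fl_smul (l : Fin 3) {c : ℝ} (hc : 0 < c) (x : Fin 3 → ℝ) :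
    fl l (c • x) = c * fl l x := by
  unfold fl
  simp only [Pi.smul_apply, smul_eq_mul]
  rw [mul_max_of_nonneg _ _ hc.le, mul_min_of_nonneg _ _ hc.le, mul_min_of_nonneg _ _ hc.le,
    mul_zero]
  congr 2
  ring

/-- **the three side functions can be used together** -/
theorem fl_pair {x : Fin 3 → ℝ} (h : ∀ k, 0 ≤ x k) :
    fl 1 x + fl 2 x ≤ x 0 ∧ fl 0 x + fl 2 x ≤ x 1 ∧ fl 0 x + fl 1 x ≤ x 2 := by
  have h0 := h 0
  have h1 := h 1
  have h2 := h 2
  have key : ∀ a b c : ℝ, 0 ≤ a → max 0 (min ((a + b - c) / 2) (min a b)) +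
      max 0 (min ((a + c - b) / 2) (min a c)) ≤ a := by
    intro a b c ha
    rcases max_choice 0 (min ((a + b - c) / 2) (min a b)) with h3 | h3
    · rw [h3, zero_add]
      exact max_le ha ((min_le_right _ _).trans (min_le_left _ _))
    · rw [h3]
      rcases max_choice 0 (min ((a + c - b) / 2) (min a c)) with h4 | h4
      · rw [h4, add_zero]
        exact (min_le_right _ _).trans (min_le_left _ _)
      · rw [h4]
        have k1 := min_le_left ((a + b - c) / 2) (min a b)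
        have k2 := min_le_left ((a + c - b) / 2) (min a c)
        linarith
  have e0 : fl 0 x = max 0 (min ((x 1 + x 2 - x 0) / 2) (min (x 1) (x 2))) := rfl
  have e1 : fl 1 x = max 0 (min ((x 2 + x 0 - x 1) / 2) (min (x 2) (x 0))) := rfl
  have e2 : fl 2 x = max 0 (min ((x 0 + x 1 - x 2) / 2) (min (x 0) (x 1))) := rfl
  have e0' : fl 0 x = max 0 (min ((x 2 + x 1 - x 0) / 2) (min (x 2) (x 1))) := by
    rw [e0, min_comm (x 1), add_comm (x 1)]
  have e1' : fl 1 x = max 0 (min ((x 0 + x 2 - x 1) / 2) (min (x 0) (x 2))) := by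
    rw [e1, min_comm (x 2), add_comm (x 2)]
  have e2' : fl 2 x = max 0 (min ((x 1 + x 0 - x 2) / 2) (min (x 1) (x 0))) := by
    rw [e2, min_comm (x 0), add_comm (x 0)]
  refine ⟨?_, ?_, ?_⟩
  · rw [e1', e2]
    have := key (x 0) (x 2) (x 1) h0
    exact this
  · rw [e0, e2']
    have := key (x 1) (x 2) (x 0) h1
    exact this
  · rw [e0', e1]
    have := key (x 2) (x 1) (x 0) h2
    exact this

theorem fl_vt0 (t : ℝ × ℝ) : fl 0 (vt t) = xs t.1 t.2 (t3 t) := by
  show max 0 (min ((t.2 + (1 - t.1 - t.2) - t.1) / 2) (min t.2 (1 - t.1 - t.2))) =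
    max 0 (min (1 / 2 - t.1) (min t.2 (1 - t.1 - t.2)))
  have : (t.2 + (1 - t.1 - t.2) - t.1) / 2 = 1 / 2 - t.1 := by ring
  rw [this]

theorem fl_vt1 (t : ℝ × ℝ) : fl 1 (vt t) = xs t.2 t.1 (t3 t) := by
  show max 0 (min (((1 - t.1 - t.2) + t.1 - t.2) / 2) (min (1 - t.1 - t.2) t.1)) =
    max 0 (min (1 / 2 - t.2) (min t.1 (1 - t.1 - t.2)))
  have : ((1 - t.1 - t.2) + t.1 - t.2) / 2 = 1 / 2 - t.2 := by ring
  rw [this, min_comm (1 - t.1 - t.2)]

theorem fl_vt2 (t : ℝ × ℝ) : fl 2 (vt t) = xs (t3 t) t.1 t.2 := by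
  show max 0 (min ((t.1 + t.2 - (1 - t.1 - t.2)) / 2) (min t.1 t.2)) =
    max 0 (min (1 / 2 - (1 - t.1 - t.2)) (min t.1 t.2))
  have : (t.1 + t.2 - (1 - t.1 - t.2)) / 2 = 1 / 2 - (1 - t.1 - t.2) := by ring
  rw [this]

/-! ### the moments on the flat simplex -/

theorem int_ab (a0 a1 a2 a3 p q : ℝ) :
    ∫ y in p..q, (a0 + a1 * y + a2 * y ^ 2 + a3 * y ^ 3) =
      (a0 * q + a1 * q ^ 2 / 2 + a2 * q ^ 3 / 3 + a3 * q ^ 4 / 4) -
        (a0 * p + a1 * p ^ 2 / 2 + a2 * p ^ 3 / 3 + a3 * p ^ 4 / 4) := by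
  have hc : Continuous fun y : ℝ => a0 + a1 * y + a2 * y ^ 2 + a3 * y ^ 3 := by fun_prop
  rw [← Helper75.MEI2.int_c3, ← Helper75.MEI2.int_c3,
    intervalIntegral.integral_interval_sub_left (hc.intervalIntegrable _ _)
      (hc.intervalIntegrable _ _)]

/-- inner integral of the side function against a quadratic polynomial -/
theorem inner_mom (g0 g1 g2 : ℝ) {x : ℝ} (hx : 0 ≤ x) (hx2 : x ≤ 1 / 2) :
    ∫ y in (0 : ℝ)..(1 - x), xs x y (1 - x - y) * (g0 + g1 * y + g2 * y ^ 2) =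
      g0 * (1 / 4 - x / 2) + g1 * (1 / 8 - 3 / 8 * x + x ^ 2 / 4) +
        g2 * (7 / 96 - 7 / 24 * x + 3 / 8 * x ^ 2 - x ^ 3 / 6) := by
  set F : ℝ → ℝ := fun y => xs x y (1 - x - y) * (g0 + g1 * y + g2 * y ^ 2) with hF
  have hFc : Continuous F := by
    rw [hF]
    unfold xs
    fun_prop
  have hi : ∀ p q, IntervalIntegrable F volume p q := fun p q => hFc.intervalIntegrable _ _
  have hsplit : ∫ y in (0 : ℝ)..(1 - x), F y = (∫ y in (0 : ℝ)..(1 / 2 - x), F y) +
      (∫ y in (1 / 2 - x)..(1 / 2), F y) + ∫ y in (1 / 2 : ℝ)..(1 - x), F y := by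
    rw [intervalIntegral.integral_add_adjacent_intervals (hi _ _) (hi _ _),
      intervalIntegral.integral_add_adjacent_intervals (hi _ _) (hi _ _)]
  rw [hsplit]
  have p1 : ∫ y in (0 : ℝ)..(1 / 2 - x), F y =
      ∫ y in (0 : ℝ)..(1 / 2 - x), (0 + g0 * y + g1 * y ^ 2 + g2 * y ^ 3) := by
    refine intervalIntegral.integral_congr fun y hy => ?_
    rw [uIcc_of_le (by linarith)] at hy
    obtain ⟨h1, h2⟩ := hy
    have e : xs x y (1 - x - y) = y := by
      unfold xs
      rw [min_eq_left (by linarith : y ≤ 1 - x - y), min_eq_right (by linarith : y ≤ 1 / 2 - x),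
        max_eq_right h1]
    simp only [hF, e]
    ring
  have p2 : ∫ y in (1 / 2 - x)..(1 / 2), F y =
      ∫ y in (1 / 2 - x)..(1 / 2), ((1 / 2 - x) * g0 + (1 / 2 - x) * g1 * y +
        (1 / 2 - x) * g2 * y ^ 2 + 0 * y ^ 3) := by
    refine intervalIntegral.integral_congr fun y hy => ?_
    rw [uIcc_of_le (by linarith)] at hy
    obtain ⟨h1, h2⟩ := hy
    have e : xs x y (1 - x - y) = 1 / 2 - x := by
      unfold xs
      rw [min_eq_left (le_min h1 (by linarith) : 1 / 2 - x ≤ min y (1 - x - y)),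
        max_eq_right (by linarith)]
    simp only [hF, e]
    ring
  have p3 : ∫ y in (1 / 2 : ℝ)..(1 - x), F y =
      ∫ y in (1 / 2 : ℝ)..(1 - x), ((1 - x) * g0 + ((1 - x) * g1 - g0) * y +
        ((1 - x) * g2 - g1) * y ^ 2 + (-g2) * y ^ 3) := by
    refine intervalIntegral.integral_congr fun y hy => ?_
    rw [uIcc_of_le (by linarith)] at hy
    obtain ⟨h1, h2⟩ := hy
    have e : xs x y (1 - x - y) = 1 - x - y := by
      unfold xs
      rw [min_eq_right (by linarith : 1 - x - y ≤ y),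
        min_eq_right (by linarith : 1 - x - y ≤ 1 / 2 - x), max_eq_right (by linarith)]
    simp only [hF, e]
    ring
  rw [p1, p2, p3, int_ab, int_ab, int_ab]
  ring

theorem inner_zero (g : ℝ → ℝ) {x : ℝ} (hx : 1 / 2 ≤ x) :
    ∫ y in (0 : ℝ)..(1 - x), xs x y (1 - x - y) * g y = 0 := by
  have : ∀ y, xs x y (1 - x - y) * g y = 0 := by
    intro y
    have e : xs x y (1 - x - y) = 0 := by
      unfold xs
      exact max_eq_left ((min_le_left _ _).trans (by linarith))
    rw [e, zero_mul]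
  simp only [this]
  exact intervalIntegral.integral_zero

/-- **moments of the side function opposite to the first coordinate** -/
theorem mom0 (a b c d e f : ℝ) :
    ∫ t in Sim, xs t.1 t.2 (t3 t) * qp a b c d e f t.1 t.2 =
      a / 16 + b / 96 + 5 / 192 * c + d / 384 + e / 256 + 5 / 384 * f := by
  have hc : Continuous fun t : ℝ × ℝ => xs t.1 t.2 (t3 t) * qp a b c d e f t.1 t.2 := by
    refine Continuous.mul ?_ (Helper75.MEI2.qp_cont a b c d e f)
    unfold xs t3
    fun_prop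
  rw [int_Sim hc]
  set G : ℝ → ℝ := fun x => ∫ y in (0 : ℝ)..(1 - x),
    xs x y (1 - x - y) * ((a + b * x + d * x ^ 2) + (c + e * x) * y + f * y ^ 2) with hG
  have e1 : ∀ x, ∫ y in (0 : ℝ)..(1 - x), xs (x, y).1 (x, y).2 (t3 (x, y)) *
      qp a b c d e f (x, y).1 (x, y).2 = G x := by
    intro x
    rw [hG]
    refine intervalIntegral.integral_congr fun y _ => ?_
    simp only [t3, qp]
    ring
  simp only [e1]
  have g1 : ∀ x ∈ Icc (0 : ℝ) (1 / 2), G x = (a / 4 + c / 8 + 7 / 96 * f) +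
      (b / 4 - a / 2 + e / 8 - 3 / 8 * c - 7 / 24 * f) * x +
      (d / 4 - b / 2 + c / 4 - 3 / 8 * e + 3 / 8 * f) * x ^ 2 +
      (-d / 2 + e / 4 - f / 6) * x ^ 3 := by
    intro x hx
    rw [hG]
    simp only
    rw [inner_mom _ _ _ hx.1 hx.2]
    ring
  have g2 : ∀ x ∈ Icc (1 / 2 : ℝ) 1, G x = 0 := by
    intro x hx
    rw [hG]
    exact inner_zero (fun y => (a + b * x + d * x ^ 2) + (c + e * x) * y + f * y ^ 2) hx.1
  have i1 : ∫ x in (0 : ℝ)..(1 / 2), G x = ∫ x in (0 : ℝ)..(1 / 2),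
      ((a / 4 + c / 8 + 7 / 96 * f) +
      (b / 4 - a / 2 + e / 8 - 3 / 8 * c - 7 / 24 * f) * x +
      (d / 4 - b / 2 + c / 4 - 3 / 8 * e + 3 / 8 * f) * x ^ 2 +
      (-d / 2 + e / 4 - f / 6) * x ^ 3) := by
    refine intervalIntegral.integral_congr fun x hx => ?_
    rw [uIcc_of_le (by norm_num)] at hx
    exact g1 x hx
  have i2 : ∫ x in (1 / 2 : ℝ)..1, G x = 0 := by
    have : ∫ x in (1 / 2 : ℝ)..1, G x = ∫ x in (1 / 2 : ℝ)..1, (0 : ℝ) := by
      refine intervalIntegral.integral_congr fun x hx => ?_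
      rw [uIcc_of_le (by norm_num)] at hx
      exact g2 x hx
    rw [this, intervalIntegral.integral_zero]
  have hI1 : IntervalIntegrable G volume 0 (1 / 2) := by
    have hp : IntervalIntegrable (fun x : ℝ => (a / 4 + c / 8 + 7 / 96 * f) +
      (b / 4 - a / 2 + e / 8 - 3 / 8 * c - 7 / 24 * f) * x +
      (d / 4 - b / 2 + c / 4 - 3 / 8 * e + 3 / 8 * f) * x ^ 2 +
      (-d / 2 + e / 4 - f / 6) * x ^ 3) volume 0 (1 / 2) :=
      (by fun_prop : Continuous fun x : ℝ => (a / 4 + c / 8 + 7 / 96 * f) +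
      (b / 4 - a / 2 + e / 8 - 3 / 8 * c - 7 / 24 * f) * x +
      (d / 4 - b / 2 + c / 4 - 3 / 8 * e + 3 / 8 * f) * x ^ 2 +
      (-d / 2 + e / 4 - f / 6) * x ^ 3).intervalIntegrable _ _
    refine hp.congr fun x hx => ?_
    rw [uIoc_of_le (by norm_num)] at hx
    exact (g1 x ⟨hx.1.le, hx.2⟩).symm
  have hI2 : IntervalIntegrable G volume (1 / 2) 1 := by
    have hp : IntervalIntegrable (fun _ : ℝ => (0 : ℝ)) volume (1 / 2) 1 :=
      continuous_const.intervalIntegrable _ _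
    refine hp.congr fun x hx => ?_
    rw [uIoc_of_le (by norm_num)] at hx
    exact (g2 x ⟨hx.1.le, hx.2⟩).symm
  rw [← intervalIntegral.integral_add_adjacent_intervals hI1 hI2, i1, i2, int_ab]
  ring

/-- **moments of the side function opposite to the second coordinate** -/
theorem mom1 (a b c d e f : ℝ) :
    ∫ t in Sim, xs t.2 t.1 (t3 t) * qp a b c d e f t.1 t.2 =
      a / 16 + 5 / 192 * b + c / 96 + 5 / 384 * d + e / 256 + f / 384 := by
  have h := mom0 a c b f e d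
  rw [← Sim_swap] at h
  have e1 : ∫ t in Sim, xs t.2 t.1 (t3 t) * qp a b c d e f t.1 t.2 =
      ∫ t in Sim, xs (t.2, t.1).1 (t.2, t.1).2 (t3 (t.2, t.1)) *
        qp a c b f e d (t.2, t.1).1 (t.2, t.1).2 := by
    refine integral_congr_ae (Filter.Eventually.of_forall fun t => ?_)
    have e3 : t3 (t.2, t.1) = t3 t := by
      simp only [t3]
      ring
    simp only [e3]
    unfold qp
    ring
  rw [e1, h]
  ring

/-- **moments of the side function opposite to the third coordinate** -/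
theorem mom2 (a b c d e f : ℝ) :
    ∫ t in Sim, xs (t3 t) t.1 t.2 * qp a b c d e f t.1 t.2 =
      a / 16 + 5 / 192 * b + 5 / 192 * c + 5 / 384 * d + 7 / 768 * e + 5 / 384 * f := by
  have h := mom0 (a + b + d) (-b - 2 * d) (-b + c - 2 * d + e) d (2 * d - e) (d - e + f)
  rw [← Sim_sh] at h
  have e1 : ∫ t in Sim, xs (t3 t) t.1 t.2 * qp a b c d e f t.1 t.2 =
      ∫ t in Sim, xs (sh t).1 (sh t).2 (t3 (sh t)) *
        qp (a + b + d) (-b - 2 * d) (-b + c - 2 * d + e) d (2 * d - e) (d - e + f)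
          (sh t).1 (sh t).2 := by
    refine integral_congr_ae (Filter.Eventually.of_forall fun t => ?_)
    have k1 : (sh t).1 = t3 t := rfl
    have k2 : (sh t).2 = t.2 := rfl
    have k3 : t3 (sh t) = t.1 := by
      simp only [t3, sh]
      ring
    simp only [k1, k2, k3]
    rw [xs_comm]
    simp only [qp, t3]
    ring
  rw [e1, h]
  ring

/-- the mean of the quadratic form against the side function -/
noncomputable def mb (P : Matrix (Fin 3) (Fin 3) ℝ) (l : Fin 3) : ℝ :=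
  nn P l / 6 + 5 / 12 * (nn P (l + 1) + nn P (l + 2)) - (dd P l (l + 1) + dd P l (l + 2)) / 16
    - 7 / 48 * dd P (l + 1) (l + 2)

theorem dd_comm (P : Matrix (Fin 3) (Fin 3) ℝ) (j k : Fin 3) : dd P j k = dd P k j := by
  unfold dd Qf
  ring

theorem mean_fl (P : Matrix (Fin 3) (Fin 3) ℝ) (l : Fin 3) :
    ∫ t in TD, fl l (vt t) * Qf (P *ᵥ vt t) = mb P l / 16 := by
  have hTD : TD = Sim := rfl
  rw [hTD]
  simp only [Helper75.MEI2.Qf_mv]
  fin_cases l
  · simp only [Fin.zero_eta, fl_vt0]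
    rw [mom0]
    have e : mb P 0 = nn P 0 / 6 + 5 / 12 * (nn P 1 + nn P 2) - (dd P 0 1 + dd P 0 2) / 16
      - 7 / 48 * dd P 1 2 := rfl
    rw [e]
    ring
  · simp only [Fin.mk_one, fl_vt1]
    rw [mom1]
    have e : mb P 1 = nn P 1 / 6 + 5 / 12 * (nn P 2 + nn P 0) - (dd P 1 2 + dd P 1 0) / 16
      - 7 / 48 * dd P 2 0 := rfl
    rw [e, dd_comm P 1 0, dd_comm P 2 0]
    ring
  · simp only [Fin.reduceFinMk, fl_vt2]
    rw [mom2]
    have e : mb P 2 = nn P 2 / 6 + 5 / 12 * (nn P 0 + nn P 1) - (dd P 2 0 + dd P 2 1) / 16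
      - 7 / 48 * dd P 0 1 := rfl
    rw [e, dd_comm P 2 0, dd_comm P 2 1]
    ring

theorem total_fl (l : Fin 3) : ∫ t in TD, fl l (vt t) = 1 / 16 := by
  have hTD : TD = Sim := rfl
  have hq : ∀ x y : ℝ, qp 1 0 0 0 0 0 x y = 1 := by
    intro x y
    unfold qp
    ring
  rw [hTD]
  fin_cases l
  · have h := mom0 1 0 0 0 0 0
    simp only [hq, mul_one] at h
    simp only [Fin.zero_eta, fl_vt0]
    rw [h]
    norm_num
  · have h := mom1 1 0 0 0 0 0
    simp only [hq, mul_one] at h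
    simp only [Fin.mk_one, fl_vt1]
    rw [h]
    norm_num
  · have h := mom2 1 0 0 0 0 0
    simp only [hq, mul_one] at h
    simp only [Fin.reduceFinMk, fl_vt2]
    rw [h]
    norm_num

/-- lower bound by the tangent weight, general total and mean -/
theorem fQ_ge' {P : Matrix (Fin 3) (Fin 3) ℝ} (hP : ∀ i j, 0 ≤ P i j) (hd : 0 < P.det)
    {f : ℝ × ℝ → ℝ} (hf : Continuous f) (hf0 : ∀ t ∈ TD, 0 ≤ f t) {c F : ℝ} (hF : 0 < F)
    (h1 : ∫ t in TD, f t = F) (h2 : ∫ t in TD, f t * Qf (P *ᵥ vt t) = F * c) :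
    0 < c ∧ F / c ^ 2 ≤ ∫ t in TD, f t / Qf (P *ᵥ vt t) ^ 2 := by
  have hTDm := Helper29.MEI.TD_meas
  have hTDc := Helper29.MEI.TD_compact
  have i1 : IntegrableOn f TD := hf.continuousOn.integrableOn_compact hTDc
  have i2 : IntegrableOn (fun t => f t * Qf (P *ᵥ vt t)) TD :=
    (hf.mul ((Helper75.MEI2.Qf_cont.comp (Helper75.MEI2.mv_cont P)).comp
      Helper75.MEI2.vt_cont)).continuousOn.integrableOn_compact hTDc
  have hc0 : 0 ≤ c := by
    have h3 : 0 ≤ ∫ t in TD, f t * Qf (P *ᵥ vt t) :=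
      setIntegral_nonneg hTDm fun t ht => mul_nonneg (hf0 t ht) (Helper75.MEI2.Qf_nonneg _)
    rw [h2] at h3
    exact nonneg_of_mul_nonneg_right h3 hF
  have hc : 0 < c := by
    rcases eq_or_lt_of_le hc0 with h | h
    · exfalso
      rw [← h, mul_zero] at h2
      have hae := (setIntegral_eq_zero_iff_of_nonneg_ae (by
        filter_upwards [ae_restrict_mem hTDm] with t ht
        exact mul_nonneg (hf0 t ht) (Helper75.MEI2.Qf_nonneg _)) i2).1 h2
      have hz : ∫ t in TD, f t = 0 := by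
        refine integral_eq_zero_of_ae ?_
        filter_upwards [hae, ae_restrict_mem hTDm] with t ht1 ht2
        have h4 := Helper75.MEI2.Qf_mv_pos hP hd ht2
        have h5 : f t * Qf (P *ᵥ vt t) = 0 := ht1
        rcases mul_eq_zero.1 h5 with h6 | h6
        · exact h6
        · exact absurd h6 h4.ne'
      linarith
    · exact h
  refine ⟨hc, ?_⟩
  have h3 : ∫ t in TD, f t * ((3 - 2 * Qf (P *ᵥ vt t) / c) / c ^ 2) ≤
      ∫ t in TD, f t / Qf (P *ᵥ vt t) ^ 2 := by
    apply setIntegral_mono_on _ (Helper75.MEI2.fQ_int hP hd hf) hTDm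
    · intro t ht
      have := Helper75.MEI2.weight_tan (Helper75.MEI2.Qf_mv_pos hP hd ht) hc
      calc f t * ((3 - 2 * Qf (P *ᵥ vt t) / c) / c ^ 2)
          ≤ f t * (1 / Qf (P *ᵥ vt t) ^ 2) := mul_le_mul_of_nonneg_left this (hf0 t ht)
        _ = f t / Qf (P *ᵥ vt t) ^ 2 := by ring
    · have : (fun t => f t * ((3 - 2 * Qf (P *ᵥ vt t) / c) / c ^ 2)) =
          fun t => 3 / c ^ 2 * f t - 2 / c / c ^ 2 * (f t * Qf (P *ᵥ vt t)) := by
        funext t
        ring
      rw [this]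
      exact (i1.const_mul _).sub (i2.const_mul _)
  have h4 : ∫ t in TD, f t * ((3 - 2 * Qf (P *ᵥ vt t) / c) / c ^ 2) = F / c ^ 2 := by
    have : (fun t => f t * ((3 - 2 * Qf (P *ᵥ vt t) / c) / c ^ 2)) =
        fun t => 3 / c ^ 2 * f t - 2 / c / c ^ 2 * (f t * Qf (P *ᵥ vt t)) := by
      funext t
      ring
    rw [this, integral_sub (i1.const_mul _) (i2.const_mul _), integral_const_mul,
      integral_const_mul, h1, h2]
    field_simp
    ring
  rw [← h4]
  exact h3

variable {P : Matrix (Fin 3) (Fin 3) ℝ}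

theorem flat_fl (hP : ∀ i j, 0 ≤ P i j) (hd : 0 < P.det) (l : Fin 3) :
    0 < mb P l ∧ 1 / (16 * mb P l ^ 2) ≤ ∫ t in TD, fl l (vt t) / Qf (P *ᵥ vt t) ^ 2 := by
  obtain ⟨h1, h2⟩ := fQ_ge' hP hd (f := fun t => fl l (vt t)) (c := mb P l) (F := 1 / 16)
    ((fl_cont l).comp Helper75.MEI2.vt_cont) (fun t _ => fl_nonneg l _) (by norm_num)
    (total_fl l) (by rw [mean_fl]; ring)
  refine ⟨h1, ?_⟩
  have e : 1 / (16 * mb P l ^ 2) = 1 / 16 / mb P l ^ 2 := by
    rw [div_div]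
  rw [e]
  exact h2

/-- **mass of the side function over the cone of the contact points** -/
theorem cone_fl (hP : ∀ i j, 0 ≤ P i j) (hd : 0 < P.det) (l : Fin 3) :
    P.det / (16 * mb P l ^ 2) ≤ ∫ t in TC P, fl l (mu P (vt t)) / Qf (vt t) ^ 2 := by
  rw [Helper75.MEI2.cone_change hP hd (fl_cont l).measurable (fun v _ => fl_nonneg l v)
    (fun c hc v => fl_smul l hc v)]
  have h := (flat_fl hP hd l).2
  calc P.det / (16 * mb P l ^ 2) = P.det * (1 / (16 * mb P l ^ 2)) := by ring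
    _ ≤ _ := mul_le_mul_of_nonneg_left h hd.le

/-- the load of the arc opposite to `l`: the side function in contact coordinates -/
noncomputable def flP (P : Matrix (Fin 3) (Fin 3) ℝ) (l : Fin 3) (t : ℝ × ℝ) : ℝ :=
  if ∀ k, 0 ≤ mu P (vt t) k then fl l (mu P (vt t)) else 0

theorem flP_nonneg (l : Fin 3) (t : ℝ × ℝ) : 0 ≤ flP P l t := by
  unfold flP
  split_ifs
  · exact fl_nonneg _ _
  · exact le_rfl

theorem flP_zero {t : ℝ × ℝ} (h : ∃ k, mu P (vt t) k < 0) (l : Fin 3) : flP P l t = 0 := by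
  obtain ⟨k, hk⟩ := h
  unfold flP
  rw [if_neg]
  intro h
  exact absurd (h k) (not_le.2 hk)

theorem flP_eq {t : ℝ × ℝ} (h : ∀ k, 0 ≤ mu P (vt t) k) (l : Fin 3) :
    flP P l t = fl l (mu P (vt t)) := by
  unfold flP
  rw [if_pos h]

theorem flP_meas (l : Fin 3) : Measurable (flP P l) := by
  unfold flP
  exact Measurable.ite (Pool.Agent.Helper31.ARC.coneP_meas P)
    ((fl_cont l).comp ((Helper75.MEI2.mu_cont P).comp Helper75.MEI2.vt_cont)).measurable
    measurable_const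

/-- the two loads on a contact coordinate -/
theorem flP_pair {t : ℝ × ℝ} (h : ∀ k, 0 ≤ mu P (vt t) k) :
    flP P 1 t + flP P 2 t ≤ mu P (vt t) 0 ∧ flP P 0 t + flP P 2 t ≤ mu P (vt t) 1 ∧
      flP P 0 t + flP P 1 t ≤ mu P (vt t) 2 := by
  rw [flP_eq h, flP_eq h, flP_eq h]
  exact fl_pair h

/-- **feasibility**: `m l` are the contact coordinates of the arc node `l`; the arcs run on the
share `φ` of the contact coordinates -/
theorem arcs_share {m : Fin 3 → Fin 3 → ℝ} {ρ φ : ℝ} (hρ : 0 < ρ) (hφ : 0 ≤ φ)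
    (hml : ∀ l, m l l ≤ 0) (hmρ : ∀ l k, m l k ≤ ρ) {t : ℝ × ℝ}
    (h : ∀ k, 0 ≤ mu P (vt t) k) (k : Fin 3) :
    φ * flP P 0 t / ρ * m 0 k + φ * flP P 1 t / ρ * m 1 k + φ * flP P 2 t / ρ * m 2 k ≤
      φ * mu P (vt t) k := by
  have key : ∀ l k, φ * flP P l t / ρ * m l k ≤ φ * flP P l t := by
    intro l k
    have h0 := mul_nonneg hφ (flP_nonneg (P := P) l t)
    calc φ * flP P l t / ρ * m l k ≤ φ * flP P l t / ρ * ρ :=
          mul_le_mul_of_nonneg_left (hmρ l k) (div_nonneg h0 hρ.le)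
      _ = φ * flP P l t := div_mul_cancel₀ _ hρ.ne'
  have key0 : ∀ l, φ * flP P l t / ρ * m l l ≤ 0 := fun l =>
    mul_nonpos_of_nonneg_of_nonpos
      (div_nonneg (mul_nonneg hφ (flP_nonneg (P := P) l t)) hρ.le) (hml l)
  obtain ⟨p0, p1, p2⟩ := flP_pair h
  have q0 := mul_le_mul_of_nonneg_left p0 hφ
  have q1 := mul_le_mul_of_nonneg_left p1 hφ
  have q2 := mul_le_mul_of_nonneg_left p2 hφ
  rw [mul_add] at q0 q1 q2
  fin_cases k
  · simp only [Fin.zero_eta]
    have h1 := key 1 0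
    have h2 := key 2 0
    have h3 := key0 0
    linarith
  · simp only [Fin.mk_one]
    have h1 := key 0 1
    have h2 := key 2 1
    have h3 := key0 1
    linarith
  · simp only [Fin.reduceFinMk]
    have h1 := key 0 2
    have h2 := key 1 2
    have h3 := key0 2
    linarith

theorem flP_le (l : Fin 3) {t : ℝ × ℝ} (h : ∀ k, 0 ≤ mu P (vt t) k) :
    flP P l t ≤ mu P (vt t) (l + 1) ∧ flP P l t ≤ mu P (vt t) (l + 2) := by
  rw [flP_eq h]
  exact ⟨fl_le1 l (h _), fl_le2 l (h _)⟩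

theorem flP_int (l : Fin 3) : IntegrableOn (fun t => flP P l t / mm t ^ 2) Sim := by
  obtain ⟨C, hC0, hC⟩ := Pool.Agent.Helper31.ARC.muP_bd P
  refine intOn (C := C) (flP_meas l) fun t ht => ?_
  rw [abs_of_nonneg (flP_nonneg l t)]
  by_cases h : ∀ k, 0 ≤ mu P (vt t) k
  · exact (flP_le l h).1.trans ((le_abs_self _).trans (hC t ht _))
  · push Not at h
    rw [flP_zero h]
    exact hC0

/-- **mass of the load of an arc** -/
theorem flP_mass (hP : ∀ i j, 0 ≤ P i j) (hd : 0 < P.det) (l : Fin 3) :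
    1 / √2 * (P.det / (16 * mb P l ^ 2)) ≤ Id (flP P l) := by
  have h1 := cone_fl hP hd l
  have hsub : TC P ⊆ Sim := Helper75.MEI2.TC_sub P
  have h2 : ∫ t in TC P, fl l (mu P (vt t)) / Qf (vt t) ^ 2 ≤ ∫ t in Sim, flP P l t / mm t ^ 2 := by
    have eQ : ∀ t : ℝ × ℝ, Qf (vt t) = mm t := by
      intro t
      simp only [Qf, vt, mm, e2, t3, Matrix.cons_val_zero, Matrix.cons_val_one, Matrix.cons_val]
      ring
    have e : ∫ t in TC P, fl l (mu P (vt t)) / Qf (vt t) ^ 2 =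
        ∫ t in TC P, flP P l t / mm t ^ 2 := by
      refine setIntegral_congr_fun (Helper75.MEI2.TC_meas _) fun t ht => ?_
      show fl l (mu P (vt t)) / Qf (vt t) ^ 2 = flP P l t / mm t ^ 2
      rw [flP_eq ht.2, ← eQ]
    rw [e]
    apply setIntegral_mono_set (flP_int l)
    · filter_upwards with t
      exact div_nonneg (flP_nonneg l t) (by positivity)
    · exact hsub.eventuallyLE
  unfold Pool.Agent.Helper55.Mass.Id
  exact mul_le_mul_of_nonneg_left (h1.trans h2) (by positivity)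

/-- the same bound with an upper bound of the mean -/
theorem flP_mass_le (hP : ∀ i j, 0 ≤ P i j) (hd : 0 < P.det) (l : Fin 3) {C : ℝ}
    (hC : mb P l ≤ C) : 1 / √2 * (P.det / (16 * C ^ 2)) ≤ Id (flP P l) := by
  have h0 := (flat_fl hP hd l).1
  refine le_trans ?_ (flP_mass hP hd l)
  refine mul_le_mul_of_nonneg_left ?_ (by positivity)
  apply div_le_div_of_nonneg_left hd.le (by positivity)
  have := pow_le_pow_left₀ h0.le hC 2
  linarith

end Pool.Agent.Helper73.MEI.SideP
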