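import Pool.Agent.Helper73.MEI.Star
import Pool.Agent.Helper37.FX.Exists

/-!
# MEI M2: the pair measure of a smooth body has the properties `PM`
-/

set_option autoImplicit false

namespace Pool.Agent.Helper73.MEI

open MeasureTheory Helper80.CW Helper37.FX

theorem pm_exists {f : E3 → ℝ} (h : SSup f 1) (hp : ∀ x, x ≠ 0 → 0 < f x) :
    ∃ σ : Measure (E3 × E3), IsFiniteMeasure σ ∧ PM (Bd f) σ := by
  obtain ⟨σ, h1, h2, h3, _, h5⟩ := sigma_exists h hp
  exact ⟨σ, h1, ⟨Bd_compact h, h2, h3, h5⟩⟩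

end Pool.Agent.Helper73.MEI
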